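import Pool.Agent.H76.SU.LOG
import Pool.Agent.H56.TH.Defs

/-!
# ROB (MP_8f2e1c), length calculus: logarithms and square roots on full domains

`log_full`: on an open preconnected full set `W` which does not contain `v` there is a holomorphic logarithm of `w - v`;
`sqrt_full`: a holomorphic square root. `log_uniq`, `sqrt_uniq`: uniqueness on preconnected sets.
PROOF. For a compact `A ⊆ W` the point `v` is not in the hull of `A` (`hul_comp`: a bounded component of `Aᶜ` has its frontier in `A ⊆ W`, so it is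
contained in `W`); `log_ex` gives a continuous logarithm on `A`. Compact preconnected sets containing a base point exhaust `W`; by uniqueness the
logarithms fit together.
-/

set_option autoImplicit false

open Filter Topology Metric Set MeasureTheory
open scoped MeasureTheory

namespace Pool.Agent.H81.RW

open Pool.Agent.H56.TH

/-- two continuous logarithms on a preconnected set which agree at a point are equal -/
theorem log_uniq {A : Set ℂ} (hA : IsPreconnected A) {l l' : ℂ → ℂ} (hl : ContinuousOn l A)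
    (hl' : ContinuousOn l' A) (he : ∀ w ∈ A, Complex.exp (l w) = Complex.exp (l' w)) {x : ℂ} (hx : x ∈ A)
    (hxx : l x = l' x) : ∀ w ∈ A, l w = l' w := by
  have h1 : ∀ w ∈ A, ∃ n : ℤ, l w - l' w = n * (2 * Real.pi * Complex.I) := by
    intro w hw
    obtain ⟨n, hn⟩ := Complex.exp_eq_exp_iff_exists_int.1 (he w hw)
    exact ⟨n, by rw [hn]; ring⟩
  have h2 : IsPreconnected ((fun w => (l w - l' w) / (2 * Real.pi * Complex.I)) '' A) :=
    hA.image _ ((hl.sub hl').div_const _)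
  have h3 : (fun w => (l w - l' w) / (2 * Real.pi * Complex.I)) '' A ⊆ Set.range (fun n : ℤ => (n : ℂ)) := by
    rintro _ ⟨w, hw, rfl⟩
    obtain ⟨n, hn⟩ := h1 w hw
    refine ⟨n, ?_⟩
    show (n : ℂ) = (l w - l' w) / (2 * Real.pi * Complex.I)
    rw [hn]
    field_simp [Complex.two_pi_I_ne_zero]
  have h4 : ((fun w => (l w - l' w) / (2 * Real.pi * Complex.I)) '' A).Subsingleton := by
    have h5 : IsPreconnected ((fun z : ℂ => z.re) '' ((fun w => (l w - l' w) / (2 * Real.pi * Complex.I)) '' A)) :=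
      h2.image _ Complex.continuous_re.continuousOn
    intro a ha b hb
    obtain ⟨m, hm⟩ := h3 ha
    obtain ⟨n, hn⟩ := h3 hb
    by_contra hne
    have hmn : m ≠ n := by
      rintro rfl
      exact hne (hm.symm.trans hn)
    -- a value strictly between two different integers
    wlog hlt : m < n generalizing a b m n with H
    · exact H hb ha n hn m hm (fun h => hne h.symm) (fun h => hmn h.symm)
        (lt_of_le_of_ne (not_lt.1 hlt) (fun h => hmn h.symm))
    have ha' : (m : ℝ) ∈ (fun z : ℂ => z.re) '' ((fun w => (l w - l' w) / (2 * Real.pi * Complex.I)) '' A) :=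
      ⟨a, ha, by rw [← hm]; simp⟩
    have hb' : (n : ℝ) ∈ (fun z : ℂ => z.re) '' ((fun w => (l w - l' w) / (2 * Real.pi * Complex.I)) '' A) :=
      ⟨b, hb, by rw [← hn]; simp⟩
    have h6 := h5.ordConnected.out ha' hb'
    have h7 : (m : ℝ) + 1 / 2 ∈ Set.Icc (m : ℝ) n := by
      have : (m : ℝ) + 1 ≤ n := by exact_mod_cast hlt
      constructor <;> linarith
    obtain ⟨c, hc, hcc⟩ := h6 h7
    obtain ⟨k, hk⟩ := h3 hc
    have h8 : (k : ℝ) = (m : ℝ) + 1 / 2 := by
      have h9 : c.re = (k : ℝ) := by rw [← hk]; simp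
      rw [← h9]
      exact hcc
    have h10 : (2 * k : ℝ) = 2 * m + 1 := by linarith
    have h11 : (2 * k : ℤ) = 2 * m + 1 := by exact_mod_cast h10
    omega
  intro w hw
  have h5 := h4 ⟨w, hw, rfl⟩ ⟨x, hx, rfl⟩
  simp only [hxx, sub_self, zero_div, div_eq_zero_iff, Complex.two_pi_I_ne_zero, or_false] at h5
  exact sub_eq_zero.1 h5

/-- a point off the full set `W` is not in the hull of a compact subset -/
theorem not_hull {W A : Set ℂ} (hf : Full W) (hA : IsCompact A) (hAW : A ⊆ W) {v : ℂ} (hv : v ∉ W) :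
    v ∉ Pool.Agent.H76.SU.hull A := by
  intro h
  obtain ⟨O, -, h1, -, h3, h4, -, -, h7, -⟩ :=
    Pool.Agent.H76.SU.hul_comp hA.isClosed h (fun h' => hv (hAW h'))
  exact hv (hf O h1 h4 (h7.trans hAW) h3)

theorem log_full {W : Set ℂ} (hW : IsOpen W) (hc : IsPreconnected W) (hf : Full W) {v : ℂ} (hv : v ∉ W) :
    ∃ l : ℂ → ℂ, DifferentiableOn ℂ l W ∧ ∀ w ∈ W, Complex.exp (l w) = w - v := by
  classical
  rcases W.eq_empty_or_nonempty with rfl | ⟨w₀, hw₀⟩
  · exact ⟨fun _ => 0, differentiableOn_empty, fun w hw => hw.elim⟩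
  have hpc : IsPathConnected W := (hW.isConnected_iff_isPathConnected).1 ⟨⟨w₀, hw₀⟩, hc⟩
  -- compact preconnected sets
  have hex : ∀ w : W, ∃ (A : Set ℂ) (r : ℝ), IsCompact A ∧ IsPreconnected A ∧ w₀ ∈ A ∧ A ⊆ W ∧ 0 < r ∧
      ball (w : ℂ) r ⊆ A := by
    rintro ⟨w, hw⟩
    obtain ⟨γ, hγ⟩ := hpc.joinedIn w₀ hw₀ w hw
    obtain ⟨ε, hε, hb⟩ := Metric.isOpen_iff.1 hW w hw
    refine ⟨Set.range γ ∪ closedBall w (ε / 2), ε / 2, ?_, ?_, ?_, ?_, by linarith, ?_⟩
    · exact (isCompact_range γ.continuous).union (isCompact_closedBall _ _)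
    · refine IsPreconnected.union w ⟨1, γ.target⟩ (mem_closedBall_self (by linarith)) ?_ ?_
      · exact isPreconnected_range γ.continuous
      · exact (convex_closedBall w (ε / 2)).isPreconnected
    · exact Or.inl ⟨0, γ.source⟩
    · rintro x (⟨t, rfl⟩ | hx)
      · exact hγ t
      · exact hb (closedBall_subset_ball (by linarith) hx)
    · exact ball_subset_closedBall.trans Set.subset_union_right
  choose A r hAc hAp hA0 hAW hr hbA using hex
  have hne : w₀ - v ≠ 0 := fun h => hv (by rw [← sub_eq_zero.1 h]; exact hw₀)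
  -- normalised logarithms
  have hlog : ∀ B : Set ℂ, IsCompact B → B ⊆ W → w₀ ∈ B → ∃ l : ℂ → ℂ, ContinuousOn l B ∧
      (∀ w ∈ B, Complex.exp (l w) = w - v) ∧ l w₀ = Complex.log (w₀ - v) := by
    intro B hB hBW hB0
    obtain ⟨l, h1, h2⟩ := Pool.Agent.H76.SU.log_ex hB (not_hull hf hB hBW hv)
    refine ⟨fun w => l w + (Complex.log (w₀ - v) - l w₀), h1.add continuousOn_const, ?_, by ring⟩
    intro w hw
    rw [Complex.exp_add, Complex.exp_sub, h2 w hw, h2 w₀ hB0, Complex.exp_log hne, div_self hne, mul_one]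
  have hl : ∀ w : W, ∃ l : ℂ → ℂ, ContinuousOn l (A w) ∧
      (∀ u ∈ A w, Complex.exp (l u) = u - v) ∧ l w₀ = Complex.log (w₀ - v) := fun w =>
    hlog (A w) (hAc w) (hAW w) (hA0 w)
  choose l hl1 hl2 hl3 using hl
  have hcomp : ∀ w w' : W, ∀ u ∈ A w, u ∈ A w' → l w u = l w' u := by
    intro w w' u hu hu'
    obtain ⟨L, h1, h2, h3⟩ := hlog (A w ∪ A w') ((hAc w).union (hAc w'))
      (Set.union_subset (hAW w) (hAW w')) (Or.inl (hA0 w))
    have h4 : ∀ x ∈ A w, l w x = L x := log_uniq (hAp w) (hl1 w) (h1.mono Set.subset_union_left)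
      (fun x hx => by rw [hl2 w x hx, h2 x (Or.inl hx)]) (hA0 w) (by rw [hl3, h3])
    have h5 : ∀ x ∈ A w', l w' x = L x := log_uniq (hAp w') (hl1 w') (h1.mono Set.subset_union_right)
      (fun x hx => by rw [hl2 w' x hx, h2 x (Or.inr hx)]) (hA0 w') (by rw [hl3, h3])
    rw [h4 u hu, h5 u hu']
  let F : ℂ → ℂ := fun w => if h : w ∈ W then l ⟨w, h⟩ w else 0
  have hF : ∀ (w : W), ∀ u ∈ ball (w : ℂ) (r w), F u = l w u := by
    intro w u hu
    have huA : u ∈ A w := hbA w hu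
    have huW : u ∈ W := hAW w huA
    show (if h : u ∈ W then l ⟨u, h⟩ u else 0) = l w u
    rw [dif_pos huW]
    exact hcomp ⟨u, huW⟩ w u (hbA ⟨u, huW⟩ (mem_ball_self (hr _))) huA
  have hFe : ∀ w ∈ W, Complex.exp (F w) = w - v := by
    intro w hw
    rw [hF ⟨w, hw⟩ w (mem_ball_self (hr _))]
    exact hl2 ⟨w, hw⟩ w (hbA ⟨w, hw⟩ (mem_ball_self (hr _)))
  have hFc : ∀ w ∈ W, ContinuousAt F w := by
    intro w hw
    have h1 : ContinuousAt (l ⟨w, hw⟩) w :=
      ((hl1 ⟨w, hw⟩).mono (hbA ⟨w, hw⟩)).continuousAt (ball_mem_nhds w (hr ⟨w, hw⟩))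
    refine h1.congr ?_
    filter_upwards [ball_mem_nhds w (hr ⟨w, hw⟩)] with u hu
    exact (hF ⟨w, hw⟩ u hu).symm
  refine ⟨F, fun w hw => ?_, hFe⟩
  have h1 : HasDerivAt (fun z => Complex.exp z + v) (Complex.exp (F w)) (F w) :=
    (Complex.hasDerivAt_exp (F w)).add_const v
  have h2 : HasDerivAt F (Complex.exp (F w))⁻¹ w := by
    refine HasDerivAt.of_local_left_inverse (hFc w hw) h1 (Complex.exp_ne_zero _) ?_
    filter_upwards [hW.mem_nhds hw] with u hu
    rw [hFe u hu]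
    ring
  exact h2.differentiableAt.differentiableWithinAt

theorem sqrt_full {W : Set ℂ} (hW : IsOpen W) (hc : IsPreconnected W) (hf : Full W) {v : ℂ} (hv : v ∉ W) :
    ∃ s : ℂ → ℂ, DifferentiableOn ℂ s W ∧ ∀ w ∈ W, s w ^ 2 = w - v ∧ s w ≠ 0 := by
  obtain ⟨l, h1, h2⟩ := log_full hW hc hf hv
  refine ⟨fun w => Complex.exp (l w / 2), (h1.div_const 2).cexp, fun w hw => ⟨?_, Complex.exp_ne_zero _⟩⟩
  show Complex.exp (l w / 2) ^ 2 = w - v
  rw [← Complex.exp_nat_mul, ← h2 w hw]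
  congr 1
  push_cast
  ring

/-- a square root which takes a given value -/
theorem sqrt_full_at {W : Set ℂ} (hW : IsOpen W) (hc : IsPreconnected W) (hf : Full W) {v : ℂ} (hv : v ∉ W)
    {w₀ s₀ : ℂ} (hw₀ : w₀ ∈ W) (hs₀ : s₀ ^ 2 = w₀ - v) :
    ∃ s : ℂ → ℂ, DifferentiableOn ℂ s W ∧ s w₀ = s₀ ∧ ∀ w ∈ W, s w ^ 2 = w - v ∧ s w ≠ 0 := by
  obtain ⟨s, h1, h2⟩ := sqrt_full hW hc hf hv
  have h3 : s w₀ ^ 2 = s₀ ^ 2 := by rw [(h2 w₀ hw₀).1, hs₀]
  rcases sq_eq_sq_iff_eq_or_eq_neg.1 h3 with h | h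
  · exact ⟨s, h1, h, h2⟩
  · refine ⟨fun w => - s w, h1.neg, ?_, fun w hw => ⟨?_, neg_ne_zero.2 (h2 w hw).2⟩⟩
    · show - s w₀ = s₀
      rw [h, neg_neg]
    · show (- s w) ^ 2 = w - v
      rw [neg_sq]
      exact (h2 w hw).1

/-- a continuous square root on a preconnected set is determined by one value -/
theorem sqrt_uniq {A : Set ℂ} (hA : IsPreconnected A) {s s' : ℂ → ℂ} (hs : ContinuousOn s A)
    (hs' : ContinuousOn s' A) (he : ∀ w ∈ A, s w ^ 2 = s' w ^ 2) (h0 : ∀ w ∈ A, s' w ≠ 0) {x : ℂ} (hx : x ∈ A)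
    (hxx : s x = s' x) : ∀ w ∈ A, s w = s' w := by
  have h1 : ∀ w ∈ A, s w / s' w = 1 ∨ s w / s' w = -1 := by
    intro w hw
    have h2 : (s w / s' w) ^ 2 = 1 := by
      rw [div_pow, he w hw, div_self (pow_ne_zero 2 (h0 w hw))]
    have h3 : (s w / s' w - 1) * (s w / s' w + 1) = 0 := by
      linear_combination h2
    rcases mul_eq_zero.1 h3 with h4 | h4
    · exact Or.inl (sub_eq_zero.1 h4)
    · exact Or.inr (eq_neg_of_add_eq_zero_left h4)
  have h3 : IsPreconnected ((fun w => s w / s' w) '' A) := hA.image _ (hs.div hs' h0)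
  have h4 : (fun w => s w / s' w) '' A ⊆ ball 1 1 ∪ ball (-1) 1 := by
    rintro _ ⟨w, hw, rfl⟩
    rcases h1 w hw with h | h
    · left
      show s w / s' w ∈ ball (1 : ℂ) 1
      rw [h]
      exact mem_ball_self one_pos
    · right
      show s w / s' w ∈ ball (-1 : ℂ) 1
      rw [h]
      exact mem_ball_self one_pos
  have h5 : (fun w => s w / s' w) '' A ⊆ ball 1 1 := by
    refine h3.subset_left_of_subset_union isOpen_ball isOpen_ball ?_ h4 ?_
    · rw [Set.disjoint_left]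
      intro z hz1 hz2
      rw [mem_ball, dist_eq_norm] at hz1 hz2
      have h6 : ‖(2 : ℂ)‖ ≤ ‖z - 1‖ + ‖z - -1‖ := by
        calc ‖(2 : ℂ)‖ = ‖(z - -1) - (z - 1)‖ := by ring_nf
          _ ≤ ‖z - -1‖ + ‖z - 1‖ := norm_sub_le _ _
          _ = _ := add_comm _ _
      norm_num at h6
      norm_num at hz2
      linarith
    · refine ⟨s x / s' x, ⟨x, hx, rfl⟩, ?_⟩
      rw [hxx, div_self (h0 x hx)]
      exact mem_ball_self one_pos
  intro w hw
  rcases h1 w hw with h | h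
  · exact (div_eq_one_iff_eq (h0 w hw)).1 h
  · exfalso
    have h6 := h5 ⟨w, hw, rfl⟩
    have h7 : s w / s' w ∈ ball (1 : ℂ) 1 := h6
    rw [h, mem_ball, dist_eq_norm] at h7
    norm_num at h7

end Pool.Agent.H81.RW
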