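import Pool.Agent.H81.RW.Df
import Pool.Agent.H81.RW.Lgf

/-!
# Module Nlg: no logarithm on the frontier of a bounded open set; injective images of discs are full

`disc_log`: a nonvanishing holomorphic function on a disc has a holomorphic logarithm (library: search for a primitive of `h' / h` on a ball, `DifferentiableOn.isExactOn_ball` / `exists_log`; many copies).
`cont_log`: a nonvanishing continuous function on the plane has a continuous logarithm (`Complex.exp` is a covering of `{z ≠ 0}`, the plane is simply connected: `IsCoveringMapOn.existsUnique_continuousMap_lifts` as in H32/BT/Branch or H76/SU/LFT; or: on compact discs of the plane by small steps `r (t x) / r (s x)` close to `1`).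
`no_log`: suppose `exp (L y) = y - p` on `A = frontier O`, `L` continuous on `A`. `A` is compact: extend `L` to a continuous `L'` on the plane (Tietze: `ContinuousMap.exists_restrict_eq` / `exists_extension`, real and imaginary parts). `r = exp ∘ L'` on `closure O`, `r = y - p` on `Oᶜ`
(`Continuous.if_le`-like: `ContinuousOn.union_of_isClosed` / `IsClosed` cover): continuous, never `0` (`p ∈ O`). Let `l` be a continuous logarithm of `r` (`cont_log`) and `R` large: `r y = y - p` on the circle `y = p + R exp (i θ)`. `θ ↦ l (p + R exp (i θ)) - i θ` is continuous with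
`exp = R`, so constant (values in a discrete set; `log_uniq` on `univ`/`Icc`), but its values at `0` and `2 π` differ by `2 π i`.
`img_full`: let `O` be open, bounded, `frontier O ⊆ g '' V`, `A = frontier O`. First `O ⊆ g '' ball y r`: otherwise `p ∈ O`, `p ∉ g '' ball y r`: `g - p` has a logarithm `l` on the ball (`disc_log`), `l ∘ g⁻¹` is a continuous logarithm of `x - p` on `A` (`g⁻¹` is continuous on `g '' ball`: open mapping): `no_log`. Then `O' = ball y r ∩ g ⁻¹' O` is open, bounded,
`frontier O' ⊆ V` (`closure O = O ∪ A ⊆ g '' ball`, compact, its preimage is compact in the ball), so `O' ⊆ V`.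
`bh_ball`: `W = g '' D`; `W ∩ f ⁻¹' V = g '' V` and `img_full`; `g` is injective (`f (g u) = u`), open.
-/

set_option autoImplicit false

open Filter Topology Metric Set MeasureTheory

namespace Pool.Agent.H81.RW

open Pool.Agent.H56.TH

theorem disc_log {h : ℂ → ℂ} {y : ℂ} {r : ℝ} (hd : DifferentiableOn ℂ h (ball y r)) (h0 : ∀ x ∈ ball y r, h x ≠ 0) :
    ∃ l : ℂ → ℂ, DifferentiableOn ℂ l (ball y r) ∧ ∀ x ∈ ball y r, Complex.exp (l x) = h x := by
  rcases le_or_gt r 0 with hr | hr
  · rw [ball_eq_empty.2 hr]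
    exact ⟨fun _ => 0, differentiableOn_empty, fun x hx => hx.elim⟩
  have hd' : DifferentiableOn ℂ (fun z => deriv h z / h z) (ball y r) :=
    (hd.deriv isOpen_ball).div hd h0
  obtain ⟨g, hg⟩ := hd'.isExactOn_ball
  have hg' : ∀ z ∈ ball y r, HasDerivAt g (deriv h z / h z) z := hg
  have hfd : ∀ z ∈ ball y r, HasDerivAt h (deriv h z) z := fun z hz =>
    ((hd z hz).differentiableAt (isOpen_ball.mem_nhds hz)).hasDerivAt
  have hc : y ∈ ball y r := mem_ball_self hr
  have hconst : ∀ z ∈ ball y r, h z * Complex.exp (-g z) = h y * Complex.exp (-g y) := by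
    have hder : ∀ z ∈ ball y r, HasDerivAt (fun z => h z * Complex.exp (-g z)) 0 z := by
      intro z hz
      have h1 := (hfd z hz).mul (hg' z hz).neg.cexp
      have h3 := h0 z hz
      have h2 : deriv h z * Complex.exp ((-g) z) + h z * (Complex.exp ((-g) z) * -(deriv h z / h z)) = 0 := by
        field_simp
        ring
      rw [h2] at h1
      exact h1
    intro z hz
    exact isOpen_ball.is_const_of_deriv_eq_zero (convex_ball y r).isPreconnected
      (fun w hw => (hder w hw).differentiableAt.differentiableWithinAt)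
      (fun w hw => (hder w hw).deriv) hz hc
  have hC : h y * Complex.exp (-g y) ≠ 0 := mul_ne_zero (h0 y hc) (Complex.exp_ne_zero _)
  refine ⟨fun z => g z + Complex.log (h y * Complex.exp (-g y)), ?_, fun z hz => ?_⟩
  · exact DifferentiableOn.add_const _ (fun z hz =>
      (hg' z hz).differentiableAt.differentiableWithinAt)
  · rw [Complex.exp_add, Complex.exp_log hC, ← hconst z hz, mul_comm (h z), ← mul_assoc, ← Complex.exp_add,
      add_neg_cancel, Complex.exp_zero, one_mul]

theorem cont_log {r : ℂ → ℂ} (hr : Continuous r) (h0 : ∀ x, r x ≠ 0) :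
    ∃ l : ℂ → ℂ, Continuous l ∧ ∀ x, Complex.exp (l x) = r x := by
  obtain ⟨L, ⟨_, hL⟩, _⟩ := Complex.isCoveringMapOn_exp.existsUnique_continuousMap_lifts
    (⟨r, hr⟩ : C(ℂ, ℂ)) (a₀ := (0 : ℂ)) (e₀ := Complex.log (r 0))
    (by simpa using Complex.exp_log (h0 0)) (fun a => by simpa using h0 a)
  refine ⟨L, L.continuous, fun z => ?_⟩
  have := congrFun hL z
  simpa using this

/-- a logarithm of `w - p` on a circle does not exist -/
private theorem no_circle {p : ℂ} {R : ℝ} (hR : 0 < R) {r l : ℂ → ℂ} (hl : Continuous l)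
    (he : ∀ x, Complex.exp (l x) = r x) (hr : ∀ x, ‖x - p‖ = R → r x = x - p) : False := by
  have hpt : ∀ θ : ℝ, ‖(p + R * Complex.exp (θ * Complex.I)) - p‖ = R := by
    intro θ
    rw [add_sub_cancel_left, norm_mul, Complex.norm_exp_ofReal_mul_I, mul_one, Complex.norm_real,
      Real.norm_of_nonneg hR.le]
  have hA : IsPreconnected (Set.range (fun x : ℝ => (x : ℂ))) := isPreconnected_range Complex.continuous_ofReal
  have h1 : ContinuousOn (fun θ : ℂ => l (p + R * Complex.exp (θ * Complex.I)))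
      (Set.range (fun x : ℝ => (x : ℂ))) := by
    apply Continuous.continuousOn
    apply hl.comp
    fun_prop
  have h2 : ContinuousOn (fun θ : ℂ => θ * Complex.I + l (p + R)) (Set.range (fun x : ℝ => (x : ℂ))) := by
    apply Continuous.continuousOn
    fun_prop
  have h3 : ∀ θ ∈ Set.range (fun x : ℝ => (x : ℂ)), Complex.exp (l (p + R * Complex.exp (θ * Complex.I))) =
      Complex.exp (θ * Complex.I + l (p + R)) := by
    rintro _ ⟨θ, rfl⟩
    have h4 := hpt 0
    rw [Complex.ofReal_zero, zero_mul, Complex.exp_zero, mul_one] at h4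
    rw [Complex.exp_add, he, he, hr _ (hpt θ), hr _ h4]
    ring
  have h0 : (0 : ℂ) ∈ Set.range (fun x : ℝ => (x : ℂ)) := ⟨0, Complex.ofReal_zero⟩
  have h5 := log_uniq hA h1 h2 h3 h0 (by
    show l (p + R * Complex.exp (0 * Complex.I)) = 0 * Complex.I + l (p + R)
    rw [zero_mul, Complex.exp_zero, mul_one, zero_add])
  have h6 := h5 ((2 * Real.pi : ℝ) : ℂ) ⟨2 * Real.pi, rfl⟩
  have h7 : l (p + R) = ((2 * Real.pi : ℝ) : ℂ) * Complex.I + l (p + R) := by
    have h8 : Complex.exp (((2 * Real.pi : ℝ) : ℂ) * Complex.I) = 1 := by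
      push_cast
      exact Complex.exp_two_pi_mul_I
    have h9 : l (p + R * Complex.exp (((2 * Real.pi : ℝ) : ℂ) * Complex.I)) =
      ((2 * Real.pi : ℝ) : ℂ) * Complex.I + l (p + R) := h6
    rw [h8, mul_one] at h9
    exact h9
  have h8 : ((2 * Real.pi : ℝ) : ℂ) * Complex.I = 0 := by
    linear_combination -h7
  rcases mul_eq_zero.1 h8 with h | h
  · have h9 : (2 * Real.pi : ℝ) = 0 := by exact_mod_cast h
    have := Real.pi_pos
    linarith
  · exact Complex.I_ne_zero h

theorem no_log {O : Set ℂ} (hO : IsOpen O) (hb : Bornology.IsBounded O) {p : ℂ} (hp : p ∈ O) {L : ℂ → ℂ}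
    (hL : ContinuousOn L (frontier O)) (he : ∀ y ∈ frontier O, Complex.exp (L y) = y - p) : False := by
  classical
  obtain ⟨L', hL'⟩ := ContinuousMap.exists_restrict_eq (isClosed_frontier (s := O))
    (⟨(frontier O).domRestrict L, hL.domRestrict⟩ : C(frontier O, ℂ))
  have hLL : ∀ y ∈ frontier O, L' y = L y := by
    intro y hy
    have h1 := congrArg (fun F : C(frontier O, ℂ) => F ⟨y, hy⟩) hL'
    exact h1
  have hr : Continuous (fun y : ℂ => if y ∈ O then Complex.exp (L' y) else y - p) := by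
    refine Continuous.if (p := fun y => y ∈ O) ?_ (Complex.continuous_exp.comp L'.continuous) (by fun_prop)
    intro y hy
    have hy' : y ∈ frontier O := hy
    rw [hLL y hy', he y hy']
  have h0 : ∀ y : ℂ, (if y ∈ O then Complex.exp (L' y) else y - p) ≠ 0 := by
    intro y
    split_ifs with h
    · exact Complex.exp_ne_zero _
    · intro h1
      rw [sub_eq_zero.1 h1] at h
      exact h hp
  obtain ⟨l, hl, hle⟩ := cont_log hr h0
  obtain ⟨R, hR⟩ := hb.subset_ball p
  refine no_circle (p := p) (R := max R 1) (lt_of_lt_of_le one_pos (le_max_right _ _)) hl hle ?_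
  intro x hx
  rw [if_neg]
  intro h
  have h1 := hR h
  rw [mem_ball, dist_eq_norm, hx] at h1
  exact absurd h1 (not_lt.2 (le_max_left _ _))

/-- injective holomorphic functions on a disc are open -/
private theorem inj_open {g : ℂ → ℂ} {y : ℂ} {r : ℝ} (hg : DifferentiableOn ℂ g (ball y r)) (hi : InjOn g (ball y r))
    {D : Set ℂ} (hD : IsOpen D) (hDb : D ⊆ ball y r) : IsOpen (g '' D) := by
  rcases D.eq_empty_or_nonempty with rfl | ⟨x, hx⟩
  · rw [image_empty]
    exact isOpen_empty
  rcases (hg.analyticOnNhd isOpen_ball).is_constant_or_isOpen (convex_ball y r).isPreconnected with h | h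
  · exfalso
    obtain ⟨w, hw⟩ := h
    have hxb := hDb hx
    have hr : 0 < r := pos_of_mem_ball hxb
    have h1 : y ∈ ball y r := mem_ball_self hr
    have h2 : y + (r / 2 : ℝ) ∈ ball y r := by
      rw [mem_ball, dist_eq_norm, add_sub_cancel_left, Complex.norm_real, Real.norm_of_nonneg (by linarith)]
      linarith
    have h3 := hi h1 h2 (by rw [hw y h1, hw _ h2])
    have h4 : ((r / 2 : ℝ) : ℂ) = 0 := by linear_combination -h3
    have h5 : r / 2 = 0 := by exact_mod_cast h4
    linarith
  · exact h D hDb hD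

/-- the inverse of an injective holomorphic function on a disc is continuous -/
private theorem inv_cont {g : ℂ → ℂ} {y : ℂ} {r : ℝ} (hg : DifferentiableOn ℂ g (ball y r)) (hi : InjOn g (ball y r)) :
    ∃ h : ℂ → ℂ, ContinuousOn h (g '' ball y r) ∧ ∀ x ∈ ball y r, h (g x) = x := by
  have hh : ∀ x ∈ ball y r, Function.invFunOn g (ball y r) (g x) = x := fun x hx => hi.leftInvOn_invFunOn hx
  refine ⟨Function.invFunOn g (ball y r), ?_, hh⟩
  rw [continuousOn_open_iff (inj_open hg hi isOpen_ball subset_rfl)]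
  intro T hT
  have h1 : g '' ball y r ∩ Function.invFunOn g (ball y r) ⁻¹' T = g '' (ball y r ∩ T) := by
    ext w
    constructor
    · rintro ⟨⟨x, hx, rfl⟩, hw⟩
      have hw' : Function.invFunOn g (ball y r) (g x) ∈ T := hw
      rw [hh x hx] at hw'
      exact ⟨x, ⟨hx, hw'⟩, rfl⟩
    · rintro ⟨x, ⟨hx, hxT⟩, rfl⟩
      refine ⟨⟨x, hx, rfl⟩, ?_⟩
      show Function.invFunOn g (ball y r) (g x) ∈ T
      rw [hh x hx]
      exact hxT
  rw [h1]
  exact inj_open hg hi (isOpen_ball.inter hT) inter_subset_left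

theorem img_full {g : ℂ → ℂ} {y : ℂ} {r : ℝ} (hg : DifferentiableOn ℂ g (ball y r)) (hi : InjOn g (ball y r))
    {V : Set ℂ} (hV : V ⊆ ball y r) (hf : Full V) : Full (g '' V) := by
  intro O hO hOb hOf
  obtain ⟨h, hc, hh⟩ := inv_cont hg hi
  have hAb : frontier O ⊆ g '' ball y r := hOf.trans (image_mono hV)
  have h1 : O ⊆ g '' ball y r := by
    intro p hp
    by_contra hpb
    obtain ⟨l, hl, hle⟩ := disc_log (h := fun x => g x - p) (hg.sub_const p) (fun x hx h0 =>
      hpb ⟨x, hx, sub_eq_zero.1 h0⟩)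
    refine no_log hO hOb hp (L := fun w => l (h w)) ?_ ?_
    · refine hl.continuousOn.comp (hc.mono hAb) ?_
      intro w hw
      obtain ⟨x, hx, rfl⟩ := hAb hw
      rw [hh x hx]
      exact hx
    · intro w hw
      obtain ⟨x, hx, rfl⟩ := hAb hw
      rw [hh x hx]
      exact hle x hx
  have hcl : closure O ⊆ g '' ball y r := by
    rw [closure_eq_self_union_frontier]
    exact union_subset h1 hAb
  have hK : IsCompact (h '' closure O) :=
    (Metric.isCompact_of_isClosed_isBounded isClosed_closure hOb.closure).image_of_continuousOn (hc.mono hcl)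
  have hKb : ∀ x ∈ h '' closure O, x ∈ ball y r ∧ g x ∈ closure O := by
    rintro _ ⟨w, hw, rfl⟩
    obtain ⟨x, hx, rfl⟩ := hcl hw
    rw [hh x hx]
    exact ⟨hx, hw⟩
  have hO' : IsOpen (ball y r ∩ g ⁻¹' O) := hg.continuousOn.isOpen_inter_preimage isOpen_ball hO
  have hO'K : ball y r ∩ g ⁻¹' O ⊆ h '' closure O := by
    rintro x ⟨hx, hx'⟩
    exact ⟨g x, subset_closure hx', hh x hx⟩
  have hfr : frontier (ball y r ∩ g ⁻¹' O) ⊆ V := by
    intro x hx
    rw [hO'.frontier_eq] at hx
    have h2 : x ∈ h '' closure O := closure_minimal hO'K hK.isClosed hx.1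
    obtain ⟨h3, h4⟩ := hKb x h2
    have h5 : g x ∈ frontier O := by
      rw [hO.frontier_eq]
      exact ⟨h4, fun h6 => hx.2 ⟨h3, h6⟩⟩
    obtain ⟨v, hv, hvx⟩ := hOf h5
    rw [← hi (hV hv) h3 hvx]
    exact hv
  have h6 := hf _ hO' (Metric.isBounded_ball.subset inter_subset_left) hfr
  intro p hp
  obtain ⟨x, hx, rfl⟩ := h1 hp
  exact ⟨x, h6 ⟨hx, hp⟩, rfl⟩

theorem bh_ball {f g : ℂ → ℂ} {y : ℂ} {r : ℝ} (hg : DifferentiableOn ℂ g (ball y r)) {U : Set ℂ} (hU : IsOpen U)
    (hf : DifferentiableOn ℂ f U) (hv : ∀ u ∈ ball y r, g u ∈ U ∧ f (g u) = u) {D : Set ℂ} (hD : IsOpen D)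
    (hDb : D ⊆ ball y r) : Bh f (g '' D) D := by
  have hi : InjOn g (ball y r) := by
    intro u hu u' hu' h
    rw [← (hv u hu).2, ← (hv u' hu').2, h]
  refine ⟨inj_open hg hi hD hDb, hf.mono ?_, ?_, ?_, ?_⟩
  · rintro _ ⟨u, hu, rfl⟩
    exact (hv u (hDb hu)).1
  · rintro _ ⟨u, hu, rfl⟩ _ ⟨u', hu', rfl⟩ h
    rw [(hv u (hDb hu)).2, (hv u' (hDb hu')).2] at h
    rw [h]
  · rw [image_image]
    ext u
    constructor
    · rintro ⟨v, hv', rfl⟩
      show f (g v) ∈ D
      rw [(hv v (hDb hv')).2]
      exact hv'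
    · intro hu
      exact ⟨u, hu, (hv u (hDb hu)).2⟩
  · intro V hVD hVf
    have h1 : g '' D ∩ f ⁻¹' V = g '' V := by
      ext w
      constructor
      · rintro ⟨⟨u, hu, rfl⟩, hw⟩
        have hw' : f (g u) ∈ V := hw
        rw [(hv u (hDb hu)).2] at hw'
        exact ⟨u, hw', rfl⟩
      · rintro ⟨u, hu, rfl⟩
        refine ⟨⟨u, hVD hu, rfl⟩, ?_⟩
        show f (g u) ∈ V
        rw [(hv u (hDb (hVD hu))).2]
        exact hu
    rw [h1]
    exact img_full hg hi (hVD.trans hDb) hVf

end Pool.Agent.H81.RW
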