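import Pool.Agent.H81.RW.Df
import Pool.Agent.H81.RW.Lgf
import Pool.Agent.H39.HO.PB

/-!
# Module Bhf: biholomorphic maps

`F` maps the open set `W` biholomorphically onto `D`.
PROOFS. `bh_der`: an injective holomorphic map has non vanishing derivative (library: search `deriv_ne_zero` / `InjOn`, for example in H56, H80, H44, H31; or `AnalyticAt`: local injectivity). `bh_open`: open mapping (`F` is injective, so not constant
near any point; `mr_open` in H56/TH/MR is this for balls). `bh_inv`: `g = Function.invFunOn F W`: holomorphic (as `mr_hol` in H56/TH/MR: continuity by the open mapping, then the inverse function). `bh_pre`: `W ∩ F ⁻¹' V = g '' V`. `bh_cpt`: the same.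
`bh_sub`: `(W ∩ F ⁻¹' V) ∩ F ⁻¹' V' = W ∩ F ⁻¹' V'` for `V' ⊆ V`. `bh_comp`: `W ∩ (G ∘ F) ⁻¹' V = W ∩ F ⁻¹' (D ∩ G ⁻¹' V)`.
-/

set_option autoImplicit false

open Filter Topology Metric Set MeasureTheory

namespace Pool.Agent.H81.RW

open Pool.Agent.H56.TH

private theorem inj_der {f : ℂ → ℂ} {A : Set ℂ} (hA : IsOpen A) (hf : DifferentiableOn ℂ f A) (hi : InjOn f A) {z : ℂ} (hz : z ∈ A) :
    deriv f z ≠ 0 := by
  have h1 := Pool.Agent.H39.HO.inj_hol hA hf hi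
  have hfz : f z ∈ f '' A := mem_image_of_mem f hz
  have hfAo : IsOpen (f '' A) := Pool.Agent.H39.HO.inj_open hA hf hi subset_rfl hA
  have hgz : Function.invFunOn f A (f z) = z :=
    hi (Function.invFunOn_mem hfz) hz (Function.invFunOn_eq hfz)
  have hdg : HasDerivAt (Function.invFunOn f A) (deriv (Function.invFunOn f A) (f z)) (f z) :=
    (h1.differentiableAt (hfAo.mem_nhds hfz)).hasDerivAt
  have hdf : HasDerivAt f (deriv f z) (Function.invFunOn f A (f z)) := by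
    rw [hgz]
    exact (hf.differentiableAt (hA.mem_nhds hz)).hasDerivAt
  have hcomp := hdf.comp (f z) hdg
  have hid : HasDerivAt (f ∘ Function.invFunOn f A) 1 (f z) := by
    refine (hasDerivAt_id (f z)).congr_of_eventuallyEq ?_
    filter_upwards [hfAo.mem_nhds hfz] with u hu
    exact Function.invFunOn_eq hu
  have hmul := hcomp.unique hid
  intro h0
  rw [h0, zero_mul] at hmul
  exact zero_ne_one hmul

theorem bh_der {F : ℂ → ℂ} {W D : Set ℂ} (h : Bh F W D) {y : ℂ} (hy : y ∈ W) : deriv F y ≠ 0 :=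
  inj_der h.Wo h.fd h.inj hy

theorem bh_open {F : ℂ → ℂ} {W D : Set ℂ} (h : Bh F W D) {O : Set ℂ} (hO : IsOpen O) (hOW : O ⊆ W) : IsOpen (F '' O) :=
  Pool.Agent.H39.HO.inj_open h.Wo h.fd h.inj hOW hO

theorem bh_inv {F : ℂ → ℂ} {W D : Set ℂ} (h : Bh F W D) : ∃ g : ℂ → ℂ, DifferentiableOn ℂ g D ∧ InjOn g D ∧
    (∀ y ∈ W, g (F y) = y) ∧ ∀ x ∈ D, g x ∈ W ∧ F (g x) = x := by
  have h1 : ∀ x ∈ D, Function.invFunOn F W x ∈ W ∧ F (Function.invFunOn F W x) = x := by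
    intro x hx
    rw [← h.img] at hx
    exact ⟨Function.invFunOn_mem hx, Function.invFunOn_eq hx⟩
  refine ⟨Function.invFunOn F W, ?_, ?_, ?_, h1⟩
  · have h2 := Pool.Agent.H39.HO.inj_hol h.Wo h.fd h.inj
    rwa [h.img] at h2
  · intro x hx x' hx' he
    rw [← (h1 x hx).2, ← (h1 x' hx').2, he]
  · intro y hy
    have hy' : F y ∈ D := h.img ▸ mem_image_of_mem F hy
    exact h.inj (h1 _ hy').1 hy (h1 _ hy').2

private theorem bh_pim {F g : ℂ → ℂ} {W D V : Set ℂ} (hV : V ⊆ D) (h1 : ∀ y ∈ W, g (F y) = y)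
    (h2 : ∀ x ∈ D, g x ∈ W ∧ F (g x) = x) : W ∩ F ⁻¹' V = g '' V := by
  ext y
  constructor
  · rintro ⟨hy, hyV⟩
    exact ⟨F y, hyV, h1 y hy⟩
  · rintro ⟨x, hx, rfl⟩
    refine ⟨(h2 x (hV hx)).1, ?_⟩
    show F (g x) ∈ V
    rw [(h2 x (hV hx)).2]
    exact hx

theorem bh_pre {F : ℂ → ℂ} {W D : Set ℂ} (h : Bh F W D) {V : Set ℂ} (hV : V ⊆ D) (hc : IsPreconnected V) :
    IsPreconnected (W ∩ F ⁻¹' V) := by
  obtain ⟨g, hg, -, h1, h2⟩ := bh_inv h
  rw [bh_pim hV h1 h2]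
  exact hc.image g (hg.continuousOn.mono hV)

theorem bh_cpt {F : ℂ → ℂ} {W D : Set ℂ} (h : Bh F W D) {V : Set ℂ} (hV : V ⊆ D) (hc : IsCompact V) :
    IsCompact (W ∩ F ⁻¹' V) := by
  obtain ⟨g, hg, -, h1, h2⟩ := bh_inv h
  rw [bh_pim hV h1 h2]
  exact hc.image_of_continuousOn (hg.continuousOn.mono hV)

theorem bh_sub {F : ℂ → ℂ} {W D : Set ℂ} (h : Bh F W D) {V : Set ℂ} (hV : V ⊆ D) (ho : IsOpen V) :
    Bh F (W ∩ F ⁻¹' V) V where
  Wo := h.fd.continuousOn.isOpen_inter_preimage h.Wo ho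
  fd := h.fd.mono inter_subset_left
  inj := h.inj.mono inter_subset_left
  img := by
    apply subset_antisymm
    · rintro _ ⟨y, hy, rfl⟩
      exact hy.2
    · intro x hx
      have hxD := hV hx
      rw [← h.img] at hxD
      obtain ⟨y, hy, rfl⟩ := hxD
      exact ⟨y, ⟨hy, hx⟩, rfl⟩
  fu := by
    intro V' hV' hfu
    have h1 : (W ∩ F ⁻¹' V) ∩ F ⁻¹' V' = W ∩ F ⁻¹' V' := by
      ext y
      constructor
      · rintro ⟨⟨hy, -⟩, hy'⟩
        exact ⟨hy, hy'⟩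
      · rintro ⟨hy, hy'⟩
        exact ⟨⟨hy, hV' hy'⟩, hy'⟩
    rw [h1]
    exact h.fu V' (hV'.trans hV) hfu

theorem bh_comp {F G : ℂ → ℂ} {W D D' : Set ℂ} (h : Bh F W D) (h' : Bh G D D') : Bh (fun y => G (F y)) W D' where
  Wo := h.Wo
  fd := h'.fd.comp h.fd fun y hy => h.img ▸ mem_image_of_mem F hy
  inj := by
    intro y hy y' hy' he
    exact h.inj hy hy' (h'.inj (h.img ▸ mem_image_of_mem F hy) (h.img ▸ mem_image_of_mem F hy') he)
  img := by
    have h1 : (fun y => G (F y)) '' W = G '' (F '' W) := by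
      rw [image_image]
    rw [h1, h.img, h'.img]
  fu := by
    intro V hV hfu
    have h1 : W ∩ (fun y => G (F y)) ⁻¹' V = W ∩ F ⁻¹' (D ∩ G ⁻¹' V) := by
      ext y
      constructor
      · rintro ⟨hy, hy'⟩
        exact ⟨hy, h.img ▸ mem_image_of_mem F hy, hy'⟩
      · rintro ⟨hy, -, hy'⟩
        exact ⟨hy, hy'⟩
    rw [h1]
    exact h.fu _ inter_subset_left (h'.fu V hV hfu)

end Pool.Agent.H81.RW
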