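import Pool.Agent.H81.RW.Nlg
import Pool.Agent.H81.RW.Bhf

/-!
# Module Sqf: the two pull backs near a critical point

The map `S x = v + x ^ 2` is open and proper: for a bounded open `O`, `S '' O` is open and bounded and `frontier (S '' O) ⊆ S '' frontier O`.
PROOFS. `sq_front`: `S '' closure O` is compact. `sq_open`: `AnalyticOnNhd.is_constant_or_isOpen` (not constant).
`sq_full`: `O` bounded open, `frontier O ⊆ S ⁻¹' V`: `frontier (S '' O) ⊆ V`, so `S '' O ⊆ V`. `sq_pre`: let `A` be the component of `0` in `S ⁻¹' V` (open; contains `0` as `v ∈ V`). `S '' A` is open; closed in `V`: if `S (x n) → y ∈ V`, `x n ∈ A`, then `x n` is bounded, a subsequence converges to `x`, `S x = y`, so `x ∈ S ⁻¹' V` and in the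
closure of `A`, so in `A` (`A` is closed in `S ⁻¹' V`). So `S '' A = V` (`V` preconnected, `v ∈ S '' A`). `A` is symmetric (`-A` is preconnected, contains `0`). So `A = S ⁻¹' V`.
`rt_full`: `s` a holomorphic square root on `D` (`s u ^ 2 = u - v`, `s u ≠ 0`), `V ⊆ D` full; `O` bounded open with `frontier O ⊆ s '' V`. Every `x ∈ s '' V` has `S x ∈ V`, `s (S x) = x`. `frontier (S '' O) ⊆ V`, so `S '' O ⊆ V ⊆ D`, every `x ∈ O` has `x = s (S x)` or `x = - s (S x)` (equal squares), not both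
(`s ≠ 0`). `O₋ = {x ∈ O | x = - s (S x)}` is open (`O₊` is closed in `O` and both are relatively closed, `s ∘ S` continuous on `O`), bounded. `frontier O₋ = ∅`: a point `x` of `closure O₋` in `O` is in `O₋` (closed in `O`), so not in the frontier; in `frontier O`: `S x ∈ V`, `x = s (S x)`, and by continuity of `s` at `S x` (`D` open) `x = - s (S x)`, so `x = 0 = s (S x)`, contradiction. So
`O₋` is clopen and bounded, empty. `O = O₊ ⊆ s '' V`.
`bh_rt`: `s = sqrt_full_at` with `s (f z) = x₀`; `s '' D ⊆ ball 0 r` (`‖s u‖ ^ 2 = ‖u - v‖ < r ^ 2`), `W = η '' (s '' D)`; `f (η (s u)) = v + s u ^ 2 = u`. `W` open: `s '' D` is open (injective holomorphic), `η` open. `W ∩ f ⁻¹' V = η '' (s '' V)`: `rt_full` and `img_full`. `f` is differentiable on `W ⊆ U`.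
-/

set_option autoImplicit false

open Filter Topology Metric Set MeasureTheory

namespace Pool.Agent.H81.RW

open Pool.Agent.H56.TH

private theorem sq_cont (v : ℂ) : Continuous (fun x : ℂ => v + x ^ 2) := by fun_prop

theorem sq_open (v : ℂ) {O : Set ℂ} (hO : IsOpen O) : IsOpen ((fun x : ℂ => v + x ^ 2) '' O) := by
  have hg : AnalyticOnNhd ℂ (fun x : ℂ => v + x ^ 2) Set.univ := fun x _ => by fun_prop
  rcases hg.is_constant_or_isOpenMap with ⟨w, h⟩ | h
  · exfalso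
    have h0 := h 0
    have h1 := h 1
    simp only [ne_eq, OfNat.ofNat_ne_zero, not_false_eq_true, zero_pow, add_zero, one_pow] at h0 h1
    rw [h0] at h1
    have : (1 : ℂ) = 0 := by linear_combination h1
    exact one_ne_zero this
  · exact h O hO

private theorem sq_cpt (v : ℂ) {O : Set ℂ} (hb : Bornology.IsBounded O) :
    IsCompact ((fun x : ℂ => v + x ^ 2) '' closure O) := by
  have h : IsCompact (closure O) := hb.isCompact_closure
  exact h.image (sq_cont v)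

private theorem sq_clo (v : ℂ) {O : Set ℂ} (hb : Bornology.IsBounded O) :
    closure ((fun x : ℂ => v + x ^ 2) '' O) ⊆ (fun x : ℂ => v + x ^ 2) '' closure O :=
  closure_minimal (Set.image_mono subset_closure) (sq_cpt v hb).isClosed

private theorem sq_bdd (v : ℂ) {O : Set ℂ} (hb : Bornology.IsBounded O) :
    Bornology.IsBounded ((fun x : ℂ => v + x ^ 2) '' O) :=
  (sq_cpt v hb).isBounded.subset (Set.image_mono subset_closure)

theorem sq_front (v : ℂ) {O : Set ℂ} (hb : Bornology.IsBounded O) (hO : IsOpen O) :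
    frontier ((fun x : ℂ => v + x ^ 2) '' O) ⊆ (fun x : ℂ => v + x ^ 2) '' frontier O := by
  intro y hy
  rw [(sq_open v hO).frontier_eq] at hy
  obtain ⟨x, hx, hxy⟩ := sq_clo v hb hy.1
  refine ⟨x, ?_, hxy⟩
  rw [hO.frontier_eq]
  exact ⟨hx, fun hxO => hy.2 ⟨x, hxO, hxy⟩⟩

theorem sq_full {v : ℂ} {V : Set ℂ} (hf : Full V) : Full {x : ℂ | v + x ^ 2 ∈ V} := by
  intro O hO hb hfr x hx
  have h1 : (fun x : ℂ => v + x ^ 2) '' O ⊆ V := by
    apply hf _ (sq_open v hO) (sq_bdd v hb)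
    refine (sq_front v hb hO).trans ?_
    rintro _ ⟨y, hy, rfl⟩
    exact hfr hy
  exact h1 ⟨x, hx, rfl⟩

theorem sq_pre {v : ℂ} {V : Set ℂ} (hV : IsOpen V) (hc : IsPreconnected V) (hv : v ∈ V) :
    IsPreconnected {x : ℂ | v + x ^ 2 ∈ V} := by
  obtain ⟨P, hP⟩ : ∃ P : Set ℂ, P = {x : ℂ | v + x ^ 2 ∈ V} := ⟨_, rfl⟩
  rw [← hP]
  have hPm : ∀ x, x ∈ P ↔ v + x ^ 2 ∈ V := fun x => by rw [hP]; rfl
  have hPo : IsOpen P := by
    rw [hP]
    exact hV.preimage (sq_cont v)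
  have h0 : (0 : ℂ) ∈ P := by
    rw [hPm]
    simpa using hv
  obtain ⟨A, hA⟩ : ∃ A : Set ℂ, A = connectedComponentIn P 0 := ⟨_, rfl⟩
  have hAo : IsOpen A := by rw [hA]; exact hPo.connectedComponentIn
  have hAp : IsPreconnected A := by rw [hA]; exact isPreconnected_connectedComponentIn
  have hAP : A ⊆ P := by rw [hA]; exact connectedComponentIn_subset _ _
  have h0A : (0 : ℂ) ∈ A := by rw [hA]; exact mem_connectedComponentIn h0
  have hmax : ∀ B : Set ℂ, IsPreconnected B → (0 : ℂ) ∈ B → B ⊆ P → B ⊆ A := by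
    intro B h1 h2 h3
    rw [hA]
    exact h1.subset_connectedComponentIn h2 h3
  have hclo : ∀ x ∈ closure A, x ∈ P → x ∈ A := by
    intro x hx hxP
    have h1 : IsPreconnected (insert x A) := by
      apply hAp.subset_closure (Set.subset_insert _ _)
      rintro y (rfl | hy)
      · exact hx
      · exact subset_closure hy
    exact hmax _ h1 (Or.inr h0A) (by
      rintro y (rfl | hy)
      · exact hxP
      · exact hAP hy) (Or.inl rfl)
  have hVA : V ⊆ (fun x : ℂ => v + x ^ 2) '' A := by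
    apply hc.subset_of_closure_inter_subset (sq_open v hAo)
    · exact ⟨v, hv, 0, h0A, by simp⟩
    · rintro y ⟨hy, hyV⟩
      obtain ⟨R, hR⟩ : ∃ R : ℝ, R = ‖y - v‖ + 2 := ⟨_, rfl⟩
      have hR0 : 0 ≤ ‖y - v‖ := norm_nonneg _
      have hy' : y ∈ closure ((fun x : ℂ => v + x ^ 2) '' (A ∩ ball 0 R)) := by
        rw [mem_closure_iff_nhds] at hy ⊢
        intro t ht
        obtain ⟨z, hz, x, hx, hxz⟩ := hy _ (inter_mem ht (ball_mem_nhds y one_pos))
        refine ⟨z, hz.1, x, ⟨hx, ?_⟩, hxz⟩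
        have h1 : ‖z - y‖ < 1 := by
          have := hz.2
          rwa [mem_ball, dist_eq_norm] at this
        have h2 : ‖x‖ ^ 2 = ‖z - v‖ := by
          rw [← norm_pow, ← hxz]
          congr 1
          ring
        have h3 : ‖z - v‖ ≤ ‖z - y‖ + ‖y - v‖ := by
          calc ‖z - v‖ = ‖(z - y) + (y - v)‖ := by ring_nf
            _ ≤ _ := norm_add_le _ _
        rw [mem_ball, dist_zero_right]
        have h4 : ‖x‖ ^ 2 < R ^ 2 := by
          rw [h2]
          nlinarith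
        exact lt_of_pow_lt_pow_left₀ 2 (by linarith) h4
      obtain ⟨x, hx, hxy⟩ := sq_clo v (isBounded_ball.subset Set.inter_subset_right) hy'
      refine ⟨x, hclo x (closure_mono Set.inter_subset_left hx) ?_, hxy⟩
      rw [hPm]
      have : v + x ^ 2 = y := hxy
      rw [this]
      exact hyV
  have hneg : ∀ x ∈ A, -x ∈ A := by
    have h1 : IsPreconnected ((fun x : ℂ => -x) '' A) := hAp.image _ continuous_neg.continuousOn
    have h2 := hmax _ h1 ⟨0, h0A, neg_zero⟩ (by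
      rintro _ ⟨x, hx, rfl⟩
      rw [hPm]
      have := (hPm x).1 (hAP hx)
      rwa [neg_sq])
    intro x hx
    exact h2 ⟨x, hx, rfl⟩
  have hPA : P = A := by
    apply Set.Subset.antisymm _ hAP
    intro x hx
    obtain ⟨a, ha, hax⟩ := hVA ((hPm x).1 hx)
    have h1 : v + a ^ 2 = v + x ^ 2 := hax
    rcases sq_eq_sq_iff_eq_or_eq_neg.1 (add_left_cancel h1).symm with h | h
    · rw [h]; exact ha
    · rw [h]; exact hneg a ha
  rw [hPA]
  exact hAp

theorem rt_full {v : ℂ} {D V : Set ℂ} (hD : IsOpen D) {s : ℂ → ℂ} (hs : DifferentiableOn ℂ s D)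
    (he : ∀ u ∈ D, s u ^ 2 = u - v ∧ s u ≠ 0) (hV : V ⊆ D) (hf : Full V) : Full (s '' V) := by
  intro O hO hb hfr
  have hfrV : ∀ x ∈ frontier O, v + x ^ 2 ∈ V ∧ s (v + x ^ 2) = x := by
    intro x hx
    obtain ⟨u, hu, rfl⟩ := hfr hx
    have h1 : v + s u ^ 2 = u := by rw [(he u (hV hu)).1]; ring
    rw [h1]
    exact ⟨hu, rfl⟩
  have hSO : (fun x : ℂ => v + x ^ 2) '' O ⊆ V := by
    apply hf _ (sq_open v hO) (sq_bdd v hb)
    refine (sq_front v hb hO).trans ?_
    rintro _ ⟨y, hy, rfl⟩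
    exact (hfrV y hy).1
  have hSx : ∀ x ∈ O, v + x ^ 2 ∈ V := fun x hx => hSO ⟨x, hx, rfl⟩
  have hc : ∀ x, v + x ^ 2 ∈ D → ContinuousAt (fun y : ℂ => s (v + y ^ 2)) x := by
    intro x hx
    have h1 : ContinuousAt s (v + x ^ 2) := (hs.differentiableAt (hD.mem_nhds hx)).continuousAt
    exact ContinuousAt.comp (f := fun y : ℂ => v + y ^ 2) h1 (sq_cont v).continuousAt
  have hpm : ∀ x ∈ O, x = s (v + x ^ 2) ∨ x = -s (v + x ^ 2) := by
    intro x hx
    have h1 : x ^ 2 = s (v + x ^ 2) ^ 2 := by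
      rw [(he _ (hV (hSx x hx))).1]
      ring
    exact sq_eq_sq_iff_eq_or_eq_neg.1 h1
  obtain ⟨M, hM⟩ : ∃ M : Set ℂ, M = O ∩ {x | x - s (v + x ^ 2) ∈ ({0}ᶜ : Set ℂ)} := ⟨_, rfl⟩
  have hMo : IsOpen M := by
    rw [hM]
    apply ContinuousOn.isOpen_inter_preimage (f := fun x : ℂ => x - s (v + x ^ 2)) _ hO isOpen_compl_singleton
    intro x hx
    exact (continuousAt_id.sub (hc x (hV (hSx x hx)))).continuousWithinAt
  have hMm : ∀ x ∈ M, x = -s (v + x ^ 2) := by
    intro x hx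
    rw [hM] at hx
    rcases hpm x hx.1 with h | h
    · exfalso
      exact hx.2 (sub_eq_zero.2 h)
    · exact h
  have hMc : IsClosed M := by
    apply isClosed_of_closure_subset
    intro x hx
    -- the equation passes to the closure
    have hlim : v + x ^ 2 ∈ D → x + s (v + x ^ 2) = 0 := by
      intro hxD
      have h1 : ContinuousAt (fun y : ℂ => y + s (v + y ^ 2)) x := continuousAt_id.add (hc x hxD)
      by_contra hne
      have h2 : ∀ᶠ y in 𝓝 x, y + s (v + y ^ 2) ≠ 0 := h1.eventually_ne hne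
      obtain ⟨y, hy1, hy2⟩ := mem_closure_iff_nhds.1 hx _ h2
      apply hy1
      have := hMm y hy2
      nth_rewrite 1 [this]
      ring
    have hxO : x ∈ closure O := closure_mono (by rw [hM]; exact Set.inter_subset_left) hx
    by_cases hxO' : x ∈ O
    · rw [hM]
      refine ⟨hxO', fun h => ?_⟩
      have h1 := hlim (hV (hSx x hxO'))
      have h2 : x - s (v + x ^ 2) = 0 := h
      apply (he _ (hV (hSx x hxO'))).2
      linear_combination (h1 - h2) / 2
    · exfalso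
      have hxf : x ∈ frontier O := by
        rw [hO.frontier_eq]
        exact ⟨hxO, hxO'⟩
      obtain ⟨h1, h2⟩ := hfrV x hxf
      have h3 := hlim (hV h1)
      apply (he _ (hV h1)).2
      linear_combination (h3 + h2) / 2
  have hMe : M = ∅ := by
    rcases isClopen_iff.1 ⟨hMc, hMo⟩ with h | h
    · exact h
    · exfalso
      apply NormedSpace.unbounded_univ ℂ ℂ
      rw [← h]
      exact hb.subset (by rw [hM]; exact Set.inter_subset_left)
  intro x hx
  refine ⟨v + x ^ 2, hSx x hx, ?_⟩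
  by_contra hne
  have h1 : x ∈ M := by
    rw [hM]
    exact ⟨hx, fun h => hne (sub_eq_zero.1 h).symm⟩
  rw [hMe] at h1
  exact h1

/-- an injective holomorphic map is open -/
private theorem inj_open {g : ℂ → ℂ} {U : Set ℂ} (hU : IsOpen U) (hg : DifferentiableOn ℂ g U) (hi : InjOn g U)
    {O : Set ℂ} (hO : IsOpen O) (hOU : O ⊆ U) : IsOpen (g '' O) := by
  rw [isOpen_iff_mem_nhds]
  rintro _ ⟨x, hx, rfl⟩
  have ha : AnalyticAt ℂ g x := hg.analyticAt (hU.mem_nhds (hOU hx))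
  rcases ha.eventually_constant_or_nhds_le_map_nhds with h | h
  · exfalso
    have h1 : ∀ᶠ y in 𝓝 x, y = x := by
      filter_upwards [h, hU.mem_nhds (hOU hx)] with y hy hyU
      exact hi hyU (hOU hx) hy
    have h2 : ∀ᶠ y in 𝓝[≠] x, y = x := h1.filter_mono nhdsWithin_le_nhds
    have h3 : ∀ᶠ y in 𝓝[≠] x, y ≠ x := eventually_mem_nhdsWithin
    obtain ⟨y, hy1, hy2⟩ := (h2.and h3).exists
    exact hy2 hy1
  · exact h (Filter.image_mem_map (hO.mem_nhds hx))

theorem bh_rt {f η : ℂ → ℂ} {U : Set ℂ} (hU : IsOpen U) (hfd : DifferentiableOn ℂ f U) {v : ℂ} {r : ℝ}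
    (hη : DifferentiableOn ℂ η (ball 0 r)) (hi : InjOn η (ball 0 r))
    (he : ∀ x ∈ ball (0 : ℂ) r, η x ∈ U ∧ f (η x) = v + x ^ 2) {D : Set ℂ} (hD : IsOpen D) (hc : IsPreconnected D)
    (hf : Full D) (hDb : D ⊆ ball v (r ^ 2)) (hv : v ∉ D) {z : ℂ} (hz : z ∈ η '' ball 0 r) (hfz : f z ∈ D) :
    ∃ W : Set ℂ, Bh f W D ∧ z ∈ W ∧ W ⊆ η '' ball 0 r := by
  obtain ⟨x₀, hx₀, rfl⟩ := hz
  have hr : 0 < r := by
    rw [mem_ball, dist_zero_right] at hx₀
    exact (norm_nonneg _).trans_lt hx₀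
  obtain ⟨s, hs, hs0, hse⟩ := sqrt_full_at hD hc hf hv (w₀ := f (η x₀)) (s₀ := x₀) hfz
    (by rw [(he x₀ hx₀).2]; ring)
  have hsb : ∀ u ∈ D, s u ∈ ball (0 : ℂ) r := by
    intro u hu
    rw [mem_ball, dist_zero_right]
    have h1 := hDb hu
    rw [mem_ball, dist_eq_norm, ← (hse u hu).1, norm_pow] at h1
    exact lt_of_pow_lt_pow_left₀ 2 hr.le h1
  have hfs : ∀ u ∈ D, f (η (s u)) = u := by
    intro u hu
    rw [(he _ (hsb u hu)).2, (hse u hu).1]
    ring
  have hsi : InjOn s D := by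
    intro u hu u' hu' h
    rw [← hfs u hu, ← hfs u' hu', h]
  refine ⟨η '' (s '' D), ⟨?_, ?_, ?_, ?_, ?_⟩, ?_, ?_⟩
  · apply inj_open isOpen_ball hη hi (inj_open hD hs hsi hD subset_rfl)
    rintro _ ⟨u, hu, rfl⟩
    exact hsb u hu
  · apply hfd.mono
    rintro _ ⟨_, ⟨u, hu, rfl⟩, rfl⟩
    exact (he _ (hsb u hu)).1
  · rintro _ ⟨_, ⟨u, hu, rfl⟩, rfl⟩ _ ⟨_, ⟨u', hu', rfl⟩, rfl⟩ h
    rw [hfs u hu, hfs u' hu'] at h
    rw [h]
  · ext u
    constructor
    · rintro ⟨_, ⟨_, ⟨u', hu', rfl⟩, rfl⟩, h⟩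
      rw [hfs u' hu'] at h
      rw [← h]
      exact hu'
    · intro hu
      exact ⟨_, ⟨_, ⟨u, hu, rfl⟩, rfl⟩, hfs u hu⟩
  · intro V hV hVf
    have h1 : η '' (s '' D) ∩ f ⁻¹' V = η '' (s '' V) := by
      ext y
      constructor
      · rintro ⟨⟨_, ⟨u, hu, rfl⟩, rfl⟩, hy⟩
        have hy' : f (η (s u)) ∈ V := hy
        rw [hfs u hu] at hy'
        exact ⟨_, ⟨u, hy', rfl⟩, rfl⟩
      · rintro ⟨_, ⟨u, hu, rfl⟩, rfl⟩
        refine ⟨⟨_, ⟨u, hV hu, rfl⟩, rfl⟩, ?_⟩
        show f (η (s u)) ∈ V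
        rw [hfs u (hV hu)]
        exact hu
    rw [h1]
    apply img_full hη hi _ (rt_full hD hs hse hV hVf)
    rintro _ ⟨u, hu, rfl⟩
    exact hsb u (hV hu)
  · exact ⟨x₀, ⟨f (η x₀), hfz, hs0⟩, rfl⟩
  · apply Set.image_mono
    rintro _ ⟨u, hu, rfl⟩
    exact hsb u hu

end Pool.Agent.H81.RW
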