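import Mathlib

/-!
# Module Hit (LW): FIRST ENTRANCE TIMES, CONTENTS, COUNTING (think 1886)

`Hit f E u x j`: the point `x` is in `E ∩ {u ∘ f = 1}` at time `j`. `Ent f E u x k`: `k` is the first such time.
`ent_add`. PROOF. `f^[i] (f^[k] x) = f^[i + k] x` (`Function.iterate_add_apply`): `Hit x (k + j) ↔ Hit (f^[k] x) j`; times `< k` by hypothesis, times `k + i`, `i < j`, by the minimality for `f^[k] x`.
`ent_min`. PROOF. `A = {x ∈ P | u x = 1}`, compact. `Λ = ⋃ s ∈ Finset.range (k + 1), f^[s] '' A`: compact (`f^[s]` is continuous on `P`, maps `P` into `P`), so closed. Forward invariant: `f^[s + 1] '' A ⊆ Λ` for `s < k`, and `f^[k + 1] a ∈ A` for `a ∈ A` (`Hit a k`: `u (f^[k + 1] a) = 1`). Let `a ∈ A`: the orbit of `a` is in `Λ`, so `P ⊆ Λ` (`mn`).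
Let `x ∈ P`, `Ent x k`: `x = f^[s] y`, `y ∈ A`, `s ≤ k`. If `s ≥ 1`: `Hit y k` gives `Hit x (k - s)`, `k - s < k`: contradiction to `Ent x k`. So `x = y ∈ A`.
`pack`. PROOF. Area (or a finite cover of `closedBall 0 1` by balls of radius `c / 3`, one point in each, scaled): the points `(pt k - v) / r` are in the closed unit ball with mutual distances `≥ c`.
-/

set_option autoImplicit false

open Filter Topology Metric Set

namespace Pool.Agent.H81.RW

def Hit (f : ℂ → ℂ) (E : Set ℂ) (u : ℂ → ℝ) (x : ℂ) (j : ℕ) : Prop := f^[j] x ∈ E ∧ u (f^[j + 1] x) = 1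

def Ent (f : ℂ → ℂ) (E : Set ℂ) (u : ℂ → ℝ) (x : ℂ) (k : ℕ) : Prop := Hit f E u x k ∧ ∀ j < k, ¬ Hit f E u x j

variable {f : ℂ → ℂ} {E P : Set ℂ} {u : ℂ → ℝ}

theorem ent_uniq {x : ℂ} {k k' : ℕ} (h : Ent f E u x k) (h' : Ent f E u x k') : k = k' := by
  rcases lt_trichotomy k k' with hlt | heq | hgt
  · exact absurd h.1 (h'.2 k hlt)
  · exact heq
  · exact absurd h'.1 (h.2 k' hgt)

theorem hit_iter {x : ℂ} {k j : ℕ} : Hit f E u (f^[k] x) j ↔ Hit f E u x (k + j) := by
  unfold Hit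
  rw [← Function.iterate_add_apply, ← Function.iterate_add_apply,
    show j + k = k + j by omega, show j + 1 + k = k + j + 1 by omega]

theorem ent_add {x : ℂ} {k j : ℕ} (h : Ent f E u (f^[k] x) j) (h' : ∀ i < k, ¬ Hit f E u x i) : Ent f E u x (k + j) := by
  refine ⟨hit_iter.1 h.1, fun i hi => ?_⟩
  by_cases hik : i < k
  · exact h' i hik
  · intro hh
    have h1 : i - k < j := by omega
    apply h.2 (i - k) h1
    rw [hit_iter, show k + (i - k) = i by omega]
    exact hh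

theorem ent_min (hP : IsCompact P) (hf : ContinuousOn f P) (hPf : ∀ z ∈ P, f z ∈ P)
    (mn : ∀ x ∈ P, P ⊆ closure {y | ∃ n : ℕ, f^[n] x = y}) (hu : Continuous u) {k : ℕ} (hne : ∃ x ∈ P, u x = 1)
    (h : ∀ x ∈ P, u x = 1 → Ent f E u x k) : ∀ x ∈ P, Ent f E u x k → u x = 1 := by
  have hmaps : ∀ n : ℕ, ∀ z ∈ P, f^[n] z ∈ P := by
    intro n
    induction n with
    | zero => intro z hz; simpa using hz
    | succ n ih => intro z hz; rw [Function.iterate_succ_apply]; exact ih _ (hPf z hz)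
  have hcont : ∀ n : ℕ, ContinuousOn (f^[n]) P := by
    intro n
    induction n with
    | zero => simpa using continuousOn_id
    | succ n ih =>
      rw [Function.iterate_succ]
      exact ih.comp hf (fun z hz => hPf z hz)
  set A : Set ℂ := P ∩ {x | u x = 1} with hA
  have hAP : A ⊆ P := fun x hx => hx.1
  have hAc : IsCompact A := hP.inter_right (isClosed_eq hu continuous_const)
  set Λ : Set ℂ := ⋃ s ∈ Finset.range (k + 1), f^[s] '' A with hL
  have hLc : IsCompact Λ := by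
    apply Finset.isCompact_biUnion
    intro s _
    exact hAc.image_of_continuousOn ((hcont s).mono hAP)
  have hret : ∀ a ∈ A, f^[k + 1] a ∈ A := by
    intro a ha
    exact ⟨hmaps _ a ha.1, (h a ha.1 ha.2).1.2⟩
  obtain ⟨a, haP, hau⟩ := hne
  have haA : a ∈ A := ⟨haP, hau⟩
  have horb : ∀ n : ℕ, ∃ b ∈ A, ∃ s ≤ k, f^[n] a = f^[s] b := by
    intro n
    induction n with
    | zero => exact ⟨a, haA, 0, Nat.zero_le _, rfl⟩
    | succ n ih =>
      obtain ⟨b, hb, s, hs, he⟩ := ih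
      have h1 : f^[n + 1] a = f^[s + 1] b := by
        rw [Function.iterate_succ_apply', Function.iterate_succ_apply', he]
      by_cases hsk : s = k
      · exact ⟨f^[k + 1] b, hret b hb, 0, Nat.zero_le _, by rw [h1, hsk]; rfl⟩
      · exact ⟨b, hb, s + 1, by omega, h1⟩
  have hPL : P ⊆ Λ := by
    refine (mn a haP).trans (hLc.isClosed.closure_subset_iff.2 ?_)
    rintro y ⟨n, hn⟩
    obtain ⟨b, hb, s, hs, he⟩ := horb n
    rw [hL, Set.mem_iUnion₂]
    exact ⟨s, Finset.mem_range.2 (by omega), b, hb, by rw [← he, hn]⟩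
  intro x hx hxe
  have h1 := hPL hx
  rw [hL, Set.mem_iUnion₂] at h1
  obtain ⟨s, hs, y, hy, hyx⟩ := h1
  have hsk : s ≤ k := by have := Finset.mem_range.1 hs; omega
  by_cases hs0 : s = 0
  · rw [hs0] at hyx
    have : y = x := hyx
    rw [← this]
    exact hy.2
  · exfalso
    apply hxe.2 (k - s) (by omega)
    rw [← hyx, hit_iter, show s + (k - s) = k by omega]
    exact (h y hy.1 hy.2).1

theorem pack {c : ℝ} (hc : 0 < c) : ∃ n : ℕ, ∀ (v : ℂ) (r : ℝ) (S : Finset ℕ) (pt : ℕ → ℂ), 0 < r →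
    (∀ k ∈ S, ‖pt k - v‖ ≤ r) → (∀ k ∈ S, ∀ l ∈ S, k ≠ l → c * r ≤ ‖pt k - pt l‖) → S.card ≤ n := by
  have hcomp : IsCompact (closedBall (0 : ℂ) 1) := isCompact_closedBall 0 1
  obtain ⟨T, hTf, hT⟩ := (Metric.totallyBounded_iff.1 hcomp.totallyBounded) (c / 3) (by positivity)
  refine ⟨hTf.toFinset.card, fun v r S pt hr h1 h2 => ?_⟩
  have h3 : ∀ k ∈ S, ∃ t ∈ T, ‖(pt k - v) / r - t‖ < c / 3 := by
    intro k hk
    have h4 : (pt k - v) / r ∈ closedBall (0 : ℂ) 1 := by
      rw [mem_closedBall_zero_iff, norm_div, Complex.norm_real, Real.norm_of_nonneg hr.le,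
        div_le_one hr]
      exact h1 k hk
    have h5 := hT h4
    rw [Set.mem_iUnion₂] at h5
    obtain ⟨t, ht, h6⟩ := h5
    exact ⟨t, ht, by rwa [mem_ball, dist_eq_norm] at h6⟩
  choose! g hg1 hg2 using h3
  apply Finset.card_le_card_of_injOn g
  · intro k hk
    have hk' : k ∈ S := hk
    exact hTf.mem_toFinset.2 (hg1 k hk')
  · intro k hk l hl hkl
    by_contra hne
    have hk' : k ∈ S := hk
    have hl' : l ∈ S := hl
    have h7 := h2 k hk' l hl' hne
    have h8 := hg2 k hk'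
    have h9 := hg2 l hl'
    have hkl' : g k = g l := hkl
    rw [hkl'] at h8
    have h10 : (pt k - pt l) / (r : ℂ) = ((pt k - v) / r - g l) - ((pt l - v) / r - g l) := by
      have : (r : ℂ) ≠ 0 := by exact_mod_cast hr.ne'
      field_simp
      ring
    have h11 : ‖(pt k - pt l) / (r : ℂ)‖ < c / 3 + c / 3 := by
      rw [h10]
      exact lt_of_le_of_lt (norm_sub_le _ _) (add_lt_add h8 h9)
    rw [norm_div, Complex.norm_real, Real.norm_of_nonneg hr.le, div_lt_iff₀ hr] at h11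
    nlinarith

end Pool.Agent.H81.RW
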