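import Pool.Agent.H81.RW.Defs

/-!
# Module Var: the variation of differences, maxima and truncations

PROOFS. `fd_pos`: `φ x > 0`: `max (φ ·) 0 = φ` near `x` (continuity) and `max (-φ ·) 0 = 0` near `x`; `φ x < 0` the same; `φ x = 0`: both functions have a
minimum at `x` (value `0`, they are `≥ 0`): `IsLocalMin.fderiv_eq_zero`. `ell_diff`: almost everywhere `u` and `w` are differentiable
(`LipschitzWith.ae_differentiableAt`), so `‖fderiv (u - w)‖ ≤ ‖fderiv u‖ + ‖fderiv w‖`; `fd_pos` with `φ = u - w`; `le_lintegral_add`, `lintegral_mono_ae`,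
`lintegral_add_left'`-like (measurable: `ρ` measurable, `fderiv` measurable: `measurable_fderiv`).
`ell_minmax`: the same; at `x` with `u x = w x`, `u`, `w` differentiable: if `max u w` is differentiable at `x` then `max (u - w) 0 = max u w - w` is differentiable with a minimum, so
`fderiv (max u w) = fderiv w`; (if it is not differentiable the derivative is `0`); `min u w = u - max (u - w) 0`: `fderiv (min u w) = fderiv u`; where the first is not differentiable the second is not either (`u + w - max u w`), and both are `0`.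
`trc_fd`: `w x ≤ a`: `trc a b w x = 0` is a minimum; `b ≤ w x`: value `1`, a maximum; otherwise `trc a b w = (w - a) / (b - a)` near `x`.
`ell_trc`: `trc_fd` and the definition of `ell'` (`lintegral_indicator`; the set is measurable, `w` continuous).
-/

set_option autoImplicit false

open Filter Topology Metric Set MeasureTheory

namespace Pool.Agent.H81.RW

open Pool.Agent.H56.TH

theorem fd_pos {φ : ℂ → ℝ} (hφ : Continuous φ) (x : ℂ) :
    ‖fderiv ℝ (fun y => max (φ y) 0) x‖ + ‖fderiv ℝ (fun y => max (- φ y) 0) x‖ ≤ ‖fderiv ℝ φ x‖ := by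
  rcases lt_trichotomy (φ x) 0 with h | h | h
  · have h1 : ∀ᶠ y in 𝓝 x, φ y < 0 := hφ.continuousAt.eventually_lt continuousAt_const h
    have e1 : (fun y => max (φ y) 0) =ᶠ[𝓝 x] fun _ => (0 : ℝ) :=
      h1.mono fun y hy => max_eq_right hy.le
    have e2 : (fun y => max (- φ y) 0) =ᶠ[𝓝 x] fun y => - φ y :=
      h1.mono fun y hy => max_eq_left (by linarith)
    rw [e1.fderiv_eq, e2.fderiv_eq, fderiv_fun_neg]
    simp
  · have e1 : fderiv ℝ (fun y => max (φ y) 0) x = 0 := by
      apply IsLocalMin.fderiv_eq_zero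
      exact Eventually.of_forall fun y => by simp [h]
    have e2 : fderiv ℝ (fun y => max (- φ y) 0) x = 0 := by
      apply IsLocalMin.fderiv_eq_zero
      exact Eventually.of_forall fun y => by simp [h]
    rw [e1, e2]
    simp
  · have h1 : ∀ᶠ y in 𝓝 x, 0 < φ y := continuousAt_const.eventually_lt hφ.continuousAt h
    have e1 : (fun y => max (φ y) 0) =ᶠ[𝓝 x] φ :=
      h1.mono fun y hy => max_eq_left hy.le
    have e2 : (fun y => max (- φ y) 0) =ᶠ[𝓝 x] fun _ => (0 : ℝ) :=
      h1.mono fun y hy => max_eq_right (by linarith)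
    rw [e1.fderiv_eq, e2.fderiv_eq]
    simp

private theorem meas_fd {ρ : ℂ → ENNReal} (hρ : Measurable ρ) (f : ℂ → ℝ) :
    Measurable fun x => ρ x * ENNReal.ofReal ‖fderiv ℝ f x‖ :=
  hρ.mul (measurable_fderiv ℝ f).norm.ennreal_ofReal

private theorem ell_add_le {ρ : ℂ → ENNReal} (hρ : Measurable ρ) {A B u w : ℂ → ℝ}
    (h : ∀ᵐ x : ℂ, ‖fderiv ℝ A x‖ + ‖fderiv ℝ B x‖ ≤ ‖fderiv ℝ u x‖ + ‖fderiv ℝ w x‖) :
    ell ρ A + ell ρ B ≤ ell ρ u + ell ρ w := by
  unfold ell
  rw [← lintegral_add_left (meas_fd hρ A), ← lintegral_add_left (meas_fd hρ u)]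
  refine lintegral_mono_ae (h.mono fun x hx => ?_)
  rw [← mul_add, ← mul_add, ← ENNReal.ofReal_add (norm_nonneg _) (norm_nonneg _),
    ← ENNReal.ofReal_add (norm_nonneg _) (norm_nonneg _)]
  exact mul_le_mul_right (ENNReal.ofReal_le_ofReal hx) _

theorem ell_diff {ρ : ℂ → ENNReal} (hρ : Measurable ρ) {u w : ℂ → ℝ} {K K' : NNReal} (hu : LipschitzWith K u)
    (hw : LipschitzWith K' w) :
    ell ρ (fun y => max (u y - w y) 0) + ell ρ (fun y => max (w y - u y) 0) ≤ ell ρ u + ell ρ w := by
  refine ell_add_le hρ ?_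
  filter_upwards [hu.ae_differentiableAt, hw.ae_differentiableAt] with x hux hwx
  have h1 := fd_pos (φ := fun y => u y - w y) (hu.continuous.sub hw.continuous) x
  have h2 : (fun y => max (-(u y - w y)) 0) = fun y => max (w y - u y) 0 := by
    funext y
    rw [neg_sub]
  rw [h2] at h1
  refine h1.trans ?_
  rw [fderiv_fun_sub hux hwx]
  exact norm_sub_le _ _

theorem ell_minmax {ρ : ℂ → ENNReal} (hρ : Measurable ρ) {u w : ℂ → ℝ} {K K' : NNReal} (hu : LipschitzWith K u)
    (hw : LipschitzWith K' w) :
    ell ρ (fun y => max (u y) (w y)) + ell ρ (fun y => min (u y) (w y)) ≤ ell ρ u + ell ρ w := by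
  refine ell_add_le hρ ?_
  filter_upwards [hu.ae_differentiableAt, hw.ae_differentiableAt] with x hux hwx
  rcases lt_trichotomy (u x) (w x) with h | h | h
  · have h1 : ∀ᶠ y in 𝓝 x, u y < w y :=
      hu.continuous.continuousAt.eventually_lt hw.continuous.continuousAt h
    have e1 : (fun y => max (u y) (w y)) =ᶠ[𝓝 x] w := h1.mono fun y hy => max_eq_right hy.le
    have e2 : (fun y => min (u y) (w y)) =ᶠ[𝓝 x] u := h1.mono fun y hy => min_eq_left hy.le
    rw [e1.fderiv_eq, e2.fderiv_eq, add_comm]
  · set pp : ℂ → ℝ := fun y => max (u y - w y) 0 with hpp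
    have hM : (fun y => max (u y) (w y)) = fun y => w y + pp y := by
      funext y
      simp only [hpp]
      rcases le_total (u y) (w y) with h2 | h2
      · rw [max_eq_right h2, max_eq_right (by linarith)]
        ring
      · rw [max_eq_left h2, max_eq_left (by linarith)]
        ring
    have hm : (fun y => min (u y) (w y)) = fun y => u y - pp y := by
      funext y
      simp only [hpp]
      rcases le_total (u y) (w y) with h2 | h2
      · rw [min_eq_left h2, max_eq_right (by linarith)]
        ring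
      · rw [min_eq_right h2, max_eq_left (by linarith)]
        ring
    have hp0 : fderiv ℝ pp x = 0 := by
      apply IsLocalMin.fderiv_eq_zero
      exact Eventually.of_forall fun y => by simp [hpp, h]
    by_cases hd : DifferentiableAt ℝ pp x
    · rw [hM, hm, fderiv_fun_add hwx hd, fderiv_fun_sub hux hd, hp0, add_zero, sub_zero, add_comm]
    · have h3 : ¬ DifferentiableAt ℝ (fun y => w y + pp y) x := by
        intro h4
        apply hd
        have h5 := h4.sub hwx
        refine h5.congr_of_eventuallyEq (Eventually.of_forall fun y => ?_)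
        simp
      have h4 : ¬ DifferentiableAt ℝ (fun y => u y - pp y) x := by
        intro h4
        apply hd
        have h5 := hux.sub h4
        refine h5.congr_of_eventuallyEq (Eventually.of_forall fun y => ?_)
        simp
      rw [hM, hm, fderiv_zero_of_not_differentiableAt h3, fderiv_zero_of_not_differentiableAt h4,
        norm_zero, add_zero]
      exact add_nonneg (norm_nonneg _) (norm_nonneg _)
  · have h1 : ∀ᶠ y in 𝓝 x, w y < u y :=
      hw.continuous.continuousAt.eventually_lt hu.continuous.continuousAt h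
    have e1 : (fun y => max (u y) (w y)) =ᶠ[𝓝 x] u := h1.mono fun y hy => max_eq_left hy.le
    have e2 : (fun y => min (u y) (w y)) =ᶠ[𝓝 x] w := h1.mono fun y hy => min_eq_right hy.le
    rw [e1.fderiv_eq, e2.fderiv_eq]

theorem trc_fd {w : ℂ → ℝ} (hw : Continuous w) {a b : ℝ} (hab : a < b) (x : ℂ) :
    ‖fderiv ℝ (trc a b w) x‖ ≤ (b - a)⁻¹ * ‖fderiv ℝ w x‖ ∧
      (¬ (a < w x ∧ w x < b) → fderiv ℝ (trc a b w) x = 0) := by
  have hba : 0 < b - a := sub_pos.2 hab
  have hnn : 0 ≤ (b - a)⁻¹ * ‖fderiv ℝ w x‖ := mul_nonneg (inv_nonneg.2 hba.le) (norm_nonneg _)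
  by_cases h1 : a < w x
  · by_cases h2 : w x < b
    · refine ⟨?_, fun h => absurd ⟨h1, h2⟩ h⟩
      have e1 : ∀ᶠ y in 𝓝 x, a < w y := continuousAt_const.eventually_lt hw.continuousAt h1
      have e2 : ∀ᶠ y in 𝓝 x, w y < b := hw.continuousAt.eventually_lt continuousAt_const h2
      have e3 : trc a b w =ᶠ[𝓝 x] ((b - a)⁻¹ • fun y => w y - a) := by
        filter_upwards [e1, e2] with y h3 h4
        have h5 : 0 ≤ (w y - a) / (b - a) := div_nonneg (by linarith) hba.le
        have h6 : (w y - a) / (b - a) ≤ 1 := (div_le_one hba).2 (by linarith)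
        simp only [trc, Pi.smul_apply, smul_eq_mul]
        rw [min_eq_right h6, max_eq_right h5, div_eq_inv_mul]
      rw [e3.fderiv_eq, fderiv_const_smul_field, Pi.smul_apply, fderiv_sub_const, norm_smul,
        Real.norm_of_nonneg (inv_nonneg.2 hba.le)]
    · have h3 : fderiv ℝ (trc a b w) x = 0 := by
        apply IsLocalMax.fderiv_eq_zero
        refine Eventually.of_forall fun y => ?_
        have h4 : 1 ≤ (w x - a) / (b - a) := (one_le_div hba).2 (by linarith)
        simp only [trc]
        rw [min_eq_left h4, max_eq_right zero_le_one]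
        exact max_le zero_le_one (min_le_left _ _)
      exact ⟨by rw [h3, norm_zero]; exact hnn, fun _ => h3⟩
  · have h3 : fderiv ℝ (trc a b w) x = 0 := by
      apply IsLocalMin.fderiv_eq_zero
      refine Eventually.of_forall fun y => ?_
      have h4 : (w x - a) / (b - a) ≤ 0 := div_nonpos_of_nonpos_of_nonneg (by linarith) hba.le
      simp only [trc]
      rw [max_eq_left ((min_le_right _ _).trans h4)]
      exact le_max_left _ _
    exact ⟨by rw [h3, norm_zero]; exact hnn, fun _ => h3⟩

theorem ell_trc {ρ : ℂ → ENNReal} {w : ℂ → ℝ} (hw : Continuous w) {a b : ℝ} (hab : a < b) :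
    ell ρ (trc a b w) ≤ ENNReal.ofReal (b - a)⁻¹ * ell' ρ w a b := by
  have hba : 0 < b - a := sub_pos.2 hab
  have hS : MeasurableSet {x | a < w x ∧ w x < b} :=
    ((isOpen_lt continuous_const hw).inter (isOpen_lt hw continuous_const)).measurableSet
  unfold ell ell'
  rw [← lintegral_indicator hS, ← lintegral_const_mul' _ _ ENNReal.ofReal_ne_top]
  refine lintegral_mono fun x => ?_
  by_cases hx : a < w x ∧ w x < b
  · have hx' : x ∈ {x | a < w x ∧ w x < b} := hx
    simp only [indicator_of_mem hx']
    rw [mul_left_comm]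
    refine mul_le_mul_right ?_ _
    rw [← ENNReal.ofReal_mul (inv_nonneg.2 hba.le)]
    exact ENNReal.ofReal_le_ofReal (trc_fd hw hab x).1
  · have hx' : x ∉ {x | a < w x ∧ w x < b} := hx
    simp only [indicator_of_notMem hx']
    rw [(trc_fd hw hab x).2 hx]
    simp

end Pool.Agent.H81.RW
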