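import Pool.Agent.H81.RW.Ub
import Pool.Agent.H81.RW.Var

/-!
# Module Lev: the choice of levels

PROOFS. `ellp_add`: the sets `{a < w < b}`, `{b < w < c}` are disjoint, measurable (`w` continuous), contained in `{a < w < c}`: `lintegral_union` (the second set is measurable), `lintegral_mono_set`.
`ellp_le`: `setLIntegral_le_lintegral`. `fin_val`: `P` compact, every point of `P` has a neighbourhood where `w` is constant: finitely many cover `P` (`IsCompact.elim_nhds_subcover`).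
`lev_pick`: induction on the number of elements of `F ∩ Ioo a₀ b₀` (finite): none: take `a₀`, `b₀`. Otherwise `s` in it: `m a₀ s + m s b₀ ≤ m a₀ b₀`, so one of `m a₀ s ≤ ofReal ((s - a₀) / (b₀ - a₀)) * m a₀ b₀`,
`m s b₀ ≤ ofReal ((b₀ - s) / (b₀ - a₀)) * m a₀ b₀` holds (the two factors have sum `1`; if `m a₀ b₀ = ⊤` both hold because the factors are positive); apply the induction hypothesis to this interval and multiply the factors.
`lev_um`: `F = w '' P`, `m = ell' ρ w`, interval `[0, B]`; `um_trc`, `ell_trc`.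
-/

set_option autoImplicit false

open Filter Topology Metric Set MeasureTheory

namespace Pool.Agent.H81.RW

open Pool.Agent.H56.TH

theorem ellp_add {ρ : ℂ → ENNReal} {w : ℂ → ℝ} (hw : Continuous w) {a b c : ℝ} (hab : a ≤ b) (hbc : b ≤ c) :
    ell' ρ w a b + ell' ρ w b c ≤ ell' ρ w a c := by
  have h1 : MeasurableSet {x | b < w x ∧ w x < c} :=
    ((isOpen_lt continuous_const hw).inter (isOpen_lt hw continuous_const)).measurableSet
  have h2 : Disjoint {x | a < w x ∧ w x < b} {x | b < w x ∧ w x < c} := by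
    rw [Set.disjoint_left]
    rintro x ⟨_, h3⟩ ⟨h4, _⟩
    exact absurd (h3.trans h4) (lt_irrefl _)
  unfold ell'
  rw [← lintegral_union h1 h2]
  refine lintegral_mono_set ?_
  rintro x (⟨h3, h4⟩ | ⟨h3, h4⟩)
  · exact ⟨h3, lt_of_lt_of_le h4 hbc⟩
  · exact ⟨lt_of_le_of_lt hab h3, h4⟩

theorem ellp_le {ρ : ℂ → ENNReal} {w : ℂ → ℝ} {a b : ℝ} : ell' ρ w a b ≤ ell ρ w := by
  exact setLIntegral_le_lintegral _ _

theorem fin_val {P : Set ℂ} (hP : IsCompact P) {w : ℂ → ℝ} (hl : ∀ x ∈ P, ∀ᶠ y in 𝓝 x, w y = w x) :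
    (w '' P).Finite := by
  obtain ⟨t, _, ht⟩ := hP.elim_nhds_subcover (fun x => {y | w y = w x}) hl
  refine (t.finite_toSet.image w).subset ?_
  rintro _ ⟨y, hy, rfl⟩
  obtain ⟨x, hx, hxy⟩ := Set.mem_iUnion₂.1 (ht hy)
  exact ⟨x, hx, hxy.symm⟩

theorem lev_pick {F : Set ℝ} (hF : F.Finite) {m : ℝ → ℝ → ENNReal}
    (hm : ∀ a b c : ℝ, a ≤ b → b ≤ c → m a b + m b c ≤ m a c) {a₀ b₀ : ℝ} (h : a₀ < b₀) :
    ∃ a b : ℝ, a₀ ≤ a ∧ a < b ∧ b ≤ b₀ ∧ (∀ s ∈ F, s ≤ a ∨ b ≤ s) ∧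
      m a b ≤ ENNReal.ofReal ((b - a) / (b₀ - a₀)) * m a₀ b₀ := by
  classical
  obtain ⟨n, hn⟩ : ∃ n : ℕ, (hF.subset (Set.inter_subset_left : F ∩ Set.Ioo a₀ b₀ ⊆ F)).toFinset.card ≤ n :=
    ⟨_, le_rfl⟩
  induction n generalizing a₀ b₀ with
  | zero =>
    refine ⟨a₀, b₀, le_rfl, h, le_rfl, fun s hs => ?_, ?_⟩
    · by_contra hcon
      push Not at hcon
      have h1 : s ∈ (hF.subset (Set.inter_subset_left : F ∩ Set.Ioo a₀ b₀ ⊆ F)).toFinset := by
        rw [Set.Finite.mem_toFinset]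
        exact ⟨hs, hcon.1, hcon.2⟩
      have h2 := Finset.card_pos.2 ⟨s, h1⟩
      omega
    · rw [div_self (sub_pos.2 h).ne', ENNReal.ofReal_one, one_mul]
  | succ n ih =>
    by_cases hne : ∃ s ∈ F, a₀ < s ∧ s < b₀
    · obtain ⟨s, hsF, h1, h2⟩ := hne
      have hb0 : 0 < b₀ - a₀ := sub_pos.2 h
      have hcard : ∀ a b : ℝ, a₀ ≤ a → b ≤ b₀ → (s ≤ a ∨ b ≤ s) →
          (hF.subset (Set.inter_subset_left : F ∩ Set.Ioo a b ⊆ F)).toFinset.card ≤ n := by
        intro a b ha hb hs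
        have h3 : (hF.subset (Set.inter_subset_left : F ∩ Set.Ioo a b ⊆ F)).toFinset ⊂
            (hF.subset (Set.inter_subset_left : F ∩ Set.Ioo a₀ b₀ ⊆ F)).toFinset := by
          rw [Finset.ssubset_iff_of_subset]
          · refine ⟨s, ?_, ?_⟩
            · rw [Set.Finite.mem_toFinset]
              exact ⟨hsF, h1, h2⟩
            · rw [Set.Finite.mem_toFinset]
              rintro ⟨_, h4, h5⟩
              rcases hs with hs | hs
              · exact absurd (lt_of_lt_of_le h4 hs) (lt_irrefl _)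
              · exact absurd (lt_of_lt_of_le h5 hs) (lt_irrefl _)
          · intro x hx
            rw [Set.Finite.mem_toFinset] at hx ⊢
            exact ⟨hx.1, lt_of_le_of_lt ha hx.2.1, lt_of_lt_of_le hx.2.2 hb⟩
        have h4 := Finset.card_lt_card h3
        omega
      have hor : m a₀ s ≤ ENNReal.ofReal ((s - a₀) / (b₀ - a₀)) * m a₀ b₀ ∨
          m s b₀ ≤ ENNReal.ofReal ((b₀ - s) / (b₀ - a₀)) * m a₀ b₀ := by
        by_contra hcon
        push Not at hcon
        have h3 := ENNReal.add_lt_add hcon.1 hcon.2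
        rw [← add_mul, ← ENNReal.ofReal_add (div_nonneg (by linarith) hb0.le) (div_nonneg (by linarith) hb0.le),
          ← add_div, show s - a₀ + (b₀ - s) = b₀ - a₀ by ring, div_self hb0.ne', ENNReal.ofReal_one, one_mul] at h3
        exact absurd (lt_of_lt_of_le h3 (hm a₀ s b₀ h1.le h2.le)) (lt_irrefl _)
      have key : ∀ a b u v : ℝ, a < b → u < v → m u v ≤ ENNReal.ofReal ((v - u) / (b₀ - a₀)) * m a₀ b₀ →
          m a b ≤ ENNReal.ofReal ((b - a) / (v - u)) * m u v →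
          m a b ≤ ENNReal.ofReal ((b - a) / (b₀ - a₀)) * m a₀ b₀ := by
        intro a b u v hab huv h3 h4
        have huv' : 0 < v - u := sub_pos.2 huv
        refine h4.trans ((mul_le_mul_right h3 _).trans ?_)
        rw [← mul_assoc, ← ENNReal.ofReal_mul (div_nonneg (by linarith) huv'.le)]
        refine le_of_eq ?_
        congr 2
        field_simp
      rcases hor with h3 | h3
      · obtain ⟨a, b, ha, hab, hb, hF', hm'⟩ := ih h1 (hcard a₀ s le_rfl h2.le (Or.inr le_rfl))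
        exact ⟨a, b, ha, hab, hb.trans h2.le, hF', key a b a₀ s hab h1 h3 hm'⟩
      · obtain ⟨a, b, ha, hab, hb, hF', hm'⟩ := ih h2 (hcard s b₀ h1.le le_rfl (Or.inl le_rfl))
        exact ⟨a, b, h1.le.trans ha, hab, hb, hF', key a b s b₀ hab h2 h3 hm'⟩
    · push Not at hne
      refine ⟨a₀, b₀, le_rfl, h, le_rfl, fun s hs => ?_, ?_⟩
      · rcases le_or_gt s a₀ with h1 | h1
        · exact Or.inl h1
        · exact Or.inr (hne s hs h1)
      · rw [div_self (sub_pos.2 h).ne', ENNReal.ofReal_one, one_mul]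

theorem lev_um {ρ : ℂ → ENNReal} {P : Set ℂ} (hP : IsCompact P) {w : ℂ → ℝ} (h : UL P w) {B : ℝ} (hB : 0 < B) :
    ∃ a b : ℝ, 0 ≤ a ∧ a < b ∧ b ≤ B ∧ UM P (trc a b w) ∧
      ell ρ (trc a b w) ≤ ENNReal.ofReal B⁻¹ * ell ρ w := by
  have hw : Continuous w := ul_cont h
  obtain ⟨a, b, ha, hab, hb, hF, hm⟩ := lev_pick (fin_val hP h.lc) (m := ell' ρ w)
    (fun a b c h1 h2 => ellp_add hw h1 h2) hB
  refine ⟨a, b, ha, hab, hb, um_trc h ha hab fun x hx => hF _ ⟨x, hx, rfl⟩, ?_⟩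
  have hba : 0 < b - a := sub_pos.2 hab
  calc ell ρ (trc a b w) ≤ ENNReal.ofReal (b - a)⁻¹ * ell' ρ w a b := ell_trc hw hab
    _ ≤ ENNReal.ofReal (b - a)⁻¹ * (ENNReal.ofReal ((b - a) / (B - 0)) * ell' ρ w 0 B) := mul_le_mul_right hm _
    _ = ENNReal.ofReal B⁻¹ * ell' ρ w 0 B := by
        rw [← mul_assoc, ← ENNReal.ofReal_mul (inv_nonneg.2 hba.le)]
        congr 2
        rw [sub_zero]
        field_simp
    _ ≤ ENNReal.ofReal B⁻¹ * ell ρ w := mul_le_mul_right ellp_le _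

end Pool.Agent.H81.RW
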