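import Pool.Agent.H81.RW.Ub
import Pool.Agent.H81.RW.Var
import Pool.Agent.H81.RW.Lev

/-!
# Module Cutl: truncations of near minimal functions, THE CUT

`tnr`. PROOF. `ell' ρ u a b + (lower bounds for ell' ρ u 0 a and ell' ρ u b 1) ≤ ell ρ u` (`ellp_add` twice, `ellp_le`); for `a > 0`: `trc 0 a u` is unimodal, `trc 0 a u v = 1`, so `ofReal (Λ - ε) ≤ ell ρ (trc 0 a u) ≤ ofReal a⁻¹ * ell' ρ u 0 a`; the same for `b < 1`. So `ell' ρ u a b ≤ ofReal (Λ + δ₁ - (1 - (b - a)) (Λ - ε)) ≤ ofReal ((b - a) Λ + δ₁ + ε)`.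
`ext_um`. EXTRACTION: `q` Lipschitz, `0 ≤ q ≤ 1`, compact support, locally constant near `P`, `q x = 1`, `0 < B ≤ 1`: `exf q x` is `UL` (`ul_exf`), `lev_um` gives `a < b ≤ B`, `w' = trc a b (exf q x)`; `exf q x x = 1 ≥ b`, so `w' x = 1`; `ell ρ w' ≤ ofReal B⁻¹ * ell ρ (exf q x) ≤ ofReal B⁻¹ * ell ρ q` (`exf_ell`). If `0 < w' y` then `y ∈ oc q x a` (`exf_gt`).
`cutl`. Let `q y = max (w y - u y) 0`, `q₂ y = max (u y - w y) 0`: `ell_diff`: `ell ρ q + ell ρ q₂ ≤ ell ρ w + ell ρ u`. `ext_um` for `q₂` at `p` (`q₂ p = 1`, `B = 1`): a unimodal function with value `1` at `p`, positive only where... `oc q₂ p a ⊆ {0 < u}` (`oc_sub`, `ul_fu`, `{a < q₂} ⊆ {0 < u}`), so `hlow` gives `ofReal (Λ - ε) ≤ ell ρ q₂`. `ext_um` for `q` at `z` with `B`.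
`w' v = 0`: if `0 < w' v` then `v ∈ oc q z t` for some `t` with `0 ≤ a < t` (`exf_gt`), `t < q z ≤ 1` (`oc_lt`). `C = {1 - t < u}` is preconnected, contains `v` and `p`. `p ∉ oc q z t` because `oc q z t ⊆ {t < w}` (`oc_sub`: full, `{t < q} ⊆ {t < w}`) and `w p = 0`. On `frontier (oc q z t) ⊆ {q = t}`: `w y - u y = t`, `u y = w y - t ≤ 1 - t`: `C` does not meet it. `sub_of_meets` (H81/RW/Sub):
`C ⊆ oc q z t` or disjoint; as `p ∈ C`, `p ∉ oc`, disjoint: `v ∉ oc q z t`, contradiction. `{0 < w'} ⊆ {0 < w}`: `oc_sub` again.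
`oc_out`: the same statement for `oc`.
-/

set_option autoImplicit false

open Filter Topology Metric Set MeasureTheory

namespace Pool.Agent.H81.RW

open Pool.Agent.H56.TH

variable {P : Set ℂ} {ρ : ℂ → ENNReal}

private theorem low {Λ ε : ℝ} {v : ℂ} {u : ℂ → ℝ} (hu : UM P u) (huv : u v = 1)
    (hlow : ∀ w : ℂ → ℝ, UM P w → w v = 1 → (∀ y, 0 < w y → 0 < u y) → ENNReal.ofReal (Λ - ε) ≤ ell ρ w)
    {a b : ℝ} (ha : 0 ≤ a) (hab : a < b) (hb : b ≤ 1) : ENNReal.ofReal ((b - a) * (Λ - ε)) ≤ ell' ρ u a b := by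
  have hba : 0 < b - a := sub_pos.2 hab
  have hc : Continuous u := ul_cont (ul_um hu)
  have h1 : UM P (trc a b u) := um_trc (ul_um hu) ha hab fun x hx =>
    (hu.va x hx).imp (fun h => by rw [h]; exact ha) (fun h => by rw [h]; exact hb)
  have h2 : ENNReal.ofReal (Λ - ε) ≤ ell ρ (trc a b u) := by
    refine hlow _ h1 (trc_one hab (by rw [huv]; exact hb)) fun y hy => ?_
    have h3 : y ∈ {x | (0 : ℝ) < trc a b u x} := hy
    rw [trc_gt hab le_rfl zero_lt_one] at h3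
    have h4 : a + 0 * (b - a) < u y := h3
    linarith
  calc ENNReal.ofReal ((b - a) * (Λ - ε)) = ENNReal.ofReal (b - a) * ENNReal.ofReal (Λ - ε) :=
        ENNReal.ofReal_mul hba.le
    _ ≤ ENNReal.ofReal (b - a) * (ENNReal.ofReal (b - a)⁻¹ * ell' ρ u a b) :=
        mul_le_mul_right (h2.trans (ell_trc hc hab)) _
    _ = ell' ρ u a b := by
        rw [← mul_assoc, ← ENNReal.ofReal_mul hba.le, mul_inv_cancel₀ hba.ne', ENNReal.ofReal_one, one_mul]

theorem tnr {Λ ε δ₁ : ℝ} {v : ℂ} {u : ℂ → ℝ} (hu : UM P u) (huv : u v = 1) (hΛ : 0 ≤ Λ) (hε : 0 < ε) (hδ₁ : 0 ≤ δ₁)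
    (hl : ell ρ u ≤ ENNReal.ofReal (Λ + δ₁))
    (hlow : ∀ w : ℂ → ℝ, UM P w → w v = 1 → (∀ y, 0 < w y → 0 < u y) → ENNReal.ofReal (Λ - ε) ≤ ell ρ w)
    {a b : ℝ} (ha : 0 ≤ a) (hab : a < b) (hb : b ≤ 1) :
    ell' ρ u a b ≤ ENNReal.ofReal ((b - a) * Λ + δ₁ + ε) ∧ UM P (trc a b u) ∧ trc a b u v = 1 ∧
      ell ρ (trc a b u) ≤ ENNReal.ofReal (Λ + (δ₁ + ε) / (b - a)) := by
  have hba : 0 < b - a := sub_pos.2 hab
  have hc : Continuous u := ul_cont (ul_um hu)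
  have hfin : ∀ s t : ℝ, ell' ρ u s t ≠ ⊤ := fun s t =>
    ((ellp_le.trans hl).trans_lt ENNReal.ofReal_lt_top).ne
  have h1 : ell' ρ u 0 a + ell' ρ u a b + ell' ρ u b 1 ≤ ENNReal.ofReal (Λ + δ₁) :=
    ((add_le_add_left (ellp_add hc ha hab.le) _).trans ((ellp_add hc (ha.trans hab.le) hb).trans ellp_le)).trans hl
  have hlo : ∀ s t : ℝ, 0 ≤ s → s ≤ t → t ≤ 1 → (t - s) * (Λ - ε) ≤ (ell' ρ u s t).toReal := by
    intro s t hs hst ht
    rcases hst.lt_or_eq with h | h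
    · exact (ENNReal.ofReal_le_iff_le_toReal (hfin s t)).1 (low hu huv hlow hs h ht)
    · rw [h, sub_self, zero_mul]
      exact ENNReal.toReal_nonneg
  have h2 : (ell' ρ u 0 a).toReal + (ell' ρ u a b).toReal + (ell' ρ u b 1).toReal ≤ Λ + δ₁ := by
    rw [← ENNReal.toReal_add (hfin _ _) (hfin _ _),
      ← ENNReal.toReal_add (ENNReal.add_ne_top.2 ⟨hfin _ _, hfin _ _⟩) (hfin _ _)]
    exact ENNReal.toReal_le_of_le_ofReal (by linarith) h1
  have h3 := hlo 0 a le_rfl ha (hab.le.trans hb)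
  have h4 := hlo b 1 (ha.trans hab.le) hb le_rfl
  have h5 : ell' ρ u a b ≤ ENNReal.ofReal ((b - a) * Λ + δ₁ + ε) := by
    rw [← ENNReal.ofReal_toReal (hfin a b)]
    refine ENNReal.ofReal_le_ofReal ?_
    nlinarith [mul_nonneg (sub_nonneg.2 hab.le) hε.le]
  refine ⟨h5, um_trc (ul_um hu) ha hab fun x hx =>
    (hu.va x hx).imp (fun h => by rw [h]; exact ha) (fun h => by rw [h]; exact hb),
    trc_one hab (by rw [huv]; exact hb), ?_⟩
  calc ell ρ (trc a b u) ≤ ENNReal.ofReal (b - a)⁻¹ * ell' ρ u a b := ell_trc hc hab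
    _ ≤ ENNReal.ofReal (b - a)⁻¹ * ENNReal.ofReal ((b - a) * Λ + δ₁ + ε) := mul_le_mul_right h5 _
    _ = ENNReal.ofReal (Λ + (δ₁ + ε) / (b - a)) := by
        rw [← ENNReal.ofReal_mul (inv_nonneg.2 hba.le)]
        congr 1
        field_simp
        ring

theorem ext_um (hP : IsCompact P) {q : ℂ → ℝ} {K : NNReal} (hK : LipschitzWith K q) (h0 : ∀ x, 0 ≤ q x)
    (h1 : ∀ x, q x ≤ 1) (hs : HasCompactSupport q) (hl : ∀ x ∈ P, ∀ᶠ y in 𝓝 x, q y = q x) {x : ℂ} (hx : q x = 1)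
    {B : ℝ} (hB : 0 < B) (hB1 : B ≤ 1) :
    ∃ a b : ℝ, 0 ≤ a ∧ a < b ∧ b ≤ B ∧ UM P (trc a b (exf q x)) ∧ trc a b (exf q x) x = 1 ∧
      (∀ y, 0 < trc a b (exf q x) y → y ∈ oc q x a) ∧
      ell ρ (trc a b (exf q x)) ≤ ENNReal.ofReal B⁻¹ * ell ρ q := by
  obtain ⟨a, b, ha, hab, hb, hU, hL⟩ := lev_um (ρ := ρ) hP (ul_exf hK h0 h1 hs hl x) hB
  refine ⟨a, b, ha, hab, hb, hU, trc_one hab ?_, fun y hy => ?_, hL.trans (mul_le_mul_right (exf_ell hK x) _)⟩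
  · rw [exf_self (h0 x), hx]
    exact hb.trans hB1
  · have h3 : y ∈ {z | (0 : ℝ) < trc a b (exf q x) z} := hy
    rw [trc_gt hab le_rfl zero_lt_one] at h3
    have h4 : a + 0 * (b - a) < exf q x y := h3
    obtain ⟨t, ht, hy'⟩ := (exf_gt ha).1 (show a < exf q x y by linarith)
    exact oc_mono q x ht.le hy'

theorem oc_out {w u : ℂ → ℝ} (hw : UM P w) (hu : UM P u) {v p z : ℂ} (hv : u v = 1) (hp : u p = 1) (hwp : w p = 0)
    {t : ℝ} (ht : 0 < t) (ht1 : t < 1) : v ∉ oc (fun y => max (w y - u y) 0) z t ∧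
      oc (fun y => max (w y - u y) 0) z t ⊆ {y | t < w y} := by
  have hcw : Continuous w := ul_cont (ul_um hw)
  have hcu : Continuous u := ul_cont (ul_um hu)
  have hcq : Continuous fun y => max (w y - u y) 0 := (hcw.sub hcu).max continuous_const
  have hsub : oc (fun y => max (w y - u y) 0) z t ⊆ {y | t < w y} := by
    refine oc_sub (hw.fu t ht ht1) fun y hy => ?_
    have h1 : t < max (w y - u y) 0 := hy
    have h2 := hu.lo y
    rcases lt_max_iff.1 h1 with h3 | h3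
    · show t < w y
      linarith
    · exact absurd ht h3.not_gt
  refine ⟨fun hvo => ?_, hsub⟩
  have hC : IsPreconnected {y | 1 - t < u y} := hu.co (1 - t) (by linarith) (by linarith)
  have h1 : {y | 1 - t < u y} ⊆ oc (fun y => max (w y - u y) 0) z t := by
    refine sub_of_meets (oc_open hcq z t) hC ⟨v, ?_, hvo⟩ ?_
    · show 1 - t < u v
      linarith
    · rw [Set.disjoint_left]
      intro y hy hyf
      have h2 : max (w y - u y) 0 = t := oc_front hcq z t hyf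
      have h3 : 1 - t < u y := hy
      have h4 := hw.hi y
      rcases max_choice (w y - u y) 0 with h5 | h5
      · linarith
      · linarith
  have h2 : t < w p := hsub (h1 (show 1 - t < u p by linarith))
  linarith

private theorem qf {w u : ℂ → ℝ} (hw : UM P w) (hu : UM P u) :
    (∃ K : NNReal, LipschitzWith K fun y => max (w y - u y) 0) ∧ (∀ x, 0 ≤ max (w x - u x) 0) ∧
      (∀ x, max (w x - u x) 0 ≤ 1) ∧ HasCompactSupport (fun y => max (w y - u y) 0) ∧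
      ∀ x ∈ P, ∀ᶠ y in 𝓝 x, max (w y - u y) 0 = max (w x - u x) 0 := by
  obtain ⟨K, hK⟩ := hw.lip
  obtain ⟨K', hK'⟩ := hu.lip
  refine ⟨⟨K + K', (hK.sub hK').max_const 0⟩, fun x => le_max_right _ _, fun x => ?_, ?_, fun x hx => ?_⟩
  · refine max_le ?_ zero_le_one
    have h1 := hw.hi x
    have h2 := hu.lo x
    linarith
  · refine hw.cs.mono fun x hx => ?_
    intro h0
    refine hx (max_eq_right ?_)
    have h2 := hu.lo x
    linarith
  · filter_upwards [hw.lc x hx, hu.lc x hx] with y h1 h2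
    rw [h1, h2]

theorem cutl (hρ : Measurable ρ) (hP : IsCompact P) {w u : ℂ → ℝ} (hw : UM P w) (hu : UM P u) {v p z : ℂ}
    (huv : u v = 1) (hpP : p ∈ P) (hp : u p = 1) (hwp : w p = 0) (hwz : w z = 1) (huz : u z = 0) {Λ ε : ℝ}
    (hlow : ∀ w' : ℂ → ℝ, UM P w' → w' p = 1 → (∀ y, 0 < w' y → 0 < u y) → ENNReal.ofReal (Λ - ε) ≤ ell ρ w')
    {B : ℝ} (hB : 0 < B) (hB1 : B ≤ 1) :
    ∃ a b : ℝ, 0 ≤ a ∧ a < b ∧ b ≤ B ∧ UM P (trc a b (exf (fun y => max (w y - u y) 0) z)) ∧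
      trc a b (exf (fun y => max (w y - u y) 0) z) z = 1 ∧ trc a b (exf (fun y => max (w y - u y) 0) z) v = 0 ∧
      (∀ y, 0 < trc a b (exf (fun y => max (w y - u y) 0) z) y → 0 < w y) ∧
      ENNReal.ofReal B * ell ρ (trc a b (exf (fun y => max (w y - u y) 0) z)) + ENNReal.ofReal (Λ - ε) ≤
        ell ρ w + ell ρ u := by
  obtain ⟨⟨K, hK⟩, q0, q1, qs, ql⟩ := qf hw hu
  obtain ⟨⟨K₂, hK₂⟩, r0, r1, rs, rl⟩ := qf hu hw
  obtain ⟨Kw, hKw⟩ := hw.lip
  obtain ⟨Ku, hKu⟩ := hu.lip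
  have hsum := ell_diff hρ hKw hKu
  have hqz : max (w z - u z) 0 = 1 := by
    rw [hwz, huz, sub_zero]
    exact max_eq_left zero_le_one
  have hrp : max (u p - w p) 0 = 1 := by
    rw [hwp, hp, sub_zero]
    exact max_eq_left zero_le_one
  obtain ⟨a₂, b₂, ha₂, hab₂, -, hU₂, hV₂, hS₂, hL₂⟩ :=
    ext_um (ρ := ρ) hP hK₂ r0 r1 rs rl (x := p) hrp zero_lt_one le_rfl
  obtain ⟨a, b, ha, hab, hb, hU, hV, hS, hL⟩ := ext_um (ρ := ρ) hP hK q0 q1 qs ql (x := z) hqz hB hB1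
  have hlo : ENNReal.ofReal (Λ - ε) ≤ ell ρ fun y => max (u y - w y) 0 := by
    have h1 := hlow _ hU₂ hV₂ fun y hy => by
      have h2 : y ∈ {y | 0 < u y} := by
        refine oc_sub (ul_fu (ul_um hu) le_rfl) (fun y' hy' => ?_) (hS₂ y hy)
        have h3 : a₂ < max (u y' - w y') 0 := hy'
        have h4 := hw.lo y'
        rcases lt_max_iff.1 h3 with h5 | h5
        · show 0 < u y'
          linarith
        · exact absurd ha₂ h5.not_ge
      exact h2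
    refine (h1.trans hL₂).trans ?_
    rw [inv_one, ENNReal.ofReal_one, one_mul]
  have hout : ∀ y, 0 < trc a b (exf (fun y => max (w y - u y) 0) z) y → ∃ t, 0 < t ∧ t < 1 ∧
      y ∈ oc (fun y => max (w y - u y) 0) z t := by
    intro y hy
    have h3 : y ∈ {x | (0 : ℝ) < trc a b (exf (fun y => max (w y - u y) 0) z) x} := hy
    rw [trc_gt hab le_rfl zero_lt_one] at h3
    have h4 : a + 0 * (b - a) < exf (fun y => max (w y - u y) 0) z y := h3
    obtain ⟨t, ht, hy'⟩ := (exf_gt ha).1 (show a < exf (fun y => max (w y - u y) 0) z y by linarith)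
    refine ⟨t, ha.trans_lt ht, ?_, hy'⟩
    have h5 : t < max (w z - u z) 0 := oc_lt hy'
    rwa [hqz] at h5
  refine ⟨a, b, ha, hab, hb, hU, hV, ?_, fun y hy => ?_, ?_⟩
  · rcases (hU.lo v).lt_or_eq with h1 | h1
    · obtain ⟨t, h2, h3, h4⟩ := hout v h1
      exact absurd h4 (oc_out hw hu huv hp hwp h2 h3).1
    · exact h1.symm
  · obtain ⟨t, h2, h3, h4⟩ := hout y hy
    have h5 : t < w y := (oc_out hw hu huv hp hwp h2 h3).2 h4
    exact h2.trans h5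
  · refine le_trans (add_le_add ?_ hlo) hsum
    calc ENNReal.ofReal B * ell ρ (trc a b (exf (fun y => max (w y - u y) 0) z))
        ≤ ENNReal.ofReal B * (ENNReal.ofReal B⁻¹ * ell ρ fun y => max (w y - u y) 0) := mul_le_mul_right hL _
      _ = ell ρ fun y => max (w y - u y) 0 := by
        rw [← mul_assoc, ← ENNReal.ofReal_mul hB.le, mul_inv_cancel₀ hB.ne', ENNReal.ofReal_one, one_mul]

end Pool.Agent.H81.RW
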