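import Pool.Agent.H56.TH.MR
import Pool.Agent.H80.KQ.Quarter

/-!
# Module Rhl (LW, from PS to WW): LOWER BOUND FOR `rh` NEAR PREIMAGES OF `P`; LOGARITHMIC LIPSCHITZ BOUND

`rh_top`: `rh w = ⊤` for `w ∈ P` (`k = 0`, `z = w`, `(ofReal 0)⁻¹ = ⊤`).
`rh_lb`. PROOF. `w = f^[k] x`. `x = q`: the left side is `ofReal (1 / 0) = 0`. `w ∈ P`: `rh_top` and `deriv ≠ 0`. Otherwise `d = infDist w P > 0`, `ball w d` is disjoint from `P` and in `thickening δ J` (`d < δ / 2`, so its points are within `δ` of a point of `P`), `x ∈ dm k`; branch `G` on `ball w d`, `G w = x` (`FR.br`), univalent (`f^[k] ∘ G = id`), `deriv G w * deriv (f^[k]) x = 1`.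
`q ∉ G '' ball w d` (`f^[k] q ∈ P`). Koebe 1/4 (as in `rh_up`, H56/TH/MR): `ball x (d * ‖deriv G w‖ / 4) ⊆ G '' ball w d`, so `‖x - q‖ ≥ d * ‖deriv G w‖ / 4`, `1 / (4 * ‖x - q‖) ≤ ‖deriv (f^[k]) x‖ / d`, and `ofReal (1 / d) ≤ rh w` (`rh_lo`).
`rh_lg`. PROOF. `K` large (depending only on `KK` of H80/AJ/Distort). Let `z ∈ dm k`, `f^[k] z = y`, branch `G` on `ball x d` with `G y = z`, univalent; `z₀ = G x`, `f^[k] z₀ = x`. Distortion for the second derivative (Cauchy estimate for `G'` on the disc of radius `d / 2`, `‖G'‖ ≤ KK ‖G' x‖` there): `‖G' y - G' x‖ ≤ K₁ ‖y - x‖ / d * ‖G' x‖`, `‖G y - G x‖ ≤ K₁ ‖y - x‖ ‖G' x‖`.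
`infDist (G x) P ≥ d ‖G' x‖ / 4` (Koebe 1/4; `G` omits `P`: `P` is forward invariant, `fr_it`). The value at `y`: `(ofReal (‖(f^[k])' z‖ * infDist z P))⁻¹ = ofReal (‖G' y‖ / infDist (G y) P)`, and `‖G' y‖ / infDist (G y) P ≤ (1 + K₁ t) ‖G' x‖ / (infDist (G x) P - K₁ t d ‖G' x‖) ≤ (1 + K₁ t) / (1 - 4 K₁ t) * (‖G' x‖ / infDist (G x) P) ≤ (1 + K t) * rh x`, `t = ‖y - x‖ / d ≤ 1 / K`. Supremum over `k`, `z`.
-/

set_option autoImplicit false

open Filter Topology Metric Set MeasureTheory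

namespace Pool.Agent.H81.RW

open Pool.Agent.H56.TH Pool.Agent.H56.UD Pool.Agent.H80.AJ

variable {f : ℂ → ℂ} {U J P : Set ℂ} {δ : ℝ}

private theorem fr_itd (h : FR f U J P δ) {k : ℕ} {z : ℂ} (hz : z ∈ dm f U J δ k) :
    HasDerivAt (f^[k]) (deriv (f^[k]) z) z :=
  ((fr_diff h k z hz).differentiableAt ((fr_open h k).mem_nhds hz)).hasDerivAt

private theorem br_inj {G : ℂ → ℂ} {V : Set ℂ} {k : ℕ} (hG : ∀ u ∈ V, G u ∈ dm f U J δ k ∧ f^[k] (G u) = u) : InjOn G V := by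
  intro u hu u' hu' he
  have h1 := (hG u hu).2
  rw [he, (hG u' hu').2] at h1
  exact h1.symm

private theorem br_chain (h : FR f U J P δ) {G : ℂ → ℂ} {w u : ℂ} {d : ℝ} {k : ℕ} (hu : u ∈ ball w d)
    (hd : DifferentiableOn ℂ G (ball w d)) (hG : ∀ u ∈ ball w d, G u ∈ dm f U J δ k ∧ f^[k] (G u) = u) :
    ‖deriv (f^[k]) (G u)‖ * ‖deriv G u‖ = 1 := by
  have hGd : HasDerivAt G (deriv G u) u :=
    ((hd u hu).differentiableAt (isOpen_ball.mem_nhds hu)).hasDerivAt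
  have h2 := (fr_itd h (hG u hu).1).comp u hGd
  have h3 : f^[k] ∘ G =ᶠ[𝓝 u] id := by
    filter_upwards [isOpen_ball.mem_nhds hu] with v hv
    exact (hG v hv).2
  have h4 := (h3.hasDerivAt_iff.1 h2).unique (hasDerivAt_id _)
  rw [← norm_mul, h4, norm_one]

theorem rh_top (h : FR f U J P δ) {w : ℂ} (hw : w ∈ P) : rh f U J P δ w = ⊤ := by
  have h1 : (ENNReal.ofReal (‖deriv (f^[0]) w‖ * infDist w P))⁻¹ ≤ rh f U J P δ w := by
    unfold rh
    refine le_iSup_of_le 0 (le_iSup_of_le w (le_iSup_of_le ?_ (le_iSup_of_le rfl le_rfl)))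
    rw [dm_zero]
    exact self_subset_thickening h.hδ _ (h.PJ hw)
  rw [infDist_zero_of_mem hw, mul_zero, ENNReal.ofReal_zero, ENNReal.inv_zero] at h1
  exact top_le_iff.1 h1

theorem rh_lb (h : FR f U J P δ) {k : ℕ} {x q : ℂ} (hx : ∀ j < k, f^[j] x ∈ U) (hqP : f^[k] q ∈ P)
    (hd : infDist (f^[k] x) P < δ / 2) (hder : deriv (f^[k]) x ≠ 0) :
    ENNReal.ofReal (1 / (4 * ‖x - q‖)) ≤ rh f U J P δ (f^[k] x) * ENNReal.ofReal ‖deriv (f^[k]) x‖ := by
  obtain ⟨w, hw⟩ : ∃ w, w = f^[k] x := ⟨_, rfl⟩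
  rw [← hw] at hd ⊢
  by_cases hxq : x = q
  · rw [hxq, sub_self, norm_zero, mul_zero, div_zero, ENNReal.ofReal_zero]
    exact zero_le
  by_cases hwP : w ∈ P
  · rw [rh_top h hwP, ENNReal.top_mul]
    · exact le_top
    · rw [ne_eq, ENNReal.ofReal_eq_zero, not_le]
      exact norm_pos_iff.2 hder
  obtain ⟨d, hdd⟩ : ∃ d, d = infDist w P := ⟨_, rfl⟩
  have hd0 : 0 < d := by
    rw [hdd]
    exact (h.Pc.isClosed.notMem_iff_infDist_pos h.Pn).1 hwP
  have hbP : ∀ u ∈ ball w d, u ∉ P := by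
    intro u hu huP
    rw [mem_ball, dist_comm] at hu
    have h1 := infDist_le_dist_of_mem huP (x := w)
    rw [← hdd] at h1
    linarith
  obtain ⟨p, hp, hwp⟩ := (infDist_lt_iff h.Pn).1 hd
  have hbJ : ball w d ⊆ thickening δ J := by
    intro u hu
    rw [mem_ball] at hu
    refine mem_thickening_iff.2 ⟨p, h.PJ hp, ?_⟩
    have h1 := dist_triangle u w p
    rw [← hdd] at hd
    linarith
  have hwb : w ∈ ball w d := mem_ball_self hd0
  have hxd : x ∈ dm f U J δ k := ⟨hx, by rw [← hw]; exact hbJ hwb⟩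
  obtain ⟨G, hG1, hG2, hG3⟩ := h.br k w x d hbJ hbP hxd (by rw [← hw]; exact hwb)
  rw [← hw] at hG2
  have hcov := Pool.Agent.H80.KQ.quarter hd0 hG1 (br_inj hG3)
  have hch := br_chain h hwb hG1 hG3
  rw [hG2] at hcov hch
  have hdist : d * ‖deriv G w‖ / 4 ≤ ‖x - q‖ := by
    by_contra hlt
    rw [not_le] at hlt
    have h1 : q ∈ ball x (d * ‖deriv G w‖ / 4) := by
      rw [mem_ball, dist_comm, dist_eq_norm]
      exact hlt
    obtain ⟨u, hu, huq⟩ := hcov h1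
    have h2 := (hG3 u hu).2
    rw [huq] at h2
    rw [h2] at hqP
    exact hbP u hu hqP
  have hf0 : 0 < ‖deriv (f^[k]) x‖ := norm_pos_iff.2 hder
  have hG0 : 0 < ‖deriv G w‖ := by
    rcases (norm_nonneg (deriv G w)).eq_or_lt with h1 | h1
    · rw [← h1, mul_zero] at hch
      exact absurd hch zero_ne_one
    · exact h1
  have hxq0 : 0 < ‖x - q‖ := norm_pos_iff.2 (sub_ne_zero.2 hxq)
  have hreal : 1 / (4 * ‖x - q‖) ≤ 1 / d * ‖deriv (f^[k]) x‖ := by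
    rw [div_le_iff₀ (by positivity)]
    have h1 : ‖deriv (f^[k]) x‖ * (d * ‖deriv G w‖ / 4) ≤ ‖deriv (f^[k]) x‖ * ‖x - q‖ :=
      mul_le_mul_of_nonneg_left hdist hf0.le
    have h2 : ‖deriv (f^[k]) x‖ * (d * ‖deriv G w‖ / 4) = d / 4 := by
      calc ‖deriv (f^[k]) x‖ * (d * ‖deriv G w‖ / 4) = d / 4 * (‖deriv (f^[k]) x‖ * ‖deriv G w‖) := by ring
        _ = d / 4 := by rw [hch, mul_one]
    rw [h2] at h1
    have h3 : 1 / d * ‖deriv (f^[k]) x‖ * (4 * ‖x - q‖) = 4 / d * (‖deriv (f^[k]) x‖ * ‖x - q‖) := by ring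
    rw [h3]
    calc (1 : ℝ) = 4 / d * (d / 4) := by field_simp
      _ ≤ 4 / d * (‖deriv (f^[k]) x‖ * ‖x - q‖) := mul_le_mul_of_nonneg_left h1 (by positivity)
  refine (ENNReal.ofReal_le_ofReal hreal).trans ?_
  rw [ENNReal.ofReal_mul (by positivity)]
  have hlo := rh_lo (f := f) (U := U) (J := J) (P := P) (δ := δ) (hbJ hwb)
  rw [← hdd] at hlo
  exact mul_le_mul_left hlo _

theorem rh_lg (h : FR f U J P δ) : ∃ K : ℝ, 1 ≤ K ∧ ∀ (x y : ℂ) (d : ℝ), 0 < d → ball x d ⊆ thickening δ J →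
    Disjoint (ball x d) P → ‖y - x‖ ≤ d / K → rh f U J P δ y ≤ ENNReal.ofReal (1 + K * ‖y - x‖ / d) * rh f U J P δ x := by
  have hKK := one_le_KK
  obtain ⟨K₁, hK₁⟩ : ∃ K₁ : ℝ, K₁ = 2 * (KK + 2) := ⟨_, rfl⟩
  have hK6 : 6 ≤ K₁ := by rw [hK₁]; linarith
  refine ⟨33 * K₁, by linarith, fun x y d hd hJ hP hy => ?_⟩
  obtain ⟨t, ht⟩ : ∃ t : ℝ, t = ‖y - x‖ / d := ⟨_, rfl⟩
  have ht0 : 0 ≤ t := by rw [ht]; positivity
  have htd : ‖y - x‖ = t * d := by rw [ht]; field_simp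
  have htK : t * (33 * K₁) ≤ 1 := by
    rw [htd, le_div_iff₀ (by positivity)] at hy
    have h1 : t * d * (33 * K₁) = t * (33 * K₁) * d := by ring
    rw [h1] at hy
    by_contra hcon
    rw [not_le] at hcon
    nlinarith
  have ht198 : t * 198 ≤ 1 := by nlinarith
  have hKt : 33 * K₁ * ‖y - x‖ / d = 33 * K₁ * t := by rw [ht]; ring
  rw [hKt]
  have hyb : y ∈ ball x d := by
    rw [mem_ball, dist_eq_norm, htd]
    nlinarith
  have hxb : x ∈ ball x d := mem_ball_self hd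
  have hy2 : y ∈ ball x (d / 2) := by
    rw [mem_ball, dist_eq_norm, htd]
    nlinarith
  conv_lhs => unfold rh
  refine iSup_le fun k => iSup_le fun z => iSup_le fun hz => iSup_le fun hzy => ?_
  obtain ⟨G, hG1, hG2, hG3⟩ := h.br k x z d hJ (fun u hu hu2 => hP.le_bot ⟨hu, hu2⟩) hz (by rw [hzy]; exact hyb)
  rw [hzy] at hG2
  have hGi := br_inj hG3
  have hchx := br_chain h hxb hG1 hG3
  have hchy := br_chain h hyb hG1 hG3
  have hGx0 : 0 < ‖deriv G x‖ := deriv_ne hd hG1 hGi (mem_closedBall_self (by positivity))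
  have hyc : y ∈ closedBall x (d / 2) := ball_subset_closedBall hy2
  have hGy0 : 0 < ‖deriv G y‖ := deriv_ne hd hG1 hGi hyc
  -- distortion
  have hdist1 : ‖G y - G x‖ ≤ K₁ * t * (d * ‖deriv G x‖) := by
    have h1 := distort_lip hd hG1 hGi hyc (mem_closedBall_self (by positivity))
      (mem_closedBall_self (by positivity) : x ∈ closedBall x (d / 2))
    rw [htd] at h1
    calc ‖G y - G x‖ ≤ KK * ‖deriv G x‖ * (t * d) := h1
      _ = KK * (t * (d * ‖deriv G x‖)) := by ring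
      _ ≤ K₁ * (t * (d * ‖deriv G x‖)) := mul_le_mul_of_nonneg_right (by rw [hK₁]; linarith) (by positivity)
      _ = K₁ * t * (d * ‖deriv G x‖) := by ring
  have hdist2 : ‖deriv G y - deriv G x‖ ≤ K₁ * t * ‖deriv G x‖ := by
    have hder : DifferentiableOn ℂ (deriv G) (ball x (d / 2)) :=
      (hG1.deriv isOpen_ball).mono (ball_subset_ball (by linarith))
    have hmaps : MapsTo (deriv G) (ball x (d / 2)) (ball (deriv G x) ((KK + 2) * ‖deriv G x‖)) := by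
      intro u hu
      have h1 := distort hd hG1 hGi (ball_subset_closedBall hu)
        (mem_closedBall_self (by positivity) : x ∈ closedBall x (d / 2))
      rw [mem_ball, dist_eq_norm]
      have h2 := norm_sub_le (deriv G u) (deriv G x)
      nlinarith
    have h1 := Complex.dist_le_div_mul_dist_of_mapsTo_ball hder (hmaps.mono_right ball_subset_closedBall) hy2
    rw [dist_eq_norm, dist_eq_norm, htd] at h1
    calc ‖deriv G y - deriv G x‖ ≤ (KK + 2) * ‖deriv G x‖ / (d / 2) * (t * d) := h1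
      _ = K₁ * t * ‖deriv G x‖ := by
          rw [hK₁]
          field_simp
  obtain ⟨D, hD⟩ : ∃ D, D = infDist (G x) P := ⟨_, rfl⟩
  obtain ⟨D', hD'⟩ : ∃ D', D' = infDist (G y) P := ⟨_, rfl⟩
  have hDlo : d * ‖deriv G x‖ / 16 ≤ D := by
    rw [hD]
    refine (le_infDist h.Pn).2 fun p hp => ?_
    by_contra hlt
    rw [not_le, dist_comm] at hlt
    obtain ⟨u, hu, hup⟩ := univ_cover hd hG1 hGi (mem_ball.2 hlt)
    have h2 := fr_it h k hp
    rw [← hup, (hG3 u hu).2] at h2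
    exact hP.le_bot ⟨hu, h2⟩
  have hD0 : 0 < D := lt_of_lt_of_le (by positivity) hDlo
  have hDD : D ≤ D' + K₁ * t * (d * ‖deriv G x‖) := by
    have h1 := infDist_le_infDist_add_dist (s := P) (x := G x) (y := G y)
    rw [← hD, ← hD', dist_comm, dist_eq_norm] at h1
    linarith
  have hDD2 : D * (1 - 16 * K₁ * t) ≤ D' := by
    have h1 : K₁ * t * (d * ‖deriv G x‖) ≤ K₁ * t * (16 * D) :=
      mul_le_mul_of_nonneg_left (by linarith) (by positivity)
    nlinarith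
  have h16 : 0 < 1 - 16 * K₁ * t := by nlinarith
  have hD'0 : 0 < D' := lt_of_lt_of_le (by positivity) hDD2
  have hGG : ‖deriv G y‖ ≤ (1 + K₁ * t) * ‖deriv G x‖ := by
    have h1 : ‖deriv G y‖ ≤ ‖deriv G y - deriv G x‖ + ‖deriv G x‖ := by
      have := norm_add_le (deriv G y - deriv G x) (deriv G x)
      rwa [sub_add_cancel] at this
    linarith
  -- the two values
  have hfx0 : 0 < ‖deriv (f^[k]) (G x)‖ := by
    rcases (norm_nonneg (deriv (f^[k]) (G x))).eq_or_lt with h1 | h1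
    · rw [← h1, zero_mul] at hchx
      exact absurd hchx zero_ne_one
    · exact h1
  have hfy0 : 0 < ‖deriv (f^[k]) (G y)‖ := by
    rcases (norm_nonneg (deriv (f^[k]) (G y))).eq_or_lt with h1 | h1
    · rw [← h1, zero_mul] at hchy
      exact absurd hchy zero_ne_one
    · exact h1
  have hvx : (‖deriv (f^[k]) (G x)‖ * D)⁻¹ = ‖deriv G x‖ / D := by
    rw [mul_inv, ← eq_inv_of_mul_eq_one_right hchx, div_eq_mul_inv]
  have hvy : (‖deriv (f^[k]) (G y)‖ * D')⁻¹ = ‖deriv G y‖ / D' := by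
    rw [mul_inv, ← eq_inv_of_mul_eq_one_right hchy, div_eq_mul_inv]
  have hkey : ‖deriv G y‖ / D' ≤ (1 + 33 * K₁ * t) * (‖deriv G x‖ / D) := by
    rw [← mul_div_assoc, div_le_div_iff₀ hD'0 hD0]
    have h1 : 1 + K₁ * t ≤ (1 + 33 * K₁ * t) * (1 - 16 * K₁ * t) := by
      have h2 : K₁ * t * (t * (33 * K₁)) ≤ K₁ * t * 1 := mul_le_mul_of_nonneg_left htK (by positivity)
      nlinarith [mul_nonneg (show 0 ≤ K₁ by linarith) ht0]
    calc ‖deriv G y‖ * D ≤ (1 + K₁ * t) * ‖deriv G x‖ * D := mul_le_mul_of_nonneg_right hGG hD0.le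
      _ ≤ (1 + 33 * K₁ * t) * (1 - 16 * K₁ * t) * ‖deriv G x‖ * D := by gcongr
      _ = (1 + 33 * K₁ * t) * ‖deriv G x‖ * (D * (1 - 16 * K₁ * t)) := by ring
      _ ≤ (1 + 33 * K₁ * t) * ‖deriv G x‖ * D' := mul_le_mul_of_nonneg_left hDD2 (by positivity)
  have hrx : ENNReal.ofReal (‖deriv G x‖ / D) ≤ rh f U J P δ x := by
    rw [← hvx, ENNReal.ofReal_inv_of_pos (by positivity), hD]
    unfold rh
    exact le_iSup_of_le k (le_iSup_of_le (G x) (le_iSup_of_le (hG3 x hxb).1 (le_iSup_of_le (hG3 x hxb).2 le_rfl)))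
  calc (ENNReal.ofReal (‖deriv (f^[k]) z‖ * infDist z P))⁻¹ = ENNReal.ofReal (‖deriv G y‖ / D') := by
        rw [← hvy, ENNReal.ofReal_inv_of_pos (by positivity), hD', hG2]
    _ ≤ ENNReal.ofReal ((1 + 33 * K₁ * t) * (‖deriv G x‖ / D)) := ENNReal.ofReal_le_ofReal hkey
    _ = ENNReal.ofReal (1 + 33 * K₁ * t) * ENNReal.ofReal (‖deriv G x‖ / D) := ENNReal.ofReal_mul (by positivity)
    _ ≤ ENNReal.ofReal (1 + 33 * K₁ * t) * rh f U J P δ x := mul_le_mul_right hrx _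

end Pool.Agent.H81.RW
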