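import Pool.Agent.H56.TH.MR

/-!
# Module Rhm (LW, from PS to WW): THE METRIC `rh` IS MEASURABLE

PROOF. `rh w = 0` off `thickening δ J` (`z ∈ dm k`, `f^[k] z = w` gives `w ∈ thickening δ J`); on `P` (closed, `P ⊆ J ⊆ thickening δ J`) `rh w = ⊤` (`k = 0`, `z = w`: `infDist w P = 0`, `(ofReal 0)⁻¹ = ⊤`). On the open set `T = thickening δ J \ P` `rh` is lower semicontinuous: let `a < rh w`: there are `k`, `z ∈ dm k`, `f^[k] z = w` with `a < (ofReal (‖deriv (f^[k]) z‖ * infDist z P))⁻¹`;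
`ball w d ⊆ T`; `FR.br` gives the branch `G` with `G w = z`; for `w'` near `w`: `G w' ∈ dm k`, `f^[k] (G w') = w'`, and `w' ↦ (ofReal (‖deriv (f^[k]) (G w')‖ * infDist (G w') P))⁻¹` is continuous (`fr_diff`: `deriv (f^[k])` is continuous on the open set `dm k`, `fr_open`): so `a < rh w'` near `w`.
`{w | a < rh w} = ({w | a < rh w} ∩ T) ∪ (P or ∅)`: an open set and a closed set: measurable; `measurable_of_Ioi`.
-/

set_option autoImplicit false

open Filter Topology Metric Set MeasureTheory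

namespace Pool.Agent.H81.RW

open Pool.Agent.H56.TH Pool.Agent.H56.UD

variable {f : ℂ → ℂ} {U J P : Set ℂ} {δ : ℝ}

/-- `rh` is lower semicontinuous off `P` -/
theorem rh_lsc (h : FR f U J P δ) (a : ENNReal) : IsOpen ((thickening δ J \ P) ∩ rh f U J P δ ⁻¹' Ioi a) := by
  have hT : IsOpen (thickening δ J \ P) := isOpen_thickening.sdiff h.Pc.isClosed
  rw [isOpen_iff_mem_nhds]
  rintro w ⟨hwT, hwa⟩
  have hwa' : a < rh f U J P δ w := hwa
  unfold rh at hwa'
  simp only [lt_iSup_iff] at hwa'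
  obtain ⟨k, z, hz, hzw, hlt⟩ := hwa'
  obtain ⟨d, hd, hdT⟩ := Metric.isOpen_iff.1 hT w hwT
  have hwb : f^[k] z ∈ ball w d := by
    rw [hzw]
    exact mem_ball_self hd
  obtain ⟨G, hG1, hG2, hG3⟩ := h.br k w z d (fun u hu => (hdT hu).1) (fun u hu => (hdT hu).2) hz hwb
  rw [hzw] at hG2
  have hdc : ContinuousOn (deriv (f^[k])) (dm f U J δ k) :=
    ((fr_diff h k).analyticOnNhd (fr_open h k)).deriv.continuousOn
  have hc1 : ContinuousOn (fun u => deriv (f^[k]) (G u)) (ball w d) :=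
    hdc.comp hG1.continuousOn fun u hu => (hG3 u hu).1
  have hc2 : ContinuousOn (fun u => infDist (G u) P) (ball w d) :=
    (continuous_infDist_pt P).comp_continuousOn hG1.continuousOn
  have hc : ContinuousOn (fun u => (ENNReal.ofReal (‖deriv (f^[k]) (G u)‖ * infDist (G u) P))⁻¹) (ball w d) :=
    (continuous_inv.comp ENNReal.continuous_ofReal).comp_continuousOn (hc1.norm.mul hc2)
  have ho := hc.isOpen_inter_preimage isOpen_ball (isOpen_Ioi (a := a))
  refine Filter.mem_of_superset (ho.mem_nhds ⟨mem_ball_self hd, ?_⟩) ?_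
  · show a < (ENNReal.ofReal (‖deriv (f^[k]) (G w)‖ * infDist (G w) P))⁻¹
    rw [hG2]
    exact hlt
  · rintro u ⟨hu, hua⟩
    refine ⟨hdT hu, ?_⟩
    have h1 : a < (ENNReal.ofReal (‖deriv (f^[k]) (G u)‖ * infDist (G u) P))⁻¹ := hua
    show a < rh f U J P δ u
    refine h1.trans_le ?_
    unfold rh
    exact le_iSup_of_le k (le_iSup_of_le (G u) (le_iSup_of_le (hG3 u hu).1 (le_iSup_of_le (hG3 u hu).2 le_rfl)))

theorem rh_me (h : FR f U J P δ) : Measurable (rh f U J P δ) := by
  refine measurable_of_Ioi fun a => ?_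
  have hP : ∀ w ∈ P, rh f U J P δ w = ⊤ := by
    intro w hw
    have h1 : (ENNReal.ofReal (‖deriv (f^[0]) w‖ * infDist w P))⁻¹ ≤ rh f U J P δ w := by
      unfold rh
      refine le_iSup_of_le 0 (le_iSup_of_le w (le_iSup_of_le ?_ (le_iSup_of_le rfl le_rfl)))
      rw [dm_zero]
      exact self_subset_thickening h.hδ _ (h.PJ hw)
    rw [infDist_zero_of_mem hw, mul_zero, ENNReal.ofReal_zero, ENNReal.inv_zero] at h1
    exact top_le_iff.1 h1
  have hoff : ∀ w, w ∉ thickening δ J → rh f U J P δ w = 0 := by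
    intro w hw
    rw [← nonpos_iff_eq_zero]
    unfold rh
    refine iSup_le fun k => iSup_le fun z => iSup_le fun hz => iSup_le fun hzw => ?_
    exact absurd (hzw ▸ hz.2) hw
  have heq : rh f U J P δ ⁻¹' Ioi a = ((thickening δ J \ P) ∩ rh f U J P δ ⁻¹' Ioi a) ∪ (P ∩ {_w : ℂ | a < ⊤}) := by
    ext w
    constructor
    · intro hw
      by_cases hwP : w ∈ P
      · refine Or.inr ⟨hwP, ?_⟩
        have h1 : a < rh f U J P δ w := hw
        rw [hP w hwP] at h1
        exact h1
      · refine Or.inl ⟨⟨?_, hwP⟩, hw⟩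
        by_contra hwT
        have h1 : a < rh f U J P δ w := hw
        rw [hoff w hwT] at h1
        exact not_lt_zero h1
    · rintro (⟨-, hw⟩ | ⟨hwP, ha⟩)
      · exact hw
      · show a < rh f U J P δ w
        rw [hP w hwP]
        exact ha
  rw [heq]
  exact (rh_lsc h a).measurableSet.union (h.Pc.isClosed.measurableSet.inter (MeasurableSet.const _))

end Pool.Agent.H81.RW
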