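import Pool.Agent.H81.RW.Lev

/-!
# Module Gl: good levels (one sided maximal inequality)

`φ t = (ell' ρ w 0 t).toReal` is finite (`≤ L`), non decreasing (`ellp_add` or `lintegral_mono_set`), and left continuous: `{0 < w < t}` is the increasing union of the sets `{0 < w < t'}`, `t' < t`
(`lintegral_iUnion`-like / monotone convergence along a sequence `t' ↑ t`: `setLIntegral_iUnion_of_directed`, ...). `ψ t = φ t - M t` has a minimum on `[0, τ]` at some `a`: take `t n` with `ψ (t n) → inf`, a convergent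
subsequence `t n → a` (`IsCompact.tendsto_subseq`); for every `t' < a` eventually `φ (t n) ≥ φ t'`, so `inf ≥ φ t' - M a` for all `t' < a`, hence `inf ≥ ψ a` by left continuity (for `a = 0` trivial, `φ 0 = 0`). (Or: `ψ` is lower semicontinuous, `LowerSemicontinuousOn.exists_isMinOn`.)
`ψ τ ≤ L - M τ < 0 = ψ 0`, so `a > 0`. For `0 ≤ a' < a`: `ψ a ≤ ψ a'`, i.e. `φ a - φ a' ≤ M (a - a')`, and `ell' ρ w a' a ≤ φ a - φ a'` by `ellp_add`.
-/

set_option autoImplicit false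

open Filter Topology Metric Set MeasureTheory

namespace Pool.Agent.H81.RW

open Pool.Agent.H56.TH

private theorem gl_mono {ρ : ℂ → ENNReal} {w : ℂ → ℝ} {s t : ℝ} (h : s ≤ t) : ell' ρ w 0 s ≤ ell' ρ w 0 t :=
  lintegral_mono_set fun _ hx => ⟨hx.1, hx.2.trans_le h⟩

private theorem gl_lc {ρ : ℂ → ENNReal} {w : ℂ → ℝ} {t : ℝ} {y : ENNReal} (hy : y < ell' ρ w 0 t) :
    ∃ t' < t, y < ell' ρ w 0 t' := by
  have hU : {x | 0 < w x ∧ w x < t} = ⋃ n : ℕ, {x | 0 < w x ∧ w x < t - 1 / ((n : ℝ) + 1)} := by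
    ext x
    simp only [Set.mem_iUnion, Set.mem_setOf_eq]
    constructor
    · rintro ⟨h1, h2⟩
      obtain ⟨n, hn⟩ := exists_nat_one_div_lt (sub_pos.2 h2)
      exact ⟨n, h1, by linarith⟩
    · rintro ⟨n, h1, h2⟩
      have h3 : (0 : ℝ) < 1 / ((n : ℝ) + 1) := by positivity
      exact ⟨h1, by linarith⟩
  have hmono : Monotone (fun n : ℕ => {x | 0 < w x ∧ w x < t - 1 / ((n : ℝ) + 1)}) := by
    intro n m hnm x hx
    refine ⟨hx.1, lt_of_lt_of_le hx.2 ?_⟩
    have h3 : 1 / ((m : ℝ) + 1) ≤ 1 / ((n : ℝ) + 1) := by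
      apply one_div_le_one_div_of_le
      · positivity
      · have : (n : ℝ) ≤ m := Nat.cast_le.2 hnm
        linarith
    linarith
  unfold ell' at hy ⊢
  rw [hU, setLIntegral_iUnion_of_directed _ hmono.directed_le] at hy
  obtain ⟨n, hn⟩ := lt_iSup_iff.1 hy
  refine ⟨t - 1 / ((n : ℝ) + 1), ?_, hn⟩
  have h3 : (0 : ℝ) < 1 / ((n : ℝ) + 1) := by positivity
  linarith

theorem gl {ρ : ℂ → ENNReal} {w : ℂ → ℝ} (hw : Continuous w) {L τ M : ℝ} (hL : ell ρ w ≤ ENNReal.ofReal L) (h0 : 0 ≤ L)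
    (hτ : 0 < τ) (hM : L < M * τ) :
    ∃ a : ℝ, 0 < a ∧ a ≤ τ ∧ ∀ a' : ℝ, 0 ≤ a' → a' < a → ell' ρ w a' a ≤ ENNReal.ofReal (M * (a - a')) := by
  have hle : ∀ a b : ℝ, ell' ρ w a b ≤ ENNReal.ofReal L := fun a b => ellp_le.trans hL
  have hfin : ∀ a b : ℝ, ell' ρ w a b ≠ ⊤ := fun a b => ((hle a b).trans_lt ENNReal.ofReal_lt_top).ne
  have hlsc : LowerSemicontinuous fun t : ℝ => (ell' ρ w 0 t).toReal := by
    intro t y hy
    rcases lt_or_ge y 0 with h1 | h1
    · exact Eventually.of_forall fun t' => h1.trans_le ENNReal.toReal_nonneg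
    · have h2 : ENNReal.ofReal y < ell' ρ w 0 t := (ENNReal.ofReal_lt_iff_lt_toReal h1 (hfin 0 t)).2 hy
      obtain ⟨t', h3, h4⟩ := gl_lc h2
      filter_upwards [lt_mem_nhds h3] with s hs
      exact (ENNReal.ofReal_lt_iff_lt_toReal h1 (hfin 0 s)).1 (h4.trans_le (gl_mono hs.le))
  have hlsc2 : LowerSemicontinuous fun t : ℝ => (ell' ρ w 0 t).toReal + (-M * t) :=
    hlsc.add (by fun_prop : Continuous fun t : ℝ => -M * t).lowerSemicontinuous
  obtain ⟨a, ha, hmin⟩ := (hlsc2.lowerSemicontinuousOn (Icc 0 τ)).exists_isMinOn (nonempty_Icc.2 hτ.le) isCompact_Icc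
  have hz : ell' ρ w 0 0 = 0 := by
    have h1 : {x | 0 < w x ∧ w x < 0} = ∅ := by
      ext x
      simp only [Set.mem_setOf_eq, Set.mem_empty_iff_false, iff_false, not_and, not_lt]
      intro h2
      exact h2.le
    unfold ell'
    rw [h1, Measure.restrict_empty, lintegral_zero_measure]
  have hapos : 0 < a := by
    rcases ha.1.eq_or_lt with h1 | h1
    · exfalso
      have h2 := hmin (show τ ∈ Icc 0 τ from ⟨hτ.le, le_rfl⟩)
      simp only [Set.mem_setOf_eq] at h2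
      rw [← h1, hz, ENNReal.toReal_zero, mul_zero, add_zero] at h2
      have h3 : (ell' ρ w 0 τ).toReal ≤ L := ENNReal.toReal_le_of_le_ofReal h0 (hle 0 τ)
      nlinarith
    · exact h1
  refine ⟨a, hapos, ha.2, fun a' h1 h2 => ?_⟩
  have h3 := hmin (show a' ∈ Icc 0 τ from ⟨h1, h2.le.trans ha.2⟩)
  simp only [Set.mem_setOf_eq] at h3
  have h4 := ellp_add (ρ := ρ) hw h1 h2.le
  have h5 : (ell' ρ w 0 a').toReal + (ell' ρ w a' a).toReal ≤ (ell' ρ w 0 a).toReal := by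
    rw [← ENNReal.toReal_add (hfin _ _) (hfin _ _)]
    exact ENNReal.toReal_mono (hfin _ _) h4
  rw [← ENNReal.ofReal_toReal (hfin a' a)]
  apply ENNReal.ofReal_le_ofReal
  linarith

end Pool.Agent.H81.RW
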