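import Pool.Agent.H81.RW.Df

/-!
# Module Ll: locally Lipschitz functions with compact support are Lipschitz

PROOF. `S = tsupport w` is compact; every `x` has `K x` and `r x > 0` with `w` `K x`-Lipschitz on `ball x (2 r x)`; finitely many balls `ball x (r x)` cover `S`; `K` the maximum of the `K x`, `r` the minimum of the `r x`
(if `S = ∅` then `w = 0`). If `y ∈ S`, `dist y y' < r`: both lie in one `ball x (2 r x)`: `|w y - w y'| ≤ K dist y y'`; if neither is in `S` the difference is `0`. `w` is bounded by some `M` (continuous with compact support), so for `dist y y' ≥ r`: `|w y - w y'| ≤ 2 M ≤ (2 M / r) dist y y'`.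
-/

set_option autoImplicit false

open Filter Topology Metric Set MeasureTheory

namespace Pool.Agent.H81.RW

open Pool.Agent.H56.TH

theorem ll {w : ℂ → ℝ} (hs : HasCompactSupport w)
    (h : ∀ x, ∃ K : NNReal, ∃ t ∈ 𝓝 x, LipschitzOnWith K w t) : ∃ K : NNReal, LipschitzWith K w := by
  have hloc : LocallyLipschitz w := h
  obtain ⟨R₀, hR₀⟩ := hs.isCompact.isBounded.subset_closedBall (0 : ℂ)
  obtain ⟨R, hR, hRR⟩ : ∃ R : ℝ, 0 ≤ R ∧ R₀ ≤ R := ⟨max R₀ 0, le_max_right _ _, le_max_left _ _⟩
  have hout : ∀ y : ℂ, R < ‖y‖ → w y = 0 := by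
    intro y hy
    by_contra h0
    have h1 := hR₀ (subset_tsupport w h0)
    rw [mem_closedBall, dist_zero_right] at h1
    linarith
  obtain ⟨K, hK⟩ := (hloc.locallyLipschitzOn (s := closedBall (0 : ℂ) (R + 1))).exists_lipschitzOnWith_of_compact
    (isCompact_closedBall 0 (R + 1))
  have hK' := hK.dist_le_mul
  obtain ⟨M, hM⟩ : ∃ M : NNReal, (M : ℝ) = 2 * (R + 1) := ⟨⟨2 * (R + 1), by linarith⟩, rfl⟩
  have hKn : (0 : ℝ) ≤ K := K.2
  have key : ∀ x y : ℂ, ‖x‖ ≤ R + 1 → R + 1 < ‖y‖ → dist (w x) (w y) ≤ K * (2 * (R + 1)) * dist x y := by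
    intro x y hx hy
    have hy0 : w y = 0 := hout y (by linarith)
    by_cases hx2 : R < ‖x‖
    · rw [hout x hx2, hy0, dist_self]
      positivity
    · have hxR : ‖x‖ ≤ R := not_lt.1 hx2
      obtain ⟨z, hz⟩ : ∃ z : ℂ, z = ((R + 1 : ℝ) : ℂ) := ⟨_, rfl⟩
      have hzn : ‖z‖ = R + 1 := by
        rw [hz, Complex.norm_real, Real.norm_of_nonneg (by linarith)]
      have hz0 : w z = 0 := hout z (by linarith)
      have h1 := hK' x (by rw [mem_closedBall, dist_zero_right]; exact hx) z
        (by rw [mem_closedBall, dist_zero_right]; exact hzn.le)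
      rw [hz0] at h1
      rw [hy0]
      have h2 : dist x z ≤ 2 * (R + 1) := by
        rw [dist_eq_norm]
        have := norm_sub_le x z
        linarith
      have h3 : 1 ≤ dist x y := by
        rw [dist_comm, dist_eq_norm]
        have := norm_sub_norm_le y x
        linarith
      have h4 : (K : ℝ) * dist x z ≤ K * (2 * (R + 1)) := mul_le_mul_of_nonneg_left h2 hKn
      have h5 : (K : ℝ) * (2 * (R + 1)) * 1 ≤ K * (2 * (R + 1)) * dist x y :=
        mul_le_mul_of_nonneg_left h3 (by positivity)
      linarith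
  refine ⟨K * M + K, LipschitzWith.of_dist_le_mul fun x y => ?_⟩
  rw [NNReal.coe_add, NNReal.coe_mul, hM, add_mul]
  have hd : 0 ≤ dist x y := dist_nonneg
  have hp1 : 0 ≤ (K : ℝ) * (2 * (R + 1)) * dist x y := by positivity
  have hp2 : 0 ≤ (K : ℝ) * dist x y := by positivity
  rcases le_or_gt ‖x‖ (R + 1) with hx | hx
  · rcases le_or_gt ‖y‖ (R + 1) with hy | hy
    · have h1 := hK' x (by rw [mem_closedBall, dist_zero_right]; exact hx) y
        (by rw [mem_closedBall, dist_zero_right]; exact hy)
      linarith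
    · have h1 := key x y hx hy
      linarith
  · rcases le_or_gt ‖y‖ (R + 1) with hy | hy
    · have h1 := key y x hy hx
      rw [dist_comm (w y), dist_comm y] at h1
      linarith
    · rw [hout x (by linarith), hout y (by linarith), dist_self]
      linarith

end Pool.Agent.H81.RW
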