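import Pool.Agent.H81.RW.Oc

/-!
# Module Exf: the extraction

Let `T y = {t | 0 ≤ t ∧ y ∈ oc q x t}`: bounded above by `q x` (`oc_lt`), an initial segment of `[0, ∞)` (`oc_mono`).
PROOFS. `exf_gt`: for `0 ≤ s`: `s < sSup (insert 0 (T y))` iff some `t ∈ T y` has `s < t` (`exists_lt_of_lt_csSup`, `le_csSup`). `exf_self`: `oc_mem`: `T x = [0, q x)`. `exf_cross`: `y ∈ oc q x s` (`exf_gt` gives `t > s` with
`y ∈ oc q x t ⊆ oc q x s`), `y' ∉ oc q x s` (otherwise `s ≤ exf q x y'`); the segment is preconnected, meets `oc q x s` and its complement, so its frontier (`sub_of_meets`), `oc_front`.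
`exf_lip`: for `exf y' < s₁ < s₂ < exf y` points `p₁, p₂` of the segment with `q p_i = s_i`: `s₂ - s₁ ≤ K dist p₂ p₁ ≤ K dist y y'` (two points of a segment: `dist_le` via convexity of balls, or `segment` lemma
`dist_le_of_mem_segment`-like: both are `y + t (y' - y)`); let `s₁ → exf y'`, `s₂ → exf y` (`le_of_forall_lt..`).
`exf_fd`: if `exf q x` is not differentiable at `y` nothing to prove. `HasFDerivAt.le_of_lip'` with `C = ‖fderiv q y‖ + ε`: near `y` the points `p` satisfy `|q p - q y - L (p - y)| ≤ (ε / 2) ‖p - y‖`; so for two points of the segment `[y, y']`: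
`|q p - q p'| ≤ ‖L‖ ‖p - p'‖ + ε ‖y' - y‖ ≤ (‖L‖ + ε) ‖y' - y‖`, and as in `exf_lip` `|exf y - exf y'|` is at most this. `ε → 0`.
`exf_lc`: `q = a` on `ball y r`; `y' ∈ ball y r`; for `t ≠ a`: `ball y r` does not meet `frontier (oc q x t) ⊆ {q = t}`, so it is contained in `oc q x t` or disjoint from it (`sub_of_meets`): `T y` and `T y'` differ at most in the point `a`; for `s ≥ 0` `s < exf y` gives `t ∈ T y` with
`s < t`; take `t' ≠ a` with `s < t' ≤ t` (initial segment), `t' ∈ T y'`. So `exf y = exf y'`.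
`exf_co`, `exf_full`: `{s < exf q x} = ⋃ t > s, oc q x t` (`exf_gt`); preconnected: all nonempty ones contain `x` (`oc_lt`, `oc_mem`); full: a bounded open `O` with `frontier O` in the union: `frontier O` is compact, the union is directed (`oc_mono`), so `frontier O ⊆ oc q x t` for one `t > s` and `O ⊆ oc q x t` (if `frontier O = ∅` then `O = ∅`).
`exf_bd`: `{q > 0} ⊆ ball 0 R` gives `{exf q x > 0} ⊆ ball 0 R` (`oc_sub`, `full_ball`), so compact support.
-/

set_option autoImplicit false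

open Filter Topology Metric Set MeasureTheory

namespace Pool.Agent.H81.RW

open Pool.Agent.H56.TH

private lemma exf_bdd (q : ℂ → ℝ) (x y : ℂ) : BddAbove (insert 0 {t | 0 ≤ t ∧ y ∈ oc q x t}) := by
  refine ⟨max 0 (q x), ?_⟩
  rintro t (rfl | ⟨-, ht⟩)
  · exact le_max_left _ _
  · exact (oc_lt ht).le.trans (le_max_right _ _)

theorem exf_nonneg {q : ℂ → ℝ} (x y : ℂ) : 0 ≤ exf q x y :=
  le_csSup (exf_bdd q x y) (mem_insert 0 _)

private lemma exf_ge {q : ℂ → ℝ} {x y : ℂ} {t : ℝ} (ht : 0 ≤ t) (h : y ∈ oc q x t) : t ≤ exf q x y :=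
  le_csSup (exf_bdd q x y) (mem_insert_of_mem _ ⟨ht, h⟩)

theorem exf_gt {q : ℂ → ℝ} {x y : ℂ} {s : ℝ} (hs : 0 ≤ s) : s < exf q x y ↔ ∃ t, s < t ∧ y ∈ oc q x t := by
  constructor
  · intro h
    obtain ⟨a, ha, hsa⟩ := exists_lt_of_lt_csSup (insert_nonempty 0 _) h
    rcases ha with rfl | ha
    · exact absurd hsa (not_lt.2 hs)
    · exact ⟨a, hsa, ha.2⟩
  · rintro ⟨t, hst, ht⟩
    exact hst.trans_le (exf_ge (hs.trans hst.le) ht)

theorem exf_le {q : ℂ → ℝ} {x : ℂ} (hx : 0 ≤ q x) (y : ℂ) : exf q x y ≤ q x := by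
  refine csSup_le (insert_nonempty 0 _) ?_
  rintro t (rfl | ⟨-, ht⟩)
  · exact hx
  · exact (oc_lt ht).le

theorem exf_self {q : ℂ → ℝ} {x : ℂ} (hx : 0 ≤ q x) : exf q x x = q x := by
  refine le_antisymm (exf_le hx x) (le_of_forall_lt fun s hs => ?_)
  rcases lt_or_ge s 0 with h | h
  · exact h.trans_le (exf_nonneg x x)
  · obtain ⟨t, h1, h2⟩ := exists_between hs
    exact (exf_gt h).2 ⟨t, h1, (oc_mem x t).2 h2⟩

theorem exf_cross {q : ℂ → ℝ} (hq : Continuous q) {x y y' : ℂ} {s : ℝ} (hs : 0 ≤ s) (h1 : s < exf q x y)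
    (h2 : exf q x y' < s) : ∃ p ∈ segment ℝ y y', q p = s := by
  obtain ⟨t, hst, ht⟩ := (exf_gt hs).1 h1
  have hy : y ∈ oc q x s := oc_mono q x hst.le ht
  have hy' : y' ∉ oc q x s := fun h => absurd (exf_ge hs h) (not_le.2 h2)
  by_contra hcon
  push Not at hcon
  have h3 : Disjoint (segment ℝ y y') (frontier (oc q x s)) := by
    rw [Set.disjoint_left]
    intro p hp hpf
    exact hcon p hp (oc_front hq x s hpf)
  have h4 := sub_of_meets (oc_open hq x s) (convex_segment y y').isPreconnected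
    ⟨y, left_mem_segment ℝ y y', hy⟩ h3
  exact hy' (h4 (right_mem_segment ℝ y y'))

private lemma exf_diff {q : ℂ → ℝ} (hq : Continuous q) (x : ℂ) {y y' : ℂ} {M : ℝ} (hM0 : 0 ≤ M)
    (hM : ∀ p ∈ segment ℝ y y', ∀ p' ∈ segment ℝ y y', q p - q p' ≤ M) :
    exf q x y - exf q x y' ≤ M := by
  by_contra hcon
  rw [not_le] at hcon
  obtain ⟨δ, hδ⟩ : ∃ δ : ℝ, δ = (exf q x y - exf q x y' - M) / 3 := ⟨_, rfl⟩
  have hδ0 : 0 < δ := by linarith
  have h0 := exf_nonneg (q := q) x y'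
  obtain ⟨p₁, hp₁, hq₁⟩ := exf_cross hq (x := x) (y := y) (y' := y') (s := exf q x y' + δ)
    (by linarith) (by linarith) (by linarith)
  obtain ⟨p₂, hp₂, hq₂⟩ := exf_cross hq (x := x) (y := y) (y' := y') (s := exf q x y - δ)
    (by linarith) (by linarith) (by linarith)
  have h1 := hM p₂ hp₂ p₁ hp₁
  rw [hq₁, hq₂] at h1
  linarith

private lemma seg_dist {y y' p p' : ℂ} (hp : p ∈ segment ℝ y y') (hp' : p' ∈ segment ℝ y y') :
    dist p p' ≤ dist y y' := by
  have h1 : p ∈ closedBall y (dist y y') :=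
    (convex_closedBall y (dist y y')).segment_subset (mem_closedBall_self dist_nonneg)
      (by rw [mem_closedBall, dist_comm]) hp
  have h2 : p ∈ closedBall y' (dist y y') :=
    (convex_closedBall y' (dist y y')).segment_subset (by rw [mem_closedBall])
      (mem_closedBall_self dist_nonneg) hp
  have h3 : p' ∈ closedBall p (dist y y') :=
    (convex_closedBall p (dist y y')).segment_subset (by rw [mem_closedBall, dist_comm]; exact h1)
      (by rw [mem_closedBall, dist_comm]; exact h2) hp'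
  rw [dist_comm]
  exact h3

private lemma exf_abs {q : ℂ → ℝ} (hq : Continuous q) (x : ℂ) {y y' : ℂ} {M : ℝ} (hM0 : 0 ≤ M)
    (hM : ∀ p ∈ segment ℝ y y', ∀ p' ∈ segment ℝ y y', q p - q p' ≤ M) :
    |exf q x y - exf q x y'| ≤ M := by
  rw [abs_sub_le_iff]
  refine ⟨exf_diff hq x hM0 hM, exf_diff hq x hM0 ?_⟩
  rw [segment_symm]
  exact hM

theorem exf_lip {q : ℂ → ℝ} {K : NNReal} (hq : LipschitzWith K q) (x : ℂ) : LipschitzWith K (exf q x) := by
  refine LipschitzWith.of_dist_le_mul fun y y' => ?_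
  rw [Real.dist_eq]
  refine exf_abs hq.continuous x (by positivity) fun p hp p' hp' => ?_
  have h1 := hq.dist_le_mul p p'
  rw [Real.dist_eq] at h1
  calc q p - q p' ≤ |q p - q p'| := le_abs_self _
    _ ≤ K * dist p p' := h1
    _ ≤ K * dist y y' := by
        gcongr
        exact seg_dist hp hp'

theorem exf_fd {q : ℂ → ℝ} (hq : Continuous q) (x : ℂ) {y : ℂ} (hy : DifferentiableAt ℝ q y) :
    ‖fderiv ℝ (exf q x) y‖ ≤ ‖fderiv ℝ q y‖ := by
  by_cases hd : DifferentiableAt ℝ (exf q x) y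
  · refine le_of_forall_pos_le_add fun ε hε => ?_
    refine hd.hasFDerivAt.le_of_lip' (by positivity) ?_
    have h1 := (hasFDerivAt_iff_isLittleO.1 hy.hasFDerivAt).def (half_pos hε)
    obtain ⟨r, hr, h2⟩ := Metric.eventually_nhds_iff_ball.1 h1
    filter_upwards [Metric.ball_mem_nhds y hr] with y' hy'
    rw [Real.norm_eq_abs]
    have hseg : segment ℝ y' y ⊆ ball y r :=
      (convex_ball y r).segment_subset hy' (mem_ball_self hr)
    refine exf_abs hq x (by positivity) fun p hp p' hp' => ?_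
    have h3 := h2 p (hseg hp)
    have h4 := h2 p' (hseg hp')
    have h5 : ‖p - y‖ ≤ ‖y' - y‖ := by
      rw [← dist_eq_norm, ← dist_eq_norm]
      exact seg_dist hp (right_mem_segment ℝ y' y)
    have h6 : ‖p' - y‖ ≤ ‖y' - y‖ := by
      rw [← dist_eq_norm, ← dist_eq_norm]
      exact seg_dist hp' (right_mem_segment ℝ y' y)
    have h7 : ‖p - p'‖ ≤ ‖y' - y‖ := by
      rw [← dist_eq_norm, ← dist_eq_norm]
      exact seg_dist hp hp'
    have h8 : ‖fderiv ℝ q y (p - p')‖ ≤ ‖fderiv ℝ q y‖ * ‖y' - y‖ :=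
      ((fderiv ℝ q y).le_opNorm _).trans (mul_le_mul_of_nonneg_left h7 (norm_nonneg _))
    have h9 : q p - q p' = (q p - q y - fderiv ℝ q y (p - y)) -
        (q p' - q y - fderiv ℝ q y (p' - y)) + fderiv ℝ q y (p - p') := by
      have hL : fderiv ℝ q y (p - p') = fderiv ℝ q y (p - y) - fderiv ℝ q y (p' - y) := by
        rw [← map_sub]
        congr 1
        ring
      rw [hL]
      ring
    rw [Real.norm_eq_abs] at h3 h4 h8
    have a3 := (abs_le.1 h3).2
    have a4 := (abs_le.1 h4).1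
    have a8 := (abs_le.1 h8).2
    have hε2 : ε / 2 * ‖p - y‖ ≤ ε / 2 * ‖y' - y‖ := mul_le_mul_of_nonneg_left h5 (by positivity)
    have hε3 : ε / 2 * ‖p' - y‖ ≤ ε / 2 * ‖y' - y‖ := mul_le_mul_of_nonneg_left h6 (by positivity)
    rw [h9]
    linarith
  · rw [fderiv_zero_of_not_differentiableAt hd, norm_zero]
    exact norm_nonneg _

theorem exf_ell {ρ : ℂ → ENNReal} {q : ℂ → ℝ} {K : NNReal} (hq : LipschitzWith K q) (x : ℂ) :
    ell ρ (exf q x) ≤ ell ρ q := by
  unfold ell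
  refine lintegral_mono_ae ?_
  filter_upwards [hq.ae_differentiableAt (μ := volume)] with y hy
  exact mul_le_mul_right (ENNReal.ofReal_le_ofReal (exf_fd hq.continuous x hy)) _

theorem exf_lc {q : ℂ → ℝ} (hq : Continuous q) (x : ℂ) {y : ℂ} {r a : ℝ} (h : ∀ y' ∈ ball y r, q y' = a) :
    ∀ y' ∈ ball y r, exf q x y' = exf q x y := by
  intro y' hy'
  have hr : 0 < r := lt_of_le_of_lt dist_nonneg hy'
  have hseg : segment ℝ y' y ⊆ ball y r :=
    (convex_ball y r).segment_subset hy' (mem_ball_self hr)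
  have h1 := exf_abs hq x (y := y') (y' := y) le_rfl fun p hp p' hp' => by
    rw [h p (hseg hp), h p' (hseg hp'), sub_self]
  exact sub_eq_zero.1 (abs_nonpos_iff.1 h1)

theorem exf_co {q : ℂ → ℝ} (hq : Continuous q) (x : ℂ) {s : ℝ} (hs : 0 ≤ s) : IsPreconnected {y | s < exf q x y} := by
  have h1 : {y | s < exf q x y} = ⋃₀ {S | ∃ t, s < t ∧ t < q x ∧ S = oc q x t} := by
    ext y
    rw [Set.mem_ofPred_eq, exf_gt hs, mem_sUnion]
    constructor
    · rintro ⟨t, h1, h2⟩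
      exact ⟨oc q x t, ⟨t, h1, oc_lt h2, rfl⟩, h2⟩
    · rintro ⟨_, ⟨t, h1, -, rfl⟩, h2⟩
      exact ⟨t, h1, h2⟩
  rw [h1]
  refine isPreconnected_sUnion x _ ?_ ?_
  · rintro _ ⟨t, -, ht, rfl⟩
    exact (oc_mem x t).2 ht
  · rintro _ ⟨t, -, -, rfl⟩
    exact oc_pre hq x t

theorem exf_full {q : ℂ → ℝ} (hq : Continuous q) (x : ℂ) {s : ℝ} (hs : 0 ≤ s) : Full {y | s < exf q x y} := by
  intro O hO hOb hOf
  have hFc : IsCompact (frontier O) :=
    Metric.isCompact_of_isClosed_isBounded isClosed_frontier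
      (hOb.closure.subset frontier_subset_closure)
  have : Nonempty {t : ℝ // s < t} := ⟨⟨s + 1, by linarith⟩⟩
  obtain ⟨t, ht⟩ := hFc.elim_directed_cover (fun t : {t : ℝ // s < t} => oc q x t)
    (fun t => oc_open hq x t) (fun z hz => by
      obtain ⟨t, h1, h2⟩ := (exf_gt hs).1 (hOf hz)
      exact mem_iUnion.2 ⟨⟨t, h1⟩, h2⟩)
    (fun t₁ t₂ => ⟨⟨min t₁ t₂, lt_min t₁.2 t₂.2⟩, oc_mono q x (min_le_left _ _),
      oc_mono q x (min_le_right _ _)⟩)
  intro z hz
  exact (exf_gt hs).2 ⟨t, t.2, oc_full hq x t O hO hOb ht hz⟩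

theorem exf_bd {q : ℂ → ℝ} (x : ℂ) {c : ℂ} {R : ℝ} (h : ∀ y, 0 < q y → y ∈ ball c R) :
    ∀ y, 0 < exf q x y → y ∈ ball c R := by
  intro y hy
  obtain ⟨t, h1, h2⟩ := (exf_gt le_rfl).1 hy
  exact oc_sub (full_ball c R) (fun z hz => h z (h1.trans hz)) h2

end Pool.Agent.H81.RW
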