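import Pool.Agent.H81.RW.Df
import Pool.Agent.H81.RW.Exf

/-!
# Module Ub: basic facts on unimodal functions

PROOFS. `ul_um`, `um_ul`: fields. `ul_co`: `t ≥ 1`: the set is empty; `t = 0`: directed union of the sets for `t' > 0` (`IsPreconnected.sUnion_directed` or: two points of `{0 < w}` lie in a
common `{t' < w}`, `0 < t' < 1`: `isPreconnected_of_forall_pair`). `ul_fu`: `t ≥ 1`: `frontier O = ∅` gives `O = ∅` (`Oc.fill_empty` or clopen); `t = 0`: `frontier O` is compact, `w` has a positive minimum `m` on it; take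
`t' < min m 1`. `ul_trc`: `{t < trc a b w} = {a + t (b - a) < w}` for `0 < t < 1`; Lipschitz: `x ↦ (x - a) / (b - a)`, `max`, `min` (`LipschitzWith.max_const`, ...); support in the support of `w` (`w x = 0` gives
`(0 - a) / (b - a) ≤ 0`). `um_trc`: the values on `P`. `trc_one`, `trc_zero`, `trc_pos`, `trc_gt`: definition (`div_le_one`, `div_nonpos`...). `ul_exf`: `exf_lip`, `exf_nonneg`, `exf_le` (`exf ≤ q x ≤ 1`), `exf_bd` (bounded), `exf_co`, `exf_full`, `exf_lc`.
-/

set_option autoImplicit false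

open Filter Topology Metric Set MeasureTheory

namespace Pool.Agent.H81.RW

open Pool.Agent.H56.TH

theorem ul_um {P : Set ℂ} {w : ℂ → ℝ} (h : UM P w) : UL P w :=
  ⟨h.lip, h.lo, h.hi, h.cs, h.co, h.fu, h.lc⟩

theorem um_ul {P : Set ℂ} {w : ℂ → ℝ} (h : UL P w) (hv : ∀ x ∈ P, w x = 0 ∨ w x = 1) : UM P w :=
  ⟨h.lip, h.lo, h.hi, h.cs, h.co, h.fu, h.lc, hv⟩

theorem ul_cont {P : Set ℂ} {w : ℂ → ℝ} (h : UL P w) : Continuous w := by
  obtain ⟨K, hK⟩ := h.lip
  exact hK.continuous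

theorem ul_co {P : Set ℂ} {w : ℂ → ℝ} (h : UL P w) {t : ℝ} (ht : 0 ≤ t) : IsPreconnected {x | t < w x} := by
  rcases lt_or_ge t 1 with h1 | h1
  · rcases ht.lt_or_eq with h0 | h0
    · exact h.co t h0 h1
    · subst h0
      refine isPreconnected_of_forall_pair fun x hx y hy => ?_
      have hx' : 0 < w x := hx
      have hy' : 0 < w y := hy
      obtain ⟨s, hs, hs'⟩ := exists_between (lt_min (lt_min hx' hy') one_pos)
      have hs1 := (lt_min_iff.1 hs').2
      have hs2 := (lt_min_iff.1 (lt_min_iff.1 hs').1).1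
      have hs3 := (lt_min_iff.1 (lt_min_iff.1 hs').1).2
      exact ⟨{x | s < w x}, fun z (hz : s < w z) => hs.trans hz, hs2, hs3, h.co s hs hs1⟩
  · have h2 : {x | t < w x} = ∅ :=
      Set.eq_empty_of_forall_notMem fun x (hx : t < w x) => absurd (h.hi x) (not_le.2 (h1.trans_lt hx))
    rw [h2]
    exact isPreconnected_empty

theorem ul_fu {P : Set ℂ} {w : ℂ → ℝ} (h : UL P w) {t : ℝ} (ht : 0 ≤ t) : Full {x | t < w x} := by
  rcases lt_or_ge t 1 with h1 | h1
  · rcases ht.lt_or_eq with h0 | h0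
    · exact h.fu t h0 h1
    · subst h0
      intro O hO hOb hOf
      have hFc : IsCompact (frontier O) :=
        Metric.isCompact_of_isClosed_isBounded isClosed_frontier
          (hOb.closure.subset frontier_subset_closure)
      have key : ∃ s : ℝ, 0 < s ∧ s < 1 ∧ frontier O ⊆ {x | s < w x} := by
        rcases (frontier O).eq_empty_or_nonempty with h2 | h2
        · exact ⟨1 / 2, by norm_num, by norm_num, by rw [h2]; exact empty_subset _⟩
        · obtain ⟨z, hz, hz'⟩ := hFc.exists_isMinOn h2 (ul_cont h).continuousOn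
          have hz0 : 0 < w z := hOf hz
          obtain ⟨s, hs, hs'⟩ := exists_between (lt_min hz0 one_pos)
          exact ⟨s, hs, (lt_min_iff.1 hs').2, fun y hy => (lt_min_iff.1 hs').1.trans_le (hz' hy)⟩
      obtain ⟨s, hs0, hs1, hs⟩ := key
      exact (h.fu s hs0 hs1 O hO hOb hs).trans fun y (hy : s < w y) => hs0.trans hy
  · have h2 : {x | t < w x} = ∅ :=
      Set.eq_empty_of_forall_notMem fun x (hx : t < w x) => absurd (h.hi x) (not_le.2 (h1.trans_lt hx))
    rw [h2]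
    intro O hO hOb hOf
    have h3 : O ⊆ fill ∅ := by
      intro z hz
      refine Or.inr (mem_sUnion.2 ⟨O, ⟨hO, hOb, hOf⟩, hz⟩)
    rwa [fill_empty] at h3

theorem trc_one {w : ℂ → ℝ} {a b : ℝ} (hab : a < b) {x : ℂ} (h : b ≤ w x) : trc a b w x = 1 := by
  unfold trc
  have h1 : (1 : ℝ) ≤ (w x - a) / (b - a) := by
    rw [le_div_iff₀ (sub_pos.2 hab)]
    linarith
  rw [min_eq_left h1]
  exact max_eq_right zero_le_one

theorem trc_zero {w : ℂ → ℝ} {a b : ℝ} (hab : a < b) {x : ℂ} (h : w x ≤ a) : trc a b w x = 0 := by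
  unfold trc
  have h1 : (w x - a) / (b - a) ≤ 0 := div_nonpos_of_nonpos_of_nonneg (by linarith) (by linarith)
  exact max_eq_left ((min_le_right _ _).trans h1)

theorem trc_gt {w : ℂ → ℝ} {a b : ℝ} (hab : a < b) {t : ℝ} (h0 : 0 ≤ t) (h1 : t < 1) :
    {x | t < trc a b w x} = {x | a + t * (b - a) < w x} := by
  ext x
  have hb : 0 < b - a := sub_pos.2 hab
  simp only [Set.mem_ofPred_eq, trc, lt_max_iff, lt_min_iff, lt_div_iff₀ hb]
  constructor
  · rintro (h | h)
    · exact absurd h0 (not_le.2 h)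
    · linarith [h.2]
  · intro h
    exact Or.inr ⟨h1, by linarith⟩

private lemma trc_nonneg (w : ℂ → ℝ) (a b : ℝ) (x : ℂ) : 0 ≤ trc a b w x := le_max_left _ _

private lemma trc_le (w : ℂ → ℝ) (a b : ℝ) (x : ℂ) : trc a b w x ≤ 1 :=
  max_le zero_le_one (min_le_left _ _)

theorem ul_trc {P : Set ℂ} {w : ℂ → ℝ} (h : UL P w) {a b : ℝ} (ha : 0 ≤ a) (hab : a < b) : UL P (trc a b w) := by
  have hb : 0 < b - a := sub_pos.2 hab
  refine ⟨?_, trc_nonneg w a b, trc_le w a b, ?_, ?_, ?_, ?_⟩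
  · obtain ⟨K, hK⟩ := h.lip
    refine ⟨K * (b - a)⁻¹.toNNReal, ?_⟩
    refine LipschitzWith.of_dist_le_mul fun x y => ?_
    have h1 := hK.dist_le_mul x y
    rw [Real.dist_eq] at h1 ⊢
    have h2 : |trc a b w x - trc a b w y| ≤ |(w x - a) / (b - a) - (w y - a) / (b - a)| := by
      refine (abs_max_sub_max_le_max _ _ _ _).trans ?_
      rw [sub_self, abs_zero, max_eq_right (abs_nonneg _)]
      refine (abs_min_sub_min_le_max _ _ _ _).trans ?_
      rw [sub_self, abs_zero, max_eq_right (abs_nonneg _)]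
    have h3 : (w x - a) / (b - a) - (w y - a) / (b - a) = (w x - w y) * (b - a)⁻¹ := by
      rw [← sub_div, div_eq_mul_inv]
      ring
    rw [h3, abs_mul, abs_of_pos (inv_pos.2 hb)] at h2
    have h4 : ((K * (b - a)⁻¹.toNNReal : NNReal) : ℝ) = K * (b - a)⁻¹ := by
      rw [NNReal.coe_mul, Real.coe_toNNReal _ (inv_pos.2 hb).le]
    rw [h4]
    calc |trc a b w x - trc a b w y| ≤ |w x - w y| * (b - a)⁻¹ := h2
      _ ≤ (K * dist x y) * (b - a)⁻¹ := mul_le_mul_of_nonneg_right h1 (inv_pos.2 hb).le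
      _ = K * (b - a)⁻¹ * dist x y := by ring
  · refine h.cs.mono' ?_
    refine fun x hx => ?_
    refine subset_tsupport _ ?_
    intro h0
    refine hx (trc_zero hab ?_)
    rw [h0]
    exact ha
  · intro t h0 h1
    rw [trc_gt hab h0.le h1]
    exact ul_co h (by positivity)
  · intro t h0 h1
    rw [trc_gt hab h0.le h1]
    exact ul_fu h (by positivity)
  · intro x hx
    filter_upwards [h.lc x hx] with y hy
    simp only [trc, hy]

theorem um_trc {P : Set ℂ} {w : ℂ → ℝ} (h : UL P w) {a b : ℝ} (ha : 0 ≤ a) (hab : a < b)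
    (hv : ∀ x ∈ P, w x ≤ a ∨ b ≤ w x) : UM P (trc a b w) :=
  um_ul (ul_trc h ha hab) fun x hx => (hv x hx).imp (trc_zero hab) (trc_one hab)

theorem ul_exf {P : Set ℂ} {q : ℂ → ℝ} {K : NNReal} (hK : LipschitzWith K q) (h0 : ∀ x, 0 ≤ q x) (h1 : ∀ x, q x ≤ 1)
    (hs : HasCompactSupport q) (hl : ∀ x ∈ P, ∀ᶠ y in 𝓝 x, q y = q x) (x : ℂ) : UL P (exf q x) := by
  refine ⟨⟨K, exf_lip hK x⟩, exf_nonneg x, fun y => (exf_le (h0 x) y).trans (h1 x), ?_,
    fun t ht _ => exf_co hK.continuous x ht.le, fun t ht _ => exf_full hK.continuous x ht.le, ?_⟩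
  · obtain ⟨R, hR⟩ := hs.isCompact.isBounded.subset_ball (0 : ℂ)
    refine HasCompactSupport.intro (isCompact_closedBall (0 : ℂ) R) fun y hy => ?_
    by_contra hne
    have hpos : 0 < exf q x y := lt_of_le_of_ne (exf_nonneg x y) (Ne.symm hne)
    refine hy (ball_subset_closedBall (exf_bd x (c := 0) (R := R) (fun z hz => hR ?_) y hpos))
    exact subset_tsupport _ hz.ne'
  · intro y hy
    obtain ⟨r, hr, h2⟩ := Metric.eventually_nhds_iff_ball.1 (hl y hy)
    filter_upwards [Metric.ball_mem_nhds y hr] with z hz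
    exact exf_lc hK.continuous x (a := q y) h2 z hz

end Pool.Agent.H81.RW
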