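import Pool.Agent.H81.RW.Bhf
import Pool.Agent.H81.RW.Ll
import Pool.Agent.H81.RW.Ub

/-!
# Module Pull: the univalent pull back of a unimodal function

`pb F W w = w ∘ F` on `W`, `0` off `W`; `S = tsupport w ⊆ D = F '' W` compact; `S' = W ∩ F ⁻¹' S` is compact (`bh_cpt`).
PROOFS. `pb_off`: `y ∉ W` or `w (F y) = 0`. `pb_cs`: `pb` is `0` off `S'`. `pb_lip`: `ll`: near `y ∈ W`: `F` is Lipschitz near `y` (`C¹`: `ContDiffAt.exists_lipschitzOnWith` / `HasStrictDerivAt`), `w` Lipschitz; near `y ∉ S'`: `pb = 0` (`S'` closed). `pb_gt`: for `t ≥ 0` `{t < pb} = W ∩ F ⁻¹' {t < w}`.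
`pb_um`: `co`, `fu`: `pb_gt`, `bh_pre`, `Bh.fu` (`{t < w} ⊆ S ⊆ D` for `t ≥ 0`); `lc`: `y ∈ P ∩ W`: `F y ∈ P`, `w` is constant near `F y`, `F` continuous; `y ∉ W`: `y ∉ S'`, `pb = 0` near `y`. `va` the same. `pb_ul`: the same without `va`.
`pb_fd`: for `y ∈ W`: `pb = w ∘ F` near `y`. If `w` is differentiable at `F y`: chain rule, `‖fderiv ℝ w (F y) ∘ F'‖ ≤ ‖fderiv ℝ w (F y)‖ ‖deriv F y‖` (the real derivative of `F` is multiplication by `deriv F y`). If not, then `w ∘ F` is not differentiable at `y` (compose with the local inverse of `F`, `deriv F y ≠ 0`), so the left side is `0`.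
`pb_cov`: change of variables: `∫⁻ y in W ∩ F ⁻¹' T, φ (F y) * ofReal (‖deriv F y‖ ^ 2) = ∫⁻ x in T ∩ D, φ x` (`lintegral_image_eq_lintegral_abs_det_fderiv_mul`; the determinant of the real derivative is `‖deriv F y‖ ^ 2`: search the library for `abs_det` / `Complex.det`..., used in many area formulas) with `φ x = ρ x * ofReal ‖fderiv ℝ w x‖`, and `pb_fd`.
`pb_ell`: `fderiv pb = 0` off `W` (`y ∉ S'`: `pb = 0` near `y`); `ρ y ≤ ρ (F y) ofReal ‖deriv F y‖` on `W`; `pb_cov` with `T = univ`.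
-/

set_option autoImplicit false

open Filter Topology Metric Set MeasureTheory

namespace Pool.Agent.H81.RW

open Pool.Agent.H56.TH

variable {F : ℂ → ℂ} {W D : Set ℂ} {w : ℂ → ℝ} {P : Set ℂ} {ρ : ℂ → ENNReal}

theorem pb_on {y : ℂ} (hy : y ∈ W) : pb F W w y = w (F y) :=
  Set.indicator_of_mem hy _

theorem pb_off {y : ℂ} (hy : y ∉ W) : pb F W w y = 0 :=
  Set.indicator_of_notMem hy _

theorem pb_gt (h0 : ∀ x, 0 ≤ w x) {t : ℝ} (ht : 0 ≤ t) : {y | t < pb F W w y} = W ∩ F ⁻¹' {x | t < w x} := by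
  ext y
  by_cases hy : y ∈ W
  · show t < pb F W w y ↔ y ∈ W ∧ t < w (F y)
    rw [pb_on hy]
    exact ⟨fun h => ⟨hy, h⟩, fun h => h.2⟩
  · show t < pb F W w y ↔ y ∈ W ∧ t < w (F y)
    rw [pb_off hy]
    exact ⟨fun h => absurd ht (not_le.2 h), fun h => absurd h.1 hy⟩

private theorem pb_zero {y : ℂ} (hy : y ∉ W ∩ F ⁻¹' tsupport w) : pb F W w y = 0 := by
  by_cases h : y ∈ W
  · rw [pb_on h]
    exact image_eq_zero_of_notMem_tsupport fun h' => hy ⟨h, h'⟩
  · exact pb_off h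

private theorem pb_nz (h : Bh F W D) (hw : HasCompactSupport w) (hs : tsupport w ⊆ D) {y : ℂ} (hy : y ∉ W ∩ F ⁻¹' tsupport w) :
    ∀ᶠ z in 𝓝 y, pb F W w z = 0 := by
  have h1 : IsClosed (W ∩ F ⁻¹' tsupport w) := (bh_cpt h hs hw).isClosed
  filter_upwards [h1.isOpen_compl.mem_nhds hy] with z hz
  exact pb_zero hz

theorem pb_cs (h : Bh F W D) (hw : HasCompactSupport w) (hs : tsupport w ⊆ D) :
    HasCompactSupport (pb F W w) ∧ tsupport (pb F W w) ⊆ W := by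
  have h1 := bh_cpt h hs hw
  refine ⟨HasCompactSupport.intro h1 fun y hy => pb_zero hy, ?_⟩
  refine (closure_minimal (fun y hy => ?_) h1.isClosed).trans inter_subset_left
  by_contra h2
  exact hy (pb_zero h2)

private theorem cda (h : Bh F W D) {y : ℂ} (hy : y ∈ W) : ContDiffAt ℝ 1 F y :=
  ((h.fd.analyticAt (h.Wo.mem_nhds hy)).contDiffAt).restrict_scalars ℝ

theorem pb_lip (h : Bh F W D) (hw : HasCompactSupport w) (hs : tsupport w ⊆ D) {K : NNReal} (hK : LipschitzWith K w) :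
    ∃ K' : NNReal, LipschitzWith K' (pb F W w) := by
  refine ll (pb_cs h hw hs).1 fun x => ?_
  by_cases hx : x ∈ W
  · obtain ⟨K1, t, ht, h1⟩ := (cda h hx).exists_lipschitzOnWith
    refine ⟨K * K1, t ∩ W, inter_mem ht (h.Wo.mem_nhds hx), ?_⟩
    intro a ha b hb
    rw [pb_on ha.2, pb_on hb.2]
    exact (hK.comp_lipschitzOnWith h1) ha.1 hb.1
  · have h2 : x ∉ W ∩ F ⁻¹' tsupport w := fun h => hx h.1
    refine ⟨0, {z | pb F W w z = 0}, pb_nz h hw hs h2, ?_⟩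
    intro a ha b hb
    have ha' : pb F W w a = 0 := ha
    have hb' : pb F W w b = 0 := hb
    rw [ha', hb', edist_self]
    exact zero_le

private theorem gt_sub (hs : tsupport w ⊆ D) {t : ℝ} (ht : 0 < t) : {x | t < w x} ⊆ D := fun x hx =>
  hs (subset_tsupport _ (fun h0 => by
    have h1 : t < w x := hx
    rw [h0] at h1
    exact absurd h1 (not_lt.2 ht.le)))

private theorem pb_lc (h : Bh F W D) (hw : HasCompactSupport w) (hs : tsupport w ⊆ D)
    (hl : ∀ x ∈ P, ∀ᶠ y in 𝓝 x, w y = w x) (hP : ∀ y ∈ P, y ∈ W → F y ∈ P) :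
    ∀ x ∈ P, ∀ᶠ y in 𝓝 x, pb F W w y = pb F W w x := by
  intro x hx
  by_cases hxW : x ∈ W
  · have h1 : ContinuousAt F x := (cda h hxW).continuousAt
    filter_upwards [h1.eventually (hl _ (hP x hx hxW)), h.Wo.mem_nhds hxW] with y hy hyW
    rw [pb_on hyW, pb_on hxW]
    exact hy
  · have h2 : x ∉ W ∩ F ⁻¹' tsupport w := fun h => hxW h.1
    filter_upwards [pb_nz h hw hs h2] with y hy
    rw [hy, pb_off hxW]

theorem pb_ul (h : Bh F W D) (hw : UL P w) (hs : tsupport w ⊆ D) (hP : ∀ y ∈ P, y ∈ W → F y ∈ P) : UL P (pb F W w) := by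
  obtain ⟨K, hK⟩ := hw.lip
  refine ⟨pb_lip h hw.cs hs hK, ?_, ?_, (pb_cs h hw.cs hs).1, ?_, ?_, pb_lc h hw.cs hs hw.lc hP⟩
  · intro y
    by_cases hy : y ∈ W
    · rw [pb_on hy]
      exact hw.lo _
    · rw [pb_off hy]
  · intro y
    by_cases hy : y ∈ W
    · rw [pb_on hy]
      exact hw.hi _
    · rw [pb_off hy]
      exact zero_le_one
  · intro t h0 h1
    rw [pb_gt hw.lo h0.le]
    exact bh_pre h (gt_sub hs h0) (hw.co t h0 h1)
  · intro t h0 h1
    rw [pb_gt hw.lo h0.le]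
    exact h.fu _ (gt_sub hs h0) (hw.fu t h0 h1)

theorem pb_um (h : Bh F W D) (hw : UM P w) (hs : tsupport w ⊆ D) (hP : ∀ y ∈ P, y ∈ W → F y ∈ P) : UM P (pb F W w) := by
  refine um_ul (pb_ul h (ul_um hw) hs hP) fun x hx => ?_
  by_cases hxW : x ∈ W
  · rw [pb_on hxW]
    exact hw.va _ (hP x hx hxW)
  · exact Or.inl (pb_off hxW)

private theorem rder (h : Bh F W D) {y : ℂ} (hy : y ∈ W) :
    HasFDerivAt F ((ContinuousLinearMap.toSpanSingleton ℂ (deriv F y)).restrictScalars ℝ) y :=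
  ((h.fd.differentiableAt (h.Wo.mem_nhds hy)).hasDerivAt.hasFDerivAt).restrictScalars ℝ

theorem pb_fd (h : Bh F W D) {y : ℂ} (hy : y ∈ W) :
    ‖fderiv ℝ (pb F W w) y‖ ≤ ‖fderiv ℝ w (F y)‖ * ‖deriv F y‖ := by
  have h1 : pb F W w =ᶠ[𝓝 y] fun z => w (F z) := by
    filter_upwards [h.Wo.mem_nhds hy] with z hz
    exact pb_on hz
  rw [h1.fderiv_eq]
  by_cases hd : DifferentiableAt ℝ w (F y)
  · have h2 : HasFDerivAt (fun z => w (F z))
        ((fderiv ℝ w (F y)).comp ((ContinuousLinearMap.toSpanSingleton ℂ (deriv F y)).restrictScalars ℝ)) y :=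
      HasFDerivAt.comp y hd.hasFDerivAt (rder h hy)
    rw [h2.fderiv]
    refine (ContinuousLinearMap.opNorm_comp_le _ _).trans ?_
    refine mul_le_mul_of_nonneg_left ?_ (norm_nonneg _)
    refine ContinuousLinearMap.opNorm_le_bound _ (norm_nonneg _) fun v => ?_
    show ‖v • deriv F y‖ ≤ _
    rw [norm_smul, mul_comm]
  · have h2 : ¬ DifferentiableAt ℝ (fun z => w (F z)) y := by
      intro hc
      apply hd
      obtain ⟨g, g1, -, g3, g4⟩ := bh_inv h
      have hDo : IsOpen D := by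
        rw [← h.img]
        exact bh_open h h.Wo subset_rfl
      have hFy : F y ∈ D := by
        rw [← h.img]
        exact mem_image_of_mem F hy
      have h3 : DifferentiableAt ℝ g (F y) := (g1.differentiableAt (hDo.mem_nhds hFy)).restrictScalars ℝ
      have h4 : DifferentiableAt ℝ (fun x => w (F (g x))) (F y) := by
        refine DifferentiableAt.comp (F y) (g := fun z => w (F z)) (f := g) ?_ h3
        rw [g3 y hy]
        exact hc
      refine h4.congr_of_eventuallyEq ?_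
      filter_upwards [hDo.mem_nhds hFy] with x hx
      rw [(g4 x hx).2]
    rw [fderiv_zero_of_not_differentiableAt h2, norm_zero]
    positivity

private theorem absdet (a : ℂ) : |((ContinuousLinearMap.toSpanSingleton ℂ a).restrictScalars ℝ : ℂ →L[ℝ] ℂ).det| = ‖a‖ ^ 2 := by
  have h1 : ((ContinuousLinearMap.toSpanSingleton ℂ a).restrictScalars ℝ : ℂ →L[ℝ] ℂ).det = ‖a‖ ^ 2 := by
    simp [ContinuousLinearMap.det, LinearMap.det_restrictScalars, Algebra.norm_complex_eq, Complex.normSq_eq_norm_sq]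
  rw [h1, abs_of_nonneg (by positivity)]

private theorem msr (h : Bh F W D) {T : Set ℂ} (hT : MeasurableSet T) : MeasurableSet (W ∩ F ⁻¹' T) := by
  have h1 : Continuous (W.domRestrict F) := continuousOn_iff_continuous_domRestrict.1 h.fd.continuousOn
  have h2 : MeasurableSet ((W.domRestrict F) ⁻¹' T) := h1.measurable hT
  have h3 := h.Wo.measurableSet.subtype_image h2
  convert h3 using 1
  ext y
  constructor
  · rintro ⟨h4, h5⟩
    exact ⟨⟨y, h4⟩, h5, rfl⟩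
  · rintro ⟨⟨z, hz⟩, h5, rfl⟩
    exact ⟨hz, h5⟩

theorem pb_cov (h : Bh F W D) {T : Set ℂ} (hT : MeasurableSet T) :
    ∫⁻ y in W ∩ F ⁻¹' T, ρ (F y) * ENNReal.ofReal ‖deriv F y‖ * ENNReal.ofReal ‖fderiv ℝ (pb F W w) y‖ ≤
      ∫⁻ x in T ∩ D, ρ x * ENNReal.ofReal ‖fderiv ℝ w x‖ := by
  have himg : F '' (W ∩ F ⁻¹' T) = T ∩ D := by
    rw [← h.img]
    ext x
    constructor
    · rintro ⟨y, ⟨h1, h2⟩, rfl⟩
      exact ⟨h2, mem_image_of_mem F h1⟩
    · rintro ⟨h2, y, h1, rfl⟩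
      exact ⟨y, ⟨h1, h2⟩, rfl⟩
  rw [← himg, lintegral_image_eq_lintegral_abs_det_fderiv_mul volume (msr h hT)
      (f' := fun y => (ContinuousLinearMap.toSpanSingleton ℂ (deriv F y)).restrictScalars ℝ)
      (fun y hy => (rder h hy.1).hasFDerivWithinAt) (h.inj.mono inter_subset_left)]
  refine setLIntegral_mono' (msr h hT) fun y hy => ?_
  beta_reduce
  rw [absdet]
  have h1 : ENNReal.ofReal ‖fderiv ℝ (pb F W w) y‖ ≤ ENNReal.ofReal ‖fderiv ℝ w (F y)‖ * ENNReal.ofReal ‖deriv F y‖ := by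
    rw [← ENNReal.ofReal_mul (norm_nonneg _)]
    exact ENNReal.ofReal_le_ofReal (pb_fd h hy.1)
  rw [pow_two, ENNReal.ofReal_mul (norm_nonneg _)]
  calc ρ (F y) * ENNReal.ofReal ‖deriv F y‖ * ENNReal.ofReal ‖fderiv ℝ (pb F W w) y‖
      ≤ ρ (F y) * ENNReal.ofReal ‖deriv F y‖ * (ENNReal.ofReal ‖fderiv ℝ w (F y)‖ * ENNReal.ofReal ‖deriv F y‖) := by gcongr
    _ = ENNReal.ofReal ‖deriv F y‖ * ENNReal.ofReal ‖deriv F y‖ * (ρ (F y) * ENNReal.ofReal ‖fderiv ℝ w (F y)‖) := by ring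

theorem pb_ell (h : Bh F W D) (hw : HasCompactSupport w) (hs : tsupport w ⊆ D)
    (hρ : ∀ y ∈ W, ρ y ≤ ρ (F y) * ENNReal.ofReal ‖deriv F y‖) : ell ρ (pb F W w) ≤ ell ρ w := by
  unfold ell
  rw [← lintegral_add_compl _ h.Wo.measurableSet]
  have h1 : ∫⁻ x in Wᶜ, ρ x * ENNReal.ofReal ‖fderiv ℝ (pb F W w) x‖ = 0 := by
    refine setLIntegral_eq_zero h.Wo.measurableSet.compl fun x hx => ?_
    have h2 : x ∉ W ∩ F ⁻¹' tsupport w := fun h => hx h.1
    have h3 : pb F W w =ᶠ[𝓝 x] fun _ => 0 := pb_nz h hw hs h2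
    show ρ x * ENNReal.ofReal ‖fderiv ℝ (pb F W w) x‖ = 0
    rw [h3.fderiv_eq]
    simp
  rw [h1, add_zero]
  have h4 := pb_cov (ρ := ρ) (w := w) h MeasurableSet.univ
  rw [preimage_univ, inter_univ, univ_inter] at h4
  refine (setLIntegral_mono' h.Wo.measurableSet fun y hy => ?_).trans (h4.trans (setLIntegral_le_lintegral _ _))
  gcongr
  exact hρ y hy

end Pool.Agent.H81.RW
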