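import Pool.Agent.H81.RW.Sqf
import Pool.Agent.H81.RW.Pull

/-!
# Module Crit: the critical pull back

`η : ball 0 r → U` injective, `f (η x) = v + x ^ 2`, `w` unimodal, `w v = 1`, `tsupport w ⊆ ball v (r ^ 2)`; `W = η '' ball 0 r`, `ω = pb f W w`.
PROOFS. `{t < ω} = η '' {x | v + x ^ 2 ∈ {t < w}}` for `t ≥ 0` (for `x` in this set `‖x‖ ^ 2 < r ^ 2`): preconnected (`sq_pre`, `v ∈ {t < w}` for `t < 1`), full (`sq_full`, `img_full`). Support: the compact set `η '' {x | v + x ^ 2 ∈ tsupport w}` (`tsupport w` is compact in the open ball). Lipschitz: `ll` as in `pb_lip` (`f` is holomorphic on `W ⊆ U`).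
`lc`, `va`: as in `pb_um`. `cr_ell`: `W` is up to a null set (the image of the real axis: `η` is Lipschitz on compact sets / holomorphic, null sets go to null sets) the disjoint union of the `η`-images `W₁`, `W₂` of the upper and the lower half disc; `f` is injective on each with image in `D = ball v (r ^ 2)`; on each half
`∫⁻ y in W_i, ρ (f y) ofReal ‖deriv f y‖ ofReal ‖fderiv ℝ ω y‖ ≤ ∫⁻ x in f '' W_i, ρ x ofReal ‖fderiv ℝ w x‖ ≤ ell ρ w` (change of variables as in `pb_cov`; the pointwise bound `‖fderiv ℝ ω y‖ ≤ ‖fderiv ℝ w (f y)‖ ‖deriv f y‖` as in `pb_fd`, valid where `deriv f y ≠ 0`).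
`cr_sym`: `ω (η (-x)) = ω (η x)`: definition.
-/

set_option autoImplicit false

open Filter Topology Metric Set MeasureTheory

namespace Pool.Agent.H81.RW

open Pool.Agent.H56.TH

variable {f η : ℂ → ℂ} {U P : Set ℂ} {v : ℂ} {r : ℝ} {w : ℂ → ℝ} {ρ : ℂ → ENNReal}

private theorem inj_op {g : ℂ → ℂ} {y : ℂ} {r : ℝ} (hg : DifferentiableOn ℂ g (ball y r)) (hi : InjOn g (ball y r))
    {D : Set ℂ} (hD : IsOpen D) (hDb : D ⊆ ball y r) : IsOpen (g '' D) := by
  rcases D.eq_empty_or_nonempty with rfl | ⟨x, hx⟩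
  · rw [image_empty]
    exact isOpen_empty
  rcases (hg.analyticOnNhd isOpen_ball).is_constant_or_isOpen (convex_ball y r).isPreconnected with h | h
  · exfalso
    obtain ⟨w, hw⟩ := h
    have hxb := hDb hx
    have hr : 0 < r := pos_of_mem_ball hxb
    have h1 : y ∈ ball y r := mem_ball_self hr
    have h2 : y + (r / 2 : ℝ) ∈ ball y r := by
      rw [mem_ball, dist_eq_norm, add_sub_cancel_left, Complex.norm_real, Real.norm_of_nonneg (by linarith)]
      linarith
    have h3 := hi h1 h2 (by rw [hw y h1, hw _ h2])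
    have h4 : ((r / 2 : ℝ) : ℂ) = 0 := by linear_combination -h3
    have h5 : r / 2 = 0 := by exact_mod_cast h4
    linarith
  · exact h D hDb hD

private theorem pb_emp : pb f ∅ w = fun _ => 0 := by
  funext y
  exact Set.indicator_of_notMem (Set.notMem_empty y) _

private theorem full_emp : Full (∅ : Set ℂ) := by
  intro O hO hb hfr
  have h0 : frontier O = ∅ := Set.subset_empty_iff.1 hfr
  have hc : IsClopen O := by
    refine ⟨?_, hO⟩
    rw [hO.frontier_eq] at h0
    exact isClosed_of_closure_subset (Set.diff_eq_empty.1 h0)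
  rcases isClopen_iff.1 hc with h | h
  · rw [h]
  · exfalso
    apply NormedSpace.unbounded_univ ℂ ℂ
    rw [← h]
    exact hb

private theorem um_emp : UM P (pb f ∅ w) := by
  rw [pb_emp]
  refine ⟨⟨0, LipschitzWith.const 0⟩, fun _ => le_rfl, fun _ => zero_le_one, HasCompactSupport.zero, ?_, ?_,
    fun x _ => Filter.Eventually.of_forall fun _ => rfl, fun _ _ => Or.inl rfl⟩
  · intro t ht _
    have h1 : {x : ℂ | t < (fun _ : ℂ => (0 : ℝ)) x} = ∅ := by
      ext x
      exact ⟨fun h => absurd ht (not_lt.2 (le_of_lt h)), fun h => h.elim⟩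
    rw [h1]
    exact isPreconnected_empty
  · intro t ht _
    have h1 : {x : ℂ | t < (fun _ : ℂ => (0 : ℝ)) x} = ∅ := by
      ext x
      exact ⟨fun h => absurd ht (not_lt.2 (le_of_lt h)), fun h => h.elim⟩
    rw [h1]
    exact full_emp

/-- `x ^ 2` small implies `x` small -/
private theorem sm (hr : 0 < r) {x : ℂ} (h : v + x ^ 2 ∈ ball v (r ^ 2)) : x ∈ ball (0 : ℂ) r := by
  rw [mem_ball, dist_eq_norm, add_sub_cancel_left, norm_pow] at h
  rw [mem_ball, dist_zero_right]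
  exact lt_of_pow_lt_pow_left₀ 2 hr.le h

private theorem cpt (hr : 0 < r) (hη : DifferentiableOn ℂ η (ball 0 r)) (hw : HasCompactSupport w)
    (hs : tsupport w ⊆ ball v (r ^ 2)) : IsCompact (η '' {x | v + x ^ 2 ∈ tsupport w}) := by
  have h1 : IsClosed {x : ℂ | v + x ^ 2 ∈ tsupport w} :=
    (isClosed_tsupport w).preimage (f := fun x : ℂ => v + x ^ 2) (by fun_prop)
  have h2 : {x : ℂ | v + x ^ 2 ∈ tsupport w} ⊆ ball 0 r := fun x hx => sm hr (hs hx)
  have h3 : IsCompact {x : ℂ | v + x ^ 2 ∈ tsupport w} :=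
    Metric.isCompact_of_isClosed_isBounded h1 (isBounded_ball.subset h2)
  exact h3.image_of_continuousOn (hη.continuousOn.mono h2)

private theorem cz (hr : 0 < r) (he : ∀ x ∈ ball (0 : ℂ) r, η x ∈ U ∧ f (η x) = v + x ^ 2)
    {y : ℂ} (hy : y ∉ η '' {x | v + x ^ 2 ∈ tsupport w}) : pb f (η '' ball 0 r) w y = 0 := by
  by_cases h : y ∈ η '' ball 0 r
  · rw [pb_on h]
    obtain ⟨x, hx, rfl⟩ := h
    rw [(he x hx).2]
    exact image_eq_zero_of_notMem_tsupport fun h' => hy ⟨x, h', rfl⟩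
  · exact pb_off h

private theorem cnz (hr : 0 < r) (hη : DifferentiableOn ℂ η (ball 0 r))
    (he : ∀ x ∈ ball (0 : ℂ) r, η x ∈ U ∧ f (η x) = v + x ^ 2) (hw : HasCompactSupport w)
    (hs : tsupport w ⊆ ball v (r ^ 2)) {y : ℂ} (hy : y ∉ η '' {x | v + x ^ 2 ∈ tsupport w}) :
    ∀ᶠ z in 𝓝 y, pb f (η '' ball 0 r) w z = 0 := by
  filter_upwards [(cpt hr hη hw hs).isClosed.isOpen_compl.mem_nhds hy] with z hz
  exact cz hr he hz

theorem cr_um (hU : IsOpen U) (hfd : DifferentiableOn ℂ f U) (hη : DifferentiableOn ℂ η (ball 0 r))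
    (hi : InjOn η (ball 0 r)) (he : ∀ x ∈ ball (0 : ℂ) r, η x ∈ U ∧ f (η x) = v + x ^ 2) (hw : UM P w)
    (hv : w v = 1) (hs : tsupport w ⊆ ball v (r ^ 2)) (hP : ∀ y ∈ P, y ∈ η '' ball 0 r → f y ∈ P) :
    UM P (pb f (η '' ball 0 r) w) ∧ tsupport (pb f (η '' ball 0 r) w) ⊆ η '' ball 0 r := by
  rcases le_or_gt r 0 with hr | hr
  · rw [ball_eq_empty.2 hr, image_empty]
    refine ⟨um_emp, ?_⟩
    rw [pb_emp]
    intro x hx
    rw [tsupport, Function.support_fun_zero, closure_empty] at hx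
    exact hx
  obtain ⟨W, hW⟩ : ∃ W, W = η '' ball 0 r := ⟨_, rfl⟩
  have hWo : IsOpen W := by rw [hW]; exact inj_op hη hi isOpen_ball subset_rfl
  have hWU : W ⊆ U := by
    rw [hW]
    rintro _ ⟨x, hx, rfl⟩
    exact (he x hx).1
  have hSW : η '' {x | v + x ^ 2 ∈ tsupport w} ⊆ W := by
    rw [hW]
    exact image_mono fun x hx => sm hr (hs hx)
  have hK := cpt (η := η) hr hη hw.cs hs
  have hnz : ∀ y, y ∉ η '' {x | v + x ^ 2 ∈ tsupport w} → ∀ᶠ z in 𝓝 y, pb f W w z = 0 := by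
    intro y hy
    rw [hW]
    exact cnz hr hη he hw.cs hs hy
  have hz0 : ∀ y, y ∉ η '' {x | v + x ^ 2 ∈ tsupport w} → pb f W w y = 0 := by
    intro y hy
    rw [hW]
    exact cz hr he hy
  have hcs : HasCompactSupport (pb f W w) := HasCompactSupport.intro hK hz0
  have hts : tsupport (pb f W w) ⊆ W := by
    refine (closure_minimal (fun y hy => ?_) hK.isClosed).trans hSW
    by_contra h2
    exact hy (hz0 y h2)
  have hcda : ∀ y ∈ W, ContDiffAt ℝ 1 f y := fun y hy =>
    ((hfd.analyticAt (hU.mem_nhds (hWU hy))).contDiffAt).restrict_scalars ℝ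
  have hset : ∀ t : ℝ, 0 ≤ t → {y | t < pb f W w y} = η '' {x | v + x ^ 2 ∈ {z | t < w z}} := by
    intro t ht
    rw [pb_gt hw.lo ht, hW]
    ext y
    constructor
    · rintro ⟨⟨x, hx, rfl⟩, hy⟩
      refine ⟨x, ?_, rfl⟩
      have hy' : t < w (f (η x)) := hy
      rw [(he x hx).2] at hy'
      exact hy'
    · rintro ⟨x, hx, rfl⟩
      have hx' : t < w (v + x ^ 2) := hx
      have h1 : v + x ^ 2 ∈ tsupport w := by
        refine subset_tsupport _ ?_
        intro h0
        rw [h0] at hx'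
        exact absurd hx' (not_lt.2 ht)
      have h2 : x ∈ ball (0 : ℂ) r := sm hr (hs h1)
      refine ⟨mem_image_of_mem _ h2, ?_⟩
      show t < w (f (η x))
      rw [(he x h2).2]
      exact hx'
  have hsub : ∀ t : ℝ, 0 ≤ t → {x : ℂ | v + x ^ 2 ∈ {z | t < w z}} ⊆ ball 0 r := by
    intro t ht x hx
    have hx' : t < w (v + x ^ 2) := hx
    refine sm hr (hs (subset_tsupport _ ?_))
    intro h0
    rw [h0] at hx'
    exact absurd hx' (not_lt.2 ht)
  rw [← hW]
  obtain ⟨K, hKl⟩ := hw.lip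
  refine ⟨⟨?_, ?_, ?_, hcs, ?_, ?_, ?_, ?_⟩, hts⟩
  · refine ll hcs fun x => ?_
    by_cases hx : x ∈ W
    · obtain ⟨K1, t, ht, h1⟩ := (hcda x hx).exists_lipschitzOnWith
      refine ⟨K * K1, t ∩ W, inter_mem ht (hWo.mem_nhds hx), ?_⟩
      intro a ha b hb
      rw [pb_on ha.2, pb_on hb.2]
      exact (hKl.comp_lipschitzOnWith h1) ha.1 hb.1
    · refine ⟨0, {z | pb f W w z = 0}, hnz x fun h => hx (hSW h), ?_⟩
      intro a ha b hb
      have ha' : pb f W w a = 0 := ha
      have hb' : pb f W w b = 0 := hb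
      rw [ha', hb', edist_self]
      exact zero_le
  · intro y
    by_cases hy : y ∈ W
    · rw [pb_on hy]
      exact hw.lo _
    · rw [pb_off hy]
  · intro y
    by_cases hy : y ∈ W
    · rw [pb_on hy]
      exact hw.hi _
    · rw [pb_off hy]
      exact zero_le_one
  · intro t h0 h1
    rw [hset t h0.le]
    have hop : IsOpen {z | t < w z} := isOpen_lt continuous_const hKl.continuous
    have hvt : v ∈ {z | t < w z} := by
      show t < w v
      rw [hv]
      exact h1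
    exact (sq_pre hop (hw.co t h0 h1) hvt).image _ (hη.continuousOn.mono (hsub t h0.le))
  · intro t h0 h1
    rw [hset t h0.le]
    exact img_full hη hi (hsub t h0.le) (sq_full (hw.fu t h0 h1))
  · intro x hx
    by_cases hxW : x ∈ W
    · have h1 : ContinuousAt f x := (hcda x hxW).continuousAt
      filter_upwards [h1.eventually (hw.lc _ (hP x hx (hW ▸ hxW))), hWo.mem_nhds hxW] with y hy hyW
      rw [pb_on hyW, pb_on hxW]
      exact hy
    · filter_upwards [hnz x fun h => hxW (hSW h)] with y hy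
      rw [hy, pb_off hxW]
  · intro x hx
    by_cases hxW : x ∈ W
    · rw [pb_on hxW]
      exact hw.va _ (hP x hx (hW ▸ hxW))
    · exact Or.inl (pb_off hxW)

/-- the slit disc -/
private def slit (v : ℂ) (r : ℝ) : Set ℂ := {u | u ∈ ball v (r ^ 2) ∧ -(u - v) ∈ Complex.slitPlane}

private theorem slit_open : IsOpen (slit v r) :=
  isOpen_ball.inter (Complex.isOpen_slitPlane.preimage (by fun_prop))

/-- the square root with values in the upper half plane -/
private noncomputable def rt (v u : ℂ) : ℂ := Complex.I * (-(u - v)) ^ (1 / 2 : ℂ)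

private theorem rt_diff : DifferentiableOn ℂ (rt v) (slit v r) := by
  intro u hu
  unfold rt
  refine DifferentiableAt.differentiableWithinAt ?_
  refine DifferentiableAt.const_mul ?_ _
  exact DifferentiableAt.cpow_const (by fun_prop) hu.2

private theorem rt_sq {u : ℂ} (hu : u ∈ slit v r) : rt v u ^ 2 = u - v := by
  have h1 : ((-(u - v)) ^ (1 / 2 : ℂ)) ^ 2 = -(u - v) := by
    rw [← Complex.cpow_nat_mul]
    norm_num
  unfold rt
  rw [mul_pow, h1, Complex.I_sq]
  ring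

private theorem rt_ne {u : ℂ} (hu : u ∈ slit v r) : rt v u ≠ 0 := by
  intro h0
  have h1 := rt_sq hu
  rw [h0] at h1
  have h2 : -(u - v) = 0 := by
    rw [← h1]
    ring
  exact Complex.slitPlane_ne_zero hu.2 h2

private theorem rt_im {u : ℂ} (hu : u ∈ slit v r) : 0 < (rt v u).im := by
  have hne : -(u - v) ≠ 0 := Complex.slitPlane_ne_zero hu.2
  have h1 : rt v u = Complex.I * Complex.exp (Complex.log (-(u - v)) * (1 / 2 : ℂ)) := by
    unfold rt
    rw [Complex.cpow_def_of_ne_zero hne]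
  rw [h1, Complex.I_mul_im, Complex.exp_re]
  refine mul_pos (Real.exp_pos _) (Real.cos_pos_of_mem_Ioo ?_)
  have h2 : (Complex.log (-(u - v)) * (1 / 2 : ℂ)).im = Complex.arg (-(u - v)) / 2 := by
    have h3 : (1 / 2 : ℂ) = ((1 / 2 : ℝ) : ℂ) := by push_cast; ring
    rw [h3, Complex.im_mul_ofReal, Complex.log_im]
    ring
  rw [h2]
  have h4 := Complex.neg_pi_lt_arg (-(u - v))
  have h5 : Complex.arg (-(u - v)) < Real.pi := by
    refine lt_of_le_of_ne (Complex.arg_le_pi _) ?_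
    exact (Complex.mem_slitPlane_iff_arg.1 hu.2).1
  constructor <;> linarith

/-- one half -/
private theorem half (hU : IsOpen U) (hfd : DifferentiableOn ℂ f U) (hr : 0 < r) (hη : DifferentiableOn ℂ η (ball 0 r))
    (hi : InjOn η (ball 0 r)) (he : ∀ x ∈ ball (0 : ℂ) r, η x ∈ U ∧ f (η x) = v + x ^ 2) {s : ℂ → ℂ}
    (hs : DifferentiableOn ℂ s (slit v r)) (hse : ∀ u ∈ slit v r, s u ^ 2 = u - v ∧ s u ≠ 0) :
    Bh f (η '' (s '' slit v r)) (slit v r) := by
  have hsb : ∀ u ∈ slit v r, s u ∈ ball (0 : ℂ) r := by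
    intro u hu
    apply sm (v := v) hr
    rw [(hse u hu).1]
    convert hu.1 using 1
    ring
  have hfs : ∀ u ∈ slit v r, f (η (s u)) = u := by
    intro u hu
    rw [(he _ (hsb u hu)).2, (hse u hu).1]
    ring
  have hsi : InjOn s (slit v r) := by
    intro u hu u' hu' h
    rw [← hfs u hu, ← hfs u' hu', h]
  refine ⟨?_, ?_, ?_, ?_, ?_⟩
  · refine inj_op hη hi ?_ ?_
    · rw [isOpen_iff_mem_nhds]
      rintro _ ⟨u, hu, rfl⟩
      have ha : AnalyticAt ℂ s u := hs.analyticAt (slit_open.mem_nhds hu)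
      rcases ha.eventually_constant_or_nhds_le_map_nhds with h | h
      · exfalso
        have h1 : ∀ᶠ y in 𝓝 u, y = u := by
          filter_upwards [h, slit_open.mem_nhds hu] with y hy hyU
          exact hsi hyU hu hy
        have h2 : ∀ᶠ y in 𝓝[≠] u, y = u := h1.filter_mono nhdsWithin_le_nhds
        have h3 : ∀ᶠ y in 𝓝[≠] u, y ≠ u := eventually_mem_nhdsWithin
        obtain ⟨y, hy1, hy2⟩ := (h2.and h3).exists
        exact hy2 hy1
      · exact h (Filter.image_mem_map (slit_open.mem_nhds hu))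
    · rintro _ ⟨u, hu, rfl⟩
      exact hsb u hu
  · apply hfd.mono
    rintro _ ⟨_, ⟨u, hu, rfl⟩, rfl⟩
    exact (he _ (hsb u hu)).1
  · rintro _ ⟨_, ⟨u, hu, rfl⟩, rfl⟩ _ ⟨_, ⟨u', hu', rfl⟩, rfl⟩ h
    rw [hfs u hu, hfs u' hu'] at h
    rw [h]
  · ext u
    constructor
    · rintro ⟨_, ⟨_, ⟨u', hu', rfl⟩, rfl⟩, h⟩
      rw [hfs u' hu'] at h
      rw [← h]
      exact hu'
    · intro hu
      exact ⟨_, ⟨_, ⟨u, hu, rfl⟩, rfl⟩, hfs u hu⟩
  · intro V hV hVf
    have h1 : η '' (s '' slit v r) ∩ f ⁻¹' V = η '' (s '' V) := by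
      ext y
      constructor
      · rintro ⟨⟨_, ⟨u, hu, rfl⟩, rfl⟩, hy⟩
        have hy' : f (η (s u)) ∈ V := hy
        rw [hfs u hu] at hy'
        exact ⟨_, ⟨u, hy', rfl⟩, rfl⟩
      · rintro ⟨_, ⟨u, hu, rfl⟩, rfl⟩
        refine ⟨⟨_, ⟨u, hV hu, rfl⟩, rfl⟩, ?_⟩
        show f (η (s u)) ∈ V
        rw [hfs u (hV hu)]
        exact hu
    rw [h1]
    apply img_full hη hi _ (rt_full slit_open hs hse hV hVf)
    rintro _ ⟨u, hu, rfl⟩
    exact hsb u (hV hu)

private theorem half_int {W' : Set ℂ} (h : Bh f W' (slit v r)) {W : Set ℂ} (hWW : W' ⊆ W)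
    (hρ : ∀ y ∈ W, deriv f y ≠ 0 → ρ y ≤ ρ (f y) * ENNReal.ofReal ‖deriv f y‖) :
    ∫⁻ y in W', ρ y * ENNReal.ofReal ‖fderiv ℝ (pb f W w) y‖ ≤ ell ρ w := by
  have h4 := pb_cov (ρ := ρ) (w := w) h MeasurableSet.univ
  rw [preimage_univ, inter_univ, univ_inter] at h4
  unfold ell
  refine (setLIntegral_mono' h.Wo.measurableSet fun y hy => ?_).trans (h4.trans (setLIntegral_le_lintegral _ _))
  have h5 : pb f W w =ᶠ[𝓝 y] pb f W' w := by
    filter_upwards [h.Wo.mem_nhds hy] with z hz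
    rw [pb_on hz, pb_on (hWW hz)]
  rw [h5.fderiv_eq]
  gcongr
  exact hρ y (hWW hy) (bh_der h hy)

theorem cr_ell (hU : IsOpen U) (hfd : DifferentiableOn ℂ f U) (hη : DifferentiableOn ℂ η (ball 0 r))
    (hi : InjOn η (ball 0 r)) (he : ∀ x ∈ ball (0 : ℂ) r, η x ∈ U ∧ f (η x) = v + x ^ 2) (hw : HasCompactSupport w)
    (hs : tsupport w ⊆ ball v (r ^ 2))
    (hρ : ∀ y ∈ η '' ball 0 r, deriv f y ≠ 0 → ρ y ≤ ρ (f y) * ENNReal.ofReal ‖deriv f y‖) :
    ell ρ (pb f (η '' ball 0 r) w) ≤ 2 * ell ρ w := by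
  rcases le_or_gt r 0 with hr | hr
  · rw [ball_eq_empty.2 hr, image_empty, pb_emp]
    have h0 : ell ρ (fun _ : ℂ => (0 : ℝ)) = 0 := by
      unfold ell
      simp
    rw [h0]
    exact zero_le
  have h1 : Bh f (η '' (rt v '' slit v r)) (slit v r) :=
    half hU hfd hr hη hi he rt_diff fun u hu => ⟨rt_sq hu, rt_ne hu⟩
  have h2 : Bh f (η '' ((fun u => -rt v u) '' slit v r)) (slit v r) :=
    half hU hfd hr hη hi he rt_diff.neg fun u hu => ⟨by rw [neg_sq]; exact rt_sq hu, neg_ne_zero.2 (rt_ne hu)⟩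
  have hb : ∀ u ∈ slit v r, rt v u ∈ ball (0 : ℂ) r := by
    intro u hu
    apply sm (v := v) hr
    rw [rt_sq hu]
    convert hu.1 using 1
    ring
  have hs1 : η '' (rt v '' slit v r) ⊆ η '' ball 0 r := by
    apply image_mono
    rintro _ ⟨u, hu, rfl⟩
    exact hb u hu
  have hs2 : η '' ((fun u => -rt v u) '' slit v r) ⊆ η '' ball 0 r := by
    apply image_mono
    rintro _ ⟨u, hu, rfl⟩
    have := hb u hu
    rw [mem_ball, dist_zero_right] at this ⊢
    rwa [norm_neg]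
  obtain ⟨N, hN⟩ : ∃ N : Set ℂ, N = η '' (ball 0 r ∩ {x | x.im = 0}) := ⟨_, rfl⟩
  have hN0 : volume N = 0 := by
    rw [hN]
    apply addHaar_image_eq_zero_of_differentiableOn_of_addHaar_eq_zero
    · exact (hη.mono inter_subset_left).restrictScalars ℝ
    · refine measure_mono_null inter_subset_right ?_
      have h3 : {x : ℂ | x.im = 0} = (LinearMap.ker Complex.imLm : Set ℂ) := by
        ext x
        simp
      rw [h3]
      apply Measure.addHaar_submodule
      intro h4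
      have h5 : Complex.I ∈ LinearMap.ker Complex.imLm := by
        rw [h4]
        trivial
      simp at h5
  have hcov : η '' ball 0 r ⊆ η '' (rt v '' slit v r) ∪ (η '' ((fun u => -rt v u) '' slit v r) ∪ N) := by
    rintro _ ⟨x, hx, rfl⟩
    by_cases hx0 : x.im = 0
    · right; right
      rw [hN]
      exact ⟨x, ⟨hx, hx0⟩, rfl⟩
    have hu : v + x ^ 2 ∈ slit v r := by
      refine ⟨?_, ?_⟩
      · rw [mem_ball, dist_eq_norm, add_sub_cancel_left, norm_pow]
        rw [mem_ball, dist_zero_right] at hx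
        exact pow_lt_pow_left₀ hx (norm_nonneg _) two_ne_zero
      · rw [Complex.mem_slitPlane_iff]
        have h3 : (-(v + x ^ 2 - v)) = -(x ^ 2) := by ring
        rw [h3, pow_two]
        simp only [Complex.neg_re, Complex.mul_re, Complex.neg_im, Complex.mul_im]
        by_cases hxr : x.re = 0
        · left
          rw [hxr]
          have : 0 < x.im * x.im := mul_self_pos.2 hx0
          linarith
        · right
          intro h4
          apply hxr
          have h5 : x.re * x.im = 0 := by linarith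
          rcases mul_eq_zero.1 h5 with h6 | h6
          · exact h6
          · exact absurd h6 hx0
    have h3 : x = rt v (v + x ^ 2) ∨ x = -rt v (v + x ^ 2) := by
      apply sq_eq_sq_iff_eq_or_eq_neg.1
      rw [rt_sq hu]
      ring
    rcases h3 with h3 | h3
    · left
      exact ⟨x, ⟨_, hu, h3.symm⟩, rfl⟩
    · right; left
      exact ⟨x, ⟨_, hu, h3.symm⟩, rfl⟩
  obtain ⟨g, hg⟩ : ∃ g : ℂ → ENNReal, g = fun y => ρ y * ENNReal.ofReal ‖fderiv ℝ (pb f (η '' ball 0 r) w) y‖ := ⟨_, rfl⟩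
  have hWo : IsOpen (η '' ball 0 r) := inj_op hη hi isOpen_ball subset_rfl
  have hoff : ∫⁻ y in (η '' ball 0 r)ᶜ, g y = 0 := by
    refine setLIntegral_eq_zero hWo.measurableSet.compl fun x hx => ?_
    have h3 : x ∉ η '' {x | v + x ^ 2 ∈ tsupport w} := fun h => hx (image_mono (fun x hx => sm hr (hs hx)) h)
    have h4 : pb f (η '' ball 0 r) w =ᶠ[𝓝 x] fun _ => 0 := cnz hr hη he hw hs h3
    rw [hg]
    show ρ x * ENNReal.ofReal ‖fderiv ℝ (pb f (η '' ball 0 r) w) x‖ = 0
    rw [h4.fderiv_eq]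
    simp
  have e1 : ell ρ (pb f (η '' ball 0 r) w) = ∫⁻ y, g y := by
    rw [hg]
    rfl
  rw [e1, ← lintegral_add_compl _ hWo.measurableSet, hoff, add_zero]
  have e2 : ∫⁻ y in N, g y = 0 := by
    rw [Measure.restrict_eq_zero.2 hN0, lintegral_zero_measure]
  have b1 : ∫⁻ y in η '' (rt v '' slit v r), g y ≤ ell ρ w := by
    rw [hg]
    exact half_int h1 hs1 hρ
  have b2 : ∫⁻ y in η '' ((fun u => -rt v u) '' slit v r), g y ≤ ell ρ w := by
    rw [hg]
    exact half_int h2 hs2 hρ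
  calc ∫⁻ y in η '' ball 0 r, g y
      ≤ ∫⁻ y in η '' (rt v '' slit v r) ∪ (η '' ((fun u => -rt v u) '' slit v r) ∪ N), g y := lintegral_mono_set hcov
    _ ≤ (∫⁻ y in η '' (rt v '' slit v r), g y) + ∫⁻ y in (η '' ((fun u => -rt v u) '' slit v r) ∪ N), g y := lintegral_union_le _ _ _
    _ ≤ (∫⁻ y in η '' (rt v '' slit v r), g y) + ((∫⁻ y in η '' ((fun u => -rt v u) '' slit v r), g y) + ∫⁻ y in N, g y) :=
        add_le_add le_rfl (lintegral_union_le _ _ _)
    _ ≤ ell ρ w + (ell ρ w + 0) := add_le_add b1 (add_le_add b2 e2.le)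
    _ = 2 * ell ρ w := by rw [add_zero, two_mul]

end Pool.Agent.H81.RW
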