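import Pool.Agent.H56.TH.Defs

/-!
# ROB (MP_8f2e1c), length calculus: submodularity of the length, differences of windows

`len_diff`: `l(V \ cl Y) + l(Y \ cl V) ≤ l V + l Y`; `len_inter_union`: `l(V ∩ Y) + l(V ∪ Y) ≤ l V + l Y`.
`comp_frontier`, `len_comp`: a component of an open set has no more length. `full_comp`, `full_diff`: the components of a full set and of
`V \ cl Y` (`Y` preconnected, `cl Y` not contained in `V`) are full.
-/

set_option autoImplicit false

open Filter Topology Metric Set MeasureTheory
open scoped MeasureTheory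

namespace Pool.Agent.H81.RW

open Pool.Agent.H56.TH

/-- two sets against two sets -/
private theorem lint_two {α : Type} [MeasurableSpace α] (μ : Measure α) (F : α → ENNReal) {A B C D : Set α}
    (hA : MeasurableSet A) (hB : MeasurableSet B) (hC : MeasurableSet C) (hD : MeasurableSet D)
    (h1 : A ∪ B ⊆ C ∪ D) (h2 : A ∩ B ⊆ C ∩ D) :
    (∫⁻ w in A, F w ∂μ) + (∫⁻ w in B, F w ∂μ) ≤ (∫⁻ w in C, F w ∂μ) + ∫⁻ w in D, F w ∂μ := by
  have key : ∀ S T : Set α, MeasurableSet S → MeasurableSet T →
      (∫⁻ w in S, F w ∂μ) + (∫⁻ w in T, F w ∂μ) =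
        (∫⁻ w in S ∪ T, F w ∂μ) + ∫⁻ w in S ∩ T, F w ∂μ := by
    intro S T hS hT
    have h3 : (∫⁻ w in S ∪ T, F w ∂μ) = (∫⁻ w in S, F w ∂μ) + ∫⁻ w in T \ S, F w ∂μ := by
      rw [← Set.union_sdiff_self, lintegral_union (hT.diff hS) Set.disjoint_sdiff_right]
    have h4 : (∫⁻ w in T, F w ∂μ) = (∫⁻ w in T \ S, F w ∂μ) + ∫⁻ w in S ∩ T, F w ∂μ := by
      conv_lhs => rw [← Set.sdiff_union_inter T S]
      rw [lintegral_union (hT.inter hS) (Set.disjoint_sdiff_left.mono_right Set.inter_subset_right),
        Set.inter_comm T S]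
    rw [h3, h4, add_assoc]
  rw [key A B hA hB, key C D hC hD]
  exact add_le_add (lintegral_mono_set h1) (lintegral_mono_set h2)

theorem frontier_diff_sub {V Y : Set ℂ} (hV : IsOpen V) (hY : IsOpen Y) :
    frontier (V \ closure Y) ⊆ (frontier V \ Y) ∪ (V ∩ frontier Y) := by
  intro w hw
  have hO : IsOpen (V \ closure Y) := hV.sdiff isClosed_closure
  rw [hO.frontier_eq] at hw
  obtain ⟨h1, h2⟩ := hw
  have hwV : w ∈ closure V := closure_mono Set.sdiff_subset h1
  have hwY : w ∉ Y := by
    intro hY'
    rw [_root_.mem_closure_iff] at h1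
    obtain ⟨x, hx1, hx2⟩ := h1 Y hY hY'
    exact hx2.2 (subset_closure hx1)
  by_cases hV' : w ∈ V
  · right
    refine ⟨hV', ?_⟩
    have h3 : w ∈ closure Y := by
      by_contra h4
      exact h2 ⟨hV', h4⟩
    rw [hY.frontier_eq]
    exact ⟨h3, hwY⟩
  · left
    rw [hV.frontier_eq]
    exact ⟨⟨hwV, hV'⟩, hwY⟩

theorem len_diff (ρ : ℂ → ENNReal) {V Y : Set ℂ} (hV : IsOpen V) (hY : IsOpen Y) :
    len ρ (V \ closure Y) + len ρ (Y \ closure V) ≤ len ρ V + len ρ Y := by
  refine lint_two _ ρ isClosed_frontier.measurableSet isClosed_frontier.measurableSet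
    isClosed_frontier.measurableSet isClosed_frontier.measurableSet ?_ ?_
  · intro w hw
    rcases hw with hw | hw
    · rcases frontier_diff_sub hV hY hw with h | h
      · exact Or.inl h.1
      · exact Or.inr h.2
    · rcases frontier_diff_sub hY hV hw with h | h
      · exact Or.inr h.1
      · exact Or.inl h.2
  · rintro w ⟨hw1, hw2⟩
    rcases frontier_diff_sub hV hY hw1 with h | h
    · rcases frontier_diff_sub hY hV hw2 with h' | h'
      · exact ⟨h.1, h'.1⟩
      · exact absurd h'.1 h.2
    · rcases frontier_diff_sub hY hV hw2 with h' | h'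
      · exact absurd h.1 h'.2
      · have h3 := h'.1
        rw [hY.frontier_eq] at h
        exact absurd h3 h.2.2

theorem len_inter_union (ρ : ℂ → ENNReal) {V Y : Set ℂ} (hV : IsOpen V) (hY : IsOpen Y) :
    len ρ (V ∩ Y) + len ρ (V ∪ Y) ≤ len ρ V + len ρ Y := by
  refine lint_two _ ρ isClosed_frontier.measurableSet isClosed_frontier.measurableSet
    isClosed_frontier.measurableSet isClosed_frontier.measurableSet ?_ ?_
  · intro w hw
    rcases hw with hw | hw
    · rcases frontier_inter_subset V Y hw with h | h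
      · exact Or.inl h.1
      · exact Or.inr h.2
    · rcases frontier_union_subset V Y hw with h | h
      · exact Or.inl h.1
      · exact Or.inr h.2
  · rintro w ⟨hw1, hw2⟩
    rw [(hV.inter hY).frontier_eq] at hw1
    rw [(hV.union hY).frontier_eq] at hw2
    rw [hV.frontier_eq, hY.frontier_eq]
    exact ⟨⟨closure_mono Set.inter_subset_left hw1.1, fun h => hw2.2 (Or.inl h)⟩,
      closure_mono Set.inter_subset_right hw1.1, fun h => hw2.2 (Or.inr h)⟩

theorem comp_frontier {Y : Set ℂ} (hY : IsOpen Y) (x : ℂ) :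
    frontier (connectedComponentIn Y x) ⊆ frontier Y := by
  intro w hw
  rw [hY.connectedComponentIn.frontier_eq] at hw
  rw [hY.frontier_eq]
  refine ⟨closure_mono (connectedComponentIn_subset Y x) hw.1, fun h => ?_⟩
  have h1 := (_root_.mem_closure_iff.1 hw.1) (connectedComponentIn Y w) hY.connectedComponentIn
    (mem_connectedComponentIn h)
  obtain ⟨u, hu1, hu2⟩ := h1
  have h2 : connectedComponentIn Y w = connectedComponentIn Y x := by
    rw [connectedComponentIn_eq hu1, connectedComponentIn_eq hu2]
  exact hw.2 (h2 ▸ mem_connectedComponentIn h)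

theorem len_mono (ρ : ℂ → ENNReal) {Y V : Set ℂ} (h : frontier Y ⊆ frontier V) : len ρ Y ≤ len ρ V :=
  lintegral_mono_set h

theorem len_comp (ρ : ℂ → ENNReal) {Y : Set ℂ} (hY : IsOpen Y) (x : ℂ) :
    len ρ (connectedComponentIn Y x) ≤ len ρ Y := len_mono ρ (comp_frontier hY x)

/-- a connected set which meets the open set `O` but not its frontier is contained in it -/
theorem sub_of_meets {O C : Set ℂ} (hO : IsOpen O) (hC : IsPreconnected C) (h1 : (C ∩ O).Nonempty)
    (h2 : Disjoint C (frontier O)) : C ⊆ O := by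
  by_contra h3
  have h4 : (C ∩ (closure O)ᶜ).Nonempty := by
    rw [Set.not_subset] at h3
    obtain ⟨x, hx, hxO⟩ := h3
    refine ⟨x, hx, fun h => ?_⟩
    refine Set.disjoint_left.1 h2 hx ?_
    rw [hO.frontier_eq]
    exact ⟨h, hxO⟩
  have h5 : C ⊆ O ∪ (closure O)ᶜ := by
    intro x hx
    by_cases h : x ∈ O
    · exact Or.inl h
    · right
      intro h6
      refine Set.disjoint_left.1 h2 hx ?_
      rw [hO.frontier_eq]
      exact ⟨h6, h⟩
  obtain ⟨x, _, hx1, hx2⟩ := hC O (closure O)ᶜ hO isClosed_closure.isOpen_compl h5 h1 h4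
  exact hx2 (subset_closure hx1)

/-- the components of a full open set are full -/
theorem full_comp {Y : Set ℂ} (hf : Full Y) (x : ℂ) : Full (connectedComponentIn Y x) := by
  intro O hO hb hfr z hz
  have hOY : O ⊆ Y := hf O hO hb (hfr.trans (connectedComponentIn_subset Y x))
  -- the component of `z` in `O` has a frontier point
  have hC : IsOpen (connectedComponentIn O z) := hO.connectedComponentIn
  have hCb : Bornology.IsBounded (connectedComponentIn O z) := hb.subset (connectedComponentIn_subset O z)
  have hCn : (connectedComponentIn O z).Nonempty := ⟨z, mem_connectedComponentIn hz⟩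
  have hfn : (frontier (connectedComponentIn O z)).Nonempty := by
    rw [nonempty_frontier_iff]
    refine ⟨hCn, fun h => ?_⟩
    rw [h] at hCb
    exact NormedSpace.unbounded_univ ℝ ℂ hCb
  obtain ⟨b, hb1⟩ := hfn
  have hb2 : b ∈ connectedComponentIn Y x := hfr (comp_frontier hO z hb1)
  have hcl : IsPreconnected (closure (connectedComponentIn O z)) :=
    isPreconnected_connectedComponentIn.closure
  have hclY : closure (connectedComponentIn O z) ⊆ Y := by
    intro w hw
    by_cases h : w ∈ connectedComponentIn O z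
    · exact hOY (connectedComponentIn_subset O z h)
    · have h3 : w ∈ frontier (connectedComponentIn O z) := by
        rw [hC.frontier_eq]
        exact ⟨hw, h⟩
      exact connectedComponentIn_subset Y x (hfr (comp_frontier hO z h3))
  have hbY : b ∈ Y := connectedComponentIn_subset Y x hb2
  have h4 : closure (connectedComponentIn O z) ⊆ connectedComponentIn Y b :=
    hcl.subset_connectedComponentIn (frontier_subset_closure hb1) hclY
  rw [← connectedComponentIn_eq hb2] at h4
  exact h4 (subset_closure (mem_connectedComponentIn hz))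

/-- the difference of a full set and the closure of a connected set which is not inside is full -/
theorem full_diff {V Y : Set ℂ} (hf : Full V) (hY : IsPreconnected Y) (hn : ¬ closure Y ⊆ V) :
    Full (V \ closure Y) := by
  intro O hO hb hfr
  have hOV : O ⊆ V := hf O hO hb fun w hw => (hfr hw).1
  intro z hz
  refine ⟨hOV hz, fun hzY => hn ?_⟩
  have h1 : closure Y ⊆ O := by
    refine sub_of_meets hO hY.closure ⟨z, hzY, hz⟩ ?_
    rw [Set.disjoint_left]
    intro w hw hw2
    exact (hfr hw2).2 hw
  exact h1.trans hOV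

/-- cutting a window by a window which is not inside -/
theorem wn_diff {P V Y : Set ℂ} (hV : Wn P V) (hY : Wn P Y) (hn : ¬ closure Y ⊆ V) (x : ℂ) :
    Wn P (connectedComponentIn (V \ closure Y) x) := by
  have hO : IsOpen (V \ closure Y) := hV.op.sdiff isClosed_closure
  refine ⟨hO.connectedComponentIn, isPreconnected_connectedComponentIn,
    full_comp (full_diff hV.fu hY.co hn) x, ?_⟩
  rw [Set.disjoint_left]
  intro w hw hwP
  rcases frontier_diff_sub hV.op hY.op (comp_frontier hO x hw) with h | h
  · exact Set.disjoint_left.1 hV.fr h.1 hwP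
  · exact Set.disjoint_left.1 hY.fr h.2 hwP

end Pool.Agent.H81.RW
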