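import Pool.Agent.H56.UD.Defs

/-!
# Module Shr: images of discs are not small

PROOF. Finitely many balls `ball (y i) (t / 2)`, `y i ∈ J`, cover `J` (compact); every `ball x t`, `x ∈ J`, contains one of them. `leo` for `ball (y i) (t / 2)` gives `N i`; `N` the maximum: for all `x ∈ J`, `n ≥ N`: `J ⊆ f^[n] '' (ball x t ∩ J)`. `J` is nontrivial: two points at distance `D > 0`; so for `n ≥ N` the image is in no ball of radius `ε ≤ D / 4`.
For `k < N` (finitely many): `f^[N - k]` is continuous on `J` (`f J ⊆ J`, `f` continuous on `J`), `J` compact: uniformly continuous; if `f^[k] '' (ball x t ∩ J) ⊆ ball c ε` then it has diameter `< 2 ε`, so `f^[N] '' (ball x t ∩ J)` has diameter `< D`, for `ε` small: contradiction (it contains the two points).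
-/

set_option autoImplicit false

open Filter Topology Metric Set MeasureTheory

namespace Pool.Agent.H81.RW

open Pool.Agent.H56.UD

theorem shr {f : ℂ → ℂ} {J : Set ℂ} (Jc : IsCompact J) (Jt : J.Nontrivial) (Jf : ∀ z ∈ J, f z ∈ J)
    (fc : ContinuousOn f J)
    (leo : ∀ O : Set ℂ, IsOpen O → (O ∩ J).Nonempty → ∃ N : ℕ, ∀ n ≥ N, J ⊆ f^[n] '' (O ∩ J)) {t : ℝ} (ht : 0 < t) :
    ∃ ε : ℝ, 0 < ε ∧ ∀ x ∈ J, ∀ (k : ℕ) (c : ℂ), ¬ (f^[k] '' (ball x t ∩ J) ⊆ ball c ε) := by
  classical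
  obtain ⟨a, ha, b, hb, hab⟩ := Jt
  have hD : 0 < dist a b := dist_pos.2 hab
  have it : ∀ n : ℕ, ContinuousOn f^[n] J := fun n => fc.iterate (fun z hz => Jf z hz) n
  have mi : ∀ (n : ℕ), ∀ z ∈ J, f^[n] z ∈ J := fun n z hz =>
    (MapsTo.iterate (s := J) (f := f) (fun z hz => Jf z hz) n) hz
  obtain ⟨T, hTJ, hT⟩ := Jc.elim_nhds_subcover (fun y => ball y (t / 2))
    (fun y _ => ball_mem_nhds y (by positivity))
  have h1 : ∀ y : ℂ, ∃ N : ℕ, y ∈ T → ∀ n ≥ N, J ⊆ f^[n] '' (ball y (t / 2) ∩ J) := by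
    intro y
    by_cases hy : y ∈ T
    · obtain ⟨N, hN⟩ := leo (ball y (t / 2)) isOpen_ball
        ⟨y, mem_ball_self (by positivity), hTJ y hy⟩
      exact ⟨N, fun _ => hN⟩
    · exact ⟨0, fun h => absurd h hy⟩
  choose N' hN' using h1
  set N : ℕ := T.sup N' with hNdef
  have h2 : ∀ x ∈ J, ∀ n ≥ N, J ⊆ f^[n] '' (ball x t ∩ J) := by
    intro x hx n hn
    obtain ⟨y, hy, hxy⟩ := mem_iUnion₂.1 (hT hx)
    have hsub : ball y (t / 2) ⊆ ball x t := by
      intro w hw
      rw [mem_ball] at hw hxy ⊢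
      have := dist_triangle w y x
      rw [dist_comm y x] at this
      linarith
    exact (hN' y hy n (le_trans (Finset.le_sup hy) hn)).trans
      (image_mono (inter_subset_inter_left J hsub))
  have h3 : ∀ j : ℕ, ∃ δ : ℝ, 0 < δ ∧ ∀ z ∈ J, ∀ w ∈ J, dist z w < δ →
      dist (f^[j] z) (f^[j] w) < dist a b := by
    intro j
    obtain ⟨δ, hδ, h⟩ := Metric.uniformContinuousOn_iff.1
      (Jc.uniformContinuousOn_of_continuous (it j)) (dist a b) hD
    exact ⟨δ, hδ, fun z hz w hw hzw => h z hz w hw hzw⟩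
  choose δ hδ h3 using h3
  have hne : (Finset.range (N + 1)).Nonempty := ⟨0, Finset.mem_range.2 (Nat.succ_pos N)⟩
  set η : ℝ := (Finset.range (N + 1)).inf' hne δ with hη
  have hη0 : 0 < η := (Finset.lt_inf'_iff hne).2 fun j _ => hδ j
  refine ⟨min (dist a b / 4) (η / 2), lt_min (by positivity) (by positivity), ?_⟩
  intro x hx k c hk
  have e1 : min (dist a b / 4) (η / 2) ≤ dist a b / 4 := min_le_left _ _
  have e2 : min (dist a b / 4) (η / 2) ≤ η / 2 := min_le_right _ _
  rcases le_or_gt N k with h | h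
  · have h4 := (h2 x hx k h).trans hk
    have h5 : dist a c < min (dist a b / 4) (η / 2) := h4 ha
    have h6 : dist b c < min (dist a b / 4) (η / 2) := h4 hb
    have h7 := dist_triangle_right a b c
    linarith
  · obtain ⟨z, hz, hza⟩ := h2 x hx N le_rfl ha
    obtain ⟨w, hw, hwb⟩ := h2 x hx N le_rfl hb
    have h5 : dist (f^[k] z) c < min (dist a b / 4) (η / 2) := hk ⟨z, hz, rfl⟩
    have h6 : dist (f^[k] w) c < min (dist a b / 4) (η / 2) := hk ⟨w, hw, rfl⟩
    have h7 := dist_triangle_right (f^[k] z) (f^[k] w) c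
    have h8 : η ≤ δ (N - k) := Finset.inf'_le δ (Finset.mem_range.2 (by omega))
    have h9 := h3 (N - k) _ (mi k z hz.2) _ (mi k w hw.2) (by linarith)
    rw [← Function.iterate_add_apply, ← Function.iterate_add_apply, Nat.sub_add_cancel h.le,
      hza, hwb] at h9
    exact lt_irrefl _ h9

end Pool.Agent.H81.RW
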