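import Pool.Agent.H81.RW.Nlg

/-!
# Module Wka (WALK): unicoherence: the frontier of a bounded, open, connected set without holes is connected

`compl_pre`: the complement of a bounded open set without holes is preconnected: `Oᶜ ⊆ A ∪ B`, closed; the outside of a large disc is in one of them, the other one
is compact and has a bounded open neighbourhood with frontier in `O`, so it is in `O`.
`wka`: let `frontier O = C₁ ∪ C₂` (closed, disjoint), `u = 0` on `C₁`, `u = 1` on `C₂` (Urysohn), `r = exp (2 π i u)` on `closure O`, `1` on `Oᶜ`: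
continuous, never `0`, `l` a continuous logarithm (`cont_log`). `l` is constant on `Oᶜ`, `l - 2 π i u` is constant on `closure O`: contradiction on `C₁`, `C₂`.
-/

set_option autoImplicit false

open Filter Topology Metric Set MeasureTheory

namespace Pool.Agent.H81.RW

open Pool.Agent.H56.TH

private theorem out_pre {R : ℝ} (hR : 0 ≤ R) : IsPreconnected {x : ℂ | R < ‖x‖} := by
  have h1 : {x : ℂ | R < ‖x‖} =
      (fun p : ℝ × ℝ => (p.1 : ℂ) * Complex.exp (p.2 * Complex.I)) '' (Ioi R ×ˢ (univ : Set ℝ)) := by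
    ext x
    constructor
    · intro hx
      exact ⟨(‖x‖, Complex.arg x), ⟨hx, mem_univ _⟩, Complex.norm_mul_exp_arg_mul_I x⟩
    · rintro ⟨⟨s, θ⟩, ⟨hs, -⟩, rfl⟩
      have hs' : R < s := hs
      show R < ‖(s : ℂ) * Complex.exp (θ * Complex.I)‖
      rw [norm_mul, Complex.norm_exp_ofReal_mul_I, mul_one, Complex.norm_real, Real.norm_of_nonneg (hR.trans hs'.le)]
      exact hs'
  rw [h1]
  refine (isPreconnected_Ioi.prod isPreconnected_univ).image _ (Continuous.continuousOn ?_)
  fun_prop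

theorem compl_pre {O : Set ℂ} (hO : IsOpen O) (hb : Bornology.IsBounded O) (hf : Full O) : IsPreconnected Oᶜ := by
  rw [isPreconnected_closed_iff]
  have key : ∀ t t' : Set ℂ, IsClosed t → IsClosed t' → Oᶜ ⊆ t ∪ t' → (Oᶜ ∩ t').Nonempty → Bornology.IsBounded (Oᶜ ∩ t') →
      (Oᶜ ∩ (t ∩ t')).Nonempty := by
    intro t t' ht ht' hs hn hbd
    by_contra hcon
    rw [not_nonempty_iff_eq_empty] at hcon
    have hB : IsCompact (Oᶜ ∩ t') := isCompact_of_isClosed_isBounded (hO.isClosed_compl.inter ht') hbd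
    have hA : IsClosed (Oᶜ ∩ t) := hO.isClosed_compl.inter ht
    have hd : Disjoint (Oᶜ ∩ t') (Oᶜ ∩ t) := by
      rw [Set.disjoint_left]
      intro x hx hx'
      have : x ∈ Oᶜ ∩ (t ∩ t') := ⟨hx.1, hx'.2, hx.2⟩
      rw [hcon] at this
      exact this
    obtain ⟨δ, hδ, hd'⟩ := hd.exists_thickenings hB hA
    have hfr : frontier (thickening (δ / 2) (Oᶜ ∩ t')) ⊆ O := by
      intro x hx
      by_contra hxO
      have h1 : x ∈ closure (thickening (δ / 2) (Oᶜ ∩ t')) := frontier_subset_closure hx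
      have h2 : x ∈ thickening δ (Oᶜ ∩ t') := by
        have h3 : x ∈ cthickening (δ / 2) (Oᶜ ∩ t') := closure_thickening_subset_cthickening _ _ h1
        exact cthickening_subset_thickening' hδ (half_lt_self hδ) _ h3
      have h3 : x ∉ Oᶜ ∩ t := fun hxt => Set.disjoint_left.1 hd' h2 (self_subset_thickening hδ _ hxt)
      have h4 : x ∈ Oᶜ ∩ t' := by
        rcases hs hxO with h | h
        · exact absurd ⟨hxO, h⟩ h3
        · exact ⟨hxO, h⟩
      have h5 : x ∈ thickening (δ / 2) (Oᶜ ∩ t') := self_subset_thickening (half_pos hδ) _ h4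
      rw [isOpen_thickening.frontier_eq] at hx
      exact hx.2 h5
    have h6 := hf (thickening (δ / 2) (Oᶜ ∩ t')) isOpen_thickening hbd.thickening hfr
    obtain ⟨x, hx⟩ := hn
    exact hx.1 (h6 (self_subset_thickening (half_pos hδ) _ hx))
  intro t t' ht ht' hs hn hn'
  obtain ⟨R₀, hR₀⟩ := hb.subset_closedBall (0 : ℂ)
  obtain ⟨R, hRR, hR⟩ : ∃ R : ℝ, R₀ ≤ R ∧ 0 ≤ R := ⟨max R₀ 0, le_max_left _ _, le_max_right _ _⟩
  have hout : {x : ℂ | R < ‖x‖} ⊆ Oᶜ := by
    intro x hx hxO
    have := hR₀ hxO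
    rw [mem_closedBall_zero_iff] at this
    exact absurd (this.trans hRR) (not_le.2 hx)
  by_contra hcon
  have hdis : ∀ x ∈ Oᶜ, x ∈ t → x ∉ t' := fun x hx h1 h2 => hcon ⟨x, hx, h1, h2⟩
  -- one of the two misses the outside
  have hone : (∀ x ∈ Oᶜ, x ∈ t' → ‖x‖ ≤ R) ∨ (∀ x ∈ Oᶜ, x ∈ t → ‖x‖ ≤ R) := by
    by_contra h
    rw [not_or] at h
    obtain ⟨h1, h2⟩ := h
    push_neg at h1 h2
    obtain ⟨x1, hx1, hx1t, hx1R⟩ := h1
    obtain ⟨x2, hx2, hx2t, hx2R⟩ := h2
    obtain ⟨x, hx, hxt, hxt'⟩ := (isPreconnected_closed_iff.1 (out_pre hR)) t t' ht ht' (hout.trans hs) ⟨x2, hx2R, hx2t⟩ ⟨x1, hx1R, hx1t⟩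
    exact hdis x (hout hx) hxt hxt'
  rcases hone with h | h
  · exact hcon (key t t' ht ht' hs hn' ((isBounded_closedBall (x := (0 : ℂ)) (r := R)).subset fun x hx => by
      rw [mem_closedBall_zero_iff]
      exact h x hx.1 hx.2))
  · have h2 := key t' t ht' ht (by rw [union_comm]; exact hs) hn ((isBounded_closedBall (x := (0 : ℂ)) (r := R)).subset fun x hx => by
      rw [mem_closedBall_zero_iff]
      exact h x hx.1 hx.2)
    rw [inter_comm t' t] at h2
    exact hcon h2

/-- a continuous function with `exp l = 1` on a preconnected set is constant there -/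
private theorem exp_const {A : Set ℂ} (hA : IsPreconnected A) {l : ℂ → ℂ} (hl : ContinuousOn l A)
    (h : ∀ x ∈ A, Complex.exp (l x) = 1) {x y : ℂ} (hx : x ∈ A) (hy : y ∈ A) : l x = l y := by
  have h1 := log_uniq hA hl (continuousOn_const (c := l y)) (fun z hz => by rw [h z hz, h y hy]) hy rfl
  exact h1 x hx

theorem wka {O : Set ℂ} (hO : IsOpen O) (hb : Bornology.IsBounded O) (hc : IsPreconnected O) (hf : Full O) :
    IsPreconnected (frontier O) := by
  rw [isPreconnected_closed_iff]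
  intro t t' ht ht' hs ⟨x₁, hx₁, hx₁t⟩ ⟨x₂, hx₂, hx₂t⟩
  by_contra hcon
  have hdis : Disjoint (frontier O ∩ t) (frontier O ∩ t') := by
    rw [Set.disjoint_left]
    intro x hx hx'
    exact hcon ⟨x, hx.1, hx.2, hx'.2⟩
  have hC1 : IsClosed (frontier O ∩ t) := isClosed_frontier.inter ht
  have hC2 : IsClosed (frontier O ∩ t') := isClosed_frontier.inter ht'
  obtain ⟨u, hu1, hu2, -⟩ := exists_continuous_zero_one_of_isClosed hC1 hC2 hdis
  classical
  have hfO : frontier O = closure O ∩ Oᶜ := by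
    rw [frontier_eq_closure_inter_closure, hO.isClosed_compl.closure_eq]
  have hval : ∀ x ∈ frontier O, Complex.exp (2 * Real.pi * Complex.I * (u x : ℂ)) = 1 := by
    intro x hx
    rcases hs hx with h | h
    · have : u x = 0 := hu1 ⟨hx, h⟩
      rw [this, Complex.ofReal_zero, mul_zero, Complex.exp_zero]
    · have : u x = 1 := hu2 ⟨hx, h⟩
      rw [this, Complex.ofReal_one, mul_one, Complex.exp_two_pi_mul_I]
  obtain ⟨r, hr⟩ : ∃ r : ℂ → ℂ, r = fun x => if x ∈ closure O then Complex.exp (2 * Real.pi * Complex.I * (u x : ℂ)) else 1 := ⟨_, rfl⟩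
  have hr1 : ∀ x ∈ closure O, r x = Complex.exp (2 * Real.pi * Complex.I * (u x : ℂ)) := by
    intro x hx
    rw [hr]
    exact if_pos hx
  have hr2 : ∀ x ∈ Oᶜ, r x = 1 := by
    intro x hx
    by_cases hxc : x ∈ closure O
    · rw [hr1 x hxc]
      exact hval x (by rw [hfO]; exact ⟨hxc, hx⟩)
    · rw [hr]
      exact if_neg hxc
  have huc : Continuous fun x => Complex.exp (2 * Real.pi * Complex.I * (u x : ℂ)) := by fun_prop
  have hrc : Continuous r := by
    rw [← continuousOn_univ]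
    have h1 : (univ : Set ℂ) = closure O ∪ Oᶜ := by
      rw [eq_comm, eq_univ_iff_forall]
      intro x
      by_cases hx : x ∈ O
      · exact Or.inl (subset_closure hx)
      · exact Or.inr hx
    rw [h1]
    exact (huc.continuousOn.congr hr1).union_of_isClosed (continuousOn_const.congr hr2) isClosed_closure hO.isClosed_compl
  have hr0 : ∀ x, r x ≠ 0 := by
    intro x
    by_cases hxc : x ∈ closure O
    · rw [hr1 x hxc]
      exact Complex.exp_ne_zero _
    · rw [hr2 x (fun hx => hxc (subset_closure hx))]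
      exact one_ne_zero
  obtain ⟨l, hl, hle⟩ := cont_log hrc hr0
  have hx₁' := hx₁
  have hx₂' := hx₂
  rw [hfO] at hx₁' hx₂'
  have e1 : l x₁ = l x₂ := exp_const (compl_pre hO hb hf) hl.continuousOn
    (fun x hx => by rw [hle, hr2 x hx]) hx₁'.2 hx₂'.2
  have e2 : l x₁ - 2 * Real.pi * Complex.I * (u x₁ : ℂ) = l x₂ - 2 * Real.pi * Complex.I * (u x₂ : ℂ) := by
    refine exp_const hc.closure (l := fun x => l x - 2 * Real.pi * Complex.I * (u x : ℂ)) (Continuous.continuousOn (by fun_prop))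
      (fun x hx => ?_) hx₁'.1 hx₂'.1
    show Complex.exp (l x - 2 * Real.pi * Complex.I * (u x : ℂ)) = 1
    rw [Complex.exp_sub, hle, hr1 x hx, div_self (Complex.exp_ne_zero _)]
  have u1 : u x₁ = 0 := hu1 ⟨hx₁, hx₁t⟩
  have u2 : u x₂ = 1 := hu2 ⟨hx₂, hx₂t⟩
  rw [e1, u1, u2, Complex.ofReal_zero, Complex.ofReal_one, mul_zero, mul_one, sub_zero] at e2
  have h3 : (2 * Real.pi * Complex.I : ℂ) = 0 := by
    linear_combination e2
  exact Complex.two_pi_I_ne_zero h3

end Pool.Agent.H81.RW
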