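import Mathlib

/-!
# Module Wkb (WALK): bounded chains in connected sets

`Ch G c n x y`: a chain of `n` steps of length `< c` in `G` from `x` to `y`. Chains exist in preconnected sets (`IsPreconnected.induction₂`); in a shortest chain points
with indices `i + 2 ≤ j` have distance `≥ c`, so its length is bounded by twice the number of balls of radius `c / 4` which cover the disc.
-/

set_option autoImplicit false

open Filter Topology Metric Set

namespace Pool.Agent.H81.RW

/-- chains -/
def Ch (G : Set ℂ) (c : ℝ) (n : ℕ) (x y : ℂ) : Prop :=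
  ∃ p : ℕ → ℂ, p 0 = x ∧ p n = y ∧ (∀ i ≤ n, p i ∈ G) ∧ ∀ i < n, dist (p i) (p (i + 1)) < c

variable {G : Set ℂ} {c : ℝ}

theorem ch_trans {n m : ℕ} {x y z : ℂ} (h1 : Ch G c n x y) (h2 : Ch G c m y z) : Ch G c (n + m) x z := by
  obtain ⟨p, p0, pn, pG, pd⟩ := h1
  obtain ⟨q, q0, qm, qG, qd⟩ := h2
  refine ⟨fun i => if i ≤ n then p i else q (i - n), ?_, ?_, fun i hi => ?_, fun i hi => ?_⟩
  · show (if 0 ≤ n then p 0 else q (0 - n)) = x
    rw [if_pos (Nat.zero_le n), p0]
  · show (if n + m ≤ n then p (n + m) else q (n + m - n)) = z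
    rcases Nat.eq_zero_or_pos m with rfl | hm
    · rw [if_pos (by omega), Nat.add_zero, pn, ← q0, qm]
    · rw [if_neg (by omega), Nat.add_sub_cancel_left, qm]
  · show (if i ≤ n then p i else q (i - n)) ∈ G
    split_ifs with h
    · exact pG i h
    · exact qG _ (by omega)
  · show dist (if i ≤ n then p i else q (i - n)) (if i + 1 ≤ n then p (i + 1) else q (i + 1 - n)) < c
    rcases lt_trichotomy i n with h | h | h
    · rw [if_pos h.le, if_pos (by omega)]
      exact pd i h
    · rw [if_pos h.le, if_neg (by omega), h, pn, ← q0]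
      have := qd 0 (by omega)
      have e : n + 1 - n = 0 + 1 := by omega
      rw [e]
      exact this
    · rw [if_neg (by omega), if_neg (by omega)]
      have := qd (i - n) (by omega)
      have e : i + 1 - n = i - n + 1 := by omega
      rw [e]
      exact this

theorem ch_symm {n : ℕ} {x y : ℂ} (h : Ch G c n x y) : Ch G c n y x := by
  obtain ⟨p, p0, pn, pG, pd⟩ := h
  refine ⟨fun i => p (n - i), ?_, ?_, fun i hi => pG _ (by omega), fun i hi => ?_⟩
  · show p (n - 0) = y
    rw [Nat.sub_zero, pn]
  · show p (n - n) = x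
    rw [Nat.sub_self, p0]
  · show dist (p (n - i)) (p (n - (i + 1))) < c
    rw [dist_comm]
    have := pd (n - (i + 1)) (by omega)
    have e : n - (i + 1) + 1 = n - i := by omega
    rw [e] at this
    exact this

theorem ch_ex (hG : IsPreconnected G) (hc : 0 < c) {x y : ℂ} (hx : x ∈ G) (hy : y ∈ G) : ∃ n, Ch G c n x y := by
  refine hG.induction₂ (fun x y => x ∈ G → y ∈ G → ∃ n, Ch G c n x y) (fun x hx => ?_) ?_ ?_ hx hy hx hy
  · filter_upwards [mem_nhdsWithin_of_mem_nhds (ball_mem_nhds x hc)] with y hy _ hyG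
    refine ⟨1, fun i => if i = 0 then x else y, ?_, ?_, fun i _ => ?_, fun i hi => ?_⟩
    · simp
    · simp
    · show (if i = 0 then x else y) ∈ G
      split_ifs
      · exact hx
      · exact hyG
    · have e : i = 0 := by omega
      subst e
      show dist (if (0 : ℕ) = 0 then x else y) (if 0 + 1 = 0 then x else y) < c
      rw [if_pos rfl, if_neg (by omega), dist_comm]
      exact hy
  · intro x y z _ hyG _ h1 h2 hx hz
    obtain ⟨n, hn⟩ := h1 hx hyG
    obtain ⟨m, hm⟩ := h2 hyG hz
    exact ⟨n + m, ch_trans hn hm⟩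
  · intro x y _ _ h1 hy hx
    obtain ⟨n, hn⟩ := h1 hx hy
    exact ⟨n, ch_symm hn⟩

theorem wkb (A : ℝ) : ∃ N : ℕ, ∀ {G : Set ℂ} {v : ℂ} {c : ℝ}, IsPreconnected G → 0 < c → G ⊆ closedBall v (A * c) →
    ∀ x ∈ G, ∀ y ∈ G, ∃ n ≤ N, Ch G c n x y := by
  classical
  obtain ⟨t, -, htf, hts⟩ := (isCompact_closedBall (0 : ℂ) A).finite_cover_balls (show (0 : ℝ) < 1 / 4 by norm_num)
  refine ⟨2 * htf.toFinset.card, fun {G v c} hG hc hb x hx y hy => ?_⟩
  have hex := ch_ex hG hc hx hy
  obtain ⟨n, hn⟩ : ∃ n, n = Nat.find hex := ⟨_, rfl⟩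
  have hch : Ch G c n x y := by rw [hn]; exact Nat.find_spec hex
  have hmin : ∀ m, m < n → ¬ Ch G c m x y := fun m hm => Nat.find_min hex (by rw [← hn]; exact hm)
  obtain ⟨p, p0, pn, pG, pd⟩ := hch
  have hsep : ∀ i j, i + 2 ≤ j → j ≤ n → c ≤ dist (p i) (p j) := by
    intro i j hij hj
    by_contra hlt
    rw [not_le] at hlt
    refine hmin (n - (j - i - 1)) (by omega) ⟨fun k => if k ≤ i then p k else p (k + (j - i - 1)), ?_, ?_, fun k hk => ?_, fun k hk => ?_⟩
    · show (if 0 ≤ i then p 0 else p (0 + (j - i - 1))) = x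
      rw [if_pos (Nat.zero_le i), p0]
    · show (if n - (j - i - 1) ≤ i then p (n - (j - i - 1)) else p (n - (j - i - 1) + (j - i - 1))) = y
      rw [if_neg (by omega)]
      have e : n - (j - i - 1) + (j - i - 1) = n := by omega
      rw [e, pn]
    · show (if k ≤ i then p k else p (k + (j - i - 1))) ∈ G
      split_ifs with h
      · exact pG k (by omega)
      · exact pG _ (by omega)
    · show dist (if k ≤ i then p k else p (k + (j - i - 1))) (if k + 1 ≤ i then p (k + 1) else p (k + 1 + (j - i - 1))) < c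
      rcases lt_trichotomy k i with h | h | h
      · rw [if_pos h.le, if_pos (by omega)]
        exact pd k (by omega)
      · rw [if_pos h.le, if_neg (by omega), h]
        have e : i + 1 + (j - i - 1) = j := by omega
        rw [e]
        exact hlt
      · rw [if_neg (by omega), if_neg (by omega)]
        have := pd (k + (j - i - 1)) (by omega)
        have e : k + 1 + (j - i - 1) = k + (j - i - 1) + 1 := by omega
        rw [e]
        exact this
  -- the cells
  have hcell : ∀ k, 2 * k ≤ n → ∃ a ∈ htf.toFinset, dist (p (2 * k)) (v + c * a) < c / 4 := by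
    intro k hk
    have h1 := hb (pG _ hk)
    rw [mem_closedBall_iff_norm] at h1
    have h2 : (p (2 * k) - v) / c ∈ closedBall (0 : ℂ) A := by
      rw [mem_closedBall_zero_iff, norm_div, Complex.norm_real, Real.norm_of_nonneg hc.le, div_le_iff₀ hc]
      exact h1
    have h3 := hts h2
    rw [mem_iUnion₂] at h3
    obtain ⟨a, ha, hab⟩ := h3
    refine ⟨a, htf.mem_toFinset.2 ha, ?_⟩
    rw [mem_ball, dist_eq_norm] at hab
    rw [dist_eq_norm]
    have hc' : (c : ℂ) ≠ 0 := Complex.ofReal_ne_zero.2 hc.ne'
    have h4 : p (2 * k) - (v + c * a) = c * ((p (2 * k) - v) / c - a) := by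
      field_simp
      ring
    rw [h4, norm_mul, Complex.norm_real, Real.norm_of_nonneg hc.le]
    nlinarith
  choose! F hF1 hF2 using hcell
  have hcard : (Finset.range (n / 2 + 1)).card ≤ htf.toFinset.card := by
    refine Finset.card_le_card_of_injOn F (fun k hk => hF1 k ?_) ?_
    · have := Finset.mem_range.1 hk
      omega
    · intro k hk l hl hkl
      have hk' : k < n / 2 + 1 := Finset.mem_range.1 hk
      have hl' : l < n / 2 + 1 := Finset.mem_range.1 hl
      by_contra hne
      have hd : dist (p (2 * k)) (p (2 * l)) < c := by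
        have h1 := hF2 k (by omega)
        have h2 := hF2 l (by omega)
        rw [← hkl] at h2
        have h3 := dist_triangle_right (p (2 * k)) (p (2 * l)) (v + c * F k)
        linarith
      rcases lt_or_gt_of_ne hne with h | h
      · exact absurd (hsep (2 * k) (2 * l) (by omega) (by omega)) (not_le.2 hd)
      · rw [dist_comm] at hd
        exact absurd (hsep (2 * l) (2 * k) (by omega) (by omega)) (not_le.2 hd)
  rw [Finset.card_range] at hcard
  exact ⟨n, by omega, p, p0, pn, pG, pd⟩

end Pool.Agent.H81.RW
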