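import Pool.Agent.H80.AJ.Distort
import Pool.Agent.H43.UB.PHM
import Pool.Agent.H81.RW.Nlg
import Pool.Agent.H81.RW.Wkb

/-!
# Module Wkc (WALK): frames and their propagation along connected sets off `P`

`WK f N P T v η r₀`: the part of the setting which is needed: `f` holomorphic on `N`, the critical chart `η`, inverse branches over discs in `T` off `P`.
`Fr f N η r₀ z m x R C g`: a frame at `x`: `g` is a branch of `f^(-m)` on `ball x R`, orbits in `N`, `‖g x - z‖ ≤ C R ‖g' x‖`, and `f^(m-1) ∘ g` has values in the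
critical chart (`g` belongs to the sheet of the critical point).
`sheet`: a branch of `f⁻¹` on a disc off `v` which has one value in the chart has all its values in the chart: `u ↦ η (√(u - v))` (a branch of the root on the disc) is another branch.
`fr_step`: from `x` to `y`, `‖y - x‖ ≤ R / 2`, `ball y R` off `P`: the branch `G` of `br` with `G y = g y` is equal to `g` near `y`; `distort`.
`wkc`: chains of `wkb`, step `R / 2`: the constants are multiplied at most `N` times.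
-/

set_option autoImplicit false

open Filter Topology Metric Set

namespace Pool.Agent.H81.RW

open Pool.Agent.H80.AJ

/-- what is needed for the propagation of frames -/
structure WK (f : ℂ → ℂ) (N P T : Set ℂ) (v : ℂ) (η : ℂ → ℂ) (r₀ : ℝ) : Prop where
  No : IsOpen N
  fd : DifferentiableOn ℂ f N
  vP : v ∈ P
  hr : 0 < r₀
  ηd : DifferentiableOn ℂ η (ball 0 r₀)
  ηi : InjOn η (ball 0 r₀)
  ηv : ∀ x ∈ ball (0 : ℂ) r₀, η x ∈ N ∧ f (η x) = v + x ^ 2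
  br : ∀ (k : ℕ) (w z : ℂ) (r : ℝ), ball w r ⊆ T → Disjoint (ball w r) P → (∀ j < k, f^[j] z ∈ N) →
    f^[k] z ∈ ball w r → ∃ G : ℂ → ℂ, DifferentiableOn ℂ G (ball w r) ∧ G (f^[k] z) = z ∧
      ∀ u ∈ ball w r, (∀ j < k, f^[j] (G u) ∈ N) ∧ f^[k] (G u) = u

/-- frames -/
structure Fr (f : ℂ → ℂ) (N : Set ℂ) (η : ℂ → ℂ) (r₀ : ℝ) (z : ℂ) (m : ℕ) (x : ℂ) (R C : ℝ) (g : ℂ → ℂ) : Prop where
  gd : DifferentiableOn ℂ g (ball x R)
  gf : ∀ u ∈ ball x R, (∀ j < m, f^[j] (g u) ∈ N) ∧ f^[m] (g u) = u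
  gz : ‖g x - z‖ ≤ C * (R * ‖deriv g x‖)
  sh : ∀ u ∈ ball x R, f^[m - 1] (g u) ∈ η '' ball 0 r₀

variable {f : ℂ → ℂ} {N P T : Set ℂ} {v : ℂ} {η : ℂ → ℂ} {r₀ : ℝ}

theorem fr_inj {z x : ℂ} {m : ℕ} {R C : ℝ} {g : ℂ → ℂ} (h : Fr f N η r₀ z m x R C g) : InjOn g (ball x R) := by
  intro u hu u' hu' he
  rw [← (h.gf u hu).2, ← (h.gf u' hu').2, he]

theorem wk_at (h : WK f N P T v η r₀) (k : ℕ) {y : ℂ} (hN : ∀ j < k, f^[j] y ∈ N) : DifferentiableAt ℂ (f^[k]) y := by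
  induction k with
  | zero => exact differentiableAt_id
  | succ k ih =>
    rw [Function.iterate_succ']
    exact (h.fd.differentiableAt (h.No.mem_nhds (hN k (Nat.lt_succ_self k)))).comp y
      (ih fun j hj => hN j (hj.trans (Nat.lt_succ_self k)))

theorem sheet (h : WK f N P T v η r₀) {x : ℂ} {R : ℝ} (hR : 0 < R) (hv : v ∉ ball x R) (hb : ball x R ⊆ ball v (r₀ ^ 2))
    {k : ℂ → ℂ} (hk : DifferentiableOn ℂ k (ball x R)) (hkN : ∀ u ∈ ball x R, k u ∈ N ∧ f (k u) = u)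
    {y : ℂ} (hy : y ∈ ball x R) (hky : k y ∈ η '' ball 0 r₀) : ∀ u ∈ ball x R, k u ∈ η '' ball 0 r₀ := by
  obtain ⟨l, hl, hle⟩ := disc_log (h := fun u => u - v) (y := x) (r := R) (by fun_prop) (fun u hu h0 => hv (by
    rw [← sub_eq_zero.1 h0]; exact hu))
  obtain ⟨s, hs⟩ : ∃ s : ℂ → ℂ, s = fun u => Complex.exp (l u / 2) := ⟨_, rfl⟩
  have hsd : DifferentiableOn ℂ s (ball x R) := by
    rw [hs]
    exact (hl.div_const 2).cexp
  have hs2 : ∀ u ∈ ball x R, s u ^ 2 = u - v := by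
    intro u hu
    rw [← hle u hu, hs]
    show Complex.exp (l u / 2) ^ 2 = Complex.exp (l u)
    rw [← Complex.exp_nat_mul]
    congr 1
    push_cast
    ring
  obtain ⟨s₀, hs₀, hks⟩ := hky
  have h1 : s₀ ^ 2 = s y ^ 2 := by
    rw [hs2 y hy, ← (hkN y hy).2, ← hks, (h.ηv s₀ hs₀).2]
    ring
  -- choose the sign
  obtain ⟨t, ht, ht2, hty⟩ : ∃ t : ℂ → ℂ, DifferentiableOn ℂ t (ball x R) ∧ (∀ u ∈ ball x R, t u ^ 2 = u - v) ∧ t y = s₀ := by
    rcases sq_eq_sq_iff_eq_or_eq_neg.1 h1 with h2 | h2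
    · exact ⟨s, hsd, hs2, h2.symm⟩
    · exact ⟨fun u => - s u, hsd.neg, fun u hu => by rw [neg_sq]; exact hs2 u hu, h2.symm⟩
  have htb : ∀ u ∈ ball x R, t u ∈ ball (0 : ℂ) r₀ := by
    intro u hu
    have h3 := hb hu
    rw [mem_ball_iff_norm, ← ht2 u hu, norm_pow] at h3
    rw [mem_ball_zero_iff]
    exact lt_of_pow_lt_pow_left₀ 2 h.hr.le h3
  have hE : EqOn k (fun u => η (t u)) (ball x R) := by
    refine Pool.Agent.H43.UB.lift_eq (F := f) (H := fun u => u) h.No h.fd isOpen_ball (convex_ball x R).isPreconnected hk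
      (h.ηd.comp ht fun u hu => htb u hu) (fun u hu => hkN u hu) (fun u hu => ?_) (fun u _ => ?_) hy ?_
    · refine ⟨(h.ηv _ (htb u hu)).1, ?_⟩
      rw [(h.ηv _ (htb u hu)).2, ht2 u hu]
      ring
    · rw [deriv_id'']
      exact one_ne_zero
    · show k y = η (t y)
      rw [hty, hks]
  intro u hu
  rw [hE hu]
  exact mem_image_of_mem η (htb u hu)

/-- two branches of `f^(-m)` with the same value at `y` have the same derivative there -/
theorem br_der (h : WK f N P T v η r₀) {m : ℕ} {x x' y : ℂ} {R R' : ℝ} {g G : ℂ → ℂ} (hy : y ∈ ball x R) (hy' : y ∈ ball x' R')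
    (hg : DifferentiableOn ℂ g (ball x R)) (hG : DifferentiableOn ℂ G (ball x' R'))
    (gf : ∀ u ∈ ball x R, (∀ j < m, f^[j] (g u) ∈ N) ∧ f^[m] (g u) = u)
    (Gf : ∀ u ∈ ball x' R', (∀ j < m, f^[j] (G u) ∈ N) ∧ f^[m] (G u) = u) (he : G y = g y) : deriv G y = deriv g y := by
  have hF : DifferentiableAt ℂ (f^[m]) (g y) := wk_at h m (gf y hy).1
  have key : ∀ (k : ℂ → ℂ) (x R), y ∈ ball x R → DifferentiableOn ℂ k (ball x R) → (∀ u ∈ ball x R, f^[m] (k u) = u) → k y = g y →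
      deriv (f^[m]) (g y) * deriv k y = 1 := by
    intro k x R hy hk hkf hky
    have h1 : HasDerivAt (fun u => f^[m] (k u)) (deriv (f^[m]) (k y) * deriv k y) y := by
      refine HasDerivAt.comp y ?_ (hk.differentiableAt (isOpen_ball.mem_nhds hy)).hasDerivAt
      rw [hky]
      exact hF.hasDerivAt
    have h2 : (fun u => f^[m] (k u)) =ᶠ[𝓝 y] fun u => u := by
      filter_upwards [isOpen_ball.mem_nhds hy] with u hu
      exact hkf u hu
    have h3 := h1.unique ((hasDerivAt_id y).congr_of_eventuallyEq h2)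
    rw [hky] at h3
    exact h3
  have h1 := key g x R hy hg (fun u hu => (gf u hu).2) rfl
  have h2 := key G x' R' hy' hG (fun u hu => (Gf u hu).2) he
  have h3 : deriv (f^[m]) (g y) ≠ 0 := by
    intro h0
    rw [h0, zero_mul] at h1
    exact zero_ne_one h1
  exact mul_left_cancel₀ h3 (h2.trans h1.symm)

theorem fr_step (h : WK f N P T v η r₀) {z : ℂ} {m : ℕ} (hm : 1 ≤ m) {x y : ℂ} {R C : ℝ} (hR : 0 < R) (hC : 0 ≤ C) {g : ℂ → ℂ}
    (hg : Fr f N η r₀ z m x R C g) (hxy : ‖y - x‖ ≤ R / 2) (hT : ball y R ⊆ T) (hP : Disjoint (ball y R) P)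
    (hb : ball y R ⊆ ball v (r₀ ^ 2)) :
    ∃ G : ℂ → ℂ, Fr f N η r₀ z m y R (KK * (1 + C)) G ∧ ‖deriv G y‖ ≤ KK * ‖deriv g x‖ ∧ ‖deriv g x‖ ≤ KK * ‖deriv G y‖ := by
  have hyx : y ∈ ball x R := by
    rw [mem_ball_iff_norm]
    linarith
  have hyc : y ∈ closedBall x (R / 2) := by
    rw [mem_closedBall_iff_norm]
    exact hxy
  have hxc : x ∈ closedBall x (R / 2) := mem_closedBall_self (by positivity)
  have hgi := fr_inj hg
  obtain ⟨hg1, hg2⟩ := hg.gf y hyx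
  obtain ⟨G, hGd, hGy, hGf⟩ := h.br m y (g y) R hT hP hg1 (by rw [hg2]; exact mem_ball_self hR)
  rw [hg2] at hGy
  have hder : deriv G y = deriv g y := br_der h hyx (mem_ball_self hR) hg.gd hGd hg.gf hGf hGy
  have hd1 := distort hR hg.gd hgi hyc hxc
  have hd2 := distort hR hg.gd hgi hxc hyc
  have hlip := distort_lip hR hg.gd hgi hyc hxc hyc
  refine ⟨G, ⟨hGd, hGf, ?_, ?_⟩, ?_, ?_⟩
  · rw [hGy, hder]
    have h0 := norm_nonneg (deriv g y)
    have h1 : ‖g y - z‖ ≤ ‖g y - g x‖ + ‖g x - z‖ := norm_sub_le_norm_sub_add_norm_sub _ _ _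
    have h2 : ‖g y - g x‖ ≤ KK * (R * ‖deriv g y‖) := by
      refine hlip.trans ?_
      have h3 : KK * ‖deriv g y‖ * ‖y - x‖ ≤ KK * ‖deriv g y‖ * R :=
        mul_le_mul_of_nonneg_left (by linarith) (mul_nonneg KK_pos.le h0)
      linarith
    have h3 : ‖g x - z‖ ≤ KK * C * (R * ‖deriv g y‖) := by
      refine hg.gz.trans ?_
      have h4 : R * ‖deriv g x‖ ≤ R * (KK * ‖deriv g y‖) := mul_le_mul_of_nonneg_left hd2 hR.le
      have h5 := mul_le_mul_of_nonneg_left h4 hC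
      linarith
    linarith
  · refine sheet h hR (fun hv => Set.disjoint_left.1 hP hv h.vP) hb (k := fun u => f^[m - 1] (G u)) ?_ (fun u hu => ?_)
      (mem_ball_self hR) ?_
    · intro u hu
      have h1 : DifferentiableAt ℂ (f^[m - 1]) (G u) := wk_at h (m - 1) fun j hj => (hGf u hu).1 j (by omega)
      exact (h1.comp u (hGd.differentiableAt (isOpen_ball.mem_nhds hu))).differentiableWithinAt
    · refine ⟨(hGf u hu).1 (m - 1) (by omega), ?_⟩
      show f (f^[m - 1] (G u)) = u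
      rw [← Function.iterate_succ_apply' f (m - 1)]
      have e : (m - 1).succ = m := by omega
      rw [e]
      exact (hGf u hu).2
    · show f^[m - 1] (G y) ∈ η '' ball 0 r₀
      rw [hGy]
      exact hg.sh y hyx
  · rw [hder]
    exact hd1
  · rw [hder]
    exact hd2

/-- smaller radius -/
theorem fr_small {z : ℂ} {m : ℕ} {x : ℂ} {R R' C : ℝ} (hR' : 0 < R') (hRR : R' ≤ R) {g : ℂ → ℂ}
    (hg : Fr f N η r₀ z m x R C g) : Fr f N η r₀ z m x R' (C * (R / R')) g where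
  gd := hg.gd.mono (ball_subset_ball hRR)
  gf := fun u hu => hg.gf u (ball_subset_ball hRR hu)
  gz := by
    have h1 := hg.gz
    have e : C * (R / R') * (R' * ‖deriv g x‖) = C * (R * ‖deriv g x‖) := by
      field_simp
    rw [e]
    exact h1
  sh := fun u hu => hg.sh u (ball_subset_ball hRR hu)

/-- the constants -/
noncomputable def Ew (C : ℝ) : ℕ → ℝ
  | 0 => C
  | n + 1 => KK * (1 + Ew C n)

theorem ew_nn {C : ℝ} (hC : 0 ≤ C) (n : ℕ) : 0 ≤ Ew C n := by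
  induction n with
  | zero => exact hC
  | succ n ih => exact mul_nonneg KK_pos.le (by linarith)

theorem ew_mono {C : ℝ} (hC : 0 ≤ C) : Monotone (Ew C) := by
  refine monotone_nat_of_le_succ fun n => ?_
  show Ew C n ≤ KK * (1 + Ew C n)
  have h1 := ew_nn hC n
  have h2 := one_le_KK
  nlinarith

theorem fr_mono {z : ℂ} {m : ℕ} {x : ℂ} {R C C' : ℝ} (hR : 0 ≤ R) (hC : C ≤ C') {g : ℂ → ℂ}
    (hg : Fr f N η r₀ z m x R C g) : Fr f N η r₀ z m x R C' g where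
  gd := hg.gd
  gf := hg.gf
  gz := hg.gz.trans (mul_le_mul_of_nonneg_right hC (mul_nonneg hR (norm_nonneg _)))
  sh := hg.sh

theorem fr_chain (h : WK f N P T v η r₀) {G : Set ℂ} {R C : ℝ} (hR : 0 < R) (hC : 0 ≤ C)
    (hG : ∀ x ∈ G, ball x R ⊆ T ∧ Disjoint (ball x R) P ∧ ball x R ⊆ ball v (r₀ ^ 2)) {z : ℂ} {m : ℕ} (hm : 1 ≤ m) {x : ℂ} {g : ℂ → ℂ}
    (hg : Fr f N η r₀ z m x R C g) (n : ℕ) {p : ℕ → ℂ} (p0 : p 0 = x) (pG : ∀ i ≤ n, p i ∈ G)
    (pd : ∀ i < n, dist (p i) (p (i + 1)) < R / 2) :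
    ∃ g' : ℂ → ℂ, Fr f N η r₀ z m (p n) R (Ew C n) g' ∧ ‖deriv g' (p n)‖ ≤ KK ^ n * ‖deriv g x‖ ∧
      ‖deriv g x‖ ≤ KK ^ n * ‖deriv g' (p n)‖ := by
  induction n with
  | zero =>
    rw [p0]
    exact ⟨g, hg, by rw [pow_zero, one_mul], by rw [pow_zero, one_mul]⟩
  | succ n ih =>
    obtain ⟨g', h1, h2, h3⟩ := ih (fun i hi => pG i (by omega)) (fun i hi => pd i (by omega))
    obtain ⟨hT, hP, hb⟩ := hG (p (n + 1)) (pG (n + 1) le_rfl)
    have hd : ‖p (n + 1) - p n‖ ≤ R / 2 := by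
      have := pd n (Nat.lt_succ_self n)
      rw [dist_comm, dist_eq_norm] at this
      exact this.le
    obtain ⟨G', h4, h5, h6⟩ := fr_step h hm hR (ew_nn hC n) h1 hd hT hP hb
    refine ⟨G', h4, ?_, ?_⟩
    · calc ‖deriv G' (p (n + 1))‖ ≤ KK * ‖deriv g' (p n)‖ := h5
        _ ≤ KK * (KK ^ n * ‖deriv g x‖) := mul_le_mul_of_nonneg_left h2 KK_pos.le
        _ = KK ^ (n + 1) * ‖deriv g x‖ := by ring
    · calc ‖deriv g x‖ ≤ KK ^ n * ‖deriv g' (p n)‖ := h3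
        _ ≤ KK ^ n * (KK * ‖deriv G' (p (n + 1))‖) := mul_le_mul_of_nonneg_left h6 (pow_nonneg KK_pos.le n)
        _ = KK ^ (n + 1) * ‖deriv G' (p (n + 1))‖ := by ring

theorem wkc (A C : ℝ) (hC : 0 ≤ C) : ∃ C' : ℝ, C ≤ C' ∧ ∀ {f : ℂ → ℂ} {N P T : Set ℂ} {v : ℂ} {η : ℂ → ℂ} {r₀ : ℝ},
    WK f N P T v η r₀ → ∀ {G : Set ℂ} {R : ℝ}, IsPreconnected G → 0 < R → G ⊆ closedBall v (A * R) →
    (∀ x ∈ G, ball x R ⊆ T ∧ Disjoint (ball x R) P ∧ ball x R ⊆ ball v (r₀ ^ 2)) → ∀ {z : ℂ} {m : ℕ}, 1 ≤ m →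
    ∀ x ∈ G, ∀ y ∈ G, ∀ g : ℂ → ℂ, Fr f N η r₀ z m x R C g →
    ∃ g' : ℂ → ℂ, Fr f N η r₀ z m y R C' g' ∧ ‖deriv g' y‖ ≤ C' * ‖deriv g x‖ ∧ ‖deriv g x‖ ≤ C' * ‖deriv g' y‖ := by
  obtain ⟨M, hM⟩ := wkb (2 * A)
  refine ⟨max (Ew C M) (KK ^ M), ?_, ?_⟩
  · exact (ew_mono hC (Nat.zero_le M)).trans (le_max_left _ _)
  intro f N P T v η r₀ h G R hGc hR hGb hG z m hm x hx y hy g hg
  obtain ⟨n, hn, p, p0, pn, pG, pd⟩ := hM hGc (show 0 < R / 2 by positivity) (by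
    have e : 2 * A * (R / 2) = A * R := by ring
    rw [e]
    exact hGb) x hx y hy
  obtain ⟨g', h1, h2, h3⟩ := fr_chain h hR hC hG hm hg n p0 pG pd
  rw [pn] at h1 h2 h3
  have hK : KK ^ n ≤ max (Ew C M) (KK ^ M) := (pow_le_pow_right₀ one_le_KK hn).trans (le_max_right _ _)
  refine ⟨g', fr_mono hR.le ((ew_mono hC hn).trans (le_max_left _ _)) h1, ?_, ?_⟩
  · exact h2.trans (mul_le_mul_of_nonneg_right hK (norm_nonneg _))
  · exact h3.trans (mul_le_mul_of_nonneg_right hK (norm_nonneg _))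

end Pool.Agent.H81.RW
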