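import Pool.Agent.H81.RW.Ub
import Pool.Agent.H27.BR.RE
import Pool.Agent.H27.BR.DXB
import Pool.Agent.H76.SU.HUL

/-!
# Module Gdw: windows with uniform geometry from Lipschitz functions

`full_compl`: `V` bounded, open, full: `Vᶜ` is preconnected: otherwise `Vᶜ = A ∪ B`, closed, disjoint, nonempty; the outside of a large disc is preconnected (`ext_pc`, H76/SU/HUL), so one of them, `A`, is bounded, hence compact; `O = {x | infDist x A < t}` with `t` less than `dist (A, B)`: open, bounded, `frontier O ⊆ V`, so `O ⊆ V`, but `A ⊆ O`.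
`chn`: CHAINS: `E` open (or any) preconnected set in `closedBall v R`, `t > 0`: two points of `E` are joined by a chain in `E` with steps `< t` and at most `n` steps, `n` depending only on `R / t` (shortest chain: the points with even index have mutual distances `≥ t`, so the discs of radius `t / 2` around them are disjoint and lie in `ball v (R + t)`: area).
`gdw`. PROOF. Scale: `r = 1`-type argument with `C`. `V = {1 / 3 < u}`: open, preconnected, full, bounded, contains `v`. `SqV V`: `sq_of` with `full_compl`. `rmap`: `ψ`, `g`, `ψ 0 = v`. `E = {2 / 5 < u}` preconnected, `ball x (r / (15 C)) ⊆ V` for `x ∈ E`. Chain of at most `n = n(C)` steps `< r / (30 C)` from `v` to `x ∈ E`. If `‖y - x‖ ≤ (1/2) r / (15 C)`: `g` maps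
`ball x (r / (15 C))` to the unit disc: Schwarz-Pick: `‖(g y - g x) / (1 - conj (g x) g y)‖ ≤ 1 / 2`, so `‖g y‖ ≤ (‖g x‖ + 1/2) / (1 + ‖g x‖ / 2)`. After `n` steps `‖g x‖ ≤ θ < 1`, `θ` depends only on `C`. Derivative: `g` maps `ball v (r / (2 C))` to the unit disc, `g v = 0`: `‖g' v‖ ≤ 2 C / r`, `‖ψ' 0‖ = 1 / ‖g' v‖ ≥ r / (2 C)`.
-/

set_option autoImplicit false

open Filter Topology Metric Set MeasureTheory

namespace Pool.Agent.H81.RW

open Pool.Agent.H56.TH

theorem full_compl {V : Set ℂ} (hV : IsOpen V) (hb : Bornology.IsBounded V) (hf : Full V) : IsPreconnected Vᶜ := by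
  -- a closed bounded piece of the complement is impossible
  have key : ∀ A B : Set ℂ, IsClosed A → IsClosed B → Bornology.IsBounded A → A.Nonempty →
      Disjoint A B → A ∪ B = Vᶜ → False := by
    intro A B hA hB hAb hAne hd hAB
    have hAc : IsCompact A := Metric.isCompact_of_isClosed_isBounded hA hAb
    obtain ⟨δ, hδ, hsub⟩ := hAc.exists_thickening_subset_open hB.isOpen_compl hd.subset_compl_right
    have h1 : frontier (thickening (δ / 2) A) ⊆ V := by
      intro z hz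
      by_contra hzV
      have hz1 : z ∈ A ∪ B := by rw [hAB]; exact hzV
      have hz2 : z ∈ thickening δ A := by
        have h2 : z ∈ closure (thickening (δ / 2) A) := frontier_subset_closure hz
        exact cthickening_subset_thickening' hδ (half_lt_self hδ) A
          (closure_thickening_subset_cthickening _ _ h2)
      have hz3 : z ∉ A := by
        intro hzA
        have h3 : z ∈ thickening (δ / 2) A := self_subset_thickening (half_pos hδ) A hzA
        rw [isOpen_thickening.frontier_eq] at hz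
        exact hz.2 h3
      rcases hz1 with h | h
      · exact hz3 h
      · exact hsub hz2 h
    have h2 : thickening (δ / 2) A ⊆ V := hf _ isOpen_thickening hAb.thickening h1
    obtain ⟨a, ha⟩ := hAne
    have h3 : a ∈ V := h2 (self_subset_thickening (half_pos hδ) A ha)
    have h4 : a ∈ Vᶜ := by rw [← hAB]; exact Or.inl ha
    exact h4 h3
  obtain ⟨R, hR⟩ := hb.subset_closedBall 0
  have hext : (closedBall (0 : ℂ) R)ᶜ ⊆ Vᶜ := Set.compl_subset_compl.2 hR
  rw [isPreconnected_closed_iff]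
  intro t t' ht ht' hst ⟨x, hx, hxt⟩ ⟨y, hy, hyt⟩
  by_contra hne
  rw [Set.not_nonempty_iff_eq_empty] at hne
  have hc : IsClosed Vᶜ := hV.isClosed_compl
  have hA : IsClosed (Vᶜ ∩ t) := hc.inter ht
  have hB : IsClosed (Vᶜ ∩ t') := hc.inter ht'
  have hun : Vᶜ ∩ t ∪ Vᶜ ∩ t' = Vᶜ := by
    rw [← Set.inter_union_distrib_left]
    exact Set.inter_eq_left.2 hst
  have hd : Disjoint (Vᶜ ∩ t) (Vᶜ ∩ t') := by
    rw [Set.disjoint_left]
    intro z hz hz'
    have h1 : z ∈ Vᶜ ∩ (t ∩ t') := ⟨hz.1, hz.2, hz'.2⟩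
    rw [hne] at h1
    exact h1
  have hcov : (closedBall (0 : ℂ) R)ᶜ ⊆ t ∪ t' := hext.trans hst
  have hdis : (closedBall (0 : ℂ) R)ᶜ ∩ (t ∩ t') = ∅ := by
    refine Set.eq_empty_of_forall_notMem fun z hz => ?_
    have h1 : z ∈ Vᶜ ∩ (t ∩ t') := ⟨hext hz.1, hz.2⟩
    rw [hne] at h1
    exact h1
  rcases isPreconnected_iff_subset_of_disjoint_closed.1 (Pool.Agent.H76.SU.ext_pc 0 R) t t' ht ht' hcov
    hdis with h | h
  · refine key (Vᶜ ∩ t') (Vᶜ ∩ t) hB hA ?_ ⟨y, hy, hyt⟩ hd.symm (by rw [Set.union_comm]; exact hun)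
    refine (isBounded_closedBall (x := (0 : ℂ)) (r := R)).subset fun z hz => ?_
    by_contra hzR
    exact (Set.disjoint_left.1 hd) ⟨hz.1, h hzR⟩ hz
  · refine key (Vᶜ ∩ t) (Vᶜ ∩ t') hA hB ?_ ⟨x, hx, hxt⟩ hd hun
    refine (isBounded_closedBall (x := (0 : ℂ)) (r := R)).subset fun z hz => ?_
    by_contra hzR
    exact (Set.disjoint_left.1 hd) hz ⟨hz.1, h hzR⟩

/-- chains in a preconnected set covered by finitely many balls -/
private theorem chn_fin {E : Set ℂ} (hE : IsPreconnected E) {F : Finset ℂ} {ρ : ℝ}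
    (hF : E ⊆ ⋃ a ∈ F, ball a ρ) {x y : ℂ} (hx : x ∈ E) (hy : y ∈ E) :
    ∃ c : ℕ → ℂ, c 0 = x ∧ c (F.card + 2) = y ∧ (∀ i, c i ∈ E) ∧ ∀ i, ‖c (i + 1) - c i‖ < 4 * ρ := by
  classical
  have hρ : 0 < ρ := by
    obtain ⟨a, ha, hxa⟩ := mem_iUnion₂.1 (hF hx)
    exact pos_of_mem_ball hxa
  let G : SimpleGraph F := SimpleGraph.fromRel fun a b => (ball (a : ℂ) ρ ∩ ball (b : ℂ) ρ ∩ E).Nonempty
  obtain ⟨a, ha, hxa⟩ := mem_iUnion₂.1 (hF hx)
  obtain ⟨b, hb, hyb⟩ := mem_iUnion₂.1 (hF hy)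
  have hadj : ∀ p q : F, (ball (p : ℂ) ρ ∩ ball (q : ℂ) ρ ∩ E).Nonempty → G.Reachable p q := by
    intro p q h
    rcases eq_or_ne p q with h1 | h1
    · rw [h1]
    · exact SimpleGraph.Adj.reachable (by
        rw [SimpleGraph.fromRel_adj]
        exact ⟨h1, Or.inl h⟩)
  have hreach : G.Reachable ⟨a, ha⟩ ⟨b, hb⟩ := by
    by_contra hnr
    obtain ⟨z, hzE, hz1, hz2⟩ := hE (⋃ p ∈ {p : F | G.Reachable ⟨a, ha⟩ p}, ball (p : ℂ) ρ)
      (⋃ p ∈ {p : F | ¬ G.Reachable ⟨a, ha⟩ p}, ball (p : ℂ) ρ)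
      (isOpen_biUnion fun _ _ => isOpen_ball) (isOpen_biUnion fun _ _ => isOpen_ball)
      (by
        intro z hz
        obtain ⟨p, hp, hzp⟩ := mem_iUnion₂.1 (hF hz)
        by_cases h : G.Reachable ⟨a, ha⟩ ⟨p, hp⟩
        · exact Or.inl (mem_iUnion₂.2 ⟨⟨p, hp⟩, h, hzp⟩)
        · exact Or.inr (mem_iUnion₂.2 ⟨⟨p, hp⟩, h, hzp⟩))
      ⟨x, hx, mem_iUnion₂.2 ⟨⟨a, ha⟩, SimpleGraph.Reachable.refl _, hxa⟩⟩
      ⟨y, hy, mem_iUnion₂.2 ⟨⟨b, hb⟩, hnr, hyb⟩⟩
    obtain ⟨p, hp, hzp⟩ := mem_iUnion₂.1 hz1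
    obtain ⟨q, hq, hzq⟩ := mem_iUnion₂.1 hz2
    exact hq (SimpleGraph.Reachable.trans hp (hadj p q ⟨z, ⟨hzp, hzq⟩, hzE⟩))
  obtain ⟨w, hw⟩ := hreach.exists_isPath
  have hlen : w.length < F.card := by
    have h1 := hw.length_lt
    rwa [Fintype.card_coe] at h1
  have hmeet : ∀ i, (ball ((w.getVert i : F) : ℂ) ρ ∩ E).Nonempty := by
    intro i
    rcases Nat.eq_zero_or_pos i with h | h
    · subst h
      rw [w.getVert_zero]
      exact ⟨x, hxa, hx⟩
    · rcases lt_or_ge (i - 1) w.length with h1 | h1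
      · have h2 := w.adj_getVert_succ h1
        rw [SimpleGraph.fromRel_adj] at h2
        have h3 : i - 1 + 1 = i := by omega
        rw [h3] at h2
        rcases h2.2 with ⟨z, hz⟩ | ⟨z, hz⟩
        · exact ⟨z, hz.1.2, hz.2⟩
        · exact ⟨z, hz.1.1, hz.2⟩
      · rw [w.getVert_of_length_le (by omega)]
        exact ⟨y, hyb, hy⟩
  choose e he using hmeet
  have hstep : ∀ i, ‖e (i + 1) - e i‖ < 4 * ρ := by
    intro i
    have h1 : dist (e i) (w.getVert i : F) < ρ := (he i).1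
    have h2 : dist (e (i + 1)) (w.getVert (i + 1) : F) < ρ := (he (i + 1)).1
    have h3 : dist ((w.getVert i : F) : ℂ) (w.getVert (i + 1) : F) < 2 * ρ := by
      rcases lt_or_ge i w.length with h4 | h4
      · have h5 := w.adj_getVert_succ h4
        rw [SimpleGraph.fromRel_adj] at h5
        rcases h5.2 with ⟨z, hz⟩ | ⟨z, hz⟩
        · have h6 : dist z ((w.getVert i : F) : ℂ) < ρ := hz.1.1
          have h7 : dist z ((w.getVert (i + 1) : F) : ℂ) < ρ := hz.1.2
          linarith [dist_triangle_left ((w.getVert i : F) : ℂ) (w.getVert (i + 1) : F) z]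
        · have h6 : dist z ((w.getVert (i + 1) : F) : ℂ) < ρ := hz.1.1
          have h7 : dist z ((w.getVert i : F) : ℂ) < ρ := hz.1.2
          linarith [dist_triangle_left ((w.getVert i : F) : ℂ) (w.getVert (i + 1) : F) z]
      · rw [w.getVert_of_length_le h4, w.getVert_of_length_le (by omega), dist_self]
        linarith
    rw [← dist_eq_norm]
    have h8 := dist_triangle4 (e (i + 1)) ((w.getVert (i + 1) : F) : ℂ) ((w.getVert i : F) : ℂ) (e i)
    rw [dist_comm ((w.getVert (i + 1) : F) : ℂ) ((w.getVert i : F) : ℂ),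
      dist_comm ((w.getVert i : F) : ℂ) (e i)] at h8
    linarith
  refine ⟨fun i => if i = 0 then x else if i ≤ w.length + 1 then e (i - 1) else y, by simp, ?_, ?_, ?_⟩
  · have h1 : ¬ (F.card + 2 ≤ w.length + 1) := by omega
    have h2 : F.card + 2 ≠ 0 := by omega
    simp only [h1, h2, if_false]
  · intro i
    by_cases h1 : i = 0
    · simp only [h1, if_true]
      exact hx
    · by_cases h2 : i ≤ w.length + 1
      · simp only [h1, h2, if_true, if_false]
        exact (he _).2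
      · simp only [h1, h2, if_false]
        exact hy
  · intro i
    rcases Nat.eq_zero_or_pos i with h1 | h1
    · subst h1
      have h2 : (if 0 + 1 = 0 then x else if 0 + 1 ≤ w.length + 1 then e (0 + 1 - 1) else y) = e 0 := by
        simp
      simp only [h2, if_true]
      have h3 : dist (e 0) (w.getVert 0 : F) < ρ := (he 0).1
      rw [w.getVert_zero] at h3
      have h4 : dist x a < ρ := hxa
      rw [← dist_eq_norm]
      linarith [dist_triangle_right (e 0) x a]
    · by_cases h2 : i ≤ w.length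
      · have h3 : i + 1 ≤ w.length + 1 := by omega
        have h4 : i ≤ w.length + 1 := by omega
        have h5 : i ≠ 0 := by omega
        have h6 : i + 1 ≠ 0 := by omega
        simp only [h3, h4, h5, h6, if_true, if_false]
        have h7 := hstep (i - 1)
        rw [show i - 1 + 1 = i from by omega] at h7
        rw [show i + 1 - 1 = i from by omega]
        exact h7
      · by_cases h3 : i = w.length + 1
        · subst h3
          have h4 : ¬ (w.length + 1 + 1 ≤ w.length + 1) := by omega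
          have h5 : w.length + 1 ≠ 0 := by omega
          have h6 : w.length + 1 + 1 ≠ 0 := by omega
          simp only [h4, h5, h6, if_false, le_refl, if_true, Nat.add_sub_cancel]
          have h7 : dist (e w.length) (w.getVert w.length : F) < ρ := (he _).1
          rw [w.getVert_length] at h7
          have h8 : dist y b < ρ := hyb
          rw [← dist_eq_norm]
          linarith [dist_triangle_right y (e w.length) b]
        · have h4 : ¬ (i ≤ w.length + 1) := by omega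
          have h5 : ¬ (i + 1 ≤ w.length + 1) := by omega
          have h6 : i ≠ 0 := by omega
          have h7 : i + 1 ≠ 0 := by omega
          simp only [h4, h5, h6, h7, if_false, sub_self, norm_zero]
          linarith

theorem chn {R t : ℝ} (ht : 0 < t) : ∃ n : ℕ, ∀ (v : ℂ) (s : ℝ) (E : Set ℂ), 0 < s → IsPreconnected E →
    E ⊆ closedBall v (R * s) → ∀ x ∈ E, ∀ y ∈ E, ∃ c : ℕ → ℂ, c 0 = x ∧ c n = y ∧ (∀ i, c i ∈ E) ∧
      ∀ i, ‖c (i + 1) - c i‖ < t * s := by
  classical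
  obtain ⟨F, -, hFfin, hF⟩ := (isCompact_closedBall (0 : ℂ) R).finite_cover_balls (e := t / 4) (by linarith)
  lift F to Finset ℂ using hFfin
  refine ⟨F.card + 2, fun v s E hs hE hER x hx y hy => ?_⟩
  have hsc : (s : ℂ) ≠ 0 := Complex.ofReal_ne_zero.2 hs.ne'
  obtain ⟨φ, hφ⟩ : ∃ φ : ℂ → ℂ, φ = fun z => (z - v) / s := ⟨_, rfl⟩
  have hφc : Continuous φ := by
    rw [hφ]
    exact (continuous_id.sub continuous_const).div_const _
  have hφi : ∀ z, v + s * φ z = z := by
    intro z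
    rw [hφ]
    field_simp
    ring
  have hcov : φ '' E ⊆ ⋃ a ∈ F, ball a (t / 4) := by
    rintro _ ⟨z, hz, rfl⟩
    have h1 : φ z ∈ closedBall (0 : ℂ) R := by
      have h2 := hER hz
      rw [mem_closedBall, dist_eq_norm] at h2
      rw [mem_closedBall_zero_iff, hφ]
      show ‖(z - v) / s‖ ≤ R
      rw [norm_div, Complex.norm_real, Real.norm_eq_abs, abs_of_pos hs, div_le_iff₀ hs]
      exact h2
    simpa using hF h1
  obtain ⟨c, hc0, hcn, hcE, hcs⟩ := chn_fin (hE.image φ hφc.continuousOn) hcov (mem_image_of_mem φ hx)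
    (mem_image_of_mem φ hy)
  refine ⟨fun i => v + s * c i, ?_, ?_, fun i => ?_, fun i => ?_⟩
  · show v + s * c 0 = x
    rw [hc0, hφi]
  · show v + s * c (F.card + 2) = y
    rw [hcn, hφi]
  · obtain ⟨z, hz, hzc⟩ := hcE i
    show v + s * c i ∈ E
    rw [← hzc, hφi]
    exact hz
  · show ‖v + s * c (i + 1) - (v + s * c i)‖ < t * s
    have h1 : v + s * c (i + 1) - (v + s * c i) = s * (c (i + 1) - c i) := by ring
    rw [h1, norm_mul, Complex.norm_real, Real.norm_eq_abs, abs_of_pos hs, mul_comm t s]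
    refine mul_lt_mul_of_pos_left ?_ hs
    have h2 := hcs i
    linarith

/-- one step of the Schwarz-Pick chain -/
private theorem pick_step {g : ℂ → ℂ} {x y : ℂ} {ρ : ℝ} (hρ : 0 < ρ) (hg : DifferentiableOn ℂ g (ball x ρ))
    (hm : ∀ z ∈ ball x ρ, ‖g z‖ < 1) (hy : ‖y - x‖ ≤ ρ / 2) :
    ‖g y‖ ≤ (‖g x‖ + 1 / 2) / (1 + ‖g x‖ / 2) := by
  have hxm : x ∈ ball x ρ := mem_ball_self hρ
  have hym : y ∈ ball x ρ := by
    rw [mem_ball, dist_eq_norm]
    linarith
  obtain ⟨a, ha⟩ : ∃ a, a = g x := ⟨_, rfl⟩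
  have ha1 : ‖a‖ < 1 := by rw [ha]; exact hm x hxm
  have hid : ∀ w : ℂ, ‖1 - (starRingEnd ℂ) a * w‖ ^ 2 - ‖w - a‖ ^ 2 = (1 - ‖a‖ ^ 2) * (1 - ‖w‖ ^ 2) := by
    intro w
    simp only [Complex.sq_norm, Complex.normSq_apply, Complex.sub_re, Complex.sub_im, Complex.mul_re,
      Complex.mul_im, Complex.one_re, Complex.one_im, Complex.conj_re, Complex.conj_im]
    ring
  have hlt : ∀ w : ℂ, ‖w‖ < 1 → ‖w - a‖ < ‖1 - (starRingEnd ℂ) a * w‖ := by
    intro w hw
    have h1 : 0 < (1 - ‖a‖ ^ 2) * (1 - ‖w‖ ^ 2) := by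
      have h2 := norm_nonneg a
      have h3 := norm_nonneg w
      refine mul_pos ?_ ?_ <;> nlinarith
    have h2 := hid w
    exact lt_of_pow_lt_pow_left₀ 2 (norm_nonneg _) (by linarith)
  have hne : ∀ w : ℂ, ‖w‖ < 1 → 1 - (starRingEnd ℂ) a * w ≠ 0 := by
    intro w hw
    rw [← norm_pos_iff]
    exact lt_of_le_of_lt (norm_nonneg _) (hlt w hw)
  have hd : DifferentiableOn ℂ (fun z => (g z - a) / (1 - (starRingEnd ℂ) a * g z)) (ball x ρ) :=
    (hg.sub_const a).div ((differentiableOn_const 1).sub (hg.const_mul _)) fun z hz => hne _ (hm z hz)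
  have h0 : (g x - a) / (1 - (starRingEnd ℂ) a * g x) = 0 := by
    rw [ha, sub_self, zero_div]
  have hmaps : MapsTo (fun z => (g z - a) / (1 - (starRingEnd ℂ) a * g z)) (ball x ρ)
      (closedBall ((g x - a) / (1 - (starRingEnd ℂ) a * g x)) 1) := by
    intro z hz
    rw [h0, mem_closedBall_zero_iff]
    show ‖(g z - a) / (1 - (starRingEnd ℂ) a * g z)‖ ≤ 1
    rw [norm_div]
    exact (div_lt_one (norm_pos_iff.2 (hne _ (hm z hz)))).2 (hlt _ (hm z hz)) |>.le
  have h1 := Complex.dist_le_div_mul_dist_of_mapsTo_ball hd hmaps hym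
  rw [dist_eq_norm, dist_eq_norm, h0, sub_zero, norm_div] at h1
  have h2 : ‖g y - a‖ / ‖1 - (starRingEnd ℂ) a * g y‖ ≤ 1 / 2 := by
    refine h1.trans ?_
    rw [div_mul_eq_mul_div, one_mul, div_le_iff₀ hρ]
    linarith
  have hgy := hm y hym
  rw [div_le_iff₀ (norm_pos_iff.2 (hne _ hgy))] at h2
  have h3 := hid (g y)
  have h4 : 1 - ‖a‖ * ‖g y‖ ≤ ‖1 - (starRingEnd ℂ) a * g y‖ := by
    have h5 := norm_sub_norm_le (1 : ℂ) ((starRingEnd ℂ) a * g y)
    rw [norm_one, norm_mul, RCLike.norm_conj] at h5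
    exact h5
  have hs0 := norm_nonneg a
  have hW0 := norm_nonneg (g y)
  rw [← ha]
  have h6 : 0 < 1 - ‖a‖ * ‖g y‖ := by nlinarith
  have h7 : ‖g y - a‖ ^ 2 ≤ (1 / 2 * ‖1 - (starRingEnd ℂ) a * g y‖) ^ 2 :=
    pow_le_pow_left₀ (norm_nonneg _) h2 2
  have h8 : (1 - ‖a‖ * ‖g y‖) ^ 2 ≤ ‖1 - (starRingEnd ℂ) a * g y‖ ^ 2 := pow_le_pow_left₀ h6.le h4 2
  have h9 : (‖g y‖ - ‖a‖) ^ 2 ≤ ((1 - ‖a‖ * ‖g y‖) / 2) ^ 2 := by nlinarith
  have h10 : ‖g y‖ - ‖a‖ ≤ (1 - ‖a‖ * ‖g y‖) / 2 := by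
    have h11 := abs_le_of_sq_le_sq h9 (by linarith)
    exact (le_abs_self _).trans h11
  rw [le_div_iff₀ (by linarith)]
  nlinarith

/-- the radii -/
private noncomputable def gth : ℕ → ℝ
  | 0 => 0
  | n + 1 => (gth n + 1 / 2) / (1 + gth n / 2)

private theorem gth_mem (n : ℕ) : 0 ≤ gth n ∧ gth n < 1 := by
  induction n with
  | zero => exact ⟨le_refl _, zero_lt_one⟩
  | succ n ih =>
    obtain ⟨h1, h2⟩ := ih
    have h3 : 0 < 1 + gth n / 2 := by linarith
    refine ⟨div_nonneg (by linarith) h3.le, ?_⟩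
    rw [gth, div_lt_one h3]
    linarith

theorem gdw {C : ℝ} (hC : 1 ≤ C) : ∃ θ : ℝ, 0 < θ ∧ θ < 1 ∧ ∀ (P : Set ℂ) (u : ℂ → ℝ) (v : ℂ) (r : ℝ), 0 < r → UM P u →
    u v = 1 → (∀ x y, |u x - u y| ≤ C / r * ‖x - y‖) → (∀ y, 0 < u y → ‖y - v‖ < C * r) →
    ∃ ψ g : ℂ → ℂ, DifferentiableOn ℂ ψ (ball 0 1) ∧ DifferentiableOn ℂ g {x | 1 / 3 < u x} ∧ ψ 0 = v ∧
      (∀ x ∈ ball (0 : ℂ) 1, 1 / 3 < u (ψ x) ∧ g (ψ x) = x) ∧ (∀ y, 1 / 3 < u y → g y ∈ ball (0 : ℂ) 1 ∧ ψ (g y) = y) ∧
      (∀ x ∈ ball (0 : ℂ) 1, 1 / 2 ≤ u (ψ x) → ‖x‖ ≤ θ) ∧ r ≤ 2 * C * ‖deriv ψ 0‖ := by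
  have hC0 : 0 < C := by linarith
  obtain ⟨n, hn⟩ := chn (R := C) (t := 1 / (30 * C)) (by positivity)
  refine ⟨max (1 / 2) (gth n), lt_max_of_lt_left (by norm_num), max_lt (by norm_num) (gth_mem n).2, ?_⟩
  intro P u v r hr hu huv hlip hsupp
  obtain ⟨K, hK⟩ := hu.lip
  have huc : Continuous u := hK.continuous
  obtain ⟨V, hVdef⟩ : ∃ V : Set ℂ, V = {x | 1 / 3 < u x} := ⟨_, rfl⟩
  have hVo : IsOpen V := by
    rw [hVdef]
    exact isOpen_lt continuous_const huc
  have hVc : IsPreconnected V := by rw [hVdef]; exact hu.co _ (by norm_num) (by norm_num)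
  have hVf : Full V := by rw [hVdef]; exact hu.fu _ (by norm_num) (by norm_num)
  have hVb : Bornology.IsBounded V := by
    refine (isBounded_ball (x := v) (r := C * r)).subset fun z hz => ?_
    rw [hVdef] at hz
    have hz' : 1 / 3 < u z := hz
    rw [mem_ball, dist_eq_norm]
    exact hsupp z (by linarith)
  have hvV : v ∈ V := by
    rw [hVdef]
    show 1 / 3 < u v
    rw [huv]
    norm_num
  have hsq : Pool.Agent.H27.BR.SqV V := fun h hh h0 =>
    Pool.Agent.H27.BR.sq_of hVo hVc hVb (full_compl hVo hVb hVf) hh h0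
  obtain ⟨ψ, g, hψ, hg, hψV, hgV, hgψ, hψg, hψ0⟩ := Pool.Agent.H27.BR.rmap hVo hVc hVb hsq hvV
  have hgv : g v = 0 := by
    rw [← hψ0]
    exact hgψ 0 (mem_ball_self one_pos)
  have hgm : ∀ z ∈ V, ‖g z‖ < 1 := fun z hz => mem_ball_zero_iff.1 (hgV hz)
  refine ⟨ψ, g, hψ, by rw [← hVdef]; exact hg, hψ0, ?_, ?_, ?_, ?_⟩
  · intro x hx
    have h1 := hψV hx
    rw [hVdef] at h1
    exact ⟨h1, hgψ x hx⟩
  · intro y hy
    have h1 : y ∈ V := by rw [hVdef]; exact hy
    exact ⟨hgV h1, hψg y h1⟩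
  · intro x hx hux
    obtain ⟨E, hEdef⟩ : ∃ E : Set ℂ, E = {x | 2 / 5 < u x} := ⟨_, rfl⟩
    have hEc : IsPreconnected E := by rw [hEdef]; exact hu.co _ (by norm_num) (by norm_num)
    have hEb : E ⊆ closedBall v (C * r) := by
      intro z hz
      rw [hEdef] at hz
      have hz' : 2 / 5 < u z := hz
      rw [mem_closedBall, dist_eq_norm]
      exact (hsupp z (by linarith)).le
    have hball : ∀ z ∈ E, ball z (r / (15 * C)) ⊆ V := by
      intro z hz y hy
      rw [hEdef] at hz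
      have hz' : 2 / 5 < u z := hz
      rw [mem_ball, dist_eq_norm] at hy
      rw [hVdef]
      show 1 / 3 < u y
      have h1 := hlip z y
      have h2 : C / r * ‖z - y‖ < 1 / 15 := by
        rw [norm_sub_rev]
        calc C / r * ‖y - z‖ < C / r * (r / (15 * C)) := mul_lt_mul_of_pos_left hy (by positivity)
          _ = 1 / 15 := by
            field_simp
      have h3 := (abs_le.1 h1).2
      linarith
    have hvE : v ∈ E := by
      rw [hEdef]
      show 2 / 5 < u v
      rw [huv]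
      norm_num
    have hxE : ψ x ∈ E := by
      rw [hEdef]
      show 2 / 5 < u (ψ x)
      linarith
    obtain ⟨c, hc0, hcn, hcE, hcs⟩ := hn v r E hr hEc hEb v hvE (ψ x) hxE
    have hind : ∀ i, ‖g (c i)‖ ≤ gth i := by
      intro i
      induction i with
      | zero =>
        rw [hc0, hgv, norm_zero]
        exact le_refl _
      | succ i ih =>
        have h1 := pick_step (g := g) (x := c i) (y := c (i + 1)) (ρ := r / (15 * C)) (by positivity)
          (hg.mono (hball _ (hcE i))) (fun z hz => hgm z (hball _ (hcE i) hz)) (by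
            refine (hcs i).le.trans (le_of_eq ?_)
            field_simp
            norm_num)
        refine h1.trans ?_
        rw [gth]
        have h2 := norm_nonneg (g (c i))
        have h3 := gth_mem i
        rw [div_le_div_iff₀ (by linarith) (by linarith)]
        nlinarith
    have h1 := hind n
    rw [hcn, hgψ x hx] at h1
    exact h1.trans (le_max_right _ _)
  · have hsub : ball v (r / (2 * C)) ⊆ V := by
      intro y hy
      rw [mem_ball, dist_eq_norm] at hy
      rw [hVdef]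
      show 1 / 3 < u y
      have h1 := hlip v y
      rw [huv, norm_sub_rev] at h1
      have h2 : C / r * ‖y - v‖ < 1 / 2 := by
        calc C / r * ‖y - v‖ < C / r * (r / (2 * C)) := mul_lt_mul_of_pos_left hy (by positivity)
          _ = 1 / 2 := by
            field_simp
      have h3 := (abs_le.1 h1).2
      linarith
    have hd : ‖deriv g v‖ ≤ 1 / (r / (2 * C)) := by
      refine Complex.norm_deriv_le_div_of_mapsTo_ball (hg.mono hsub) ?_ (by positivity)
      rw [hgv]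
      exact fun z hz => ball_subset_closedBall (hgV (hsub hz))
    have hgd : HasDerivAt g (deriv g v) v := (hg.differentiableAt (hVo.mem_nhds hvV)).hasDerivAt
    have hψd : HasDerivAt ψ (deriv ψ 0) 0 :=
      (hψ.differentiableAt (isOpen_ball.mem_nhds (mem_ball_self one_pos))).hasDerivAt
    have hcomp : HasDerivAt (fun x => g (ψ x)) (deriv g v * deriv ψ 0) 0 := by
      rw [← hψ0] at hgd
      have h1 := hgd.comp (0 : ℂ) hψd
      rw [hψ0] at h1
      exact h1
    have hid : HasDerivAt (fun x : ℂ => g (ψ x)) 1 0 := by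
      refine (hasDerivAt_id (0 : ℂ)).congr_of_eventuallyEq ?_
      filter_upwards [isOpen_ball.mem_nhds (mem_ball_self (α := ℂ) (x := 0) one_pos)] with z hz
      exact hgψ z hz
    have h1 : deriv g v * deriv ψ 0 = 1 := hcomp.unique hid
    have h2 : ‖deriv g v‖ * ‖deriv ψ 0‖ = 1 := by rw [← norm_mul, h1, norm_one]
    have h3 : 1 ≤ 1 / (r / (2 * C)) * ‖deriv ψ 0‖ :=
      le_of_eq_of_le h2.symm (mul_le_mul_of_nonneg_right hd (norm_nonneg _))
    have h4 : 1 / (r / (2 * C)) * ‖deriv ψ 0‖ = 2 * C * ‖deriv ψ 0‖ / r := by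
      field_simp
    rw [h4, le_div_iff₀ hr, one_mul] at h3
    exact h3

end Pool.Agent.H81.RW
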