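import Pool.Agent.H81.RW.Var

/-!
# Module Thk: thickness

PROOFS. `circ_full`: otherwise `sphere z s ⊆ V`, `frontier (ball z s) = sphere z s` (`s > 0`), so `ball z s ⊆ V` by `Full`, but `y ∈ ball z s`. `circ_pre`: otherwise `E ⊆ ball z s ∪ (closedBall z s)ᶜ`, preconnected, meets both (`‖· - z‖` takes the value `s` on the connected set: `IsPreconnected.intermediate_value`).
`thk0`: `g` Lipschitz; every circle `‖x - z‖ = s`, `r < s < R`, has points with `g ≤ 0` and `g ≥ 1`; `c₀ / ‖x - z‖ ≤ ρ x` in the annulus: `c₀ log (R / r) ≤ ell ρ g`. Polar coordinates (`Complex.lintegral_comp_polarCoord_symm` for `x ↦ ... (z + x)`, translation invariance): `ell ρ g ≥ ∫⁻ s in Ioo r R, ∫⁻ θ in Ioo (-π) π, ofReal s * ofReal (c₀ / s) * ofReal ‖fderiv ℝ g (z + s e^{iθ})‖`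
`≥ ∫⁻ s in Ioo r R, ofReal (c₀ / s)`: for almost every `s`, for almost every `θ` `g` is differentiable at `z + s e^{iθ}` (`LipschitzWith.ae_differentiableAt`, Fubini), `h θ = g (z + s e^{iθ})` is Lipschitz with `|h'| ≤ s ‖fderiv ℝ g‖` almost everywhere; `h` takes a value `≤ 0` and a value `≥ 1` on `[-π, π]`, and `h` is absolutely continuous
(`LipschitzOnWith.absolutelyContinuousOnInterval`-like, `AbsolutelyContinuousOnInterval.integral_deriv_eq_sub`): `1 ≤ ∫ |h'| ≤ s ∫ ‖fderiv ℝ g‖`. Finally `∫⁻ s in Ioo r R, ofReal (c₀ / s) = ofReal (c₀ log (R / r))`.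
`thk`: `thk0` for `trc a b g` (Lipschitz), `ell_trc`: `ofReal (c₀ log (R / r)) ≤ ofReal (b - a)⁻¹ * ell' ρ g a b`.
-/

set_option autoImplicit false

open Filter Topology Metric Set MeasureTheory

namespace Pool.Agent.H81.RW

open Pool.Agent.H56.TH

theorem circ_full {V : Set ℂ} (hV : Full V) {z y : ℂ} {s : ℝ} (hy : y ∉ V) (hs : ‖y - z‖ < s) :
    ∃ x, ‖x - z‖ = s ∧ x ∉ V := by
  by_contra hcon
  push Not at hcon
  have hs0 : 0 < s := lt_of_le_of_lt (norm_nonneg _) hs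
  have h1 : frontier (ball z s) ⊆ V := by
    rw [frontier_ball z hs0.ne']
    intro x hx
    exact hcon x (by rw [← dist_eq_norm]; exact mem_sphere.1 hx)
  exact hy (hV (ball z s) isOpen_ball isBounded_ball h1 (by rw [mem_ball, dist_eq_norm]; exact hs))

theorem circ_pre {E : Set ℂ} (hE : IsPreconnected E) {z p y : ℂ} {s : ℝ} (hp : p ∈ E) (hps : ‖p - z‖ ≤ s) (hy : y ∈ E)
    (hys : s ≤ ‖y - z‖) : ∃ x ∈ E, ‖x - z‖ = s := by
  have hf : ContinuousOn (fun x : ℂ => ‖x - z‖) E := (continuous_id.sub continuous_const).norm.continuousOn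
  obtain ⟨x, hx, hxs⟩ := hE.intermediate_value hp hy hf ⟨hps, hys⟩
  exact ⟨x, hx, hxs⟩

private noncomputable def gam (z : ℂ) (s : ℝ) (t : ℝ) : ℂ := z + s * (Real.cos t + Real.sin t * Complex.I)

private theorem gam_deriv (z : ℂ) (s t : ℝ) :
    HasDerivAt (gam z s) (s * (-Real.sin t + Real.cos t * Complex.I) : ℂ) t := by
  have h1 : HasDerivAt (fun t : ℝ => ((Real.cos t : ℝ) : ℂ)) ((-Real.sin t : ℝ) : ℂ) t :=
    (Real.hasDerivAt_cos t).ofReal_comp
  have h2 : HasDerivAt (fun t : ℝ => ((Real.sin t : ℝ) : ℂ)) ((Real.cos t : ℝ) : ℂ) t :=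
    (Real.hasDerivAt_sin t).ofReal_comp
  have h3 := ((h1.add (h2.mul_const Complex.I)).const_mul (s : ℂ)).const_add z
  have h4 : (s * (-Real.sin t + Real.cos t * Complex.I) : ℂ) =
      (s : ℂ) * (((-Real.sin t : ℝ) : ℂ) + ((Real.cos t : ℝ) : ℂ) * Complex.I) := by
    rw [Complex.ofReal_neg]
  rw [h4]
  exact h3

private theorem gam_norm (s t : ℝ) (hs : 0 ≤ s) :
    ‖(s * (-Real.sin t + Real.cos t * Complex.I) : ℂ)‖ = s := by
  have h1 : ‖(-(Real.sin t : ℂ) + (Real.cos t : ℂ) * Complex.I)‖ = 1 := by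
    have h2 : (-(Real.sin t : ℂ) + (Real.cos t : ℂ) * Complex.I) = ((-Real.sin t : ℝ) : ℂ) + ((Real.cos t : ℝ) : ℂ) * Complex.I := by
      push_cast
      ring
    rw [h2, Complex.norm_add_mul_I]
    rw [neg_sq, Real.sin_sq_add_cos_sq, Real.sqrt_one]
  rw [norm_mul, h1, mul_one, Complex.norm_real, Real.norm_of_nonneg hs]

private theorem gam_lip (z : ℂ) (s : ℝ) (hs : 0 ≤ s) : LipschitzWith s.toNNReal (gam z s) := by
  refine lipschitzWith_of_nnnorm_deriv_le (fun t => (gam_deriv z s t).differentiableAt) fun t => ?_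
  rw [(gam_deriv z s t).deriv, ← NNReal.coe_le_coe, coe_nnnorm, gam_norm s t hs, Real.coe_toNNReal s hs]

private theorem gam_surj {z x : ℂ} {s : ℝ} (h : ‖x - z‖ = s) :
    gam z s (Complex.arg (x - z)) = x := by
  unfold gam
  have h1 : ((‖x - z‖ : ℝ) : ℂ) * (Real.cos (Complex.arg (x - z)) + Real.sin (Complex.arg (x - z)) * Complex.I) =
      x - z := by
    rw [Complex.ofReal_cos, Complex.ofReal_sin]
    exact Complex.norm_mul_cos_add_sin_mul_I (x - z)
  rw [← h, h1]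
  exact add_sub_cancel z x

/-- the variation on one circle -/
private theorem circ_var {g : ℂ → ℝ} {K : NNReal} (hg : LipschitzWith K g) {z : ℂ} {s : ℝ} (hs : 0 ≤ s)
    (had : ∀ᵐ t ∂(volume.restrict (Ioo (-Real.pi) Real.pi)), DifferentiableAt ℝ g (gam z s t))
    (h0 : ∃ x, ‖x - z‖ = s ∧ g x ≤ 0) (h1 : ∃ x, ‖x - z‖ = s ∧ 1 ≤ g x) :
    1 ≤ ∫⁻ t in Ioo (-Real.pi) Real.pi, ENNReal.ofReal (s * ‖fderiv ℝ g (gam z s t)‖) := by
  obtain ⟨x₀, hx₀, hg₀⟩ := h0
  obtain ⟨x₁, hx₁, hg₁⟩ := h1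
  set t₀ := Complex.arg (x₀ - z) with ht₀
  set t₁ := Complex.arg (x₁ - z) with ht₁
  obtain ⟨h, hh⟩ : ∃ h : ℝ → ℝ, h = fun t => g (gam z s t) := ⟨_, rfl⟩
  have hlip : LipschitzWith (K * s.toNNReal) h := by
    rw [hh]
    exact hg.comp (gam_lip z s hs)
  have hac : AbsolutelyContinuousOnInterval h t₀ t₁ :=
    (hlip.lipschitzOnWith (s := uIcc t₀ t₁)).absolutelyContinuousOnInterval
  have hint := hac.integral_deriv_eq_sub
  have hv : 1 ≤ h t₁ - h t₀ := by
    rw [hh]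
    simp only [ht₀, ht₁]
    rw [gam_surj hx₀, gam_surj hx₁]
    linarith
  rw [← hint] at hv
  have hsub : uIoc t₀ t₁ ⊆ Ioc (-Real.pi) Real.pi := by
    have e0 := Complex.arg_mem_Ioc (x₀ - z)
    have e1 := Complex.arg_mem_Ioc (x₁ - z)
    rw [← ht₀] at e0
    rw [← ht₁] at e1
    intro t ht
    rw [mem_uIoc] at ht
    rcases ht with ht | ht
    · exact ⟨e0.1.trans ht.1, ht.2.trans e1.2⟩
    · exact ⟨e1.1.trans ht.1, ht.2.trans e0.2⟩
  have hb : (1 : ENNReal) ≤ ∫⁻ t in Ioc (-Real.pi) Real.pi, ‖deriv h t‖ₑ := by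
    calc (1 : ENNReal) = ENNReal.ofReal 1 := ENNReal.ofReal_one.symm
      _ ≤ ENNReal.ofReal ‖∫ t in t₀..t₁, deriv h t‖ :=
          ENNReal.ofReal_le_ofReal (hv.trans (le_abs_self _))
      _ = ‖∫ t in uIoc t₀ t₁, deriv h t‖ₑ := by
          rw [intervalIntegral.norm_intervalIntegral_eq, ofReal_norm]
      _ ≤ ∫⁻ t in uIoc t₀ t₁, ‖deriv h t‖ₑ := enorm_integral_le_lintegral_enorm _
      _ ≤ _ := lintegral_mono_set hsub
  refine hb.trans ?_
  rw [setLIntegral_congr (Ioo_ae_eq_Ioc (μ := volume) (a := -Real.pi) (b := Real.pi)).symm]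
  refine lintegral_mono_ae (had.mono fun t ht => ?_)
  have hd : HasDerivAt h (fderiv ℝ g (gam z s t) (s * (-Real.sin t + Real.cos t * Complex.I) : ℂ)) t := by
    rw [hh]
    exact ht.hasFDerivAt.comp_hasDerivAt t (gam_deriv z s t)
  rw [hd.deriv, ← ofReal_norm]
  refine ENNReal.ofReal_le_ofReal ?_
  have h2 := (fderiv ℝ g (gam z s t)).le_opNorm (s * (-Real.sin t + Real.cos t * Complex.I) : ℂ)
  rw [gam_norm s t hs, mul_comm _ s] at h2
  exact h2

private theorem polar_shift (F : ℂ → ENNReal) (z : ℂ) :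
    ∫⁻ p in polarCoord.target, ENNReal.ofReal p.1 * F (gam z p.1 p.2) = ∫⁻ x, F x := by
  have h1 := Complex.lintegral_comp_polarCoord_symm (fun x => F (z + x))
  rw [lintegral_add_left_eq_self F z] at h1
  rw [← h1]
  refine lintegral_congr fun p => ?_
  rw [Complex.polarCoord_symm_apply, smul_eq_mul]
  rfl

private theorem gam_meas (z : ℂ) : Measurable fun p : ℝ × ℝ => gam z p.1 p.2 := by
  unfold gam
  fun_prop

private theorem target_eq : (volume : Measure (ℝ × ℝ)).restrict polarCoord.target =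
    ((volume : Measure ℝ).restrict (Ioi 0)).prod (volume.restrict (Ioo (-Real.pi) Real.pi)) := by
  rw [polarCoord_target, Measure.volume_eq_prod, Measure.prod_restrict]

private theorem ae_circ {g : ℂ → ℝ} {K : NNReal} (hg : LipschitzWith K g) (z : ℂ) :
    ∀ᵐ s ∂((volume : Measure ℝ).restrict (Ioi 0)),
      ∀ᵐ t ∂(volume.restrict (Ioo (-Real.pi) Real.pi)), DifferentiableAt ℝ g (gam z s t) := by
  have hm : MeasurableSet {x | DifferentiableAt ℝ g x} := measurableSet_of_differentiableAt ℝ g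
  have h1 := polar_shift ({x | DifferentiableAt ℝ g x}ᶜ.indicator (fun _ => (1 : ENNReal))) z
  have h2 : ∫⁻ x, {x | DifferentiableAt ℝ g x}ᶜ.indicator (fun _ => (1 : ENNReal)) x = 0 := by
    rw [lintegral_indicator hm.compl, setLIntegral_one]
    exact hg.ae_differentiableAt
  rw [h2] at h1
  have hmeas : Measurable fun p : ℝ × ℝ => ENNReal.ofReal p.1 *
      {x | DifferentiableAt ℝ g x}ᶜ.indicator (fun _ => (1 : ENNReal)) (gam z p.1 p.2) :=
    measurable_fst.ennreal_ofReal.mul ((measurable_const.indicator hm.compl).comp (gam_meas z))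
  rw [lintegral_eq_zero_iff hmeas] at h1
  have h3 : ∀ᵐ p ∂((volume : Measure (ℝ × ℝ)).restrict polarCoord.target),
      DifferentiableAt ℝ g (gam z p.1 p.2) := by
    filter_upwards [h1, ae_restrict_mem polarCoord.open_target.measurableSet] with p hp hpt
    have hp1 : 0 < p.1 := by
      rw [polarCoord_target] at hpt
      exact hpt.1
    by_contra hcon
    have h4 : gam z p.1 p.2 ∈ {x | DifferentiableAt ℝ g x}ᶜ := hcon
    have h5 : ENNReal.ofReal p.1 * {x | DifferentiableAt ℝ g x}ᶜ.indicator (fun _ => (1 : ENNReal)) (gam z p.1 p.2) = 0 := hp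
    rw [indicator_of_mem h4, mul_one, ENNReal.ofReal_eq_zero] at h5
    linarith
  rw [target_eq] at h3
  exact Measure.ae_ae_of_ae_prod h3

theorem thk0 {ρ : ℂ → ENNReal} {g : ℂ → ℝ} {K : NNReal} (hg : LipschitzWith K g) {z : ℂ} {r R c₀ : ℝ} (hr : 0 < r)
    (hR : r < R) (hc : 0 ≤ c₀) (hρ : ∀ x, r < ‖x - z‖ → ‖x - z‖ < R → ENNReal.ofReal (c₀ / ‖x - z‖) ≤ ρ x)
    (h : ∀ s, r < s → s < R → (∃ x, ‖x - z‖ = s ∧ g x ≤ 0) ∧ ∃ x, ‖x - z‖ = s ∧ 1 ≤ g x) :
    ENNReal.ofReal (c₀ * Real.log (R / r)) ≤ ell ρ g := by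
  have hpi := Real.pi_pos
  set A : Set ℂ := {x | r < ‖x - z‖ ∧ ‖x - z‖ < R} with hA
  have hcn : Continuous fun x : ℂ => ‖x - z‖ := (continuous_id.sub continuous_const).norm
  have hAm : MeasurableSet A :=
    ((isOpen_lt continuous_const hcn).inter (isOpen_lt hcn continuous_const)).measurableSet
  obtain ⟨F, hF⟩ : ∃ F : ℂ → ENNReal, F = A.indicator (fun x => ENNReal.ofReal (c₀ / ‖x - z‖) *
      ENNReal.ofReal ‖fderiv ℝ g x‖) := ⟨_, rfl⟩
  have hFm : Measurable F := by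
    rw [hF]
    exact ((measurable_const.div hcn.measurable).ennreal_ofReal.mul
      (measurable_fderiv ℝ g).norm.ennreal_ofReal).indicator hAm
  have h1 : ∫⁻ x, F x ≤ ell ρ g := by
    unfold ell
    refine lintegral_mono fun x => ?_
    rw [hF]
    by_cases hx : x ∈ A
    · rw [indicator_of_mem hx]
      exact mul_le_mul_left (hρ x hx.1 hx.2) _
    · rw [indicator_of_notMem hx]
      exact zero_le
  refine le_trans ?_ h1
  rw [← polar_shift F z, target_eq]
  have hmeas : Measurable fun p : ℝ × ℝ => ENNReal.ofReal p.1 * F (gam z p.1 p.2) :=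
    measurable_fst.ennreal_ofReal.mul (hFm.comp (gam_meas z))
  rw [lintegral_prod _ hmeas.aemeasurable]
  have hsub : Ioo r R ⊆ Ioi 0 := fun s hs => hr.trans hs.1
  have h2 : ∀ᵐ s ∂((volume : Measure ℝ).restrict (Ioo r R)),
      ENNReal.ofReal (c₀ / s) ≤ ∫⁻ t in Ioo (-Real.pi) Real.pi, ENNReal.ofReal s * F (gam z s t) := by
    have h3 : ∀ᵐ s ∂((volume : Measure ℝ).restrict (Ioo r R)),
        ∀ᵐ t ∂(volume.restrict (Ioo (-Real.pi) Real.pi)), DifferentiableAt ℝ g (gam z s t) :=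
      ae_mono (Measure.restrict_mono hsub le_rfl) (ae_circ hg z)
    filter_upwards [h3, ae_restrict_mem measurableSet_Ioo] with s hs hsm
    have hs0 : 0 < s := hr.trans hsm.1
    have h4 := circ_var hg hs0.le hs (h s hsm.1 hsm.2).1 (h s hsm.1 hsm.2).2
    have h5 : ∀ t, ENNReal.ofReal s * F (gam z s t) =
        ENNReal.ofReal (c₀ / s) * ENNReal.ofReal (s * ‖fderiv ℝ g (gam z s t)‖) := by
      intro t
      have hn : ‖gam z s t - z‖ = s := by
        have e1 : gam z s t - z = (s : ℂ) * (Real.cos t + Real.sin t * Complex.I) := by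
          unfold gam
          ring
        have e2 : ‖((Real.cos t : ℝ) : ℂ) + ((Real.sin t : ℝ) : ℂ) * Complex.I‖ = 1 := by
          rw [Complex.norm_add_mul_I, Real.cos_sq_add_sin_sq, Real.sqrt_one]
        rw [e1, norm_mul, e2, mul_one, Complex.norm_real, Real.norm_of_nonneg hs0.le]
      have hmem : gam z s t ∈ A := by
        change r < ‖gam z s t - z‖ ∧ ‖gam z s t - z‖ < R
        rw [hn]
        exact hsm
      rw [hF, indicator_of_mem hmem, hn, ENNReal.ofReal_mul hs0.le]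
      ring
    calc ENNReal.ofReal (c₀ / s) = ENNReal.ofReal (c₀ / s) * 1 := (mul_one _).symm
      _ ≤ ENNReal.ofReal (c₀ / s) *
          ∫⁻ t in Ioo (-Real.pi) Real.pi, ENNReal.ofReal (s * ‖fderiv ℝ g (gam z s t)‖) :=
          mul_le_mul_right h4 _
      _ = ∫⁻ t in Ioo (-Real.pi) Real.pi,
          ENNReal.ofReal (c₀ / s) * ENNReal.ofReal (s * ‖fderiv ℝ g (gam z s t)‖) :=
          (lintegral_const_mul' _ _ ENNReal.ofReal_ne_top).symm
      _ = _ := lintegral_congr fun t => (h5 t).symm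
  calc ENNReal.ofReal (c₀ * Real.log (R / r)) = ∫⁻ s in Ioo r R, ENNReal.ofReal (c₀ / s) := by
        rw [← ofReal_integral_eq_lintegral_ofReal]
        · congr 1
          rw [← integral_Ioc_eq_integral_Ioo, ← intervalIntegral.integral_of_le hR.le]
          have e1 : ∀ s : ℝ, c₀ / s = c₀ * (1 / s) := fun s => by ring
          simp only [e1]
          rw [intervalIntegral.integral_const_mul, integral_one_div_of_pos hr (hr.trans hR)]
        · have e2 : ContinuousOn (fun s : ℝ => c₀ / s) (Icc r R) :=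
            continuousOn_const.div continuousOn_id fun s hs => (hr.trans_le hs.1).ne'
          exact (e2.integrableOn_Icc (μ := volume)).mono_set Ioo_subset_Icc_self
        · filter_upwards [ae_restrict_mem measurableSet_Ioo] with s hs
          exact div_nonneg hc (hr.trans hs.1).le
    _ ≤ ∫⁻ s in Ioo r R, ∫⁻ t in Ioo (-Real.pi) Real.pi, ENNReal.ofReal s * F (gam z s t) :=
        lintegral_mono_ae h2
    _ ≤ ∫⁻ s in Ioi 0, ∫⁻ t in Ioo (-Real.pi) Real.pi, ENNReal.ofReal s * F (gam z s t) :=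
        lintegral_mono_set hsub

theorem thk {ρ : ℂ → ENNReal} {g : ℂ → ℝ} {K : NNReal} (hg : LipschitzWith K g) {z : ℂ} {r R c₀ a b : ℝ} (hr : 0 < r)
    (hR : r < R) (hc : 0 ≤ c₀) (hab : a < b)
    (hρ : ∀ x, r < ‖x - z‖ → ‖x - z‖ < R → ENNReal.ofReal (c₀ / ‖x - z‖) ≤ ρ x)
    (h : ∀ s, r < s → s < R → (∃ x, ‖x - z‖ = s ∧ g x ≤ a) ∧ ∃ x, ‖x - z‖ = s ∧ b ≤ g x) :
    ENNReal.ofReal ((b - a) * (c₀ * Real.log (R / r))) ≤ ell' ρ g a b := by
  have hba : 0 < b - a := sub_pos.2 hab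
  have hlip : LipschitzWith (K / (b - a).toNNReal) (trc a b g) := by
    have h1 : LipschitzWith (K / (b - a).toNNReal) fun x => (g x - a) / (b - a) := by
      refine LipschitzWith.of_dist_le_mul fun x y => ?_
      have h2 := hg.dist_le_mul x y
      rw [Real.dist_eq] at h2 ⊢
      have h3 : (g x - a) / (b - a) - (g y - a) / (b - a) = (g x - g y) / (b - a) := by ring
      rw [h3, abs_div, abs_of_pos hba, NNReal.coe_div, Real.coe_toNNReal _ hba.le, div_mul_eq_mul_div]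
      exact div_le_div_of_nonneg_right h2 hba.le
    exact (h1.const_min 1).const_max 0
  have h0 := thk0 hlip hr hR hc hρ (fun s h1 h2 => by
    obtain ⟨⟨x, hx, hxa⟩, y, hy, hyb⟩ := h s h1 h2
    refine ⟨⟨x, hx, ?_⟩, y, hy, ?_⟩
    · have h3 : (g x - a) / (b - a) ≤ 0 := div_nonpos_of_nonpos_of_nonneg (by linarith) hba.le
      simp only [trc]
      rw [max_eq_left ((min_le_right _ _).trans h3)]
    · have h3 : 1 ≤ (g y - a) / (b - a) := (one_le_div hba).2 (by linarith)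
      simp only [trc]
      rw [min_eq_left h3]
      exact le_max_right _ _)
  have h1 := h0.trans (ell_trc (ρ := ρ) hg.continuous hab)
  rw [ENNReal.ofReal_mul hba.le]
  calc ENNReal.ofReal (b - a) * ENNReal.ofReal (c₀ * Real.log (R / r))
      ≤ ENNReal.ofReal (b - a) * (ENNReal.ofReal (b - a)⁻¹ * ell' ρ g a b) := mul_le_mul_right h1 _
    _ = ell' ρ g a b := by
        rw [← mul_assoc, ← ENNReal.ofReal_mul hba.le, mul_inv_cancel₀ hba.ne', ENNReal.ofReal_one, one_mul]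

end Pool.Agent.H81.RW
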