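import Pool.Agent.H64.XG.Nvg
import Pool.Agent.H56.UD.DA
import Pool.Agent.H56.TH.MR

/-!
# Module Bck (LW): FROM `f^[n₀] z` BACK TO `z`

`Fk`: the frame part of `Nk` for one point. If `f^[n₀] z` has frames of smallness `κ'` at a window then `z` has frames of smallness `κ` (time `n₀ + m`), `n₀` fixed, the orbit of `z` avoids the critical points.
PROOF. `z' = f^[n₀] z`. `deriv (f^[n₀]) z ≠ 0` (`mr_der`, H56/TH/MR: `deriv f ≠ 0` off `Cr`; `z ∈ J`, the orbit avoids `Cr`), `f^[n₀]` is holomorphic near `z`: local inverse `l` on `ball z' ρ₀`, `l z' = z`, `f^[n₀] (l y) = y`, the orbit of `l y` up to time `n₀` in `U` (small `ρ₀`), `l` injective.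
`κ'` with `(C' + 4 KK) κ' < ρ₀ / 4` etc. The frame `g` on `ball p (s / C')`, univalent (`f^[m] ∘ g = id`): on `ball p (s / (2 C'))` `‖g u - g p‖ ≤ KK (s / C') ‖g' p‖ ≤ KK κ'` (`distort_lip`), `‖g p - z'‖ ≤ C' κ'`: so `g` maps `ball p (s / (2 C'))` into `ball z' (ρ₀ / 2)`. `g₁ = l ∘ g`: `f^[m + n₀] (g₁ u) = f^[m] (f^[n₀] (l (g u))) = u` (`Function.iterate_add_apply`), orbit in `U`:
`dm f U J δ (m + n₀)`. Distortion of `l` on `ball z' (ρ₀ / 2)` (`distort`, constant `KK`): `‖g₁ p - z‖ = ‖l (g p) - l z'‖ ≤ KK ‖l' (g p)‖ ‖g p - z'‖ ≤ KK C' s ‖l' (g p)‖ ‖g' p‖ = KK C' s ‖g₁' p‖`; `s ‖g₁' p‖ = s ‖l' (g p)‖ ‖g' p‖ ≤ (sup ‖l'‖) κ' < κ`. `C = max (2 C') (KK C')`, which depends only on `C'`.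
-/

set_option autoImplicit false

open Filter Topology Metric Set MeasureTheory

namespace Pool.Agent.H81.RW

open Pool.Agent.H56.UD Pool.Agent.H80.AJ

/-- a frame of `z` at the point `p` at scale `s` -/
def Fk (f : ℂ → ℂ) (U J P : Set ℂ) (δ C : ℝ) (z c p : ℂ) (s κ : ℝ) : Prop :=
  ∃ (m : ℕ) (g : ℂ → ℂ), ‖f^[m] z - c‖ ≤ C * s ∧ Disjoint (ball p (s / C)) P ∧ DifferentiableOn ℂ g (ball p (s / C)) ∧
    (∀ u ∈ ball p (s / C), g u ∈ dm f U J δ m ∧ f^[m] (g u) = u) ∧ ‖g p - z‖ ≤ C * (s * ‖deriv g p‖) ∧ s * ‖deriv g p‖ < κ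


private theorem bck_der {f : ℂ → ℂ} {U J P Cr : Set ℂ} {δ : ℝ} {η : ℂ → ℂ → ℂ} {r₀ : ℝ} (h : PS f U J P Cr δ η r₀) (n : ℕ) :
    ∀ z ∈ J, (∀ i : ℕ, f^[i] z ∉ Cr) → deriv (f^[n]) z ≠ 0 := by
  induction n with
  | zero =>
    intro z _ _
    simp [Function.iterate_zero, deriv_id]
  | succ n ih =>
    intro z hz hc
    obtain ⟨d, hd0, -, hd⟩ := h.loc
    have hzU : z ∈ U := h.JU hz
    have hfz : DifferentiableAt ℂ f z := (h.fd z hzU).differentiableAt (h.Uo.mem_nhds hzU)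
    have h1 : deriv f z ≠ 0 :=
      Pool.Agent.H56.TH.mr_der hd0 hfz (hd (f z) (h.Jf z hz) z hzU (mem_ball_self hd0)) h.nf (hc 0)
    have h2 : deriv (f^[n]) (f z) ≠ 0 := by
      refine ih (f z) (h.Jf z hz) fun i => ?_
      have := hc (i + 1)
      rwa [Function.iterate_succ_apply] at this
    have hfn : DifferentiableAt ℂ (f^[n]) (f z) :=
      (dm_diff h n _ (J_dm h n (h.Jf z hz))).differentiableAt ((dm_open h n).mem_nhds (J_dm h n (h.Jf z hz)))
    rw [Function.iterate_succ, deriv_comp z hfn hfz]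
    exact mul_ne_zero h2 h1

theorem bck {f : ℂ → ℂ} {U J P Cr : Set ℂ} {δ : ℝ} {η : ℂ → ℂ → ℂ} {r₀ : ℝ} (h : PS f U J P Cr δ η r₀) {C' : ℝ} (hC : 1 ≤ C') :
    ∃ C : ℝ, C' ≤ C ∧ ∀ z ∈ J, (∀ n : ℕ, f^[n] z ∉ Cr) → ∀ (n₀ : ℕ) (κ : ℝ), 0 < κ → ∃ κ' : ℝ, 0 < κ' ∧ ∀ (c p : ℂ) (s : ℝ), 0 < s →
      Fk f U J P δ C' (f^[n₀] z) c p s κ' → Fk f U J P δ C z c p s κ := by
  have hK := one_le_KK
  have hC0 : 0 < C' := by linarith
  have hK0 : 0 < KK := by linarith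
  refine ⟨2 * KK * C', by nlinarith, fun z hz hcr n₀ κ hκ => ?_⟩
  have hzd : z ∈ dm f U J δ n₀ := J_dm h n₀ hz
  obtain ⟨r0, hr0, hr⟩ := Pool.Agent.H56.TH.mr_unif (L := {z}) (dm_open h n₀) (dm_diff h n₀) isCompact_singleton
    (by simpa using hzd) (by
      intro w hw
      rw [mem_singleton_iff] at hw
      rw [hw]
      exact bck_der h n₀ z hz hcr) one_pos
  obtain ⟨ρ, hρ, -, hρ2⟩ := hr r0 hr0 le_rfl
  obtain ⟨hb, -, -, -, l, hl, hlz, hlf⟩ := hρ2 z (mem_singleton z)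
  have hli : InjOn l (ball (f^[n₀] z) ρ) := by
    intro a ha b hb' hab
    rw [← (hlf a ha).2, ← (hlf b hb').2, hab]
  set z' := f^[n₀] z with hz'
  set M : ℝ := KK * ‖deriv l z'‖ + 1 with hM
  have hM0 : 0 < M := by positivity
  set κ' : ℝ := min (ρ / (2 * (C' + KK))) (κ / M) with hκ'
  have hκ'0 : 0 < κ' := lt_min (by positivity) (by positivity)
  refine ⟨κ', hκ'0, fun c p s hs hF => ?_⟩
  obtain ⟨m, g, h1, h2, h3, h4, h5, h6⟩ := hF
  have hk1 : (C' + KK) * κ' ≤ ρ / 2 := by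
    have : κ' ≤ ρ / (2 * (C' + KK)) := min_le_left _ _
    rw [le_div_iff₀ (by positivity)] at this
    linarith
  have hk2 : M * κ' ≤ κ := by
    have : κ' ≤ κ / M := min_le_right _ _
    rw [le_div_iff₀ hM0] at this
    linarith
  have hsC : 0 < s / C' := by positivity
  have hgi : InjOn g (ball p (s / C')) := by
    intro a ha b hb' hab
    rw [← (h4 a ha).2, ← (h4 b hb').2, hab]
  have hsub : ball p (s / (2 * KK * C')) ⊆ closedBall p (s / C' / 2) := by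
    intro u hu
    rw [mem_ball] at hu
    rw [mem_closedBall]
    refine hu.le.trans ?_
    rw [div_div]
    apply div_le_div_of_nonneg_left hs.le (by positivity)
    nlinarith
  have hsub2 : closedBall p (s / C' / 2) ⊆ ball p (s / C') := closedBall_subset_ball (by linarith)
  have hpc : p ∈ closedBall p (s / C' / 2) := mem_closedBall_self (by positivity)
  have hpb : p ∈ ball p (s / C') := hsub2 hpc
  have hgp : ‖g p - z'‖ < C' * κ' := by
    refine h5.trans_lt ?_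
    exact mul_lt_mul_of_pos_left h6 hC0
  have hgu : ∀ u ∈ closedBall p (s / C' / 2), g u ∈ closedBall z' (ρ / 2) := by
    intro u hu
    rw [mem_closedBall_iff_norm]
    have h7 : ‖g u - g p‖ ≤ KK * ‖deriv g p‖ * ‖u - p‖ := distort_lip hsC h3 hgi hu hpc hpc
    have h8 : ‖u - p‖ ≤ s := by
      rw [mem_closedBall_iff_norm] at hu
      refine hu.trans ?_
      rw [div_div, div_le_iff₀ (by positivity)]
      nlinarith
    have h9 : ‖g u - g p‖ ≤ KK * κ' := by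
      calc ‖g u - g p‖ ≤ KK * ‖deriv g p‖ * ‖u - p‖ := h7
        _ ≤ KK * ‖deriv g p‖ * s := by gcongr
        _ = KK * (s * ‖deriv g p‖) := by ring
        _ ≤ KK * κ' := by gcongr
    calc ‖g u - z'‖ = ‖(g u - g p) + (g p - z')‖ := by ring_nf
      _ ≤ ‖g u - g p‖ + ‖g p - z'‖ := norm_add_le _ _
      _ ≤ KK * κ' + C' * κ' := by linarith
      _ = (C' + KK) * κ' := by ring
      _ ≤ ρ / 2 := hk1
  have hcb : closedBall z' (ρ / 2) ⊆ ball z' ρ := closedBall_subset_ball (by linarith)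
  have hgd : DifferentiableAt ℂ g p := (h3 p hpb).differentiableAt (isOpen_ball.mem_nhds hpb)
  have hld : DifferentiableAt ℂ l (g p) :=
    (hl _ (hcb (hgu p hpc))).differentiableAt (isOpen_ball.mem_nhds (hcb (hgu p hpc)))
  have hder : deriv (l ∘ g) p = deriv l (g p) * deriv g p := deriv_comp p hld hgd
  have hzc : z' ∈ closedBall z' (ρ / 2) := mem_closedBall_self (by positivity)
  refine ⟨m + n₀, l ∘ g, ?_, ?_, ?_, ?_, ?_, ?_⟩
  · rw [Function.iterate_add_apply]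
    refine h1.trans ?_
    apply mul_le_mul_of_nonneg_right _ hs.le
    nlinarith
  · exact h2.mono_left (hsub.trans hsub2)
  · exact (hl.comp (h3.mono (hsub.trans hsub2)) fun u hu => hcb (hgu u (hsub hu)))
  · intro u hu
    have hlu := hlf _ (hcb (hgu u (hsub hu)))
    have hdm : l (g u) ∈ dm f U J δ n₀ := hb hlu.1
    refine ⟨?_, ?_⟩
    · rw [add_comm]
      refine dm_add' hdm.1 ?_
      show f^[n₀] (l (g u)) ∈ _
      rw [hlu.2]
      exact (h4 u (hsub2 (hsub hu))).1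
    · rw [Function.iterate_add_apply]
      show f^[m] (f^[n₀] (l (g u))) = u
      rw [hlu.2]
      exact (h4 u (hsub2 (hsub hu))).2
  · show ‖l (g p) - z‖ ≤ _
    rw [hder, norm_mul]
    have h7 : ‖l (g p) - l z'‖ ≤ KK * ‖deriv l (g p)‖ * ‖g p - z'‖ :=
      distort_lip hρ hl hli (hgu p hpc) hzc (hgu p hpc)
    rw [hlz] at h7
    calc ‖l (g p) - z‖ ≤ KK * ‖deriv l (g p)‖ * ‖g p - z'‖ := h7
      _ ≤ KK * ‖deriv l (g p)‖ * (C' * (s * ‖deriv g p‖)) := by gcongr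
      _ = KK * C' * (s * (‖deriv l (g p)‖ * ‖deriv g p‖)) := by ring
      _ ≤ 2 * KK * C' * (s * (‖deriv l (g p)‖ * ‖deriv g p‖)) := by
        apply mul_le_mul_of_nonneg_right _ (by positivity)
        nlinarith [mul_pos hK0 hC0]
  · rw [hder, norm_mul]
    have h7 : ‖deriv l (g p)‖ ≤ KK * ‖deriv l z'‖ := distort hρ hl hli (hgu p hpc) hzc
    calc s * (‖deriv l (g p)‖ * ‖deriv g p‖) = ‖deriv l (g p)‖ * (s * ‖deriv g p‖) := by ring
      _ ≤ (KK * ‖deriv l z'‖) * (s * ‖deriv g p‖) := by gcongr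
      _ ≤ M * (s * ‖deriv g p‖) := by
        apply mul_le_mul_of_nonneg_right _ (by positivity)
        rw [hM]
        linarith
      _ < M * κ' := mul_lt_mul_of_pos_left h6 hM0
      _ ≤ κ := hk2

end Pool.Agent.H81.RW
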