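import Pool.Agent.H81.RW.Win
import Pool.Agent.H81.RW.Wkc

/-!
# Module Cvt (LW): FRAMES FROM THE PLANE OF THE CRITICAL VALUE TO THE PLANE OF THE CRITICAL POINT

`f (η t) = v + t ^ 2`, `f (φ x) = ψ (x ^ 2)`, `φ x ∈ η '' ball 0 r₀`; a frame of time `m` at `ψ x₀`, `‖x₀‖ = θ₁ ^ 2`, gives a frame `g ∘ f` of time `m - 1` at `φ y`, `y ^ 2 = x₀`.
PROOF. Let `ζ = f^[m - 1] (g (ψ x₀)) ∈ η '' ball 0 r₀` (`Fr.sh`), `f ζ = ψ x₀`. Choose `y₁` with `y₁ ^ 2 = x₀` (`‖y₁‖ = θ₁`); `φ y₁ = η t₁`, `φ (-y₁) = η t₂`, `t₁ ^ 2 = t₂ ^ 2 = ψ x₀ - v`, `t₁ ≠ t₂` (injectivity of `φ`), so `t₂ = - t₁`; `ζ = η t₀`, `t₀ ^ 2 = ψ x₀ - v`: `t₀ = t₁` or `t₂`: `y = y₁` or `- y₁`: `φ y = ζ`. `p = φ y = η t`, `t ≠ 0`.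
SIZES. `‖t‖ ^ 2 = ‖ψ x₀ - ψ 0‖`: `≤ C s ^ 2`, and `≥ c s ^ 2` (Koebe for the univalent `ψ`: `‖ψ x₀ - ψ 0‖ ≥ ‖ψ' 0‖ ‖x₀‖ / 4` or via `distort_lip` for the inverse; `‖ψ' 0‖ ≥ s ^ 2 / C`). On `closedBall 0 (r₀ / 2)` `η` has distortion constants: `‖η' ‖` between two constants; for `s < r₁`: `‖t‖ ≤ √C s ≤ r₀ / 4`. `deriv f p = 2 t / η' t`: between `c s` and `K s`.
`g₂ = g ∘ f` on `ball p (s / C'')`: contained in `η '' ball t (c' s)`, with `c' s ≤ ‖t‖ / 2`; `f (η t') - ψ x₀ = t' ^ 2 - t ^ 2`, so `f` maps the disc into `ball (ψ x₀) (R₀ s ^ 2)`. `k = f^[m - 1] ∘ g ∘ f` maps the disc into `η '' ball 0 r₀` (`Fr.sh`), `f (k u) = f u` (`f^[m] = f ∘ f^[m - 1]`, `1 ≤ m`): with `u = η t'`, `k u = η t''`, `t'' ^ 2 = t' ^ 2`, `t'' = ± t'`; both signs are closed conditions, at `u = p` the sign is `+`, `t' ≠ 0`, the disc is connected: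
`k u = u`. `deriv g₂ p = deriv g (ψ x₀) * deriv f p`. So `‖g₂ p - z‖ = ‖g (ψ x₀) - z‖ ≤ C₁ R₀ s ^ 2 ‖g'‖ ≤ C'' s ‖g₂'‖` and `s ‖g₂'‖ ≤ C'' R₀ s ^ 2 ‖g'‖`.
-/

set_option autoImplicit false

open Filter Topology Metric Set

namespace Pool.Agent.H81.RW

open Pool.Agent.H80.AJ

/-- the derivative of `f` at a point of the chart -/
private theorem ch_der {f η : ℂ → ℂ} {N P T : Set ℂ} {v : ℂ} {r₀ : ℝ} (h : WK f N P T v η r₀) {t : ℂ} (ht : t ∈ ball (0 : ℂ) r₀) :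
    deriv f (η t) * deriv η t = 2 * t := by
  have h1 : DifferentiableAt ℂ f (η t) := h.fd.differentiableAt (h.No.mem_nhds (h.ηv t ht).1)
  have h2 : DifferentiableAt ℂ η t := h.ηd.differentiableAt (isOpen_ball.mem_nhds ht)
  have h3 : HasDerivAt (fun x => f (η x)) (deriv f (η t) * deriv η t) t := HasDerivAt.comp t h1.hasDerivAt h2.hasDerivAt
  have h4 : HasDerivAt (fun x : ℂ => v + x ^ 2) (2 * t) t := by
    have h5 := (hasDerivAt_pow 2 t).const_add v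
    have e : ((2 : ℕ) : ℂ) * t ^ (2 - 1) = 2 * t := by norm_num
    rw [e] at h5
    exact h5
  refine h3.unique (h4.congr_of_eventuallyEq ?_)
  filter_upwards [isOpen_ball.mem_nhds ht] with x hx
  exact (h.ηv x hx).2

/-- the choice of the root -/
private theorem ch_root {f η φ ψ : ℂ → ℂ} {N P T : Set ℂ} {v : ℂ} {r₀ θ₁ : ℝ} (h : WK f N P T v η r₀) (hθ : 0 < θ₁) (hθ1 : θ₁ < 1)
    (hφi : InjOn φ (ball 0 1)) (hφ : ∀ x ∈ ball (0 : ℂ) 1, φ x ∈ η '' ball 0 r₀ ∧ f (φ x) = ψ (x ^ 2)) {x₀ ζ : ℂ}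
    (hx₀ : ‖x₀‖ = θ₁ ^ 2) (hζ : ζ ∈ η '' ball 0 r₀) (hζ' : f ζ = ψ x₀) : ∃ y : ℂ, ‖y‖ = θ₁ ∧ y ^ 2 = x₀ ∧ φ y = ζ := by
  obtain ⟨y₁, hy₁⟩ : ∃ y₁ : ℂ, y₁ ^ 2 = x₀ := IsAlgClosed.exists_pow_nat_eq x₀ two_pos
  have hn : ‖y₁‖ = θ₁ := by
    have h1 : ‖y₁‖ ^ 2 = θ₁ ^ 2 := by rw [← norm_pow, hy₁, hx₀]
    exact (pow_left_inj₀ (norm_nonneg _) hθ.le two_ne_zero).1 h1
  have hy1 : y₁ ∈ ball (0 : ℂ) 1 := by rw [mem_ball_zero_iff, hn]; exact hθ1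
  have hy2 : -y₁ ∈ ball (0 : ℂ) 1 := by rw [mem_ball_zero_iff, norm_neg, hn]; exact hθ1
  have hy0 : y₁ ≠ 0 := by
    intro h0
    rw [h0, norm_zero] at hn
    exact hθ.ne hn
  obtain ⟨⟨t₁, ht₁, e₁⟩, f₁⟩ := hφ y₁ hy1
  obtain ⟨⟨t₂, ht₂, e₂⟩, f₂⟩ := hφ (-y₁) hy2
  obtain ⟨t₀, ht₀, e₀⟩ := hζ
  rw [neg_sq, hy₁] at f₂
  rw [hy₁] at f₁
  have g₁ : v + t₁ ^ 2 = ψ x₀ := by rw [← (h.ηv t₁ ht₁).2, e₁, f₁]
  have g₂ : v + t₂ ^ 2 = ψ x₀ := by rw [← (h.ηv t₂ ht₂).2, e₂, f₂]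
  have g₀ : v + t₀ ^ 2 = ψ x₀ := by rw [← (h.ηv t₀ ht₀).2, e₀, hζ']
  have h12 : t₂ = -t₁ := by
    have h1 : t₂ ^ 2 = t₁ ^ 2 := by linear_combination g₂ - g₁
    rcases sq_eq_sq_iff_eq_or_eq_neg.1 h1 with h2 | h2
    · exfalso
      have h3 : φ (-y₁) = φ y₁ := by rw [← e₂, ← e₁, h2]
      have h4 := hφi hy2 hy1 h3
      have h5 : y₁ = 0 := by linear_combination -(1 / 2 : ℂ) * h4
      exact hy0 h5
    · exact h2
  have h01 : t₀ ^ 2 = t₁ ^ 2 := by linear_combination g₀ - g₁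
  rcases sq_eq_sq_iff_eq_or_eq_neg.1 h01 with h2 | h2
  · exact ⟨y₁, hn, hy₁, by rw [← e₁, ← e₀, h2]⟩
  · exact ⟨-y₁, by rw [norm_neg, hn], by rw [neg_sq, hy₁], by rw [← e₂, ← e₀, h12, h2]⟩

theorem cvt {f η : ℂ → ℂ} {N P T : Set ℂ} {v : ℂ} {r₀ : ℝ} (h : WK f N P T v η r₀) {C C₁ R₀ θ₁ : ℝ} (hC : 1 ≤ C) (hC₁ : 1 ≤ C₁)
    (hR₀ : 0 < R₀) (hθ : 0 < θ₁) (hθ1 : θ₁ < 1) : ∃ C'' r₁ : ℝ, 1 ≤ C'' ∧ 0 < r₁ ∧ ∀ (φ ψ : ℂ → ℂ) (s : ℝ), 0 < s → s < r₁ →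
    DifferentiableOn ℂ ψ (ball 0 1) → InjOn ψ (ball 0 1) → ψ 0 = v → (∀ x ∈ ball (0 : ℂ) 1, ‖ψ x - v‖ < C * s ^ 2) →
    s ^ 2 ≤ C * ‖deriv ψ 0‖ → DifferentiableOn ℂ φ (ball 0 1) → InjOn φ (ball 0 1) →
    (∀ x ∈ ball (0 : ℂ) 1, φ x ∈ η '' ball 0 r₀ ∧ f (φ x) = ψ (x ^ 2)) →
    ∀ (z : ℂ) (m : ℕ) (x₀ : ℂ) (g : ℂ → ℂ), 1 ≤ m → ‖x₀‖ = θ₁ ^ 2 → Fr f N η r₀ z m (ψ x₀) (R₀ * s ^ 2) C₁ g →
    ∃ (y : ℂ) (g₂ : ℂ → ℂ), ‖y‖ = θ₁ ∧ DifferentiableOn ℂ g₂ (ball (φ y) (s / C'')) ∧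
      (∀ u ∈ ball (φ y) (s / C''), (∀ j < m - 1, f^[j] (g₂ u) ∈ N) ∧ f^[m - 1] (g₂ u) = u) ∧
      ‖g₂ (φ y) - z‖ ≤ C'' * (s * ‖deriv g₂ (φ y)‖) ∧ s * ‖deriv g₂ (φ y)‖ ≤ C'' * (R₀ * s ^ 2 * ‖deriv g (ψ x₀)‖) := by
  obtain ⟨K, N₀, hK, hk⟩ := Pool.Agent.H44.DN.koe
  have hr₀ := h.hr
  have hC0 : 0 < C := by linarith
  have hK0 : 0 < K := by linarith
  have hKK := KK_pos
  have h0b : (0 : ℂ) ∈ closedBall (0 : ℂ) (r₀ / 2) := mem_closedBall_self (by positivity)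
  obtain ⟨e, he⟩ : ∃ e : ℝ, e = ‖deriv η 0‖ := ⟨_, rfl⟩
  have he0 : 0 < e := he ▸ deriv_ne hr₀ h.ηd h.ηi h0b
  -- the constants
  obtain ⟨c₁, hc₁⟩ : ∃ c₁ : ℝ, c₁ = θ₁ / (C * K) := ⟨_, rfl⟩
  have hCK : 1 ≤ C * K := by nlinarith
  have hCK0 : 0 < C * K := by linarith
  have hc₁0 : 0 < c₁ := by rw [hc₁]; positivity
  have hc₁1 : c₁ ≤ 1 := by
    rw [hc₁, div_le_one hCK0]
    linarith
  obtain ⟨c₄, hc₄⟩ : ∃ c₄ : ℝ, c₄ = min (c₁ / 2) (R₀ / (2 * (2 * C + 1))) := ⟨_, rfl⟩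
  have hc₄0 : 0 < c₄ := by
    rw [hc₄]
    exact lt_min (by positivity) (by positivity)
  have hc₄1 : c₄ ≤ c₁ / 2 := hc₄ ▸ min_le_left _ _
  have hc₄2 : c₄ ≤ R₀ / (2 * (2 * C + 1)) := hc₄ ▸ min_le_right _ _
  obtain ⟨k1, hk1⟩ : ∃ k1 : ℝ, k1 = 16 * KK / (c₄ * e) := ⟨_, rfl⟩
  obtain ⟨k2, hk2⟩ : ∃ k2 : ℝ, k2 = C₁ * R₀ * KK * e / (2 * c₁) := ⟨_, rfl⟩
  obtain ⟨k3, hk3⟩ : ∃ k3 : ℝ, k3 = 2 * C * KK / (e * R₀) := ⟨_, rfl⟩
  have hk10 : 0 < k1 := by rw [hk1]; positivity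
  have hk20 : 0 < k2 := by rw [hk2]; positivity
  have hk30 : 0 < k3 := by rw [hk3]; positivity
  obtain ⟨C'', hC''⟩ : ∃ C'' : ℝ, C'' = 1 + k1 + k2 + k3 := ⟨_, rfl⟩
  have hC''0 : 0 < C'' := by rw [hC'']; linarith
  refine ⟨C'', r₀ / (4 * C), by rw [hC'']; linarith, by positivity, ?_⟩
  intro φ ψ s hs hs1 hψ hψi hψ0 hψb hψd hφd hφi hφ z m x₀ g hm hx₀ hg
  have hs1' : 4 * C * s < r₀ := by
    rw [lt_div_iff₀ (by positivity)] at hs1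
    linarith
  have hx₀b : x₀ ∈ ball (0 : ℂ) 1 := by
    rw [mem_ball_zero_iff, hx₀]
    exact pow_lt_one₀ hθ.le hθ1 two_ne_zero
  have hR : 0 < R₀ * s ^ 2 := by positivity
  have hψm : ψ x₀ ∈ ball (ψ x₀) (R₀ * s ^ 2) := mem_ball_self hR
  -- the point
  have hfz : f (f^[m - 1] (g (ψ x₀))) = ψ x₀ := by
    rw [← Function.iterate_succ_apply' f (m - 1)]
    have e1 : (m - 1).succ = m := by omega
    rw [e1]
    exact (hg.gf _ hψm).2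
  obtain ⟨y, hy, hy2, hφy⟩ := ch_root h hθ hθ1 hφi hφ hx₀ (hg.sh _ hψm) hfz
  obtain ⟨t, ht, htp⟩ := hg.sh _ hψm
  rw [← htp] at hφy
  have ht2 : t ^ 2 = ψ x₀ - v := by
    have h1 := (h.ηv t ht).2
    rw [htp, hfz] at h1
    linear_combination -h1
  have htn : ‖t‖ ^ 2 = ‖ψ x₀ - v‖ := by rw [← norm_pow, ht2]
  -- the size of t
  have htu : ‖t‖ < C * s := by
    have h1 : ‖t‖ ^ 2 < C * s ^ 2 := by rw [htn]; exact hψb x₀ hx₀b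
    have h2 : C * s ^ 2 ≤ (C * s) ^ 2 := by
      rw [mul_pow]
      exact mul_le_mul_of_nonneg_right (by nlinarith) (by positivity)
    exact lt_of_pow_lt_pow_left₀ 2 (by positivity) (lt_of_lt_of_le h1 h2)
  have htl : c₁ * s ≤ ‖t‖ := by
    have h1 : ‖deriv ψ 0‖ * ‖x₀‖ ≤ K * ‖ψ x₀ - v‖ := by
      obtain ⟨-, -, -, h2⟩ := hk ψ 0 1 one_pos hψ hψi (θ₁ ^ 2) (by positivity) (pow_lt_one₀ hθ.le hθ1 two_ne_zero) x₀
        (by rw [mem_closedBall_zero_iff, hx₀])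
      rwa [sub_zero, hψ0] at h2
    rw [hx₀, ← htn] at h1
    have h2 : s ^ 2 * θ₁ ^ 2 ≤ C * K * ‖t‖ ^ 2 := by
      calc s ^ 2 * θ₁ ^ 2 ≤ C * ‖deriv ψ 0‖ * θ₁ ^ 2 := mul_le_mul_of_nonneg_right hψd (by positivity)
        _ = C * (‖deriv ψ 0‖ * θ₁ ^ 2) := by ring
        _ ≤ C * (K * ‖t‖ ^ 2) := mul_le_mul_of_nonneg_left h1 hC0.le
        _ = C * K * ‖t‖ ^ 2 := by ring
    refine (pow_le_pow_iff_left₀ (by positivity) (norm_nonneg _) two_ne_zero).1 ?_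
    rw [hc₁, mul_pow, div_pow, div_mul_eq_mul_div, div_le_iff₀ (by positivity)]
    calc θ₁ ^ 2 * s ^ 2 = s ^ 2 * θ₁ ^ 2 := by ring
      _ ≤ C * K * ‖t‖ ^ 2 := h2
      _ ≤ (C * K) ^ 2 * ‖t‖ ^ 2 := mul_le_mul_of_nonneg_right (by nlinarith) (by positivity)
      _ = ‖t‖ ^ 2 * (C * K) ^ 2 := by ring
  have ht0 : 0 < ‖t‖ := lt_of_lt_of_le (by positivity) htl
  have hc₄s : c₄ * s ≤ ‖t‖ / 2 := by
    have : c₄ * s ≤ c₁ / 2 * s := mul_le_mul_of_nonneg_right hc₄1 hs.le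
    linarith
  have hCs : C * s < r₀ / 4 := by linarith
  have hsub : ball t (c₄ * s) ⊆ closedBall (0 : ℂ) (r₀ / 2) := by
    intro t' ht'
    rw [mem_ball, dist_eq_norm] at ht'
    rw [mem_closedBall_zero_iff]
    have h1 : ‖t'‖ ≤ ‖t' - t‖ + ‖t‖ := by
      have := norm_add_le (t' - t) t
      rwa [sub_add_cancel] at this
    linarith
  have hsub' : ball t (c₄ * s) ⊆ ball (0 : ℂ) r₀ := hsub.trans (closedBall_subset_ball (by linarith))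
  have htb : t ∈ closedBall (0 : ℂ) (r₀ / 2) := by
    rw [mem_closedBall_zero_iff]
    linarith
  -- distortion of the chart
  have hη1 : e ≤ KK * ‖deriv η t‖ := he ▸ distort hr₀ h.ηd h.ηi h0b htb
  have hη2 : ‖deriv η t‖ ≤ KK * e := he ▸ distort hr₀ h.ηd h.ηi htb h0b
  have hη0 : 0 < ‖deriv η t‖ := deriv_ne hr₀ h.ηd h.ηi htb
  have hfd : ‖deriv f (η t)‖ * ‖deriv η t‖ = 2 * ‖t‖ := by
    rw [← norm_mul, ch_der h ht, norm_mul, Complex.norm_ofNat]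
  have hfu : ‖deriv f (η t)‖ * e ≤ 2 * C * KK * s := by
    calc ‖deriv f (η t)‖ * e ≤ ‖deriv f (η t)‖ * (KK * ‖deriv η t‖) := mul_le_mul_of_nonneg_left hη1 (norm_nonneg _)
      _ = KK * (‖deriv f (η t)‖ * ‖deriv η t‖) := by ring
      _ = KK * (2 * ‖t‖) := by rw [hfd]
      _ ≤ KK * (2 * (C * s)) := mul_le_mul_of_nonneg_left (by linarith) hKK.le
      _ = 2 * C * KK * s := by ring
  have hfl : 2 * c₁ * s ≤ ‖deriv f (η t)‖ * (KK * e) := by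
    calc 2 * c₁ * s ≤ 2 * ‖t‖ := by linarith
      _ = ‖deriv f (η t)‖ * ‖deriv η t‖ := hfd.symm
      _ ≤ ‖deriv f (η t)‖ * (KK * e) := mul_le_mul_of_nonneg_left hη2 (norm_nonneg _)
  -- the disc
  have hdisc : ball (η t) (s / C'') ⊆ η '' ball t (c₄ * s) := by
    refine Subset.trans (ball_subset_ball ?_) (univ_cover (by positivity) (h.ηd.mono hsub') (h.ηi.mono hsub'))
    rw [div_le_div_iff₀ hC''0 (by norm_num)]
    have h1 : k1 ≤ C'' := by rw [hC'']; linarith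
    have h2 : k1 * (c₄ * e) = 16 * KK := by
      rw [hk1]
      field_simp
    have h3 : 16 * KK ≤ C'' * (c₄ * e) := by
      rw [← h2]
      exact mul_le_mul_of_nonneg_right h1 (by positivity)
    have h4 : 16 ≤ C'' * (c₄ * ‖deriv η t‖) := by
      have h5 : 16 * KK ≤ C'' * (c₄ * ‖deriv η t‖) * KK := by
        calc 16 * KK ≤ C'' * (c₄ * e) := h3
          _ ≤ C'' * (c₄ * (KK * ‖deriv η t‖)) := by gcongr
          _ = C'' * (c₄ * ‖deriv η t‖) * KK := by ring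
      exact le_of_mul_le_mul_right h5 hKK
    calc s * 16 ≤ s * (C'' * (c₄ * ‖deriv η t‖)) := mul_le_mul_of_nonneg_left h4 hs.le
      _ = c₄ * s * ‖deriv η t‖ * C'' := by ring
  have hch : ∀ u ∈ ball (η t) (s / C''), u ∈ N ∧ f u ∈ ball (ψ x₀) (R₀ * s ^ 2) ∧ deriv f u ≠ 0 := by
    intro u hu
    obtain ⟨t', ht', rfl⟩ := hdisc hu
    have ht'b := hsub' ht'
    have ht's := ht'
    rw [mem_ball, dist_eq_norm] at ht's
    refine ⟨(h.ηv t' ht'b).1, ?_, ?_⟩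
    · rw [(h.ηv t' ht'b).2, mem_ball, dist_eq_norm]
      have h1 : v + t' ^ 2 - ψ x₀ = (t' - t) * (t' + t) := by linear_combination ht2
      rw [h1, norm_mul]
      have h2 : ‖t' + t‖ ≤ c₄ * s + 2 * (C * s) := by
        have h3 : ‖t' + t‖ ≤ ‖t' - t‖ + ‖2 * t‖ := by
          have := norm_add_le (t' - t) (2 * t)
          have e1 : t' - t + 2 * t = t' + t := by ring
          rwa [e1] at this
        have h4 : ‖2 * t‖ = 2 * ‖t‖ := by rw [norm_mul, Complex.norm_ofNat]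
        rw [h4] at h3
        linarith
      have h3 : c₄ * s + 2 * (C * s) ≤ (2 * C + 1) * s := by
        nlinarith
      have h4 : c₄ * (2 * C + 1) ≤ R₀ / 2 := by
        calc c₄ * (2 * C + 1) ≤ R₀ / (2 * (2 * C + 1)) * (2 * C + 1) := mul_le_mul_of_nonneg_right hc₄2 (by positivity)
          _ = R₀ / 2 := by field_simp
      calc ‖t' - t‖ * ‖t' + t‖ ≤ c₄ * s * ((2 * C + 1) * s) :=
            mul_le_mul ht's.le (h2.trans h3) (norm_nonneg _) (by positivity)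
        _ = c₄ * (2 * C + 1) * s ^ 2 := by ring
        _ ≤ R₀ / 2 * s ^ 2 := mul_le_mul_of_nonneg_right h4 (by positivity)
        _ < R₀ * s ^ 2 := by nlinarith [sq_pos_of_pos hs]
    · intro h0
      have h1 := ch_der h ht'b
      rw [h0, zero_mul] at h1
      have h2 : t' = 0 := by linear_combination -(1 / 2 : ℂ) * h1
      rw [h2, zero_sub, norm_neg] at ht's
      linarith
  have hft : f (η t) = ψ x₀ := by rw [htp, hfz]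
  have hpm : η t ∈ ball (η t) (s / C'') := mem_ball_self (by positivity)
  have hfdd : DifferentiableOn ℂ f (ball (η t) (s / C'')) := h.fd.mono fun u hu => (hch u hu).1
  have hfm : MapsTo f (ball (η t) (s / C'')) (ball (ψ x₀) (R₀ * s ^ 2)) := fun u hu => (hch u hu).2.1
  have hkd : DifferentiableOn ℂ (fun u => f^[m - 1] (g (f u))) (ball (η t) (s / C'')) := by
    intro u hu
    have h1 : DifferentiableAt ℂ (f^[m - 1]) (g (f u)) := wk_at h (m - 1) fun j hj => (hg.gf _ (hfm hu)).1 j (by omega)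
    have h2 : DifferentiableAt ℂ g (f u) := hg.gd.differentiableAt (isOpen_ball.mem_nhds (hfm hu))
    have h3 : DifferentiableAt ℂ f u := hfdd.differentiableAt (isOpen_ball.mem_nhds hu)
    exact (h1.comp u (h2.comp u h3)).differentiableWithinAt
  have hid : EqOn (fun u => f^[m - 1] (g (f u))) (fun u => u) (ball (η t) (s / C'')) := by
    refine Pool.Agent.H43.UB.lift_eq (F := f) (H := f) h.No h.fd isOpen_ball (convex_ball _ _).isPreconnected hkd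
      differentiableOn_id (fun u hu => ⟨(hg.gf _ (hfm hu)).1 (m - 1) (by omega), ?_⟩) (fun u hu => ⟨(hch u hu).1, rfl⟩)
      (fun u hu => (hch u hu).2.2) hpm ?_
    · show f (f^[m - 1] (g (f u))) = f u
      rw [← Function.iterate_succ_apply' f (m - 1)]
      have e1 : (m - 1).succ = m := by omega
      rw [e1]
      exact (hg.gf _ (hfm hu)).2
    · show f^[m - 1] (g (f (η t))) = η t
      rw [hft, htp]
  have hder : deriv (fun u => g (f u)) (η t) = deriv g (ψ x₀) * deriv f (η t) := by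
    have h1 : HasDerivAt g (deriv g (ψ x₀)) (f (η t)) := by
      rw [hft]
      exact (hg.gd.differentiableAt (isOpen_ball.mem_nhds hψm)).hasDerivAt
    have h2 : HasDerivAt f (deriv f (η t)) (η t) := (hfdd.differentiableAt (isOpen_ball.mem_nhds hpm)).hasDerivAt
    exact (HasDerivAt.comp (η t) h1 h2).deriv
  obtain ⟨G, hG⟩ : ∃ G : ℝ, G = ‖deriv g (ψ x₀)‖ := ⟨_, rfl⟩
  have hG0 : 0 ≤ G := hG ▸ norm_nonneg _
  obtain ⟨F, hF⟩ : ∃ F : ℝ, F = ‖deriv f (η t)‖ := ⟨_, rfl⟩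
  rw [← hF] at hfu hfl
  refine ⟨y, fun u => g (f u), hy, ?_, ?_, ?_, ?_⟩
  · rw [hφy]
    exact hg.gd.comp hfdd hfm
  · rw [hφy]
    intro u hu
    exact ⟨fun j hj => (hg.gf _ (hfm hu)).1 j (by omega), hid hu⟩
  · rw [hφy, hder, norm_mul, ← hG, ← hF]
    show ‖g (f (η t)) - z‖ ≤ C'' * (s * (G * F))
    rw [hft]
    have h1 : k2 ≤ C'' := by rw [hC'']; linarith
    have h2 : C₁ * R₀ * s ≤ k2 * F := by
      have h3 : k2 * F = C₁ * R₀ / (2 * c₁) * (F * (KK * e)) := by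
        rw [hk2]
        field_simp
      rw [h3]
      calc C₁ * R₀ * s = C₁ * R₀ / (2 * c₁) * (2 * c₁ * s) := by field_simp
        _ ≤ C₁ * R₀ / (2 * c₁) * (F * (KK * e)) := mul_le_mul_of_nonneg_left hfl (by positivity)
    have hF0 : 0 ≤ F := hF ▸ norm_nonneg _
    calc ‖g (ψ x₀) - z‖ ≤ C₁ * (R₀ * s ^ 2 * ‖deriv g (ψ x₀)‖) := hg.gz
      _ = C₁ * R₀ * s * (s * G) := by rw [hG]; ring
      _ ≤ k2 * F * (s * G) := mul_le_mul_of_nonneg_right h2 (by positivity)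
      _ ≤ C'' * F * (s * G) := mul_le_mul_of_nonneg_right (mul_le_mul_of_nonneg_right h1 hF0) (by positivity)
      _ = C'' * (s * (G * F)) := by ring
  · rw [hφy, hder, norm_mul, ← hG, ← hF]
    have h1 : k3 ≤ C'' := by rw [hC'']; linarith
    have h2 : F ≤ k3 * (R₀ * s) := by
      have h3 : k3 * (R₀ * s) * e = 2 * C * KK * s := by
        rw [hk3]
        field_simp
      rw [← h3] at hfu
      exact le_of_mul_le_mul_right hfu he0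
    calc s * (G * F) ≤ s * (G * (k3 * (R₀ * s))) := by gcongr
      _ = k3 * (R₀ * s ^ 2 * G) := by ring
      _ ≤ C'' * (R₀ * s ^ 2 * G) := mul_le_mul_of_nonneg_right h1 (by positivity)

end Pool.Agent.H81.RW
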