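import Pool.Agent.H81.RW.Pbk

/-!
# Module Ee: the minimal length is attained at a critical value

`mv`. THE PULL BACK TO A CRITICAL VALUE: for every `κ > 0`, `L`, `τ ∈ (0, 1)` there is `κ' > 0` such that for `x ∈ P` and `w` unimodal, `w x = 1`, size `< κ'`, `ell ρ w ≤ ofReal L`, there are `c ∈ Cr` and `u` unimodal, `u (f c) = 1`, size `< κ`, `ell ρ u ≤ ofReal (1 - τ)⁻¹ * ell ρ w`.
PROOF. `M = (L + 1) / τ`, `κ'` from `pbk` for `min κ δ`. `gl` gives the level `a ∈ (0, τ]`. `w = 1` near `x` (`lc`), so `w (f^[n] (f c)) = 1` for some `n` (`mn`); let `T` be the first such `n`, over all `c ∈ Cr`. `pbk` with `p₀ = x`, starting point `f c`, `k = T`.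
Second alternative: `i < T`, `f c' ∈ W`, so `b < w (f^[i] (f c'))`, in `P`, so it is `1` (`va`): contradiction. First alternative: `PL` at `f^[0] (f c)`: `pl_um`; `(1 - a)⁻¹ ≤ (1 - τ)⁻¹`.
`lm_ex`. PROOF. For `κ > 0` let `m κ` be the infimum of `ell ρ w` over all `x ∈ P`, `w` unimodal, `w x = 1`, size `< κ`; `Λ = (⨆ κ > 0, m κ).toReal ≤ L`. `lo` is clear. By `mv` for all `t > 0` there are `c ∈ Cr` and `u` at `f c`, size `< t`, length `≤ Λ + t`; `Cr` is finite.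
-/

set_option autoImplicit false

open Filter Topology Metric Set MeasureTheory

namespace Pool.Agent.H81.RW

open Pool.Agent.H56.TH

variable {f : ℂ → ℂ} {N J P Cr : Set ℂ} {η : ℂ → ℂ → ℂ} {r₀ δ : ℝ} {ρ : ℂ → ENNReal}

theorem mv (h : WW f N J P Cr η r₀ δ ρ) {κ L τ : ℝ} (hκ : 0 < κ) (hL : 0 ≤ L) (hτ : 0 < τ) (hτ1 : τ < 1) :
    ∃ κ' : ℝ, 0 < κ' ∧ ∀ x ∈ P, ∀ w : ℂ → ℝ, UM P w → w x = 1 → (∀ y, 0 < w y → ‖y - x‖ < κ') →
      ell ρ w ≤ ENNReal.ofReal L → ∃ c ∈ Cr, ∃ u : ℂ → ℝ, UM P u ∧ u (f c) = 1 ∧ (∀ y, 0 < u y → ‖y - f c‖ < κ) ∧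
        ell ρ u ≤ ENNReal.ofReal (1 - τ)⁻¹ * ell ρ w := by
  have hκ1 : 0 < min κ δ := lt_min hκ h.hδ
  have hκ2 : min κ δ ≤ δ := min_le_right _ _
  have hM : 0 ≤ (L + 1) / τ := by positivity
  obtain ⟨κ', hκ', hpb⟩ := pbk h hκ1 hκ2 hM
  refine ⟨κ', hκ', fun x hx w hw hwx hsz hell => ?_⟩
  obtain ⟨K, hK⟩ := hw.lip
  obtain ⟨a, ha0, haτ, hga⟩ := gl (τ := τ) (M := (L + 1) / τ) hK.continuous hell hL hτ (by
    rw [div_mul_cancel₀ _ hτ.ne']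
    linarith)
  have ha1 : a < 1 := lt_of_le_of_lt haτ hτ1
  -- the first time when the orbit of a critical value meets the level `1`
  have hex : ∃ n : ℕ, ∃ c ∈ Cr, w (f^[n] (f c)) = 1 := by
    obtain ⟨c, hc⟩ := h.Cn
    have h1 : {y | w y = w x} ∈ 𝓝 x := hw.lc x hx
    obtain ⟨y, hy1, n, rfl⟩ := mem_closure_iff_nhds.1 (h.mn _ (vP h hc) hx) _ h1
    exact ⟨n, c, hc, by rw [← hwx]; exact hy1⟩
  classical
  have hT1 : ∃ c ∈ Cr, w (f^[Nat.find hex] (f c)) = 1 := Nat.find_spec hex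
  have hTmin : ∀ j < Nat.find hex, ¬ ∃ c ∈ Cr, w (f^[j] (f c)) = 1 := fun j hj => Nat.find_min hex hj
  generalize Nat.find hex = T at hT1 hTmin
  obtain ⟨c, hc, hT1⟩ := hT1
  have hvJ : f c ∈ J := h.PJ (vP h hc)
  have hN : ∀ j < T, f^[j] (f c) ∈ N ∧ infDist (f^[j] (f c)) P < δ := fun j _ =>
    ⟨h.PN (it_P h j (vP h hc)), by
      rw [infDist_zero_of_mem (it_P h j (vP h hc))]
      exact h.hδ⟩
  rcases hpb w x hw hsz a ha0 ha1.le hga x hx hwx T (f c) hvJ hN (by rw [hT1]; exact ha1.le) T le_rfl with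
    ⟨b, W, hPL⟩ | ⟨i, hi, b, W, hPL, c', hc', hvW, -, -⟩
  · rw [Nat.sub_self, Function.iterate_zero_apply] at hPL
    obtain ⟨u1, u2, u3, u4⟩ := pl_um h hw ha1 hκ2 hvJ hPL
    refine ⟨c, hc, _, u1, u4 (f c) hPL.xW hT1, fun y hy => ?_, u3.trans ?_⟩
    · have h1 := hPL.sm 0 (Nat.zero_le _) y (u2 y hy).1
      rw [Function.iterate_zero_apply, Function.iterate_zero_apply] at h1
      exact h1.trans_le (min_le_left _ _)
    · have h1 : (1 - a)⁻¹ ≤ (1 - τ)⁻¹ := inv_anti₀ (by linarith) (by linarith)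
      have h2 := ENNReal.ofReal_le_ofReal h1
      gcongr
  · exfalso
    have h1 : f^[i] (f c') ∈ {y | b < w y} := by
      rw [← hPL.bh.img]
      exact ⟨f c', hvW, rfl⟩
    have h2 : b < w (f^[i] (f c')) := h1
    rcases hw.va _ (it_P h i (vP h hc')) with h3 | h3
    · have := hPL.b0
      linarith
    · exact hTmin i hi ⟨c', hc', h3⟩

theorem lm_ex (h : WW f N J P Cr η r₀ δ ρ) {L : ℝ} (hL : 0 ≤ L) (hw : ∀ κ : ℝ, 0 < κ → ∃ x ∈ P, ∃ w : ℂ → ℝ,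
    UM P w ∧ w x = 1 ∧ (∀ y, 0 < w y → ‖y - x‖ < κ) ∧ ell ρ w ≤ ENNReal.ofReal L) :
    ∃ c ∈ Cr, ∃ Λ : ℝ, Lm P ρ (f c) Λ := by
  classical
  obtain ⟨T, hT⟩ : ∃ T : ℝ → Set ENNReal, ∀ (κ : ℝ) (e : ENNReal), e ∈ T κ ↔ ∃ x ∈ P, ∃ w : ℂ → ℝ, UM P w ∧ w x = 1 ∧
      (∀ y, 0 < w y → ‖y - x‖ < κ) ∧ ell ρ w = e :=
    ⟨fun κ => {e | ∃ x ∈ P, ∃ w : ℂ → ℝ, UM P w ∧ w x = 1 ∧ (∀ y, 0 < w y → ‖y - x‖ < κ) ∧ ell ρ w = e},
      fun _ _ => Iff.rfl⟩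
  obtain ⟨Λe, hΛe⟩ : ∃ Λe : ENNReal, Λe = ⨆ κ : {κ : ℝ // 0 < κ}, sInf (T κ.1) := ⟨_, rfl⟩
  have hle : Λe ≤ ENNReal.ofReal L := by
    rw [hΛe]
    refine iSup_le fun κ => ?_
    obtain ⟨x, hx, w, h1, h2, h3, h4⟩ := hw κ.1 κ.2
    exact (sInf_le ((hT κ.1 _).2 ⟨x, hx, w, h1, h2, h3, rfl⟩)).trans h4
  have hne : Λe ≠ ⊤ := (hle.trans_lt ENNReal.ofReal_lt_top).ne
  have hof : ENNReal.ofReal Λe.toReal = Λe := ENNReal.ofReal_toReal hne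
  have hnn : 0 ≤ Λe.toReal := ENNReal.toReal_nonneg
  have hlo : ∀ ε : ℝ, 0 < ε → ∃ κ : ℝ, 0 < κ ∧ ∀ x ∈ P, ∀ w : ℂ → ℝ, UM P w → w x = 1 →
      (∀ y, 0 < w y → ‖y - x‖ < κ) → ENNReal.ofReal (Λe.toReal - ε) ≤ ell ρ w := by
    intro ε hε
    rcases le_or_gt (Λe.toReal - ε) 0 with h1 | h1
    · refine ⟨1, one_pos, fun x _ w _ _ _ => ?_⟩
      rw [ENNReal.ofReal_of_nonpos h1]
      exact zero_le
    · have h2 : ENNReal.ofReal (Λe.toReal - ε) < ⨆ κ : {κ : ℝ // 0 < κ}, sInf (T κ.1) := by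
        rw [← hΛe]
        conv_rhs => rw [← hof]
        exact (ENNReal.ofReal_lt_ofReal_iff (by linarith)).2 (by linarith)
      obtain ⟨κ, h3⟩ := lt_iSup_iff.1 h2
      refine ⟨κ.1, κ.2, fun x hx w h4 h5 h6 => ?_⟩
      exact h3.le.trans (sInf_le ((hT κ.1 _).2 ⟨x, hx, w, h4, h5, h6, rfl⟩))
  -- near minimal functions at critical values
  have hcv : ∀ t : ℝ, 0 < t → ∃ c ∈ Cr, ∃ u : ℂ → ℝ, UM P u ∧ u (f c) = 1 ∧ (∀ y, 0 < u y → ‖y - f c‖ < t) ∧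
      ell ρ u ≤ ENNReal.ofReal (Λe.toReal + t) := by
    intro t ht
    have hp : 0 < Λe.toReal + t := by linarith
    have hτ0 : 0 < t / 2 / (Λe.toReal + t) := by positivity
    have hτ1 : t / 2 / (Λe.toReal + t) < 1 := by
      rw [div_lt_one hp]
      linarith
    obtain ⟨κ', hκ', hmv⟩ := mv h (κ := t) (L := Λe.toReal + t) ht hp.le hτ0 hτ1
    have h1 : sInf (T κ') ≤ Λe := by
      rw [hΛe]
      exact le_iSup (fun κ : {κ : ℝ // 0 < κ} => sInf (T κ.1)) ⟨κ', hκ'⟩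
    have h2 : sInf (T κ') < ENNReal.ofReal (Λe.toReal + t / 2) := by
      refine h1.trans_lt ?_
      conv_lhs => rw [← hof]
      exact (ENNReal.ofReal_lt_ofReal_iff (by linarith)).2 (by linarith)
    obtain ⟨e, h3, h4⟩ := sInf_lt_iff.1 h2
    obtain ⟨x, hx, w, h5, h6, h7, h8⟩ := (hT κ' e).1 h3
    obtain ⟨c, hc, u, u1, u2, u3, u4⟩ := hmv x hx w h5 h6 h7 (by
      rw [h8]
      exact h4.le.trans (ENNReal.ofReal_le_ofReal (by linarith)))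
    refine ⟨c, hc, u, u1, u2, u3, u4.trans ?_⟩
    rw [h8]
    have e1 : (1 - t / 2 / (Λe.toReal + t))⁻¹ * (Λe.toReal + t / 2) = Λe.toReal + t := by
      have e2 : 1 - t / 2 / (Λe.toReal + t) = (Λe.toReal + t / 2) / (Λe.toReal + t) := by
        rw [eq_div_iff hp.ne', sub_mul, div_mul_cancel₀ _ hp.ne']
        ring
      have e3 : (0 : ℝ) < Λe.toReal + t / 2 := by linarith
      rw [e2, inv_div, div_mul_cancel₀ _ e3.ne']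
    calc ENNReal.ofReal (1 - t / 2 / (Λe.toReal + t))⁻¹ * e
        ≤ ENNReal.ofReal (1 - t / 2 / (Λe.toReal + t))⁻¹ * ENNReal.ofReal (Λe.toReal + t / 2) := by
          gcongr
      _ = ENNReal.ofReal (Λe.toReal + t) := by
          rw [← ENNReal.ofReal_mul (inv_nonneg.2 (by linarith)), e1]
  -- pigeonhole
  by_contra hcon
  push Not at hcon
  have hbad : ∀ c ∈ Cr, ∀ᶠ t in 𝓝[>] (0 : ℝ), ¬ ∃ u : ℂ → ℝ, UM P u ∧ u (f c) = 1 ∧ (∀ y, 0 < u y → ‖y - f c‖ < t) ∧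
      ell ρ u ≤ ENNReal.ofReal (Λe.toReal + t) := by
    intro c hc
    have h1 : ¬ ∀ ε κ : ℝ, 0 < ε → 0 < κ → ∃ w : ℂ → ℝ, UM P w ∧ w (f c) = 1 ∧ (∀ y, 0 < w y → ‖y - f c‖ < κ) ∧
        ell ρ w ≤ ENNReal.ofReal (Λe.toReal + ε) := fun h2 => hcon c hc Λe.toReal ⟨hnn, hlo, h2⟩
    push Not at h1
    obtain ⟨ε, κ, hε, hκ, h1⟩ := h1
    have h2 : Ioo (0 : ℝ) (min ε κ) ∈ 𝓝[>] (0 : ℝ) := Ioo_mem_nhdsGT (lt_min hε hκ)
    filter_upwards [h2] with t ht ⟨u, u1, u2, u3, u4⟩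
    have h3 := h1 u u1 u2 fun y hy => (u3 y hy).trans (ht.2.trans_le (min_le_right _ _))
    exact absurd (u4.trans (ENNReal.ofReal_le_ofReal (by
      have := ht.2.trans_le (min_le_left _ _)
      linarith))) (not_le.2 h3)
  have h1 := (eventually_all_finite h.Cf).2 hbad
  obtain ⟨t, ht, ht0⟩ := (h1.and self_mem_nhdsWithin).exists
  obtain ⟨c, hc, hu⟩ := hcv t ht0
  exact ht c hc hu

theorem ee (_ : WW f N J P Cr η r₀ δ ρ) {v : ℂ} {Λ : ℝ} (hΛ : Lm P ρ v Λ) {ε : ℝ} (hε : 0 < ε) :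
    ∃ κ : ℝ, 0 < κ ∧ ∀ x ∈ P, ∀ w : ℂ → ℝ, UM P w → w x = 1 → (∀ y, 0 < w y → ‖y - x‖ < κ) →
      ENNReal.ofReal (Λ - ε) ≤ ell ρ w := hΛ.lo ε hε

end Pool.Agent.H81.RW
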