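import Pool.Agent.H81.RW.Tc

/-!
# Module Siz: sizes and distances from `P`; lengths are bounded below

Ring condition `RG P M r₁`. `w` unimodal, `w v = 1`, `ell ρ w ≤ L`, small; content radius `r`: `(∃ y ∈ P, w y = 1, ‖y - v‖ = r)`, all points of `P` with `w = 1` are within `r` of `v`.
PROOFS. `siz_up`: the ring with radius `2 r` at `v`: `y ∈ P`, `2 r ≤ ‖y - v‖ ≤ 2 M r`, so `w y ≠ 1`, `w y = 0`. `tc'` with `z = v`, `a = 0`, `b = β`: `‖x - v‖ ≤ exp (4 L / β) ‖y - v‖`.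
`siz_far`: `p ∈ P`, `β ≤ w x ≤ 1 - β`. `w p = 0`: `tc'` with `z = p`, `a = 0`, `b = β`, `y := x` (`w x ≥ β`), and `x := v` or the point `y₀` at distance `r` (both have `w = 1`): `max (‖v - p‖) (‖y₀ - p‖) ≥ r / 2`, so `r / 2 ≤ exp (4 L / β) ‖x - p‖`. `w p = 1`: `a = 1 - β`, `b = 1`: the same.
(all points are within `δ` of each other: `p` with `‖x - p‖ ≥ δ / 2` is trivial if `r ≤ δ / 2`.) `pos_r`: `v` is not isolated in `P` (ring), `w = 1` near `v`.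
`len_lo`: POLAR COORDINATES AROUND `x ∈ P` (as in `thk0`, H81/RW/Thk, but with the radial derivative): for every direction `θ` the Lipschitz function `s ↦ w (x + s e^{iθ})` goes from `1` to `0`, so `∫ ‖fderiv w (x + s e^{iθ})‖ ds ≥ 1`; `ρ (x + s e^{iθ}) ≥ 1 / (4 s)` (`lb`, `k = 0`), so `ell ρ w ≥ ∫ dθ ∫ s (1 / (4 s)) ‖fderiv w‖ ds ≥ 2 π / 4 ≥ 1`.
-/

set_option autoImplicit false

open Filter Topology Metric Set MeasureTheory

namespace Pool.Agent.H81.RW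

open Pool.Agent.H56.TH

/-- the rings of ratio `M` contain points of `P` -/
def RG (P : Set ℂ) (M r₁ : ℝ) : Prop :=
  0 < r₁ ∧ ∀ x ∈ P, ∀ r : ℝ, 0 < r → r < r₁ → ∃ y ∈ P, r ≤ ‖y - x‖ ∧ ‖y - x‖ ≤ M * r

/-- the content radius of `w` at `v` is `r` -/
def CR (P : Set ℂ) (v : ℂ) (w : ℂ → ℝ) (r : ℝ) : Prop :=
  (∃ y ∈ P, w y = 1 ∧ ‖y - v‖ = r) ∧ ∀ y ∈ P, w y = 1 → ‖y - v‖ ≤ r

variable {f : ℂ → ℂ} {N J P Cr : Set ℂ} {η : ℂ → ℂ → ℂ} {r₀ δ : ℝ} {ρ : ℂ → ENNReal}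

theorem cr_ex (h : WW f N J P Cr η r₀ δ ρ) {v : ℂ} (hvP : v ∈ P) {M r₁ : ℝ} (hr : RG P M r₁) {w : ℂ → ℝ} (hw : UM P w) (hv : w v = 1) :
    ∃ r : ℝ, 0 < r ∧ CR P v w r := by
  obtain ⟨K, hK⟩ := hw.lip
  have hwc : Continuous w := hK.continuous
  obtain ⟨S, hS⟩ : ∃ S : Set ℂ, S = P ∩ {y | w y = 1} := ⟨_, rfl⟩
  have hSc : IsCompact S := by
    rw [hS]
    exact h.Pc.inter_right (isClosed_eq hwc continuous_const)
  have hSv : v ∈ S := by
    rw [hS]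
    exact ⟨hvP, hv⟩
  obtain ⟨y₀, hy₀, hmax⟩ := hSc.exists_isMaxOn ⟨v, hSv⟩
    (f := fun y : ℂ => ‖y - v‖) (continuous_id.sub continuous_const).norm.continuousOn
  have hmax' : ∀ y ∈ P, w y = 1 → ‖y - v‖ ≤ ‖y₀ - v‖ := fun y hy hy1 =>
    hmax (show y ∈ S by rw [hS]; exact ⟨hy, hy1⟩)
  have hy₀' : y₀ ∈ P ∧ w y₀ = 1 := by
    rw [hS] at hy₀
    exact hy₀
  refine ⟨‖y₀ - v‖, ?_, ⟨y₀, hy₀'.1, hy₀'.2, rfl⟩, hmax'⟩
  obtain ⟨ε, hε, hε'⟩ := Metric.eventually_nhds_iff_ball.1 (hw.lc v hvP)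
  have hM1 : 0 < |M| + 1 := by positivity
  obtain ⟨t, ht0, ht⟩ := exists_between (lt_min hr.1 (div_pos hε hM1))
  have ht1 := (lt_min_iff.1 ht).1
  have ht2 := (lt_min_iff.1 ht).2
  rw [lt_div_iff₀ hM1] at ht2
  obtain ⟨y, hy, hy1, hy2⟩ := hr.2 v hvP t ht0 ht1
  have h3 : ‖y - v‖ < ε := by
    have h4 : M * t ≤ |M| * t := mul_le_mul_of_nonneg_right (le_abs_self M) ht0.le
    nlinarith
  have h5 := hε' y (by rw [mem_ball, dist_eq_norm]; exact h3)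
  rw [hv] at h5
  exact lt_of_lt_of_le ht0 (hy1.trans (hmax' y hy h5))

theorem siz_up (h : WW f N J P Cr η r₀ δ ρ) {v : ℂ} (hvP : v ∈ P) {M r₁ : ℝ} (hr : RG P M r₁) {L : ℝ} (hL : 0 ≤ L) {w : ℂ → ℝ} (hw : UM P w)
    (hv : w v = 1) (hs : ∀ y, 0 < w y → ‖y - v‖ < δ) (hl : ell ρ w ≤ ENNReal.ofReal L) {r : ℝ} (h0 : 0 < r)
    (h1 : 2 * r < r₁) (hcr : CR P v w r) {β : ℝ} (hβ : 0 < β) {x : ℂ} (hx : β ≤ w x) :
    ‖x - v‖ ≤ Real.exp (4 * (L / β)) * (2 * M * r) := by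
  obtain ⟨y, hy, hy1, hy2⟩ := hr.2 v hvP (2 * r) (by linarith) h1
  have hwy : w y = 0 := by
    rcases hw.va y hy with h2 | h2
    · exact h2
    · have := hcr.2 y hy h2
      linarith
  have h3 := tc' h (ul_um hw) (a := 0) (b := β) le_rfl hβ hL hl (z := v) (x := x) (y := y) hvP (Or.inr hwy.le)
    (Or.inl (by rw [hv]; exact hx.trans (hw.hi x))) hx (hs x (lt_of_lt_of_le hβ hx))
  rw [sub_zero] at h3
  refine h3.trans (mul_le_mul_of_nonneg_left ?_ (Real.exp_pos _).le)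
  linarith

theorem siz_far (h : WW f N J P Cr η r₀ δ ρ) {v : ℂ} {L : ℝ} (hL : 0 ≤ L) {w : ℂ → ℝ} (hw : UM P w)
    (hv : w v = 1) (hs : ∀ y, 0 < w y → ‖y - v‖ < δ / 4) (hl : ell ρ w ≤ ENNReal.ofReal L) {r : ℝ} (h0 : 0 < r)
    (hcr : CR P v w r) {β : ℝ} (hβ : 0 < β) {x : ℂ} (hx : β ≤ w x) (hx1 : w x ≤ 1 - β)
    {p : ℂ} (hp : p ∈ P) : r / 2 ≤ Real.exp (4 * (L / β)) * ‖x - p‖ := by
  obtain ⟨⟨y₀, hy₀, hwy₀, hr⟩, -⟩ := hcr
  have hβ1 : β ≤ 1 := hx.trans (hw.hi x)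
  have hy₀δ : ‖y₀ - v‖ < δ / 4 := hs y₀ (by rw [hwy₀]; exact one_pos)
  have hxδ : ‖x - v‖ < δ / 4 := hs x (lt_of_lt_of_le hβ hx)
  have hvδ : ‖v - v‖ < δ / 4 := hs v (by rw [hv]; exact one_pos)
  have hexp : 1 ≤ Real.exp (4 * (L / β)) := Real.one_le_exp (by positivity)
  rcases le_or_gt (δ / 2) ‖x - p‖ with hfar | hnear
  · have h1 : ‖x - p‖ ≤ Real.exp (4 * (L / β)) * ‖x - p‖ := le_mul_of_one_le_left (norm_nonneg _) hexp
    have h2 := h.hδ
    linarith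
  · have hq : ∃ q : ℂ, w q = 1 ∧ ‖q - v‖ < δ / 4 ∧ r / 2 ≤ ‖q - p‖ := by
      rcases le_or_gt (r / 2) ‖v - p‖ with h1 | h1
      · exact ⟨v, hv, hvδ, h1⟩
      · refine ⟨y₀, hwy₀, hy₀δ, ?_⟩
        have h2 : ‖y₀ - v‖ ≤ ‖y₀ - p‖ + ‖v - p‖ := by
          calc ‖y₀ - v‖ = ‖(y₀ - p) - (v - p)‖ := by rw [sub_sub_sub_cancel_right]
            _ ≤ _ := norm_sub_le _ _
        linarith
    obtain ⟨q, hwq, hqδ, hqr⟩ := hq
    have hqp : ‖q - p‖ < δ := by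
      have h2 : ‖q - p‖ ≤ ‖q - v‖ + ‖x - v‖ + ‖x - p‖ := by
        calc ‖q - p‖ = ‖(q - v) - (x - v) + (x - p)‖ := by congr 1; ring
          _ ≤ ‖(q - v) - (x - v)‖ + ‖x - p‖ := norm_add_le _ _
          _ ≤ _ := by linarith [norm_sub_le (q - v) (x - v)]
      linarith
    rcases hw.va p hp with hp0 | hp1
    · have h3 := tc' h (ul_um hw) (a := 0) (b := β) le_rfl hβ hL hl (z := p) (x := q) (y := x) hp (Or.inl hp0.le)
        (Or.inr hx) (by rw [hwq]; exact hβ1) hqp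
      rw [sub_zero] at h3
      exact hqr.trans h3
    · have h3 := tc' h (ul_um hw) (a := 1 - β) (b := 1) (by linarith) (by linarith) hL hl (z := p) (x := q) (y := x) hp
        (Or.inr hx1) (Or.inl hp1.ge) hwq.ge hqp
      rw [sub_sub_cancel] at h3
      exact hqr.trans h3

private noncomputable def gam (z : ℂ) (s : ℝ) (t : ℝ) : ℂ := z + s * (Real.cos t + Real.sin t * Complex.I)

private theorem dir_norm (t : ℝ) : ‖((Real.cos t : ℝ) : ℂ) + ((Real.sin t : ℝ) : ℂ) * Complex.I‖ = 1 := by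
  rw [Complex.norm_add_mul_I, Real.cos_sq_add_sin_sq, Real.sqrt_one]

private theorem rad_deriv (z : ℂ) (s t : ℝ) :
    HasDerivAt (fun s => gam z s t) (((Real.cos t : ℝ) : ℂ) + ((Real.sin t : ℝ) : ℂ) * Complex.I) s := by
  have h1 : HasDerivAt (fun s : ℝ => (s : ℂ)) (1 : ℂ) s := Complex.ofRealCLM.hasDerivAt
  have h2 := (h1.mul_const (((Real.cos t : ℝ) : ℂ) + ((Real.sin t : ℝ) : ℂ) * Complex.I)).const_add z
  rw [one_mul] at h2
  exact h2

private theorem rad_lip (z : ℂ) (t : ℝ) : LipschitzWith 1 (fun s => gam z s t) := by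
  refine lipschitzWith_of_nnnorm_deriv_le (fun s => (rad_deriv z s t).differentiableAt) fun s => ?_
  rw [(rad_deriv z s t).deriv, ← NNReal.coe_le_coe, coe_nnnorm, dir_norm, NNReal.coe_one]

private theorem gam_sub_norm (z : ℂ) {s : ℝ} (hs : 0 ≤ s) (t : ℝ) : ‖gam z s t - z‖ = s := by
  have e1 : gam z s t - z = (s : ℂ) * (((Real.cos t : ℝ) : ℂ) + ((Real.sin t : ℝ) : ℂ) * Complex.I) := by
    unfold gam
    ring
  rw [e1, norm_mul, dir_norm, mul_one, Complex.norm_real, Real.norm_of_nonneg hs]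

/-- the variation on one ray -/
private theorem rad_var {g : ℂ → ℝ} {K : NNReal} (hg : LipschitzWith K g) {z : ℂ} {R t : ℝ} (hR : 0 < R)
    (had : ∀ᵐ s ∂(volume.restrict (Ioi (0 : ℝ))), DifferentiableAt ℝ g (gam z s t))
    (h0 : 1 ≤ g z) (h1 : ∀ x, ‖x - z‖ = R → g x ≤ 0) :
    1 ≤ ∫⁻ s in Ioo (0 : ℝ) R, ENNReal.ofReal ‖fderiv ℝ g (gam z s t)‖ := by
  obtain ⟨h, hh⟩ : ∃ h : ℝ → ℝ, h = fun s => g (gam z s t) := ⟨_, rfl⟩
  have hlip : LipschitzWith (K * 1) h := by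
    rw [hh]
    exact hg.comp (rad_lip z t)
  have hac : AbsolutelyContinuousOnInterval h R 0 :=
    (hlip.lipschitzOnWith (s := uIcc R 0)).absolutelyContinuousOnInterval
  have hint := hac.integral_deriv_eq_sub
  have hv : 1 ≤ h 0 - h R := by
    have e0 : h 0 = g z := by
      rw [hh]
      simp [gam]
    have e1 : h R ≤ 0 := by
      rw [hh]
      exact h1 _ (gam_sub_norm z hR.le t)
    rw [e0]
    linarith
  rw [← hint] at hv
  have hsub : uIoc R 0 ⊆ Ioc 0 R := by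
    rw [uIoc_comm, uIoc_of_le hR.le]
  have hb : (1 : ENNReal) ≤ ∫⁻ s in Ioc (0 : ℝ) R, ‖deriv h s‖ₑ := by
    calc (1 : ENNReal) = ENNReal.ofReal 1 := ENNReal.ofReal_one.symm
      _ ≤ ENNReal.ofReal ‖∫ s in R..0, deriv h s‖ :=
          ENNReal.ofReal_le_ofReal (hv.trans (le_abs_self _))
      _ = ‖∫ s in uIoc R 0, deriv h s‖ₑ := by
          rw [intervalIntegral.norm_intervalIntegral_eq, ofReal_norm]
      _ ≤ ∫⁻ s in uIoc R 0, ‖deriv h s‖ₑ := enorm_integral_le_lintegral_enorm _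
      _ ≤ _ := lintegral_mono_set hsub
  refine hb.trans ?_
  rw [setLIntegral_congr (Ioo_ae_eq_Ioc (μ := volume) (a := (0 : ℝ)) (b := R)).symm]
  have had' : ∀ᵐ s ∂(volume.restrict (Ioo (0 : ℝ) R)), DifferentiableAt ℝ g (gam z s t) :=
    ae_mono (Measure.restrict_mono Ioo_subset_Ioi_self le_rfl) had
  refine lintegral_mono_ae (had'.mono fun s hs => ?_)
  have hd : HasDerivAt h (fderiv ℝ g (gam z s t) (((Real.cos t : ℝ) : ℂ) + ((Real.sin t : ℝ) : ℂ) * Complex.I)) s := by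
    rw [hh]
    exact hs.hasFDerivAt.comp_hasDerivAt s (rad_deriv z s t)
  rw [hd.deriv, ← ofReal_norm]
  refine ENNReal.ofReal_le_ofReal ?_
  have h2 := (fderiv ℝ g (gam z s t)).le_opNorm (((Real.cos t : ℝ) : ℂ) + ((Real.sin t : ℝ) : ℂ) * Complex.I)
  rw [dir_norm, mul_one] at h2
  exact h2

private theorem polar_shift (F : ℂ → ENNReal) (z : ℂ) :
    ∫⁻ p in polarCoord.target, ENNReal.ofReal p.1 * F (gam z p.1 p.2) = ∫⁻ x, F x := by
  have h1 := Complex.lintegral_comp_polarCoord_symm (fun x => F (z + x))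
  rw [lintegral_add_left_eq_self F z] at h1
  rw [← h1]
  refine lintegral_congr fun p => ?_
  rw [Complex.polarCoord_symm_apply, smul_eq_mul]
  rfl

private theorem gam_meas (z : ℂ) : Measurable fun p : ℝ × ℝ => gam z p.1 p.2 := by
  unfold gam
  fun_prop

private theorem target_eq : (volume : Measure (ℝ × ℝ)).restrict polarCoord.target =
    ((volume : Measure ℝ).restrict (Ioi 0)).prod (volume.restrict (Ioo (-Real.pi) Real.pi)) := by
  rw [polarCoord_target, Measure.volume_eq_prod, Measure.prod_restrict]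

private theorem ae_ray {g : ℂ → ℝ} {K : NNReal} (hg : LipschitzWith K g) (z : ℂ) :
    ∀ᵐ t ∂(volume.restrict (Ioo (-Real.pi) Real.pi)),
      ∀ᵐ s ∂((volume : Measure ℝ).restrict (Ioi 0)), DifferentiableAt ℝ g (gam z s t) := by
  have hm : MeasurableSet {x | DifferentiableAt ℝ g x} := measurableSet_of_differentiableAt ℝ g
  have h1 := polar_shift ({x | DifferentiableAt ℝ g x}ᶜ.indicator (fun _ => (1 : ENNReal))) z
  have h2 : ∫⁻ x, {x | DifferentiableAt ℝ g x}ᶜ.indicator (fun _ => (1 : ENNReal)) x = 0 := by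
    rw [lintegral_indicator hm.compl, setLIntegral_one]
    exact hg.ae_differentiableAt
  rw [h2] at h1
  have hmeas : Measurable fun p : ℝ × ℝ => ENNReal.ofReal p.1 *
      {x | DifferentiableAt ℝ g x}ᶜ.indicator (fun _ => (1 : ENNReal)) (gam z p.1 p.2) :=
    measurable_fst.ennreal_ofReal.mul ((measurable_const.indicator hm.compl).comp (gam_meas z))
  rw [lintegral_eq_zero_iff hmeas] at h1
  have h3 : ∀ᵐ p ∂((volume : Measure (ℝ × ℝ)).restrict polarCoord.target),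
      DifferentiableAt ℝ g (gam z p.1 p.2) := by
    filter_upwards [h1, ae_restrict_mem polarCoord.open_target.measurableSet] with p hp hpt
    have hp1 : 0 < p.1 := by
      rw [polarCoord_target] at hpt
      exact hpt.1
    by_contra hcon
    have h4 : gam z p.1 p.2 ∈ {x | DifferentiableAt ℝ g x}ᶜ := hcon
    have h5 : ENNReal.ofReal p.1 * {x | DifferentiableAt ℝ g x}ᶜ.indicator (fun _ => (1 : ENNReal)) (gam z p.1 p.2) = 0 := hp
    rw [indicator_of_mem h4, mul_one, ENNReal.ofReal_eq_zero] at h5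
    linarith
  rw [target_eq] at h3
  have h4 : MeasurableSet {p : ℝ × ℝ | DifferentiableAt ℝ g (gam z p.1 p.2)} := hm.preimage (gam_meas z)
  exact (Measure.ae_ae_comm (p := fun s t => DifferentiableAt ℝ g (gam z s t)) h4).1 (Measure.ae_ae_of_ae_prod h3)

private theorem len0 {ρ : ℂ → ENNReal} {g : ℂ → ℝ} {K : NNReal} (hg : LipschitzWith K g) {z : ℂ} {R c₀ : ℝ}
    (hR : 0 < R) (hc : 0 ≤ c₀) (hρ : ∀ x, 0 < ‖x - z‖ → ‖x - z‖ < R → ENNReal.ofReal (c₀ / ‖x - z‖) ≤ ρ x)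
    (h0 : 1 ≤ g z) (h1 : ∀ x, ‖x - z‖ = R → g x ≤ 0) :
    ENNReal.ofReal (c₀ * (2 * Real.pi)) ≤ ell ρ g := by
  have hpi := Real.pi_pos
  set A : Set ℂ := {x | 0 < ‖x - z‖ ∧ ‖x - z‖ < R} with hA
  have hcn : Continuous fun x : ℂ => ‖x - z‖ := (continuous_id.sub continuous_const).norm
  have hAm : MeasurableSet A :=
    ((isOpen_lt continuous_const hcn).inter (isOpen_lt hcn continuous_const)).measurableSet
  obtain ⟨F, hF⟩ : ∃ F : ℂ → ENNReal, F = A.indicator (fun x => ENNReal.ofReal (c₀ / ‖x - z‖) *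
      ENNReal.ofReal ‖fderiv ℝ g x‖) := ⟨_, rfl⟩
  have hFm : Measurable F := by
    rw [hF]
    exact ((measurable_const.div hcn.measurable).ennreal_ofReal.mul
      (measurable_fderiv ℝ g).norm.ennreal_ofReal).indicator hAm
  have h2 : ∫⁻ x, F x ≤ ell ρ g := by
    unfold ell
    refine lintegral_mono fun x => ?_
    rw [hF]
    by_cases hx : x ∈ A
    · rw [indicator_of_mem hx]
      exact mul_le_mul_left (hρ x hx.1 hx.2) _
    · rw [indicator_of_notMem hx]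
      exact zero_le
  refine le_trans ?_ h2
  rw [← polar_shift F z, target_eq]
  have hmeas : Measurable fun p : ℝ × ℝ => ENNReal.ofReal p.1 * F (gam z p.1 p.2) :=
    measurable_fst.ennreal_ofReal.mul (hFm.comp (gam_meas z))
  rw [lintegral_prod_symm _ hmeas.aemeasurable]
  have h3 : ∀ᵐ t ∂((volume : Measure ℝ).restrict (Ioo (-Real.pi) Real.pi)),
      ENNReal.ofReal c₀ ≤ ∫⁻ s in Ioi (0 : ℝ), ENNReal.ofReal s * F (gam z s t) := by
    filter_upwards [ae_ray hg z] with t ht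
    have h4 := rad_var hg hR ht h0 h1
    have h5 : ∀ s ∈ Ioo (0 : ℝ) R, ENNReal.ofReal s * F (gam z s t) =
        ENNReal.ofReal c₀ * ENNReal.ofReal ‖fderiv ℝ g (gam z s t)‖ := by
      intro s hs
      have hn := gam_sub_norm z hs.1.le t
      have hmem : gam z s t ∈ A := by
        change 0 < ‖gam z s t - z‖ ∧ ‖gam z s t - z‖ < R
        rw [hn]
        exact hs
      rw [hF, indicator_of_mem hmem, hn, ← mul_assoc, ← ENNReal.ofReal_mul hs.1.le, mul_div_cancel₀ _ hs.1.ne']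
    calc ENNReal.ofReal c₀ = ENNReal.ofReal c₀ * 1 := (mul_one _).symm
      _ ≤ ENNReal.ofReal c₀ * ∫⁻ s in Ioo (0 : ℝ) R, ENNReal.ofReal ‖fderiv ℝ g (gam z s t)‖ :=
          mul_le_mul_right h4 _
      _ = ∫⁻ s in Ioo (0 : ℝ) R, ENNReal.ofReal c₀ * ENNReal.ofReal ‖fderiv ℝ g (gam z s t)‖ :=
          (lintegral_const_mul' _ _ ENNReal.ofReal_ne_top).symm
      _ = ∫⁻ s in Ioo (0 : ℝ) R, ENNReal.ofReal s * F (gam z s t) :=
          (setLIntegral_congr_fun measurableSet_Ioo h5).symm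
      _ ≤ _ := lintegral_mono_set Ioo_subset_Ioi_self
  calc ENNReal.ofReal (c₀ * (2 * Real.pi)) = ∫⁻ _ in Ioo (-Real.pi) Real.pi, ENNReal.ofReal c₀ := by
        rw [setLIntegral_const, Real.volume_Ioo, ENNReal.ofReal_mul hc]
        congr 2
        ring
    _ ≤ ∫⁻ t in Ioo (-Real.pi) Real.pi, ∫⁻ s in Ioi (0 : ℝ), ENNReal.ofReal s * F (gam z s t) :=
        lintegral_mono_ae h3

theorem len_lo (h : WW f N J P Cr η r₀ δ ρ) {x : ℂ} (hx : x ∈ P) {w : ℂ → ℝ} (hw : UM P w) (hv : w x = 1)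
    (hs : ∀ y, 0 < w y → ‖y - x‖ < δ) : ENNReal.ofReal 1 ≤ ell ρ w := by
  obtain ⟨K, hK⟩ := hw.lip
  have h1 := len0 (ρ := ρ) hK (z := x) (R := δ) (c₀ := 1 / 4) h.hδ (by norm_num) (fun x' _ hx2 => by
    have h3 := h.lb 0 x' x (fun j hj => absurd hj (Nat.not_lt_zero j)) (fun j hj => absurd hj (Nat.not_lt_zero j))
      hx (by
        refine lt_of_le_of_lt ?_ hx2
        rw [← dist_eq_norm]
        exact infDist_le_dist_of_mem hx) (by
        rw [Function.iterate_zero, deriv_id]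
        exact one_ne_zero)
    rw [Function.iterate_zero, deriv_id, norm_one, ENNReal.ofReal_one, mul_one, id] at h3
    rwa [div_div]) hv.ge (fun y hy => by
      by_contra hcon
      rw [not_le] at hcon
      exact absurd (hs y hcon) (by rw [hy]; exact lt_irrefl _))
  refine le_trans (ENNReal.ofReal_le_ofReal ?_) h1
  have := Real.pi_gt_three
  linarith

theorem lm_pos (h : WW f N J P Cr η r₀ δ ρ) {v : ℂ} (hvP : v ∈ P) {Λ : ℝ} (hΛ : Lm P ρ v Λ) : 1 ≤ Λ := by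
  refine le_of_forall_pos_le_add fun ε hε => ?_
  obtain ⟨w, hw, hv, hs, hl⟩ := hΛ.hi ε δ hε h.hδ
  have h1 := (len_lo h hvP hw hv hs).trans hl
  have h2 : 0 ≤ Λ + ε := by linarith [hΛ.nn]
  exact (ENNReal.ofReal_le_ofReal_iff h2).1 h1

end Pool.Agent.H81.RW
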