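import Pool.Agent.H81.RW.Pbk
import Pool.Agent.H81.RW.Crit

/-!
# Module Po (LW): PULL BACKS OF DOMAINS WITH BOUNDED AREA

`PO f N k O O₁ D`: `O` is open, connected, without holes, bounded, `f^[k]` maps `O` to `O₁`, the frontier to the frontier, the orbits of length `k` are in `N`, and `∫ over O of |(f^[k])'|² ≤ D area O₁` (degree at most `D`).
`po_pl` (univalent pull back). PROOF. `V = {y | w y = 1}`; `closure O ⊆ V ⊆ {b < w}` (`w` continuous, `b < a ≤ 1`), compact; `O' = W ∩ f^[k] ⁻¹' O`: open, preconnected (`bh_pre`), full (`Bh.fu`). `K = W ∩ f^[k] ⁻¹' closure O` is compact (`bh_cpt`), so `closure O' ⊆ K ⊆ W`; `frontier O' = closure O' \ O' ⊆ W ∩ f^[k] ⁻¹' (closure O \ O)`.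
`f^[m + k] = f^[m] ∘ f^[k]`; `Nn` from `PL.Nn` and `hO.Nn`. Area: `deriv (f^[m + k]) y = deriv (f^[m]) (f^[k] y) * deriv (f^[k]) y`, change of variables on `O'` (`f^[k]` injective on `W`, `f^[k] '' O' = O`; `lintegral_image_eq_lintegral_abs_det_fderiv_mul`, the determinant of the real derivative of a holomorphic map is `‖deriv‖ ^ 2`; see `pb_cov` in Pull.lean and `cr_ell` in Crit.lean).
`w (f^[k] y) = 1` gives `trc a 1 w (f^[k] y) = 1` (`trc_one`).
`po_cr` (critical pull back). `v = f a`. Case `v ∈ O`: `O' = η a '' {t | v + t ^ 2 ∈ O}` (`‖t‖ ^ 2 < r₀ ^ 2` because `O ⊆ tsupport w ⊆ ball v (r₀ ^ 2)`): open (image of an open set under an injective holomorphic map), preconnected (`sq_pre`), full (`sq_full`, `img_full` or as in `cr_um`), closure in the compact set `η a '' {t | v + t ^ 2 ∈ closure O}`, the area of the two halves as in `cr_ell`: factor `2`.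
Case `v ∉ O`: `bh_rt` with `D := O`: `W` with `Bh f W O`, `x ∈ W ⊆ η a '' ball 0 r₀`; `O' = W`; `closure W`: the points of `closure W` are `η a t` with `v + t ^ 2 ∈ closure O` (compactness of `{t | v + t ^ 2 ∈ closure O}` in `ball 0 r₀`); a point `y` of `frontier W` has `f y ∈ closure O`, and `f y ∉ O`: otherwise there is a local inverse at `y`, `W` is a component of the preimage of `O` in the chart
(`W` is relatively closed in `η a '' {t | v + t ^ 2 ∈ O}`: `f` restricted to `W` has the continuous inverse `g : O → W`, so if `y_n → y`, `f y ∈ O`, then `y_n = g (f y_n) → g (f y) ∈ W`).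
-/

set_option autoImplicit false

open Filter Topology Metric Set MeasureTheory

namespace Pool.Agent.H81.RW

open Pool.Agent.H56.TH

/-- `O` is a pull back of `O₁` by `f^[k]` of degree at most `D` -/
structure PO (f : ℂ → ℂ) (N : Set ℂ) (k : ℕ) (O O₁ : Set ℂ) (D : ℝ) : Prop where
  op : IsOpen O
  co : IsPreconnected O
  fu : Full O
  bd : Bornology.IsBounded O
  Nn : ∀ y ∈ closure O, ∀ j < k, f^[j] y ∈ N
  mp : ∀ y ∈ O, f^[k] y ∈ O₁
  fr : ∀ y ∈ frontier O, f^[k] y ∈ frontier O₁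
  ar : ∫⁻ y in O, ENNReal.ofReal (‖deriv (f^[k]) y‖ ^ 2) ≤ ENNReal.ofReal D * volume O₁

variable {f : ℂ → ℂ} {N J P Cr : Set ℂ} {η : ℂ → ℂ → ℂ} {r₀ δ : ℝ} {ρ : ℂ → ENNReal}

private theorem po_absdet (a : ℂ) : |((ContinuousLinearMap.toSpanSingleton ℂ a).restrictScalars ℝ : ℂ →L[ℝ] ℂ).det| = ‖a‖ ^ 2 := by
  have h1 : ((ContinuousLinearMap.toSpanSingleton ℂ a).restrictScalars ℝ : ℂ →L[ℝ] ℂ).det = ‖a‖ ^ 2 := by
    simp [ContinuousLinearMap.det, LinearMap.det_restrictScalars, Algebra.norm_complex_eq, Complex.normSq_eq_norm_sq]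
  rw [h1, abs_of_nonneg (by positivity)]

/-- area of an injective pull back -/
private theorem po_area {A V : Set ℂ} {F G : ℂ → ℂ} (hA : MeasurableSet A) (hd : ∀ y ∈ A, DifferentiableAt ℂ F y)
    (hg : ∀ y ∈ A, DifferentiableAt ℂ G (F y)) (hi : InjOn F A) (hm : ∀ y ∈ A, F y ∈ V) :
    ∫⁻ y in A, ENNReal.ofReal (‖deriv (fun y => G (F y)) y‖ ^ 2) ≤ ∫⁻ x in V, ENNReal.ofReal (‖deriv G x‖ ^ 2) := by
  have h1 := lintegral_image_eq_lintegral_abs_det_fderiv_mul volume hA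
    (f' := fun y => (ContinuousLinearMap.toSpanSingleton ℂ (deriv F y)).restrictScalars ℝ) (f := F)
    (fun y hy => ((((hd y hy).hasDerivAt).hasFDerivAt).restrictScalars ℝ).hasFDerivWithinAt) hi
    (fun x => ENNReal.ofReal (‖deriv G x‖ ^ 2))
  have h2 : ∫⁻ y in A, ENNReal.ofReal (‖deriv (fun y => G (F y)) y‖ ^ 2) = ∫⁻ x in F '' A, ENNReal.ofReal (‖deriv G x‖ ^ 2) := by
    rw [h1]
    refine setLIntegral_congr_fun hA fun y hy => ?_
    beta_reduce
    rw [po_absdet]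
    have h3 : deriv (fun y => G (F y)) y = deriv G (F y) * deriv F y :=
      ((hg y hy).hasDerivAt.comp y (hd y hy).hasDerivAt).deriv
    rw [h3, norm_mul, mul_pow, ENNReal.ofReal_mul (by positivity), mul_comm]
  rw [h2]
  refine lintegral_mono_set ?_
  rintro _ ⟨y, hy, rfl⟩
  exact hm y hy

theorem po_zero {O : Set ℂ} (h1 : IsOpen O) (h2 : IsPreconnected O) (h3 : Full O) (h4 : Bornology.IsBounded O) :
    PO f N 0 O O 1 := by
  refine ⟨h1, h2, h3, h4, fun y _ j hj => absurd hj (Nat.not_lt_zero j), fun y hy => hy, fun y hy => hy, ?_⟩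
  have h5 : ∀ y : ℂ, ENNReal.ofReal (‖deriv (f^[0]) y‖ ^ 2) = 1 := by
    intro y
    have h6 : deriv (f^[0]) y = 1 := by
      rw [Function.iterate_zero]
      exact deriv_id y
    rw [h6, norm_one, one_pow, ENNReal.ofReal_one]
  simp only [h5, lintegral_one, Measure.restrict_apply_univ, ENNReal.ofReal_one, one_mul]
  exact le_rfl

theorem po_mono {k : ℕ} {O O₁ : Set ℂ} {D D' : ℝ} (h : PO f N k O O₁ D) (hD : D ≤ D') : PO f N k O O₁ D' :=
  ⟨h.op, h.co, h.fu, h.bd, h.Nn, h.mp, h.fr, h.ar.trans (by gcongr)⟩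

theorem po_pl (h : WW f N J P Cr η r₀ δ ρ) {w : ℂ → ℝ} (hw : UM P w) {a κ : ℝ} (ha : a < 1) {x : ℂ} {k : ℕ} {b : ℝ} {W : Set ℂ}
    (hP : PL f N w a κ x k b W) {m : ℕ} {O O₁ : Set ℂ} {D : ℝ} (hO : PO f N m O O₁ D) (hOw : ∀ y ∈ O, w y = 1)
    (hx : f^[k] x ∈ O) :
    PO f N (m + k) (W ∩ f^[k] ⁻¹' O) O₁ D ∧ x ∈ W ∩ f^[k] ⁻¹' O ∧
      ∀ y ∈ W ∩ f^[k] ⁻¹' O, pb (f^[k]) W (trc a 1 w) y = 1 := by
  have hwc : Continuous w := ul_cont (ul_um hw)
  have hb1 : b < 1 := hP.ba.trans ha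
  have hcl1 : closure O ⊆ {y | w y = 1} :=
    closure_minimal (fun y hy => hOw y hy) (isClosed_eq hwc continuous_const)
  have hclD : closure O ⊆ {y | b < w y} := fun y hy => by
    have h1 : w y = 1 := hcl1 hy
    show b < w y
    rw [h1]
    exact hb1
  have hOD : O ⊆ {y | b < w y} := subset_closure.trans hclD
  have hK : IsCompact (W ∩ f^[k] ⁻¹' closure O) := bh_cpt hP.bh hclD hO.bd.isCompact_closure
  have hsub : W ∩ f^[k] ⁻¹' O ⊆ W ∩ f^[k] ⁻¹' closure O := fun y hy => ⟨hy.1, subset_closure hy.2⟩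
  have hcl : closure (W ∩ f^[k] ⁻¹' O) ⊆ W ∩ f^[k] ⁻¹' closure O := closure_minimal hsub hK.isClosed
  have hop : IsOpen (W ∩ f^[k] ⁻¹' O) := hP.bh.fd.continuousOn.isOpen_inter_preimage hP.bh.Wo hO.op
  refine ⟨⟨hop, bh_pre hP.bh hOD hO.co, hP.bh.fu O hOD hO.fu, hK.isBounded.subset hsub, ?_, ?_, ?_, ?_⟩, ⟨hP.xW, hx⟩, ?_⟩
  · intro y hy j hj
    obtain ⟨h1, h2⟩ := hcl hy
    rcases Nat.lt_or_ge j k with h3 | h3
    · exact hP.Nn y h1 j h3
    · have h4 := hO.Nn _ h2 (j - k) (by omega)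
      rw [← Function.iterate_add_apply] at h4
      rwa [show j - k + k = j by omega] at h4
  · intro y hy
    rw [Function.iterate_add_apply]
    exact hO.mp _ hy.2
  · intro y hy
    rw [hop.frontier_eq] at hy
    obtain ⟨h1, h2⟩ := hcl hy.1
    rw [Function.iterate_add_apply]
    refine hO.fr _ ?_
    rw [hO.op.frontier_eq]
    exact ⟨h2, fun h3 => hy.2 ⟨h1, h3⟩⟩
  · have h1 : f^[m + k] = fun y => f^[m] (f^[k] y) := by
      funext y
      exact Function.iterate_add_apply f m k y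
    rw [h1]
    refine (po_area (V := O) hop.measurableSet (fun y hy => it_at h k (hP.Nn y hy.1))
      (fun y hy => it_at h m (hO.Nn _ (subset_closure hy.2))) (hP.bh.inj.mono inter_subset_left) (fun y hy => hy.2)).trans hO.ar
  · intro y hy
    rw [pb_on hy.1]
    exact trc_one ha (hOw _ hy.2).ge

private theorem po_io {g : ℂ → ℂ} {y : ℂ} {r : ℝ} (hg : DifferentiableOn ℂ g (ball y r)) (hi : InjOn g (ball y r))
    {D : Set ℂ} (hD : IsOpen D) (hDb : D ⊆ ball y r) : IsOpen (g '' D) :=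
  Pool.Agent.H39.HO.inj_open isOpen_ball hg hi hDb hD

theorem po_cr (h : WW f N J P Cr η r₀ δ ρ) {a : ℂ} (ha : a ∈ Cr) {w : ℂ → ℝ} (hw : UM P w)
    (hs : tsupport w ⊆ ball (f a) (r₀ ^ 2)) {m : ℕ} {O O₁ : Set ℂ} {D : ℝ} (hD : 0 ≤ D) (hO : PO f N m O O₁ D)
    (hOw : ∀ y ∈ O, w y = 1) {x : ℂ} (hx : x ∈ η a '' ball 0 r₀) (hfx : f x ∈ O) :
    ∃ O' : Set ℂ, PO f N (m + 1) O' O₁ (2 * D) ∧ x ∈ O' ∧ O' ⊆ η a '' ball 0 r₀ ∩ f ⁻¹' O := by
  have hwc : Continuous w := ul_cont (ul_um hw)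
  have hr := h.hr
  have hηd := h.ηd a ha
  have hηi := h.ηi a ha
  have he := h.ηv a ha
  have hcl1 : closure O ⊆ {y | w y = 1} :=
    closure_minimal (fun y hy => hOw y hy) (isClosed_eq hwc continuous_const)
  have hclb : closure O ⊆ ball (f a) (r₀ ^ 2) := fun y hy => hs (subset_tsupport _ (by
    have h1 : w y = 1 := hcl1 hy
    rw [Function.mem_support, h1]
    exact one_ne_zero))
  have hOb : O ⊆ ball (f a) (r₀ ^ 2) := subset_closure.trans hclb
  have hsm : ∀ t : ℂ, f a + t ^ 2 ∈ ball (f a) (r₀ ^ 2) → t ∈ ball (0 : ℂ) r₀ := by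
    intro t ht
    rw [mem_ball, dist_eq_norm, add_sub_cancel_left, norm_pow] at ht
    rw [mem_ball, dist_zero_right]
    exact lt_of_pow_lt_pow_left₀ 2 hr.le ht
  -- the compact set
  obtain ⟨K, hKd⟩ : ∃ K : Set ℂ, K = η a '' {t | f a + t ^ 2 ∈ closure O} := ⟨_, rfl⟩
  have hKb : {t : ℂ | f a + t ^ 2 ∈ closure O} ⊆ ball 0 r₀ := fun t ht => hsm t (hclb ht)
  have hK : IsCompact K := by
    have h1 : IsClosed {t : ℂ | f a + t ^ 2 ∈ closure O} :=
      isClosed_closure.preimage (f := fun t : ℂ => f a + t ^ 2) (by fun_prop)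
    have h3 : IsCompact {t : ℂ | f a + t ^ 2 ∈ closure O} :=
      Metric.isCompact_of_isClosed_isBounded h1 (isBounded_ball.subset hKb)
    rw [hKd]
    exact h3.image_of_continuousOn (hηd.continuousOn.mono hKb)
  have hKp : ∀ y ∈ K, y ∈ η a '' ball 0 r₀ ∧ y ∈ N ∧ f y ∈ closure O := by
    intro y hy
    rw [hKd] at hy
    obtain ⟨t, ht, rfl⟩ := hy
    refine ⟨⟨t, hKb ht, rfl⟩, (he t (hKb ht)).1, ?_⟩
    rw [(he t (hKb ht)).2]
    exact ht
  -- the reduction
  have red : ∀ O' : Set ℂ, IsOpen O' → IsPreconnected O' → Full O' → O' ⊆ η a '' ball 0 r₀ ∩ f ⁻¹' O → x ∈ O' →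
      (∀ y ∈ closure O', f y ∈ O → y ∈ N → y ∈ η a '' ball 0 r₀ → y ∈ O') →
      (∫⁻ y in O', ENNReal.ofReal (‖deriv (fun y => f^[m] (f y)) y‖ ^ 2) ≤
        2 * ∫⁻ x in O, ENNReal.ofReal (‖deriv (f^[m]) x‖ ^ 2)) →
      ∃ O' : Set ℂ, PO f N (m + 1) O' O₁ (2 * D) ∧ x ∈ O' ∧ O' ⊆ η a '' ball 0 r₀ ∩ f ⁻¹' O := by
    intro O' h1 h2 h3 h4 h5 h6 h7
    have hsub : O' ⊆ K := by
      intro y hy
      obtain ⟨⟨t, ht, rfl⟩, h8⟩ := h4 hy
      have h9 : f (η a t) ∈ O := h8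
      rw [(he t ht).2] at h9
      rw [hKd]
      exact ⟨t, subset_closure h9, rfl⟩
    have hcl : closure O' ⊆ K := closure_minimal hsub hK.isClosed
    refine ⟨O', ⟨h1, h2, h3, hK.isBounded.subset hsub, ?_, ?_, ?_, ?_⟩, h5, h4⟩
    · intro y hy j hj
      obtain ⟨-, h8, h9⟩ := hKp y (hcl hy)
      rcases Nat.eq_zero_or_pos j with rfl | hj0
      · exact h8
      · obtain ⟨i, rfl⟩ : ∃ i, j = i + 1 := ⟨j - 1, by omega⟩
        rw [Function.iterate_succ_apply]
        exact hO.Nn _ h9 i (by omega)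
    · intro y hy
      rw [Function.iterate_succ_apply]
      exact hO.mp _ (h4 hy).2
    · intro y hy
      rw [h1.frontier_eq] at hy
      obtain ⟨h7, h8, h9⟩ := hKp y (hcl hy.1)
      rw [Function.iterate_succ_apply]
      refine hO.fr _ ?_
      rw [hO.op.frontier_eq]
      exact ⟨h9, fun h10 => hy.2 (h6 y hy.1 h10 h8 h7)⟩
    · have e1 : f^[m + 1] = fun y => f^[m] (f y) := by
        funext y
        exact Function.iterate_succ_apply f m y
      rw [e1]
      refine h7.trans ?_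
      rw [ENNReal.ofReal_mul (by norm_num), ENNReal.ofReal_ofNat, mul_assoc]
      gcongr
      exact hO.ar
  by_cases hv : f a ∈ O
  · obtain ⟨T, hT⟩ : ∃ T : Set ℂ, T = {t : ℂ | f a + t ^ 2 ∈ O} := ⟨_, rfl⟩
    have hTo : IsOpen T := by
      rw [hT]
      exact hO.op.preimage (f := fun t : ℂ => f a + t ^ 2) (by fun_prop)
    have hTb : T ⊆ ball 0 r₀ := fun t ht => by
      rw [hT] at ht
      exact hsm t (hOb ht)
    have hop : IsOpen (η a '' T) := po_io hηd hηi hTo hTb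
    refine red (η a '' T) hop ?_ ?_ ?_ ?_ ?_ ?_
    · rw [hT]
      exact (sq_pre hO.op hO.co hv).image _ (hηd.continuousOn.mono (by rw [← hT]; exact hTb))
    · exact img_full hηd hηi hTb (by rw [hT]; exact sq_full hO.fu)
    · rintro _ ⟨t, ht, rfl⟩
      refine ⟨⟨t, hTb ht, rfl⟩, ?_⟩
      show f (η a t) ∈ O
      rw [(he t (hTb ht)).2]
      rw [hT] at ht
      exact ht
    · obtain ⟨t, ht, rfl⟩ := hx
      refine ⟨t, ?_, rfl⟩
      rw [hT]
      show f a + t ^ 2 ∈ O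
      rw [← (he t ht).2]
      exact hfx
    · rintro y - hy - ⟨t, ht, rfl⟩
      refine ⟨t, ?_, rfl⟩
      rw [hT]
      show f a + t ^ 2 ∈ O
      rw [← (he t ht).2]
      exact hy
    · -- area
      obtain ⟨A1, hA1⟩ : ∃ A1 : Set ℂ, A1 = η a '' (T ∩ {t | 0 < t.im}) := ⟨_, rfl⟩
      obtain ⟨A2, hA2⟩ : ∃ A2 : Set ℂ, A2 = η a '' (T ∩ {t | t.im < 0}) := ⟨_, rfl⟩
      obtain ⟨A0, hA0⟩ : ∃ A0 : Set ℂ, A0 = η a '' (ball 0 r₀ ∩ {t | t.im = 0}) := ⟨_, rfl⟩
      have o1 : IsOpen (T ∩ {t : ℂ | 0 < t.im}) := hTo.inter (isOpen_lt continuous_const Complex.continuous_im)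
      have o2 : IsOpen (T ∩ {t : ℂ | t.im < 0}) := hTo.inter (isOpen_lt Complex.continuous_im continuous_const)
      have m1 : MeasurableSet A1 := by
        rw [hA1]
        exact (po_io hηd hηi o1 (inter_subset_left.trans hTb)).measurableSet
      have m2 : MeasurableSet A2 := by
        rw [hA2]
        exact (po_io hηd hηi o2 (inter_subset_left.trans hTb)).measurableSet
      have hcov : η a '' T ⊆ A1 ∪ (A2 ∪ A0) := by
        rintro _ ⟨t, ht, rfl⟩
        rcases lt_trichotomy t.im 0 with h1 | h1 | h1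
        · right; left
          rw [hA2]
          exact ⟨t, ⟨ht, h1⟩, rfl⟩
        · right; right
          rw [hA0]
          exact ⟨t, ⟨hTb ht, h1⟩, rfl⟩
        · left
          rw [hA1]
          exact ⟨t, ⟨ht, h1⟩, rfl⟩
      have hN0 : volume A0 = 0 := by
        rw [hA0]
        apply addHaar_image_eq_zero_of_differentiableOn_of_addHaar_eq_zero
        · exact (hηd.mono inter_subset_left).restrictScalars ℝ
        · refine measure_mono_null inter_subset_right ?_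
          have h3 : {x : ℂ | x.im = 0} = (LinearMap.ker Complex.imLm : Set ℂ) := by
            ext x
            simp
          rw [h3]
          apply Measure.addHaar_submodule
          intro h4
          have h5 : Complex.I ∈ LinearMap.ker Complex.imLm := by
            rw [h4]
            trivial
          simp at h5
      -- one half
      have half : ∀ B : Set ℂ, B ⊆ T → (∀ t ∈ B, ∀ t' ∈ B, t ≠ -t') → MeasurableSet (η a '' B) →
          ∫⁻ y in η a '' B, ENNReal.ofReal (‖deriv (fun y => f^[m] (f y)) y‖ ^ 2) ≤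
            ∫⁻ x in O, ENNReal.ofReal (‖deriv (f^[m]) x‖ ^ 2) := by
        intro B hB hBn hBm
        have hfO : ∀ y ∈ η a '' B, f y ∈ O := by
          rintro _ ⟨t, ht, rfl⟩
          rw [(he t (hTb (hB ht))).2]
          have h1 := hB ht
          rw [hT] at h1
          exact h1
        refine po_area hBm ?_ ?_ ?_ hfO
        · rintro _ ⟨t, ht, rfl⟩
          exact h.fd.differentiableAt (h.No.mem_nhds (he t (hTb (hB ht))).1)
        · intro y hy
          exact it_at h m (hO.Nn _ (subset_closure (hfO y hy)))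
        · rintro _ ⟨t, ht, rfl⟩ _ ⟨t', ht', rfl⟩ hh
          rw [(he t (hTb (hB ht))).2, (he t' (hTb (hB ht'))).2] at hh
          rcases sq_eq_sq_iff_eq_or_eq_neg.1 (add_left_cancel hh) with h1 | h1
          · rw [h1]
          · exact absurd h1 (hBn t ht t' ht')
      have b1 : ∫⁻ y in A1, ENNReal.ofReal (‖deriv (fun y => f^[m] (f y)) y‖ ^ 2) ≤
            ∫⁻ x in O, ENNReal.ofReal (‖deriv (f^[m]) x‖ ^ 2) := by
        rw [hA1] at m1 ⊢
        refine half _ inter_subset_left (fun t ht t' ht' hh => ?_) m1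
        have h1 : 0 < t.im := ht.2
        have h2 : 0 < t'.im := ht'.2
        rw [hh, Complex.neg_im] at h1
        linarith
      have b2 : ∫⁻ y in A2, ENNReal.ofReal (‖deriv (fun y => f^[m] (f y)) y‖ ^ 2) ≤
            ∫⁻ x in O, ENNReal.ofReal (‖deriv (f^[m]) x‖ ^ 2) := by
        rw [hA2] at m2 ⊢
        refine half _ inter_subset_left (fun t ht t' ht' hh => ?_) m2
        have h1 : t.im < 0 := ht.2
        have h2 : t'.im < 0 := ht'.2
        rw [hh, Complex.neg_im] at h1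
        linarith
      have b0 : ∫⁻ y in A0, ENNReal.ofReal (‖deriv (fun y => f^[m] (f y)) y‖ ^ 2) = 0 := by
        rw [Measure.restrict_eq_zero.2 hN0, lintegral_zero_measure]
      calc ∫⁻ y in η a '' T, ENNReal.ofReal (‖deriv (fun y => f^[m] (f y)) y‖ ^ 2)
          ≤ ∫⁻ y in A1 ∪ (A2 ∪ A0), ENNReal.ofReal (‖deriv (fun y => f^[m] (f y)) y‖ ^ 2) := lintegral_mono_set hcov
        _ ≤ (∫⁻ y in A1, ENNReal.ofReal (‖deriv (fun y => f^[m] (f y)) y‖ ^ 2)) +
            ∫⁻ y in A2 ∪ A0, ENNReal.ofReal (‖deriv (fun y => f^[m] (f y)) y‖ ^ 2) := lintegral_union_le _ _ _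
        _ ≤ (∫⁻ y in A1, ENNReal.ofReal (‖deriv (fun y => f^[m] (f y)) y‖ ^ 2)) +
            ((∫⁻ y in A2, ENNReal.ofReal (‖deriv (fun y => f^[m] (f y)) y‖ ^ 2)) +
              ∫⁻ y in A0, ENNReal.ofReal (‖deriv (fun y => f^[m] (f y)) y‖ ^ 2)) :=
            add_le_add le_rfl (lintegral_union_le _ _ _)
        _ ≤ (∫⁻ x in O, ENNReal.ofReal (‖deriv (f^[m]) x‖ ^ 2)) + ((∫⁻ x in O, ENNReal.ofReal (‖deriv (f^[m]) x‖ ^ 2)) + 0) :=
            add_le_add b1 (add_le_add b2 b0.le)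
        _ = 2 * ∫⁻ x in O, ENNReal.ofReal (‖deriv (f^[m]) x‖ ^ 2) := by rw [add_zero, two_mul]
  · obtain ⟨W, hW, hxW, hWs⟩ := bh_rt h.No h.fd hηd hηi he hO.op hO.co hO.fu hOb hv hx hfx
    have hWO : ∀ y ∈ W, f y ∈ O := fun y hy => hW.img ▸ mem_image_of_mem f hy
    refine red W hW.Wo ?_ ?_ (fun y hy => ⟨hWs hy, hWO y hy⟩) hxW ?_ ?_
    · have h1 := bh_pre hW (V := O) subset_rfl hO.co
      have h2 : W ∩ f ⁻¹' O = W := inter_eq_left.2 hWO
      rwa [h2] at h1
    · have h1 := hW.fu O subset_rfl hO.fu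
      have h2 : W ∩ f ⁻¹' O = W := inter_eq_left.2 hWO
      rwa [h2] at h1
    · intro y hy hyO hyN _
      obtain ⟨g, hgd, -, hg1, hg2⟩ := bh_inv hW
      obtain ⟨u, hu1, hu2⟩ := mem_closure_iff_seq_limit.1 hy
      have hfc : ContinuousAt f y := (h.fd.differentiableAt (h.No.mem_nhds hyN)).continuousAt
      have h1 : Tendsto (fun n => f (u n)) atTop (𝓝 (f y)) := hfc.tendsto.comp hu2
      have hgc : ContinuousAt g (f y) := hgd.continuousOn.continuousAt (hO.op.mem_nhds hyO)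
      have h2 : Tendsto (fun n => g (f (u n))) atTop (𝓝 (g (f y))) := hgc.tendsto.comp h1
      have h3 : Tendsto u atTop (𝓝 (g (f y))) := h2.congr fun n => hg1 _ (hu1 n)
      rw [tendsto_nhds_unique hu2 h3]
      exact (hg2 _ hyO).1
    · refine (po_area (V := O) hW.Wo.measurableSet (fun y hy => ?_) (fun y hy => ?_) hW.inj hWO).trans ?_
      · obtain ⟨t, ht, rfl⟩ := hWs hy
        exact h.fd.differentiableAt (h.No.mem_nhds (he t ht).1)
      · exact it_at h m (hO.Nn _ (subset_closure (hWO y hy)))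
      · rw [two_mul]
        exact le_self_add

end Pool.Agent.H81.RW
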