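import Pool.Agent.H81.RW.Arc
import Pool.Agent.H81.RW.Po
import Pool.Agent.H81.RW.Wkc
import Pool.Agent.H80.AJ.Cover
import Pool.Agent.H39.HO.PB

/-!
# Module Fa (LW): A FRAME AT THE FRONTIER OF THE BASE DOMAIN

`O` a pull back of degree at most `D` of `O₁` along the orbit of `z ∈ O`; the frontier of `O₁` is off `P`: then `z` has a frame at a point `x` of the frontier of `O₁`, with constants depending only on `A`, `D`, and `g x ∈ frontier O`.
PROOF. `F = f^[m]`. `y₀ ∈ frontier O` the nearest point of `Oᶜ` to `z`: `ball z d ⊆ O`, `d = ‖y₀ - z‖`. `κ = 1 / (64 KK)`; `e ∈ (0, 1)` with `sqrt (7 (D π A ^ 2 + 1) / log (1 / e)) = κ`.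
`arc`: `s`, `α`; `x₂ = α 1 ∈ frontier O`, `p₂ = F x₂ ∈ frontier O₁`. All `F (α t)` are in `closedBall p₂ (κ R)`. Branch `G` of `f^(-m)` on `ball p₂ R` with `G p₂ = x₂`. LIFT (`fa_lift`): `G (F (α t)) = α t` for all `t ∈ Icc 0 1`.
So `α 0 = G p₁`, `‖p₁ - p₂‖ ≤ κ R`, `s ≤ ‖α 0 - α 1‖ ≤ KK κ R ‖G' p₂‖` (`distort_lip`), `cover`: `y₀ = G p₀`, `p₀ ∈ ball p₂ (R / 2)`, `p₀ = F y₀ ∈ frontier O₁`. The frame: branch `g` on `ball p₀ R` with `g p₀ = y₀`; `deriv g p₀ = deriv G p₀` (`br_der`), `distort`.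
SHEET (`fa_sheet`): `f^[m - 1]` maps `closure O` to the chart.
-/

set_option autoImplicit false

open Filter Topology Metric Set MeasureTheory

namespace Pool.Agent.H81.RW

open Pool.Agent.H80.AJ

private theorem fa_lift {F G : ℂ → ℂ} {p₂ : ℂ} {R : ℝ} (hGd : DifferentiableOn ℂ G (ball p₂ R))
    (hGF : ∀ u ∈ ball p₂ R, F (G u) = u) {α : ℝ → ℂ} (hα : ContinuousOn α (Icc 0 1))
    (hF : ContinuousOn (fun t => F (α t)) (Icc 0 1)) (hin : ∀ t ∈ Icc (0 : ℝ) 1, F (α t) ∈ ball p₂ R)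
    (h1 : G (F (α 1)) = α 1) : ∀ t ∈ Icc (0 : ℝ) 1, G (F (α t)) = α t := by
  have hGi : InjOn G (ball p₂ R) := fun u hu u' hu' he => by rw [← hGF u hu, ← hGF u' hu', he]
  have hV : IsOpen (G '' ball p₂ R) := Pool.Agent.H39.HO.inj_open isOpen_ball hGd hGi subset_rfl isOpen_ball
  have hVG : ∀ y ∈ G '' ball p₂ R, G (F y) = y := by
    rintro _ ⟨u, hu, rfl⟩
    rw [hGF u hu]
  have hcont : ContinuousOn (fun t => G (F (α t)) - α t) (Icc 0 1) :=
    (hGd.continuousOn.comp hF fun t ht => hin t ht).sub hα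
  have hpre : IsPreconnected (Icc (0 : ℝ) 1) := isPreconnected_Icc
  -- the set is relatively open and closed
  obtain ⟨V1, hV1, hV1e⟩ := continuousOn_iff'.1 hα _ hV
  obtain ⟨V2, hV2, hV2e⟩ := continuousOn_iff'.1 hcont _ (isOpen_compl_singleton (x := (0 : ℂ)))
  have hA : ∀ t ∈ Icc (0 : ℝ) 1, t ∈ V1 ↔ α t ∈ G '' ball p₂ R := by
    intro t ht
    have := Set.ext_iff.1 hV1e t
    simp only [mem_inter_iff, mem_preimage] at this
    constructor
    · intro h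
      exact (this.2 ⟨h, ht⟩).1
    · intro h
      exact (this.1 ⟨h, ht⟩).1
  have hB : ∀ t ∈ Icc (0 : ℝ) 1, t ∈ V2 ↔ G (F (α t)) ≠ α t := by
    intro t ht
    have := Set.ext_iff.1 hV2e t
    simp only [mem_inter_iff, mem_preimage, mem_compl_iff, mem_singleton_iff, sub_eq_zero] at this
    constructor
    · intro h
      exact (this.2 ⟨h, ht⟩).1
    · intro h
      exact (this.1 ⟨h, ht⟩).1
  by_contra hcon
  push Not at hcon
  obtain ⟨t₀, ht₀, hne⟩ := hcon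
  have h11 : (1 : ℝ) ∈ Icc (0 : ℝ) 1 := ⟨zero_le_one, le_rfl⟩
  obtain ⟨t, ht, ht1, ht2⟩ := hpre V1 V2 hV1 hV2 (fun t ht => by
    by_cases he : G (F (α t)) = α t
    · left
      rw [hA t ht, ← he]
      exact mem_image_of_mem G (hin t ht)
    · right
      rw [hB t ht]
      exact he) ⟨1, h11, (hA 1 h11).2 (by rw [← h1]; exact mem_image_of_mem G (hin 1 h11))⟩ ⟨t₀, ht₀, (hB t₀ ht₀).2 hne⟩
  exact (hB t ht).1 ht2 (hVG _ ((hA t ht).1 ht1))

private theorem fa_sheet {f : ℂ → ℂ} {N P T : Set ℂ} {v : ℂ} {η : ℂ → ℂ} {r₀ : ℝ} (h : WK f N P T v η r₀) {O O₁ : Set ℂ}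
    {z : ℂ} {m : ℕ} {D : ℝ} (hm : 1 ≤ m) (hO : PO f N m O O₁ D) (hz : z ∈ O) (hzc : f^[m - 1] z ∈ η '' ball 0 r₀)
    (hb : Bornology.IsBounded O₁) (hcl : closure O₁ ⊆ ball v (r₀ ^ 2)) : ∀ y ∈ closure O, f^[m - 1] y ∈ η '' ball 0 r₀ := by
  obtain ⟨l, rfl⟩ : ∃ l, m = l + 1 := ⟨m - 1, by omega⟩
  rw [Nat.add_sub_cancel] at hzc ⊢
  have hr := h.hr
  have hcomp : IsCompact (closure O₁) := hb.isCompact_closure
  have hFcl : ∀ y ∈ closure O, f^[l + 1] y ∈ closure O₁ := by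
    intro y hy
    by_cases hyO : y ∈ O
    · exact subset_closure (hO.mp y hyO)
    · exact frontier_subset_closure (hO.fr y ⟨hy, by rwa [hO.op.interior_eq]⟩)
  have hne : (closure O₁).Nonempty := ⟨_, hFcl z (subset_closure hz)⟩
  obtain ⟨p, hp, hpm⟩ := hcomp.exists_isMaxOn hne (f := fun y => dist y v) (by fun_prop)
  have hpr : dist p v < r₀ ^ 2 := mem_ball.1 (hcl hp)
  obtain ⟨r₁, hr₁⟩ : ∃ r₁ : ℝ, r₁ = Real.sqrt (dist p v) := ⟨_, rfl⟩
  have hr1lt : r₁ < r₀ := by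
    rw [hr₁, ← Real.sqrt_sq hr.le]
    exact Real.sqrt_lt_sqrt dist_nonneg hpr
  have hr1sq : r₁ ^ 2 = dist p v := by rw [hr₁, Real.sq_sqrt dist_nonneg]
  have hr10 : 0 ≤ r₁ := by rw [hr₁]; exact Real.sqrt_nonneg _
  have hkey : ∀ y ∈ closure O, f^[l] y ∈ η '' ball 0 r₀ → f^[l] y ∈ η '' closedBall 0 r₁ := by
    rintro y hy ⟨t, ht, hty⟩
    refine ⟨t, ?_, hty⟩
    have h1 : f^[l + 1] y = v + t ^ 2 := by
      rw [Function.iterate_succ_apply', ← hty]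
      exact (h.ηv t ht).2
    have h2 : dist (f^[l + 1] y) v ≤ dist p v := hpm (hFcl y hy)
    rw [h1, dist_eq_norm, add_sub_cancel_left, norm_pow, ← hr1sq] at h2
    rw [mem_closedBall_zero_iff]
    exact le_of_sq_le_sq' h2 hr10
  have hcont : ContinuousOn (f^[l]) (closure O) := fun y hy =>
    (wk_at h l (fun j hj => hO.Nn y hy j (by omega))).continuousAt.continuousWithinAt
  have hS : IsPreconnected (f^[l] '' closure O) := hO.co.closure.image _ hcont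
  have hA : IsOpen (η '' ball 0 r₀) := Pool.Agent.H39.HO.inj_open isOpen_ball h.ηd h.ηi subset_rfl isOpen_ball
  have hB : IsClosed (η '' closedBall 0 r₁) :=
    ((isCompact_closedBall (0 : ℂ) r₁).image_of_continuousOn
      (h.ηd.continuousOn.mono (closedBall_subset_ball hr1lt))).isClosed
  have hsub : η '' closedBall 0 r₁ ⊆ η '' ball 0 r₀ := image_mono (closedBall_subset_ball hr1lt)
  intro y hy
  by_contra hcon
  have hcon' : f^[l] y ∉ η '' closedBall 0 r₁ := fun h' => hcon (hsub h')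
  obtain ⟨w, ⟨x, hx, rfl⟩, hw1, hw2⟩ := hS (η '' ball 0 r₀) (η '' closedBall 0 r₁)ᶜ hA hB.isOpen_compl (by
    rintro _ ⟨x, hx, rfl⟩
    by_cases h' : f^[l] x ∈ η '' ball 0 r₀
    · exact Or.inl h'
    · exact Or.inr fun h'' => h' (hsub h'')) ⟨f^[l] z, ⟨z, subset_closure hz, rfl⟩, hzc⟩ ⟨f^[l] y, ⟨y, hy, rfl⟩, hcon'⟩
  exact hw2 (hkey x hx hw1)
where
  le_of_sq_le_sq' {a b : ℝ} (h : a ^ 2 ≤ b ^ 2) (hb : 0 ≤ b) : a ≤ b := by
    by_contra hlt
    push Not at hlt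
    nlinarith

theorem fa {A D : ℝ} (hA : 0 < A) (hD : 0 < D) : ∃ C' : ℝ, 0 ≤ C' ∧ ∀ {f : ℂ → ℂ} {N P T : Set ℂ} {v : ℂ} {η : ℂ → ℂ} {r₀ : ℝ},
    WK f N P T v η r₀ → ∀ {O O₁ : Set ℂ} {R : ℝ} {z : ℂ} {m : ℕ}, 0 < R → 1 ≤ m → PO f N m O O₁ D → z ∈ O →
    f^[m - 1] z ∈ η '' ball 0 r₀ → O₁ ⊆ closedBall v (A * R) → closure O₁ ⊆ ball v (r₀ ^ 2) →
    (∀ p ∈ frontier O₁, ball p R ⊆ T ∧ Disjoint (ball p R) P ∧ ball p R ⊆ ball v (r₀ ^ 2)) →
    ∃ x ∈ frontier O₁, ∃ g : ℂ → ℂ, Fr f N η r₀ z m x R C' g ∧ g x ∈ frontier O := by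
  have hK := one_le_KK
  have hK0 := KK_pos
  obtain ⟨κ, hκ⟩ : ∃ κ : ℝ, κ = 1 / (64 * KK) := ⟨_, rfl⟩
  have hκ0 : 0 < κ := by rw [hκ]; positivity
  have hκ1 : κ ≤ 1 / 64 := by
    rw [hκ]
    exact one_div_le_one_div_of_le (by norm_num) (by linarith)
  obtain ⟨B, hB⟩ : ∃ B : ℝ, B = D * Real.pi * A ^ 2 + 1 := ⟨_, rfl⟩
  have hB0 : 0 < B := by
    rw [hB]
    have := Real.pi_pos
    positivity
  obtain ⟨e, he⟩ : ∃ e : ℝ, e = Real.exp (-(7 * B / κ ^ 2)) := ⟨_, rfl⟩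
  have he0 : 0 < e := by rw [he]; exact Real.exp_pos _
  have he1 : e < 1 := by
    rw [he, Real.exp_lt_one_iff]
    have : 0 < 7 * B / κ ^ 2 := by positivity
    linarith
  have hlog : Real.log (1 / e) = 7 * B / κ ^ 2 := by
    rw [one_div, Real.log_inv, he, Real.log_exp, neg_neg]
  refine ⟨KK * KK * κ / e, by positivity, ?_⟩
  intro f N P T v η r₀ h O O₁ R z m hR hm hO hz hzc hOb hcl hfr
  obtain ⟨F, hF⟩ : ∃ F, F = f^[m] := ⟨_, rfl⟩
  have hFat : ∀ y ∈ closure O, DifferentiableAt ℂ F y := fun y hy => by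
    rw [hF]
    exact wk_at h m (hO.Nn y hy)
  have hFc : ContinuousOn F (closure O) := fun y hy => (hFat y hy).continuousAt.continuousWithinAt
  have hFd : DifferentiableOn ℂ F O := fun y hy => (hFat y (subset_closure hy)).differentiableWithinAt
  have hOne : (Oᶜ).Nonempty := by
    rw [nonempty_compl]
    intro hu
    have := hO.bd
    rw [hu] at this
    have h2 := this.isCompact_closure
    rw [closure_univ] at h2
    exact noncompact_univ ℂ h2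
  obtain ⟨y₀, hy₀, hy₀d⟩ := hO.op.isClosed_compl.exists_infDist_eq_dist hOne z
  have hd : 0 < ‖y₀ - z‖ := by
    rw [norm_pos_iff, sub_ne_zero]
    rintro rfl
    exact hy₀ hz
  have hball : ball z ‖y₀ - z‖ ⊆ O := by
    intro y hy
    by_contra hyO
    have h1 : infDist z Oᶜ ≤ dist z y := infDist_le_dist_of_mem hyO
    rw [hy₀d, dist_comm z y₀, dist_eq_norm, dist_comm z y] at h1
    exact absurd (mem_ball.1 hy) (not_lt.2 h1)
  have hy₀c : y₀ ∈ closure O := by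
    have h1 : y₀ ∈ closedBall z ‖y₀ - z‖ := by rw [mem_closedBall_iff_norm]
    rw [← closure_ball z hd.ne'] at h1
    exact closure_mono hball h1
  have hy₀f : y₀ ∈ frontier O := ⟨hy₀c, by rw [hO.op.interior_eq]; exact hy₀⟩
  -- the area
  have hvol : volume O₁ ≤ ENNReal.ofReal (Real.pi * (A * R) ^ 2) := by
    refine (measure_mono hOb).trans ?_
    rw [Complex.volume_closedBall, ENNReal.ofReal_mul Real.pi_pos.le, ENNReal.ofReal_pow (by positivity), mul_comm]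
    gcongr
    rw [← NNReal.coe_real_pi, ENNReal.ofReal_coe_nnreal]
  have har : ∫⁻ y in O, ENNReal.ofReal (‖deriv F y‖ ^ 2) ≤ ENNReal.ofReal (R ^ 2 * B) := by
    rw [hF]
    refine hO.ar.trans ?_
    refine (mul_le_mul_right hvol _).trans ?_
    rw [← ENNReal.ofReal_mul hD.le]
    refine ENNReal.ofReal_le_ofReal ?_
    rw [hB]
    nlinarith [sq_nonneg R]
  obtain ⟨s, α, hs1, hs2, hαc, hαO, hα1, hαs, hα0, hαF⟩ :=
    arc hO.op hO.bd hO.fu hFd hFc (A := R ^ 2 * B) (by positivity) har hz hy₀ hball he0 he1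
  have hsq : Real.sqrt (7 * (R ^ 2 * B) / Real.log (1 / e)) = κ * R := by
    rw [hlog]
    have e1 : 7 * (R ^ 2 * B) / (7 * B / κ ^ 2) = (κ * R) ^ 2 := by
      field_simp
    rw [e1, Real.sqrt_sq (by positivity)]
  rw [hsq] at hαF
  have hα1c : α 1 ∈ closure O := frontier_subset_closure hα1
  have hαcl : ∀ t ∈ Icc (0 : ℝ) 1, α t ∈ closure O := by
    intro t ht
    rcases eq_or_lt_of_le ht.2 with h1 | h1
    · rw [h1]
      exact hα1c
    · exact subset_closure (hαO t ⟨ht.1, h1⟩)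
  obtain ⟨p₂, hp₂⟩ : ∃ p₂, p₂ = F (α 1) := ⟨_, rfl⟩
  have hp₂f : p₂ ∈ frontier O₁ := by rw [hp₂, hF]; exact hO.fr _ hα1
  obtain ⟨hT2, hP2, -⟩ := hfr p₂ hp₂f
  obtain ⟨G, hGd, hG1, hGf⟩ := h.br m p₂ (α 1) R hT2 hP2 (hO.Nn _ hα1c) (by
    rw [← hF, ← hp₂]
    exact mem_ball_self hR)
  rw [← hF, ← hp₂] at hG1
  have hGF : ∀ u ∈ ball p₂ R, F (G u) = u := fun u hu => by rw [hF]; exact (hGf u hu).2
  have hGi : InjOn G (ball p₂ R) := fun u hu u' hu' he => by rw [← hGF u hu, ← hGF u' hu', he]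
  have hin : ∀ t ∈ Icc (0 : ℝ) 1, F (α t) ∈ closedBall p₂ (κ * R) := by
    intro t ht
    rw [mem_closedBall_iff_norm, hp₂]
    exact hαF t ht
  have hκR : κ * R < R := by nlinarith
  have hlift := fa_lift hGd hGF hαc (hFc.comp hαc hαcl) (fun t ht => closedBall_subset_ball hκR (hin t ht)) (by
    rw [← hp₂, hG1])
  have h00 : (0 : ℝ) ∈ Icc (0 : ℝ) 1 := ⟨le_rfl, zero_le_one⟩
  have hc2 : p₂ ∈ closedBall p₂ (R / 2) := mem_closedBall_self (by positivity)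
  have hp1 : F (α 0) ∈ closedBall p₂ (R / 2) := closedBall_subset_closedBall (by nlinarith) (hin 0 h00)
  -- the size of `s`
  have hs3 : s ≤ KK * ‖deriv G p₂‖ * (κ * R) := by
    refine hα0.trans ?_
    rw [← hlift 0 h00, ← hG1]
    refine (distort_lip hR hGd hGi hp1 hc2 hc2).trans ?_
    refine mul_le_mul_of_nonneg_left ?_ (by positivity)
    have := hin 0 h00
    rwa [mem_closedBall_iff_norm] at this
  have hGp : 0 < ‖deriv G p₂‖ := deriv_ne hR hGd hGi hc2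
  have hy₀G : y₀ ∈ G '' ball p₂ (R / 2) := by
    refine univ_cover (by positivity) (hGd.mono (ball_subset_ball (by linarith))) (hGi.mono (ball_subset_ball (by linarith))) ?_
    rw [mem_ball_iff_norm, hG1, norm_sub_rev]
    have h11 : (1 : ℝ) ∈ Icc (0 : ℝ) 1 := ⟨zero_le_one, le_rfl⟩
    rw [hαs 1 h11]
    refine hs3.trans_lt ?_
    have e1 : KK * ‖deriv G p₂‖ * (κ * R) = R * ‖deriv G p₂‖ / 64 := by
      rw [hκ]
      field_simp
    rw [e1]
    have : 0 < R * ‖deriv G p₂‖ := by positivity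
    linarith
  obtain ⟨p₀, hp₀, hp₀y⟩ := hy₀G
  have hp₀b : p₀ ∈ ball p₂ R := ball_subset_ball (by linarith) hp₀
  have hFy : F y₀ = p₀ := by rw [← hp₀y, hGF p₀ hp₀b]
  have hp₀f : p₀ ∈ frontier O₁ := by rw [← hFy, hF]; exact hO.fr _ hy₀f
  obtain ⟨hT0, hP0, hb0⟩ := hfr p₀ hp₀f
  obtain ⟨g, hgd, hg1, hgf⟩ := h.br m p₀ y₀ R hT0 hP0 (hO.Nn _ hy₀c) (by
    rw [← hF, hFy]
    exact mem_ball_self hR)
  rw [← hF, hFy] at hg1
  have hder : deriv G p₀ = deriv g p₀ :=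
    br_der h (mem_ball_self hR) hp₀b hgd hGd hgf hGf (by rw [hp₀y, hg1])
  have hdis : ‖deriv G p₂‖ ≤ KK * ‖deriv G p₀‖ := distort hR hGd hGi hc2 (ball_subset_closedBall hp₀)
  have hsheet := fa_sheet h hm hO hz hzc (isBounded_closedBall.subset hOb) hcl
  refine ⟨p₀, hp₀f, g, ⟨hgd, hgf, ?_, ?_⟩, by rw [hg1]; exact hy₀f⟩
  · rw [hg1, ← hder]
    have h1 : ‖y₀ - z‖ ≤ s / e := by
      rw [le_div_iff₀ he0, mul_comm]
      exact hs1.le
    refine h1.trans ?_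
    rw [div_mul_eq_mul_div]
    refine div_le_div_of_nonneg_right ?_ he0.le
    calc s ≤ KK * ‖deriv G p₂‖ * (κ * R) := hs3
      _ ≤ KK * (KK * ‖deriv G p₀‖) * (κ * R) := by gcongr
      _ = KK * KK * κ * (R * ‖deriv G p₀‖) := by ring
  · have hvb : v ∉ ball p₀ R := fun hv => Set.disjoint_left.1 hP0 hv h.vP
    obtain ⟨l, hl⟩ : ∃ l, m = l + 1 := ⟨m - 1, by omega⟩
    subst hl
    rw [Nat.add_sub_cancel] at hsheet ⊢
    refine sheet h hR hvb hb0 (k := fun u => f^[l] (g u)) ?_ ?_ (mem_ball_self hR) ?_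
    · intro u hu
      exact ((wk_at h l fun j hj => (hgf u hu).1 j (by omega)).comp u
        (hgd.differentiableAt (isOpen_ball.mem_nhds hu))).differentiableWithinAt
    · intro u hu
      refine ⟨(hgf u hu).1 l (Nat.lt_succ_self l), ?_⟩
      show f (f^[l] (g u)) = u
      rw [← Function.iterate_succ_apply' f l]
      exact (hgf u hu).2
    · show f^[l] (g p₀) ∈ η '' ball 0 r₀
      rw [hg1]
      exact hsheet y₀ hy₀c

end Pool.Agent.H81.RW
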