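import Pool.Agent.H81.RW.Cuta
import Pool.Agent.H81.RW.Gdw
import Pool.Agent.H47.LW.Rad

/-!
# Module Sgm (LW): FROM A LEVEL SET TO THE CIRCLE

PROOF. `Ω = {s < u}`: open, connected, full, bounded, contains `v` (`u v = 1`). `closure Ω ⊆ {s ≤ u} ⊆ {1 / 3 < u}`, compact. `x* ∈ closure Ω` with `‖g x*‖` maximal (`g` is continuous on `{1 / 3 < u}`), `ρ* = ‖g x*‖ < t₁` by `hθ` (`ψ (g x*) = x*`, `u x* ≥ s ≥ 1 / 2`). `ρ* > 0`: `g` is injective on the open nonempty set `Ω`.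
`x* ∈ frontier Ω`: if `x* ∈ Ω` then `g '' Ω` is open (`g` is holomorphic and injective on the open set `{1 / 3 < u}`; `H39/HO inj_open`) and contains a point of larger norm. `e = g x* / ρ*`, `σ = (fun t : ℝ => ψ (t * e)) '' Icc ρ* t₁` (preconnected, contains `x*` for `t = ρ*`). For `t > ρ*`: `g (ψ (t e)) = t e` has norm `t > ρ*`, so `ψ (t e) ∉ closure Ω`, `u ≤ s ≤ 3 / 4`; and `1 / 3 < u` on `ψ '' ball 0 1`.
`G = frontier Ω ∪ σ`; `frontier Ω` is preconnected (`wka`), `u = s` on it. The point `ψ (t₁ e) ∈ G`, `‖t₁ e‖ = t₁`.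
-/

set_option autoImplicit false

open Filter Topology Metric Set MeasureTheory

namespace Pool.Agent.H81.RW

open Pool.Agent.H56.TH

theorem sgm {P : Set ℂ} {u : ℂ → ℝ} {v : ℂ} (hu : UM P u) (hv : u v = 1) {ψ g : ℂ → ℂ} (hψ : DifferentiableOn ℂ ψ (ball 0 1))
    (hg : DifferentiableOn ℂ g {x | 1 / 3 < u x}) (h1 : ∀ x ∈ ball (0 : ℂ) 1, 1 / 3 < u (ψ x) ∧ g (ψ x) = x)
    (h2 : ∀ y, 1 / 3 < u y → g y ∈ ball (0 : ℂ) 1 ∧ ψ (g y) = y) {t₁ : ℝ} (ht : t₁ < 1)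
    (hθ : ∀ x ∈ ball (0 : ℂ) 1, 1 / 2 ≤ u (ψ x) → ‖x‖ < t₁) {s : ℝ} (hs : 1 / 2 ≤ s) (hs1 : s ≤ 3 / 4) :
    ∃ G : Set ℂ, IsPreconnected G ∧ frontier {y | s < u y} ⊆ G ∧ (∃ x, ‖x‖ = t₁ ∧ ψ x ∈ G) ∧
      ∀ y ∈ G, 1 / 3 < u y ∧ u y ≤ 3 / 4 := by
  have huc : Continuous u := ul_cont (ul_um hu)
  have hKc : IsCompact {y | 1 / 2 ≤ u y} := by
    refine hu.cs.isCompact.of_isClosed_subset (isClosed_le continuous_const huc) fun y (hy : 1 / 2 ≤ u y) =>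
      subset_tsupport _ (by
        rw [Function.mem_support]
        linarith)
  have hK3 : {y | 1 / 2 ≤ u y} ⊆ {x | 1 / 3 < u x} := fun y (hy : 1 / 2 ≤ u y) => by
    show 1 / 3 < u y
    linarith
  have hvK : v ∈ {y | 1 / 2 ≤ u y} := by
    show 1 / 2 ≤ u v
    rw [hv]
    norm_num
  obtain ⟨z, hz, hzm⟩ := hKc.exists_isMaxOn ⟨v, hvK⟩ (hg.continuousOn.mono hK3).norm
  have hzt : ‖g z‖ < t₁ := by
    obtain ⟨h3, h4⟩ := h2 z (hK3 hz)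
    exact hθ _ h3 (by rw [h4]; exact hz)
  obtain ⟨G, hG1, hG2, hG3, hG4⟩ := Pool.Agent.H47.LW.rad hu hv hψ h1 hg h2 (θ := ‖g z‖) (θ₁ := t₁) (fun x hx hx2 => by
    have h5 := hzm (show ψ x ∈ {y | 1 / 2 ≤ u y} from hx2)
    have h6 : ‖g (ψ x)‖ ≤ ‖g z‖ := h5
    rwa [(h1 x hx).2] at h6) hzt ht hs (by linarith)
  exact ⟨G, hG1, hG2, hG3, fun y hy => ⟨(hG4 y hy).1, (hG4 y hy).2.trans hs1⟩⟩

end Pool.Agent.H81.RW
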