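import Pool.Agent.H81.RW.Psw
import Pool.Agent.H81.RW.Clw
import Pool.Agent.H81.RW.Omc
import Pool.Agent.H81.RW.Wlk
import Pool.Agent.H81.RW.Cvt
import Pool.Agent.H81.RW.Bck

/-!
# Module Nva (LW): THE THEOREM (NV*), any number of Julia critical points

`NVP` (H64/XG/Nvg): windows at a critical point `c` of the minimal piece `M` and frames in their collars.
-/

set_option autoImplicit false

open Filter Topology Metric Set MeasureTheory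

namespace Pool.Agent.H81.RW

open Pool.Agent.H56.TH Pool.Agent.H56.UD Pool.Agent.H66.DIM Pool.Agent.H64.XG

/-- `η` is Lipschitz at `0` -/
private theorem eta_lip {η : ℂ → ℂ} {r₀ : ℝ} (hr : 0 < r₀) (hd : DifferentiableOn ℂ η (ball 0 r₀)) :
    ∃ K t₀ : ℝ, 0 < K ∧ 0 < t₀ ∧ t₀ ≤ r₀ ∧ ∀ t : ℂ, ‖t‖ < t₀ → ‖η t - η 0‖ ≤ K * ‖t‖ := by
  have h1 : HasDerivAt η (deriv η 0) 0 := (hd.differentiableAt (isOpen_ball.mem_nhds (mem_ball_self hr))).hasDerivAt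
  have h2 := h1.isBigO_sub
  obtain ⟨K, hK, h3⟩ := h2.exists_pos
  rw [Asymptotics.isBigOWith_iff] at h3
  obtain ⟨t, ht, h4⟩ := Metric.eventually_nhds_iff.1 h3
  refine ⟨K, min t r₀, hK, lt_min ht hr, min_le_right _ _, fun x hx => ?_⟩
  have h5 := h4 (y := x) (by
    rw [dist_zero_right]
    exact hx.trans_le (min_le_left _ _))
  rwa [sub_zero] at h5

theorem nva : NVP := by
  intro f U J P Cr M δ η r₀ h hM hMC _ _ _ _ hRg hClu
  obtain ⟨δ', hδ', hδδ, hW⟩ := ww_ps h hM hMC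
  obtain ⟨c, hc, Λ, hΛ⟩ := lmc hW hClu
  have hcM : c ∈ M := hc.1
  have hvM : f c ∈ M := hM.inv _ hcM
  have hcJ : c ∈ J := h.CJ hc.2
  have hΛ1 : 1 ≤ Λ := lm_pos hW hvM hΛ
  obtain ⟨Mr, r₁, hRG⟩ : ∃ Mr r₁ : ℝ, RG M Mr r₁ := hRg
  obtain ⟨ε, hε, hε1, hmain⟩ := main hW hc hRG hΛ1
  obtain ⟨C, hC, hsc⟩ := sc_ex hW hRG hvM hΛ hε
  obtain ⟨A, c₃, hA, hc₃, hmn⟩ := hmain C hC
  obtain ⟨θg, hθ0, hθ1, hgd⟩ := gdw hC
  have hD : (0 : ℝ) < 2 ^ ((M ∩ Cr).ncard + 1) := by positivity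
  obtain ⟨R₀, C₁, hR₀, hC₁, hwlk⟩ := wlk hA hc₃ hD hC
  -- the radii
  obtain ⟨t₁, ht₁⟩ : ∃ t₁, t₁ = (1 + θg) / 2 := ⟨_, rfl⟩
  have ht0 : 0 < t₁ := by rw [ht₁]; linarith
  have ht1 : t₁ < 1 := by rw [ht₁]; linarith
  have htg : θg < t₁ := by rw [ht₁]; linarith
  have hsθ0 : 0 < Real.sqrt θg := Real.sqrt_pos.2 hθ0
  have hsθ : Real.sqrt θg < Real.sqrt t₁ := Real.sqrt_lt_sqrt hθ0.le htg
  have hst1 : Real.sqrt t₁ < 1 := by
    rw [Real.sqrt_lt' one_pos, one_pow]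
    exact ht1
  have hst0 : 0 < Real.sqrt t₁ := Real.sqrt_pos.2 ht0
  have hsqt : Real.sqrt t₁ ^ 2 = t₁ := Real.sq_sqrt ht0.le
  have hsqg : Real.sqrt θg ^ 2 = θg := Real.sq_sqrt hθ0.le
  have h2C : 1 ≤ 2 * C := by linarith
  have hr0 : 0 < r₀ := h.hρ
  have hηd := hW.ηd c hc
  have hηi := hW.ηi c hc
  have hη0 := hW.η0 c hc
  have hηv := hW.ηv c hc
  obtain ⟨C₂, r₂, hC₂, hr₂, hwin⟩ := winc hr0 hηd hηi (fun x hx => (hηv x hx).2) h2C
  obtain ⟨C₃, r₃, hC₃, hr₃, hcvt⟩ := cvt (wk_ww hW hc) h2C hC₁ hR₀ hst0 hst1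
  obtain ⟨C₄, hC₄, hcol⟩ := win_col hsθ0 hsθ hst1 hC₂
  obtain ⟨Kη, t₀, hKη, ht₀, -, hlip⟩ := eta_lip hr0 hηd
  obtain ⟨C₅, hC₅⟩ : ∃ C₅, C₅ = C₃ + C₄ + 2 * C + C₂ + Kη * Real.sqrt A := ⟨_, rfl⟩
  have hKA : 0 ≤ Kη * Real.sqrt A := by positivity
  have h5a : C₃ ≤ C₅ := by rw [hC₅]; linarith
  have h5b : C₄ ≤ C₅ := by rw [hC₅]; linarith
  have h5c : 2 * C ≤ C₅ := by rw [hC₅]; linarith
  have h5d : C₂ ≤ C₅ := by rw [hC₅]; linarith
  have h5e : Kη * Real.sqrt A ≤ C₅ := by rw [hC₅]; linarith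
  have h51 : 1 ≤ C₅ := by linarith
  obtain ⟨C₆, hC₆, hbck⟩ := bck h h51
  have h61 : 1 ≤ C₆ := by linarith
  refine ⟨c, hc.2, hcM, Real.sqrt θg, Real.sqrt t₁, C₆, hsθ0, hsθ, hst1, h61, ?_⟩
  intro z hz hTz κ hκ
  -- the orbit of `z` is near `M` from `n₀` on
  obtain ⟨n₀, hn₀⟩ := hTz.lim δ' hδ'
  have hzJ : ∀ n : ℕ, f^[n] z ∈ J := fun n => it_J hW n hz
  obtain ⟨z', hz'⟩ : ∃ z', z' = f^[n₀] z := ⟨_, rfl⟩
  have hz'J : z' ∈ J := by rw [hz']; exact hzJ n₀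
  have hit : ∀ j, f^[j] z' = f^[j + n₀] z := fun j => by rw [hz', Function.iterate_add_apply]
  have hz'N : ∀ j, f^[j] z' ∈ U ∧ infDist (f^[j] z') M < δ' := by
    intro j
    rw [hit j]
    refine ⟨h.JU (hzJ _), ?_⟩
    obtain ⟨y, hy, hyz⟩ := hn₀ (j + n₀) (Nat.le_add_left _ _)
    have h1 := infDist_le_dist_of_mem (x := f^[j + n₀] z) hy
    rw [dist_eq_norm] at h1
    exact h1.trans_lt hyz
  have hz'l : ∀ e : ℝ, 0 < e → ∃ n₁ : ℕ, ∀ n ≥ n₁, ∃ y ∈ M, ‖f^[n] z' - y‖ < e := by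
    intro e he
    obtain ⟨n₁, hn₁⟩ := hTz.lim e he
    refine ⟨n₁, fun n hn => ?_⟩
    rw [hit n]
    exact hn₁ _ (by omega)
  obtain ⟨κ', hκ', hbk⟩ := hbck z hz hTz.npc n₀ κ hκ
  obtain ⟨κ₁, hκ₁, hwk⟩ := hwlk hW c hc (κ' / C₃) (div_pos hκ' (by linarith))
  obtain ⟨κ₀, hκ₀, hm0⟩ := hmn κ₁ hκ₁
  obtain ⟨δ₁, hδ₁, hoff⟩ := ps_off h hM
  -- the scale
  obtain ⟨q, hq⟩ : ∃ q, q = min (min (min κ₀ κ₁) (min r₂ r₃)) (min (min κ δ₁) (min δ (min t₀ 1))) := ⟨_, rfl⟩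
  have hq0 : 0 < q := by
    rw [hq]
    exact lt_min (lt_min (lt_min hκ₀ hκ₁) (lt_min hr₂ hr₃)) (lt_min (lt_min hκ hδ₁) (lt_min h.hδ (lt_min ht₀ one_pos)))
  have hq1 : q ≤ κ₀ := by rw [hq]; exact (min_le_left _ _).trans ((min_le_left _ _).trans (min_le_left _ _))
  have hq2 : q ≤ κ₁ := by rw [hq]; exact (min_le_left _ _).trans ((min_le_left _ _).trans (min_le_right _ _))
  have hq3 : q ≤ r₂ := by rw [hq]; exact (min_le_left _ _).trans ((min_le_right _ _).trans (min_le_left _ _))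
  have hq4 : q ≤ r₃ := by rw [hq]; exact (min_le_left _ _).trans ((min_le_right _ _).trans (min_le_right _ _))
  have hq5 : q ≤ κ := by rw [hq]; exact (min_le_right _ _).trans ((min_le_left _ _).trans (min_le_left _ _))
  have hq6 : q ≤ δ₁ := by rw [hq]; exact (min_le_right _ _).trans ((min_le_left _ _).trans (min_le_right _ _))
  have hq7 : q ≤ δ := by rw [hq]; exact (min_le_right _ _).trans ((min_le_right _ _).trans (min_le_left _ _))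
  have hq8 : q ≤ t₀ := by
    rw [hq]; exact (min_le_right _ _).trans ((min_le_right _ _).trans ((min_le_right _ _).trans (min_le_left _ _)))
  have hq9 : q ≤ 1 := by
    rw [hq]; exact (min_le_right _ _).trans ((min_le_right _ _).trans ((min_le_right _ _).trans (min_le_right _ _)))
  -- `C r < (q / (2 C₅ A)) ^ 2`: then `s = √r` satisfies `C₅ A s < q`
  have hC₅0 : 0 < C₅ := by linarith
  have hA0 : 0 < A := by linarith
  obtain ⟨q', hq'⟩ : ∃ q', q' = (q / (2 * C₅ * A)) ^ 2 := ⟨_, rfl⟩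
  have hq'0 : 0 < q' := by rw [hq']; positivity
  have hqle : q / (2 * C₅ * A) ≤ q := by
    rw [div_le_iff₀ (by positivity)]
    have : 1 ≤ 2 * C₅ * A := by nlinarith
    nlinarith
  have hq'q : q' ≤ q := by
    rw [hq']
    have h1 : 0 ≤ q / (2 * C₅ * A) := by positivity
    have h2 : q / (2 * C₅ * A) ≤ 1 := hqle.trans hq9
    nlinarith
  obtain ⟨u, r, hS, hCr⟩ := hsc q' hq'0
  have hr := hS.r0
  obtain ⟨n, hn⟩ := fst_ex hW hz'J hz'l hc hS.um hS.uv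
  have hout := hm0 u r hS (hCr.trans_le (hq'q.trans hq1)) z' hz'J hz'N n hn
  obtain ⟨ψ, gi, hψd, hgid, hψ0, hψ1, hgi1, hψθ, hψr⟩ := hgd M u (f c) r hr hS.um hS.uv hS.lip hS.sp
  have hψt : ∀ x ∈ ball (0 : ℂ) 1, 1 / 2 ≤ u (ψ x) → ‖x‖ < t₁ := fun x hx hx1 => (hψθ x hx hx1).trans_lt htg
  obtain ⟨m, hm, hmE, hmA, x₀, hx₀, g, hFr, hgs⟩ := hwk u r Λ ε hS (hCr.trans_le (hq'q.trans hq2)) ψ gi t₁ hψd hgid
    hψ1 hgi1 ht1 hψt z' hz'J (fun j => (hz'N j).1) hout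
  -- the scale `s`
  obtain ⟨s, hs⟩ : ∃ s, s = Real.sqrt r := ⟨_, rfl⟩
  have hs0 : 0 < s := by rw [hs]; exact Real.sqrt_pos.2 hr
  have hs2 : s ^ 2 = r := by rw [hs]; exact Real.sq_sqrt hr.le
  have hsq : s < q / (2 * C₅ * A) := by
    have h1 : s ^ 2 < (q / (2 * C₅ * A)) ^ 2 := by
      rw [hs2, ← hq']
      nlinarith
    exact lt_of_pow_lt_pow_left₀ 2 (by positivity) h1
  have hsq1 : s < q := hsq.trans_le hqle
  have hs1 : s < 1 := hsq1.trans_le hq9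
  have hsC : C₅ * s < q := by
    rw [lt_div_iff₀ (by positivity)] at hsq
    have h1 : C₅ * s ≤ s * (2 * C₅ * A) := by nlinarith [mul_pos hs0 hC₅0]
    linarith
  have hψi : InjOn ψ (ball 0 1) := by
    intro a ha b hb hab
    rw [← (hψ1 a ha).2, ← (hψ1 b hb).2, hab]
  have hψs : ∀ x ∈ ball (0 : ℂ) 1, ‖ψ x - f c‖ < 2 * C * s ^ 2 := by
    intro x hx
    rw [hs2]
    have h1 := hS.sp (ψ x) (by have := (hψ1 x hx).1; linarith)
    nlinarith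
  have hψr' : s ^ 2 ≤ 2 * C * ‖deriv ψ 0‖ := by rw [hs2]; exact hψr
  obtain ⟨φ, hφd, hφi, hφ0, hφ1, hφr⟩ := hwin ψ s hs0 (hsq1.trans_le hq3) hψd hψi hψ0 hψs hψr'
  rw [hη0] at hφ0 hφ1
  rw [← hsqt] at hx₀
  rw [← hs2] at hFr hgs
  obtain ⟨y, g₂, hy, hg₂d, hg₂v, hg₂z, hg₂s⟩ := hcvt φ ψ s hs0 (hsq1.trans_le hq4) hψd hψi hψ0 hψs hψr' hφd hφi
    (fun x hx => ⟨(hφ1 x hx).1, (hφ1 x hx).2.1⟩) z' m x₀ g hm hx₀ hFr
  have hss : s ^ 2 ≤ s := by nlinarith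
  have hC₃0 : 0 < C₃ := by linarith
  have hC₄0 : 0 < C₄ := by linarith
  -- the windows and `P`
  have hψP : ∀ x ∈ ball (0 : ℂ) 1, ψ x ∈ P → ‖x‖ ≤ Real.sqrt θg ^ 2 := by
    intro x hx hxP
    rw [hsqg]
    have h1 : ‖ψ x - f c‖ < δ₁ := by
      refine (hψs x hx).trans_le ?_
      have h2 : 2 * C * s ^ 2 ≤ C₅ * s := by
        calc 2 * C * s ^ 2 ≤ 2 * C * s := mul_le_mul_of_nonneg_left hss (by linarith)
          _ ≤ C₅ * s := mul_le_mul_of_nonneg_right h5c hs0.le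
      linarith
    have h2 : ψ x ∈ M := hoff _ hxP (by
      have h3 := infDist_le_dist_of_mem (x := ψ x) hvM
      rw [dist_eq_norm] at h3
      exact h3.trans_lt h1)
    rcases hS.um.va _ h2 with h3 | h3
    · have h4 := (hψ1 x hx).1
      rw [h3] at h4
      norm_num at h4
    · exact hψθ x hx (by rw [h3]; norm_num)
  have hφP : ∀ x ∈ ball (0 : ℂ) 1, φ x ∈ P → ‖x‖ ≤ Real.sqrt θg := by
    intro x hx hxP
    have h1 : ψ (x ^ 2) ∈ P := by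
      rw [← (hφ1 x hx).2.1]
      exact h.Pf _ hxP
    have h2 : x ^ 2 ∈ ball (0 : ℂ) 1 := by
      rw [mem_ball_zero_iff] at hx ⊢
      rw [norm_pow]
      exact pow_lt_one₀ (norm_nonneg x) hx two_ne_zero
    have h3 := hψP _ h2 h1
    rw [norm_pow] at h3
    exact (pow_le_pow_iff_left₀ (norm_nonneg x) hsθ0.le two_ne_zero).1 h3
  have hy1 : y ∈ ball (0 : ℂ) 1 := by
    rw [mem_ball_zero_iff, hy]
    exact hst1
  -- the frame of `z'`
  have hF' : Fk f U J P δ C₅ (f^[n₀] z) c (φ y) s κ' := by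
    rw [← hz']
    refine ⟨m - 1, g₂, ?_, ?_, hg₂d.mono (ball_subset_ball ?_), fun x hx => ?_, ?_, ?_⟩
    · obtain ⟨t, ht, hte⟩ := hmE
      have h1 : f^[m] z' = f c + t ^ 2 := by
        have e : m = m - 1 + 1 := by omega
        rw [e, Function.iterate_succ_apply', ← hte]
        exact (hηv t ht).2
      have h2 : ‖t‖ ^ 2 ≤ A * s ^ 2 := by
        rw [← norm_pow, hs2]
        have h3 := hmA
        rwa [h1, add_sub_cancel_left] at h3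
      have h3 : ‖t‖ ≤ Real.sqrt A * s := by
        have h4 : (Real.sqrt A * s) ^ 2 = A * s ^ 2 := by rw [mul_pow, Real.sq_sqrt hA0.le]
        rw [← h4] at h2
        exact (pow_le_pow_iff_left₀ (norm_nonneg t) (by positivity) two_ne_zero).1 h2
      have h4 : Real.sqrt A ≤ A := by
        rw [Real.sqrt_le_left hA0.le]
        nlinarith
      have h5 : ‖t‖ < t₀ := by
        have h6 : A * s < q := by
          rw [lt_div_iff₀ (by positivity)] at hsq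
          have h7 : A * s ≤ s * (2 * C₅ * A) := by nlinarith [mul_pos hs0 hA0]
          linarith
        calc ‖t‖ ≤ Real.sqrt A * s := h3
          _ ≤ A * s := mul_le_mul_of_nonneg_right h4 hs0.le
          _ < q := h6
          _ ≤ t₀ := hq8
      have h6 := hlip t h5
      rw [hη0, hte] at h6
      calc ‖f^[m - 1] z' - c‖ ≤ Kη * ‖t‖ := h6
        _ ≤ Kη * (Real.sqrt A * s) := mul_le_mul_of_nonneg_left h3 hKη.le
        _ = Kη * Real.sqrt A * s := by ring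
        _ ≤ C₅ * s := mul_le_mul_of_nonneg_right h5e hs0.le
    · rw [Set.disjoint_left]
      intro p hp hpP
      have h1 : p ∈ ball (φ y) (s / C₄) := ball_subset_ball (div_le_div_of_nonneg_left hs0.le hC₄0 h5b) hp
      obtain ⟨x, hx, hxp⟩ := hcol φ s hs0 hφd hφi hφr y hy h1
      have h2 := hφP x (mem_ball_zero_iff.2 hx.2) (by rw [hxp]; exact hpP)
      exact absurd hx.1 (not_lt.2 h2)
    · exact div_le_div_of_nonneg_left hs0.le hC₃0 h5a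
    · have h1 : x ∈ ball (φ y) (s / C₃) := ball_subset_ball (div_le_div_of_nonneg_left hs0.le hC₃0 h5a) hx
      obtain ⟨h2, h3⟩ := hg₂v x h1
      refine ⟨⟨h2, ?_⟩, h3⟩
      rw [h3]
      refine mem_thickening_iff.2 ⟨c, hcJ, ?_⟩
      rw [dist_eq_norm]
      have h4 : ‖φ y - c‖ < C₂ * s := (hφ1 y hy1).2.2
      have h5 : ‖x - φ y‖ < s / C₅ := mem_ball_iff_norm.1 hx
      have h6 : s / C₅ ≤ s := div_le_self hs0.le h51
      have h7 : C₂ * s + s ≤ C₅ * s := by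
        have : C₂ + 1 ≤ C₅ := by rw [hC₅]; linarith
        nlinarith
      calc ‖x - c‖ = ‖(x - φ y) + (φ y - c)‖ := by rw [sub_add_sub_cancel]
        _ ≤ ‖x - φ y‖ + ‖φ y - c‖ := norm_add_le _ _
        _ < δ := by linarith
    · exact hg₂z.trans (mul_le_mul_of_nonneg_right h5a (by positivity))
    · calc s * ‖deriv g₂ (φ y)‖ ≤ C₃ * (R₀ * s ^ 2 * ‖deriv g (ψ x₀)‖) := hg₂s
        _ < C₃ * (κ' / C₃) := mul_lt_mul_of_pos_left hgs hC₃0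
        _ = κ' := by field_simp
  obtain ⟨m', g', k1, k2, k3, k4, k5, k6⟩ := hbk c (φ y) s hs0 hF'
  refine ⟨φ, ψ, s, hs0, hsq1.trans_le hq5, ⟨hψd, hψi, hψ0, fun x hx => ⟨?_, hψP x hx⟩, ?_⟩,
    ⟨hφd, hφi, hφ0, fun x hx => ⟨(hφ1 x hx).1, (hφ1 x hx).2.1, ?_, hφP x hx⟩, ?_⟩, m', y, g', hy, k1, k2, k3, k4, k5, k6⟩
  · rw [mem_ball_iff_norm]
    refine (hψs x hx).trans_le (mul_le_mul_of_nonneg_right (h5c.trans hC₆) (by positivity))
  · exact hψr'.trans (mul_le_mul_of_nonneg_right (h5c.trans hC₆) (norm_nonneg _))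
  · rw [mem_ball_iff_norm]
    exact (hφ1 x hx).2.2.trans_le (mul_le_mul_of_nonneg_right (h5d.trans hC₆) hs0.le)
  · exact hφr.trans (mul_le_mul_of_nonneg_right (h5d.trans hC₆) (norm_nonneg _))

/-- the same theorem under helper64's name -/
theorem nvp : Pool.Agent.H64.XG.NVP := nva

end Pool.Agent.H81.RW
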