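import Pool.Agent.H56.TH.Defs

/-!
# ROB (MP_8f2e1c), length calculus with unimodal functions: definitions (think 1826)

`ell ρ w = ∫ ρ |∇ w|`. `UM P w`: unimodal functions: Lipschitz, values in `[0, 1]`, compact support, all `{w > t}` are connected and without holes,
`w` is locally constant near `P` with values `0` and `1` on `P`. `trc a b w`: truncation to the levels between `a` and `b`. `oc q x t`: the component of
`x` in `{q > t}` with its holes; `exf q x`: the extraction of the component of `x`, `{exf q x > s} = ⋃ t > s, oc q x t`.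
-/

set_option autoImplicit false

open Filter Topology Metric Set MeasureTheory

namespace Pool.Agent.H81.RW

open Pool.Agent.H56.TH

/-- weighted total variation -/
noncomputable def ell (ρ : ℂ → ENNReal) (w : ℂ → ℝ) : ENNReal :=
  ∫⁻ x, ρ x * ENNReal.ofReal ‖fderiv ℝ w x‖

/-- the part of the levels between `a` and `b` -/
noncomputable def ell' (ρ : ℂ → ENNReal) (w : ℂ → ℝ) (a b : ℝ) : ENNReal :=
  ∫⁻ x in {x | a < w x ∧ w x < b}, ρ x * ENNReal.ofReal ‖fderiv ℝ w x‖

/-- unimodal functions -/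
structure UM (P : Set ℂ) (w : ℂ → ℝ) : Prop where
  lip : ∃ K : NNReal, LipschitzWith K w
  lo : ∀ x, 0 ≤ w x
  hi : ∀ x, w x ≤ 1
  cs : HasCompactSupport w
  co : ∀ t : ℝ, 0 < t → t < 1 → IsPreconnected {x | t < w x}
  fu : ∀ t : ℝ, 0 < t → t < 1 → Full {x | t < w x}
  lc : ∀ x ∈ P, ∀ᶠ y in 𝓝 x, w y = w x
  va : ∀ x ∈ P, w x = 0 ∨ w x = 1

/-- truncation -/
noncomputable def trc (a b : ℝ) (w : ℂ → ℝ) (x : ℂ) : ℝ := max 0 (min 1 ((w x - a) / (b - a)))

/-- the component of `x` in `{q > t}` with its holes -/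
def oc (q : ℂ → ℝ) (x : ℂ) (t : ℝ) : Set ℂ := fill (connectedComponentIn {y | t < q y} x)

/-- the extraction of the component of `x` -/
noncomputable def exf (q : ℂ → ℝ) (x y : ℂ) : ℝ := sSup (insert 0 {t | 0 ≤ t ∧ y ∈ oc q x t})

end Pool.Agent.H81.RW
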