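import Pool.Agent.H81.RW.Sub
import Pool.Agent.H81.RW.Defs
import Pool.Agent.H56.TH.TF

/-!
# Module Oc: components of the levels with their holes

PROOFS. `oc_mono`: `connectedComponentIn_mono` and: `fill` is monotone. `oc_full`, `oc_open`, `oc_pre`: `TF`. `oc_front`: `fill_front`, `comp_frontier`; `frontier {q > t} ⊆ {q = t}`
(`q` continuous: `closure {t < q} ⊆ {t ≤ q}`, open). `oc_mem`: `x ∈ oc q x t ↔ t < q x`: if `t < q x` clear; otherwise the component is empty and `fill ∅ = ∅` (a bounded open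
set with empty frontier is clopen, so empty: `isClopen_iff`, `NormedSpace.unbounded_univ`). `oc_sub`: `fill_sub`. `oc_lt`: `y ∈ oc q x t` implies `t < q x` (otherwise `oc = ∅`).
-/

set_option autoImplicit false

open Filter Topology Metric Set MeasureTheory

namespace Pool.Agent.H81.RW

open Pool.Agent.H56.TH

theorem fill_empty : fill (∅ : Set ℂ) = ∅ := by
  unfold fill
  rw [Set.empty_union, Set.sUnion_eq_empty]
  rintro O ⟨hO, hb, hf⟩
  have h1 : frontier O = ∅ := Set.subset_empty_iff.1 hf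
  rw [← isClopen_iff_frontier_eq_empty, isClopen_iff] at h1
  rcases h1 with h | h
  · exact h
  · rw [h] at hb
    exact absurd hb (NormedSpace.unbounded_univ ℝ ℂ)

theorem fill_mono {Y Z : Set ℂ} (h : Y ⊆ Z) : fill Y ⊆ fill Z := by
  unfold fill
  refine union_subset_union h (sUnion_subset_sUnion ?_)
  rintro O ⟨hO, hb, hf⟩
  exact ⟨hO, hb, hf.trans h⟩

theorem oc_mono (q : ℂ → ℝ) (x : ℂ) {t t' : ℝ} (h : t ≤ t') : oc q x t' ⊆ oc q x t := by
  unfold oc
  refine fill_mono (connectedComponentIn_mono x ?_)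
  intro y hy
  exact lt_of_le_of_lt h hy

private theorem lev_open {q : ℂ → ℝ} (hq : Continuous q) (t : ℝ) : IsOpen {y | t < q y} :=
  isOpen_lt continuous_const hq

theorem oc_open {q : ℂ → ℝ} (hq : Continuous q) (x : ℂ) (t : ℝ) : IsOpen (oc q x t) :=
  fill_open (lev_open hq t).connectedComponentIn

theorem oc_pre {q : ℂ → ℝ} (hq : Continuous q) (x : ℂ) (t : ℝ) : IsPreconnected (oc q x t) :=
  fill_pre (lev_open hq t).connectedComponentIn isPreconnected_connectedComponentIn

theorem oc_full {q : ℂ → ℝ} (hq : Continuous q) (x : ℂ) (t : ℝ) : Full (oc q x t) :=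
  fill_full (lev_open hq t).connectedComponentIn

theorem oc_front {q : ℂ → ℝ} (hq : Continuous q) (x : ℂ) (t : ℝ) : frontier (oc q x t) ⊆ {y | q y = t} := by
  intro y hy
  have h1 := comp_frontier (lev_open hq t) x (fill_front (lev_open hq t).connectedComponentIn hy)
  rw [(lev_open hq t).frontier_eq] at h1
  have h2 : closure {y | t < q y} ⊆ {y | t ≤ q y} :=
    closure_minimal (fun z (hz : t < q z) => hz.le) (isClosed_le continuous_const hq)
  have h3 : t ≤ q y := h2 h1.1
  have h4 : ¬ t < q y := h1.2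
  exact le_antisymm (not_lt.1 h4) h3

private theorem oc_empty {q : ℂ → ℝ} {x : ℂ} {t : ℝ} (h : ¬ t < q x) : oc q x t = ∅ := by
  unfold oc
  rw [connectedComponentIn_eq_empty (F := {y | t < q y}) h, fill_empty]

theorem oc_mem {q : ℂ → ℝ} (x : ℂ) (t : ℝ) : x ∈ oc q x t ↔ t < q x := by
  constructor
  · intro h
    by_contra h1
    rw [oc_empty h1] at h
    exact h
  · intro h
    exact sub_fill _ (mem_connectedComponentIn (F := {y | t < q y}) h)

theorem oc_lt {q : ℂ → ℝ} {x y : ℂ} {t : ℝ} (h : y ∈ oc q x t) : t < q x := by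
  by_contra h1
  rw [oc_empty h1] at h
  exact h

theorem oc_sub {q : ℂ → ℝ} {x : ℂ} {t : ℝ} {V : Set ℂ} (hV : Full V) (h : {y | t < q y} ⊆ V) : oc q x t ⊆ V :=
  fill_sub ((connectedComponentIn_subset _ _).trans h) hV

end Pool.Agent.H81.RW
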