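import Pool.Agent.H81.RW.Lar
import Pool.Agent.H81.RW.Oc

/-!
# Module Arc (LW, frames after critical passes): A SHORT CROSSCUT

PROOF. `d = ‖y₀ - z‖ > 0` (`z ∈ O`, `y₀ ∉ O`). `g y = if y ∈ O then ‖deriv F y‖₊ else 0` (measurable: `measurable_deriv`, `O` open), `lar` with `e := e d`, `d := d`: `s ∈ (e d, d)` with `s ∫ g (y₀ + s e^{iθ}) dθ ≤ ε = sqrt (7 A / log (1 / e))`.
`x₁ = y₀ + (s / d) (z - y₀)`, `‖x₁ - z‖ = d - s`, so `ball x₁ s ⊆ ball z d ⊆ O`. `x₁ = y₀ + s e^{iθ₁}`. The circle is not contained in `O`: otherwise (`frontier (ball y₀ s) = sphere y₀ s`, `Full`) `ball y₀ s ⊆ O`, but `y₀ ∉ O`.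
So there is `θ₂` with `θ₁ < θ₂ < θ₁ + 2 π`, `y₀ + s e^{iθ₂} ∉ O`; take the smallest such `θ₂` (`sInf`; `O` open): `α t = y₀ + s exp (i (θ₁ + t (θ₂ - θ₁)))`, `α 1 ∉ O`, `α t ∈ O` for `t < 1`, so `α 1 ∈ closure O \ O = frontier O`. `‖α 0 - α 1‖ ≥ s` since `α 1 ∉ ball x₁ s`.
For `t < t' < 1`: `‖F (α t) - F (α t')‖ ≤ ∫ ‖deriv F‖ s dθ ≤ ε` (fundamental theorem of calculus, `intervalIntegral.norm_integral_le_integral_norm`; the integral over a subinterval of one full turn; `lintegral` over one turn does not depend on the starting angle). `t' → 1`: `F` is continuous on `closure O`.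
-/

set_option autoImplicit false

open Filter Topology Metric Set MeasureTheory

namespace Pool.Agent.H81.RW

open Pool.Agent.H56.TH

private theorem per_lint {G : ℝ → ENNReal} (hG : Function.Periodic G (2 * Real.pi)) (a : ℝ) :
    ∫⁻ t in Ioc a (a + 2 * Real.pi), G t = ∫⁻ t in Ioo (-Real.pi) Real.pi, G t := by
  have : VAddInvariantMeasure (AddSubgroup.zmultiples (2 * Real.pi)) ℝ volume :=
    ⟨fun c s _ => measure_preimage_add _ _ _⟩
  have h1 : ∫⁻ t in Ioc a (a + 2 * Real.pi), G t =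
      ∫⁻ t in Ioc (-Real.pi) (-Real.pi + 2 * Real.pi), G t := by
    apply IsAddFundamentalDomain.setLIntegral_eq (G := AddSubgroup.zmultiples (2 * Real.pi))
    exacts [isAddFundamentalDomain_Ioc Real.two_pi_pos a, isAddFundamentalDomain_Ioc Real.two_pi_pos (-Real.pi),
      hG.map_vadd_zmultiples]
  have h2 : -Real.pi + 2 * Real.pi = Real.pi := by ring
  rw [h1, h2, setLIntegral_congr (Ioo_ae_eq_Ioc (μ := volume) (a := -Real.pi) (b := Real.pi)).symm]

private noncomputable def cir (y : ℂ) (s : ℝ) (t : ℝ) : ℂ := y + s * Complex.exp (t * Complex.I)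

private theorem cir_cont (y : ℂ) (s : ℝ) : Continuous (cir y s) := by
  unfold cir
  fun_prop

private theorem cir_per (y : ℂ) (s : ℝ) : Function.Periodic (cir y s) (2 * Real.pi) := by
  intro t
  unfold cir
  have h1 : Complex.exp (((t + 2 * Real.pi : ℝ) : ℂ) * Complex.I) = Complex.exp (t * Complex.I) := by
    have h2 : ((t + 2 * Real.pi : ℝ) : ℂ) * Complex.I = t * Complex.I + 2 * Real.pi * Complex.I := by
      push_cast
      ring
    rw [h2, Complex.exp_periodic]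
  rw [h1]

private theorem cir_norm (y : ℂ) {s : ℝ} (hs : 0 ≤ s) (t : ℝ) : ‖cir y s t - y‖ = s := by
  unfold cir
  rw [add_sub_cancel_left, norm_mul, Complex.norm_exp_ofReal_mul_I, mul_one, Complex.norm_real,
    Real.norm_of_nonneg hs]

private theorem cir_arg {y x : ℂ} {s : ℝ} (h : ‖x - y‖ = s) : cir y s (Complex.arg (x - y)) = x := by
  unfold cir
  rw [← h, Complex.norm_mul_exp_arg_mul_I, add_sub_cancel]

private theorem cir_deriv (y : ℂ) (s t : ℝ) :
    HasDerivAt (cir y s) (s * (Complex.exp (t * Complex.I) * Complex.I)) t := by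
  have h1 : HasDerivAt (fun t : ℝ => (t : ℂ) * Complex.I) (1 * Complex.I) t :=
    (hasDerivAt_id t).ofReal_comp.mul_const Complex.I
  rw [one_mul] at h1
  exact ((h1.cexp.const_mul (s : ℂ))).const_add y

private theorem full_circ {V : Set ℂ} (hV : Full V) {y : ℂ} {s : ℝ} (hy : y ∉ V) (hs : 0 < s) :
    ∃ x, ‖x - y‖ = s ∧ x ∉ V := by
  by_contra hcon
  push Not at hcon
  have h1 : frontier (ball y s) ⊆ V := by
    rw [frontier_ball y hs.ne']
    intro x hx
    exact hcon x (by rw [← dist_eq_norm]; exact mem_sphere.1 hx)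
  exact hy (hV (ball y s) isOpen_ball isBounded_ball h1 (mem_ball_self hs))

/-- the variation of `F` on a piece of the circle -/
private theorem circ_le {O : Set ℂ} (hO : IsOpen O) {F : ℂ → ℂ} (hF : DifferentiableOn ℂ F O) {y₀ : ℂ} {s ε : ℝ}
    (hs : 0 < s) (hε : 0 ≤ ε) {G : ℂ → ENNReal} (hG : ∀ y ∈ O, ENNReal.ofReal ‖deriv F y‖ ≤ G y)
    (hl : ENNReal.ofReal s * ∫⁻ θ in Ioo (-Real.pi) Real.pi, G (cir y₀ s θ) ≤ ENNReal.ofReal ε) {a b c : ℝ} (hab : a ≤ b)
    (hca : c ≤ a) (hbc : b ≤ c + 2 * Real.pi) (hm : ∀ t ∈ Icc a b, cir y₀ s t ∈ O) :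
    ‖F (cir y₀ s b) - F (cir y₀ s a)‖ ≤ ε := by
  have hd : ∀ t ∈ Icc a b, HasDerivAt (fun t : ℝ => F (cir y₀ s t))
      (deriv F (cir y₀ s t) * (s * (Complex.exp (t * Complex.I) * Complex.I))) t := by
    intro t ht
    have h1 : HasDerivAt F (deriv F (cir y₀ s t)) (cir y₀ s t) :=
      ((hF _ (hm t ht)).differentiableAt (hO.mem_nhds (hm t ht))).hasDerivAt
    exact h1.comp t (cir_deriv y₀ s t)
  have hdc : ContinuousOn (deriv F) O := (hF.deriv hO).continuousOn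
  have hcc : ContinuousOn (fun t : ℝ => deriv F (cir y₀ s t) * (s * (Complex.exp (t * Complex.I) * Complex.I)))
      (Icc a b) := by
    refine ContinuousOn.mul (hdc.comp (cir_cont y₀ s).continuousOn fun t ht => hm t ht) ?_
    fun_prop
  have hint : ∫ t in a..b, deriv F (cir y₀ s t) * (s * (Complex.exp (t * Complex.I) * Complex.I)) =
      F (cir y₀ s b) - F (cir y₀ s a) := by
    refine intervalIntegral.integral_eq_sub_of_hasDerivAt (f := fun t : ℝ => F (cir y₀ s t)) (fun t ht => ?_) ?_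
    · rw [uIcc_of_le hab] at ht
      exact hd t ht
    · refine ContinuousOn.intervalIntegrable ?_
      rw [uIcc_of_le hab]
      exact hcc
  rw [← hint, intervalIntegral.integral_of_le hab]
  have h1 : ENNReal.ofReal ‖∫ t in Ioc a b, deriv F (cir y₀ s t) * (s * (Complex.exp (t * Complex.I) * Complex.I))‖ ≤
      ENNReal.ofReal ε := by
    rw [ofReal_norm]
    refine (enorm_integral_le_lintegral_enorm _).trans ?_
    refine le_trans ?_ hl
    have hper : Function.Periodic (fun t : ℝ => G (cir y₀ s t)) (2 * Real.pi) := fun t => by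
      change G (cir y₀ s (t + 2 * Real.pi)) = G (cir y₀ s t)
      rw [cir_per y₀ s t]
    rw [← per_lint hper c, ← lintegral_const_mul' _ _ ENNReal.ofReal_ne_top]
    calc ∫⁻ t in Ioc a b, ‖deriv F (cir y₀ s t) * (s * (Complex.exp (t * Complex.I) * Complex.I))‖ₑ
        ≤ ∫⁻ t in Ioc a b, ENNReal.ofReal s * G (cir y₀ s t) := by
          refine setLIntegral_mono' measurableSet_Ioc fun t ht => ?_
          have h2 : ‖deriv F (cir y₀ s t) * (s * (Complex.exp (t * Complex.I) * Complex.I))‖ =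
              s * ‖deriv F (cir y₀ s t)‖ := by
            rw [norm_mul, norm_mul, norm_mul, Complex.norm_exp_ofReal_mul_I, Complex.norm_I, Complex.norm_real,
              Real.norm_of_nonneg hs.le]
            ring
          rw [← ofReal_norm, h2, ENNReal.ofReal_mul hs.le]
          exact mul_le_mul_right (hG _ (hm t (Ioc_subset_Icc_self ht))) _
      _ ≤ ∫⁻ t in Ioc c (c + 2 * Real.pi), ENNReal.ofReal s * G (cir y₀ s t) :=
          lintegral_mono_set (Ioc_subset_Ioc hca hbc)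
  exact (ENNReal.ofReal_le_ofReal_iff hε).1 h1

theorem arc {O : Set ℂ} (hO : IsOpen O) (hb : Bornology.IsBounded O) (hf : Full O) {F : ℂ → ℂ} (hF : DifferentiableOn ℂ F O)
    (hc : ContinuousOn F (closure O)) {A : ℝ} (hA : 0 < A)
    (har : ∫⁻ y in O, ENNReal.ofReal (‖deriv F y‖ ^ 2) ≤ ENNReal.ofReal A) {z y₀ : ℂ} (hz : z ∈ O) (hy : y₀ ∉ O)
    (hb0 : ball z ‖y₀ - z‖ ⊆ O) {e : ℝ} (he : 0 < e) (he1 : e < 1) :
    ∃ (s : ℝ) (α : ℝ → ℂ), e * ‖y₀ - z‖ < s ∧ s < ‖y₀ - z‖ ∧ ContinuousOn α (Icc 0 1) ∧ (∀ t ∈ Ico (0 : ℝ) 1, α t ∈ O) ∧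
      α 1 ∈ frontier O ∧ (∀ t ∈ Icc (0 : ℝ) 1, ‖α t - y₀‖ = s) ∧ s ≤ ‖α 0 - α 1‖ ∧
      ∀ t ∈ Icc (0 : ℝ) 1, ‖F (α t) - F (α 1)‖ ≤ Real.sqrt (7 * A / Real.log (1 / e)) := by
  classical
  obtain ⟨d, hd⟩ : ∃ d : ℝ, d = ‖y₀ - z‖ := ⟨_, rfl⟩
  have hd0 : 0 < d := by
    rw [hd, norm_pos_iff, sub_ne_zero]
    rintro rfl
    exact hy hz
  rw [← hd] at hb0 ⊢
  obtain ⟨ε, hε⟩ : ∃ ε : ℝ, ε = Real.sqrt (7 * A / Real.log (1 / e)) := ⟨_, rfl⟩
  have hε0 : 0 ≤ ε := by
    rw [hε]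
    exact Real.sqrt_nonneg _
  obtain ⟨g, hg⟩ : ∃ g : ℂ → ENNReal, g = O.indicator (fun y => ENNReal.ofReal ‖deriv F y‖) := ⟨_, rfl⟩
  have hgm : Measurable g := by
    rw [hg]
    exact (measurable_deriv F).norm.ennreal_ofReal.indicator hO.measurableSet
  have hgO : ∀ y ∈ O, g y = ENNReal.ofReal ‖deriv F y‖ := fun y hy' => by
    rw [hg, indicator_of_mem hy']
  have hgi : ∫⁻ y, g y ^ 2 ≤ ENNReal.ofReal A := by
    refine le_trans (le_of_eq ?_) har
    rw [← lintegral_indicator hO.measurableSet]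
    refine lintegral_congr fun y => ?_
    by_cases hy' : y ∈ O
    · rw [hgO y hy', indicator_of_mem hy', ENNReal.ofReal_pow (norm_nonneg _)]
    · rw [hg, indicator_of_notMem hy', indicator_of_notMem hy', zero_pow two_ne_zero]
  obtain ⟨s, hs1, hs2, hsl⟩ := lar hgm hA (mul_pos he hd0) (by nlinarith : e * d < d) y₀ hgi
  have hs0 : 0 < s := (mul_pos he hd0).trans hs1
  have hde : d / (e * d) = 1 / e := by
    field_simp
  rw [hde, ← hε] at hsl
  -- the starting point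
  obtain ⟨θ₁, hθ₁⟩ : ∃ θ₁ : ℝ, θ₁ = Complex.arg (z - y₀) := ⟨_, rfl⟩
  have hzd : z - y₀ = d * Complex.exp (θ₁ * Complex.I) := by
    rw [hθ₁, hd, norm_sub_rev, Complex.norm_mul_exp_arg_mul_I]
  have hx1 : ‖cir y₀ s θ₁ - z‖ = d - s := by
    have h1 : cir y₀ s θ₁ - z = ((s - d : ℝ) : ℂ) * Complex.exp (θ₁ * Complex.I) := by
      have h2 : cir y₀ s θ₁ - z = s * Complex.exp (θ₁ * Complex.I) - (z - y₀) := by
        unfold cir
        ring
      rw [h2, hzd]
      push_cast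
      ring
    rw [h1, norm_mul, Complex.norm_exp_ofReal_mul_I, mul_one, Complex.norm_real, Real.norm_eq_abs,
      abs_of_neg (by linarith)]
    ring
  have hball : ball (cir y₀ s θ₁) s ⊆ O := by
    refine Subset.trans (fun x hx => ?_) hb0
    rw [mem_ball, dist_eq_norm] at hx ⊢
    have h1 : x - z = (x - cir y₀ s θ₁) + (cir y₀ s θ₁ - z) := by ring
    rw [h1]
    calc _ ≤ ‖x - cir y₀ s θ₁‖ + ‖cir y₀ s θ₁ - z‖ := norm_add_le _ _
      _ < s + (d - s) := by rw [hx1]; linarith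
      _ = d := by ring
  have hx1O : cir y₀ s θ₁ ∈ O := hball (mem_ball_self hs0)
  -- the first exit
  obtain ⟨B, hB⟩ : ∃ B : Set ℝ, B = Icc θ₁ (θ₁ + 2 * Real.pi) ∩ (cir y₀ s) ⁻¹' Oᶜ := ⟨_, rfl⟩
  have hBc : IsCompact B := by
    rw [hB]
    exact isCompact_Icc.inter_right (hO.isClosed_compl.preimage (cir_cont y₀ s))
  have hBn : B.Nonempty := by
    obtain ⟨x, hx, hxO⟩ := full_circ hf hy hs0
    obtain ⟨θ, hθ, h1⟩ := (cir_per y₀ s).exists_mem_Ico Real.two_pi_pos (Complex.arg (x - y₀)) θ₁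
    refine ⟨θ, ?_⟩
    rw [hB]
    refine ⟨Ico_subset_Icc_self hθ, ?_⟩
    rw [mem_preimage, ← h1, cir_arg hx]
    exact hxO
  obtain ⟨θ₂, hθ₂, hmin⟩ := hBc.exists_isLeast hBn
  have h2 := hθ₂
  rw [hB] at h2
  obtain ⟨⟨h21, h22⟩, h23⟩ := h2
  have h12 : θ₁ < θ₂ := by
    refine lt_of_le_of_ne h21 ?_
    rintro rfl
    exact h23 hx1O
  have hin : ∀ t ∈ Ico θ₁ θ₂, cir y₀ s t ∈ O := by
    intro t ht
    by_contra h
    have h3 : t ∈ B := by
      rw [hB]
      exact ⟨⟨ht.1, ht.2.le.trans h22⟩, h⟩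
    exact absurd (hmin h3) (not_le.2 ht.2)
  obtain ⟨α, hα⟩ : ∃ α : ℝ → ℂ, α = fun t => cir y₀ s (θ₁ + t * (θ₂ - θ₁)) := ⟨_, rfl⟩
  have hαt : ∀ t, α t = cir y₀ s (θ₁ + t * (θ₂ - θ₁)) := fun t => by rw [hα]
  have hαc : Continuous α := by
    rw [hα]
    exact (cir_cont y₀ s).comp (by fun_prop)
  have hα0 : α 0 = cir y₀ s θ₁ := by
    rw [hαt, zero_mul, add_zero]
  have hα1 : α 1 = cir y₀ s θ₂ := by
    rw [hαt, one_mul, add_sub_cancel]
  have hαO : ∀ t ∈ Ico (0 : ℝ) 1, α t ∈ O := by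
    intro t ht
    rw [hαt]
    refine hin _ ⟨?_, ?_⟩
    · have := mul_nonneg ht.1 (sub_pos.2 h12).le
      linarith
    · have := mul_lt_mul_of_pos_right ht.2 (sub_pos.2 h12)
      linarith
  have hαcl : ∀ t ∈ Icc (0 : ℝ) 1, α t ∈ closure O := by
    have h3 : Icc (0 : ℝ) 1 = closure (Ico 0 1) := (closure_Ico zero_ne_one).symm
    intro t ht
    rw [h3] at ht
    exact map_mem_closure hαc ht fun t ht => hαO t ht
  have hα1O : α 1 ∉ O := by
    rw [hα1]
    exact h23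
  refine ⟨s, α, hs1, hs2, hαc.continuousOn, hαO, ?_, ?_, ?_, ?_⟩
  · rw [hO.frontier_eq]
    exact ⟨hαcl 1 (right_mem_Icc.2 zero_le_one), hα1O⟩
  · intro t _
    rw [hαt]
    exact cir_norm y₀ hs0.le _
  · by_contra h
    push Not at h
    apply hα1O
    apply hball
    rw [mem_ball, dist_eq_norm, norm_sub_rev, ← hα0]
    exact h
  · rw [← hε]
    have hFc : ContinuousOn (fun t => F (α t)) (Icc (0 : ℝ) 1) := hc.comp hαc.continuousOn hαcl
    intro t ht
    rcases ht.2.eq_or_lt with h1 | h1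
    · rw [h1, sub_self, norm_zero]
      exact hε0
    · have hne : (𝓝[Ico t 1] (1 : ℝ)).NeBot := by
        rw [← mem_closure_iff_nhdsWithin_neBot, closure_Ico h1.ne]
        exact right_mem_Icc.2 h1.le
      have h3 : Tendsto (fun t' => F (α t')) (𝓝[Ico t 1] 1) (𝓝 (F (α 1))) :=
        (hFc 1 (right_mem_Icc.2 zero_le_one)).mono_left
          (nhdsWithin_mono 1 fun t' ht' => ⟨ht.1.trans ht'.1, ht'.2.le⟩)
      have h4 : Tendsto (fun t' => ‖F (α t) - F (α t')‖) (𝓝[Ico t 1] 1) (𝓝 ‖F (α t) - F (α 1)‖) :=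
        (tendsto_const_nhds.sub h3).norm
      refine le_of_tendsto h4 (eventually_mem_nhdsWithin.mono fun t' ht' => ?_)
      rw [norm_sub_rev, hαt, hαt]
      have hp : 0 < θ₂ - θ₁ := sub_pos.2 h12
      refine circ_le hO hF hs0 hε0 (fun y hy' => (hgO y hy').symm.le) hsl (c := θ₁) ?_ ?_ ?_ ?_
      · have := mul_le_mul_of_nonneg_right ht'.1 hp.le
        linarith
      · have := mul_nonneg ht.1 hp.le
        linarith
      · have := mul_lt_mul_of_pos_right ht'.2 hp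
        linarith
      · intro r hr
        refine hin r ⟨?_, ?_⟩
        · have := mul_nonneg ht.1 hp.le
          linarith [hr.1]
        · have := mul_lt_mul_of_pos_right ht'.2 hp
          linarith [hr.2]

end Pool.Agent.H81.RW
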