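import Pool.Agent.H81.RW.Defs

/-!
# ROB (MP_8f2e1c), length calculus: further definitions

`UL P w`: unimodal functions with arbitrary (locally constant) values on `P`. `pb F W w`: the pull back of `w` by `F` on `W`, extended by `0`.
`Bh F W D`: `F` maps the open set `W` biholomorphically onto `D`
(and preimages of full sets are full).
-/

set_option autoImplicit false

open Filter Topology Metric Set MeasureTheory

namespace Pool.Agent.H81.RW

open Pool.Agent.H56.TH

/-- unimodal functions, arbitrary values on `P` -/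
structure UL (P : Set ℂ) (w : ℂ → ℝ) : Prop where
  lip : ∃ K : NNReal, LipschitzWith K w
  lo : ∀ x, 0 ≤ w x
  hi : ∀ x, w x ≤ 1
  cs : HasCompactSupport w
  co : ∀ t : ℝ, 0 < t → t < 1 → IsPreconnected {x | t < w x}
  fu : ∀ t : ℝ, 0 < t → t < 1 → Full {x | t < w x}
  lc : ∀ x ∈ P, ∀ᶠ y in 𝓝 x, w y = w x

/-- the pull back of `w` by `F` on `W` -/
noncomputable def pb (F : ℂ → ℂ) (W : Set ℂ) (w : ℂ → ℝ) : ℂ → ℝ := W.indicator (fun y => w (F y))

/-- `F` maps the open set `W` biholomorphically onto `D`; preimages of full sets are full -/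
structure Bh (F : ℂ → ℂ) (W D : Set ℂ) : Prop where
  Wo : IsOpen W
  fd : DifferentiableOn ℂ F W
  inj : InjOn F W
  img : F '' W = D
  fu : ∀ V ⊆ D, Full V → Full (W ∩ F ⁻¹' V)

end Pool.Agent.H81.RW
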