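import Mathlib

/-!
# Module Lar (LW, frames after critical passes): THE LENGTH-AREA LEMMA

PROOF. `l s = ofReal s * ∫⁻ θ in Ioo (-π) π, g (y₀ + s e^{iθ})`. Cauchy-Schwarz (`ENNReal.lintegral_mul_le_Lp_mul_Lq` or `lintegral_mul_le` with `p = q = 2`): `(l s) ^ 2 ≤ ofReal (2 π s ^ 2) * ∫⁻ θ in Ioo (-π) π, g (y₀ + s e^{iθ}) ^ 2`.
So `∫⁻ s in Ioo e d, ofReal (1 / s) * (l s) ^ 2 ≤ ofReal (2 π) * ∫⁻ s in Ioo e d, ∫⁻ θ in Ioo (-π) π, ofReal s * g (y₀ + s e^{iθ}) ^ 2 ≤ ofReal (2 π) * ∫⁻ y, g y ^ 2 ≤ ofReal (2 π A)` (polar coordinates: `Complex.lintegral_comp_polarCoord_symm`, translation invariance; see `thk0` in H81/RW/Thk.lean).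
If `l s > ofReal (sqrt (7 A / log (d / e)))` for all `s` in `Ioo e d`, then the left side is `≥ ofReal (7 A / log (d / e)) * ∫⁻ s in Ioo e d, ofReal (1 / s) = ofReal (7 A) > ofReal (2 π A)` (`A > 0`, `2 π < 7`): contradiction.
-/

set_option autoImplicit false

open Filter Topology Metric Set MeasureTheory

namespace Pool.Agent.H81.RW

private theorem polar_shift (F : ℂ → ENNReal) (z : ℂ) :
    ∫⁻ p in polarCoord.target, ENNReal.ofReal p.1 * F (z + p.1 * Complex.exp (p.2 * Complex.I)) = ∫⁻ x, F x := by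
  have h1 := Complex.lintegral_comp_polarCoord_symm (fun x => F (z + x))
  rw [lintegral_add_left_eq_self F z] at h1
  rw [← h1]
  refine lintegral_congr fun p => ?_
  rw [Complex.polarCoord_symm_apply, smul_eq_mul, Complex.exp_mul_I]
  push_cast
  rfl

private theorem gam_meas (z : ℂ) : Measurable fun p : ℝ × ℝ => z + (p.1 : ℂ) * Complex.exp (p.2 * Complex.I) := by
  fun_prop

private theorem target_eq : (volume : Measure (ℝ × ℝ)).restrict polarCoord.target =
    ((volume : Measure ℝ).restrict (Ioi 0)).prod (volume.restrict (Ioo (-Real.pi) Real.pi)) := by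
  rw [polarCoord_target, Measure.volume_eq_prod, Measure.prod_restrict]

private theorem polar_le {F : ℂ → ENNReal} (hF : Measurable F) (z : ℂ) {e d : ℝ} (he : 0 < e) :
    ∫⁻ s in Ioo e d, ∫⁻ t in Ioo (-Real.pi) Real.pi, ENNReal.ofReal s * F (z + s * Complex.exp (t * Complex.I)) ≤
      ∫⁻ x, F x := by
  have hmeas : Measurable fun p : ℝ × ℝ => ENNReal.ofReal p.1 * F (z + p.1 * Complex.exp (p.2 * Complex.I)) :=
    measurable_fst.ennreal_ofReal.mul (hF.comp (gam_meas z))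
  rw [← polar_shift F z, target_eq, lintegral_prod _ hmeas.aemeasurable]
  exact lintegral_mono_set fun s hs => he.trans hs.1

private theorem cs {G : ℝ → ENNReal} (hG : Measurable G) :
    (∫⁻ t in Ioo (-Real.pi) Real.pi, G t) ^ 2 ≤
      ENNReal.ofReal (2 * Real.pi) * ∫⁻ t in Ioo (-Real.pi) Real.pi, G t ^ 2 := by
  have h1 := ENNReal.lintegral_mul_le_Lp_mul_Lq (volume.restrict (Ioo (-Real.pi) Real.pi))
    Real.HolderConjugate.two_two hG.aemeasurable (g := fun _ => 1) aemeasurable_const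
  have h2 : ∫⁻ t in Ioo (-Real.pi) Real.pi, (1 : ENNReal) ^ (2 : ℝ) = ENNReal.ofReal (2 * Real.pi) := by
    rw [ENNReal.one_rpow, setLIntegral_one, Real.volume_Ioo]
    congr 1
    ring
  rw [h2] at h1
  have h3 : ∫⁻ t in Ioo (-Real.pi) Real.pi, (G * (fun _ => 1 : ℝ → ENNReal)) t = ∫⁻ t in Ioo (-Real.pi) Real.pi, G t :=
    lintegral_congr fun t => by rw [Pi.mul_apply, mul_one]
  have h4 : ∫⁻ t in Ioo (-Real.pi) Real.pi, G t ^ (2 : ℝ) = ∫⁻ t in Ioo (-Real.pi) Real.pi, G t ^ 2 :=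
    lintegral_congr fun t => ENNReal.rpow_two _
  rw [h3, h4] at h1
  calc (∫⁻ t in Ioo (-Real.pi) Real.pi, G t) ^ 2
      ≤ ((∫⁻ t in Ioo (-Real.pi) Real.pi, G t ^ 2) ^ (1 / (2 : ℝ)) *
        ENNReal.ofReal (2 * Real.pi) ^ (1 / (2 : ℝ))) ^ 2 := pow_le_pow_left' h1 2
    _ = _ := by
      have e1 : ∀ x : ENNReal, (x ^ (1 / (2 : ℝ))) ^ 2 = x := fun x => by
        rw [← ENNReal.rpow_natCast, ← ENNReal.rpow_mul]
        norm_num
      rw [mul_pow, e1, e1, mul_comm]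

theorem lar {g : ℂ → ENNReal} (hg : Measurable g) {A e d : ℝ} (hA : 0 < A) (he : 0 < e) (hd : e < d) (y₀ : ℂ)
    (hi : ∫⁻ y, g y ^ 2 ≤ ENNReal.ofReal A) :
    ∃ s : ℝ, e < s ∧ s < d ∧ ENNReal.ofReal s * ∫⁻ θ in Ioo (-Real.pi) Real.pi, g (y₀ + s * Complex.exp (θ * Complex.I)) ≤
      ENNReal.ofReal (Real.sqrt (7 * A / Real.log (d / e))) := by
  have hpi := Real.pi_pos
  have hL : 0 < Real.log (d / e) := Real.log_pos ((one_lt_div he).2 hd)
  obtain ⟨ε, hε⟩ : ∃ ε : ℝ, ε = Real.sqrt (7 * A / Real.log (d / e)) := ⟨_, rfl⟩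
  have hε0 : 0 ≤ ε := by
    rw [hε]
    exact Real.sqrt_nonneg _
  have hε2 : ε ^ 2 = 7 * A / Real.log (d / e) := by
    rw [hε, Real.sq_sqrt (by positivity)]
  rw [← hε]
  by_contra hcon
  push Not at hcon
  have hGm : ∀ s : ℝ, Measurable fun t : ℝ => g (y₀ + s * Complex.exp (t * Complex.I)) := fun s =>
    hg.comp ((gam_meas y₀).comp (measurable_const.prodMk measurable_id))
  have h1 : ∀ s ∈ Ioo e d, ENNReal.ofReal (ε ^ 2 / s) ≤ ENNReal.ofReal (2 * Real.pi) *
      ∫⁻ t in Ioo (-Real.pi) Real.pi, ENNReal.ofReal s * g (y₀ + s * Complex.exp (t * Complex.I)) ^ 2 := by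
    intro s hs
    have hs0 : 0 < s := he.trans hs.1
    have h2 := pow_le_pow_left' (hcon s hs.1 hs.2).le 2
    rw [mul_pow] at h2
    have h3 := h2.trans (mul_le_mul_right (cs (hGm s)) _)
    rw [← ENNReal.ofReal_pow hε0, ← ENNReal.ofReal_pow hs0.le] at h3
    rw [lintegral_const_mul _ ((hGm s).pow_const 2)]
    have h4 := mul_le_mul_right h3 (ENNReal.ofReal (1 / s))
    have e1 : ENNReal.ofReal (1 / s) * ENNReal.ofReal (ε ^ 2) = ENNReal.ofReal (ε ^ 2 / s) := by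
      rw [← ENNReal.ofReal_mul (by positivity)]
      congr 1
      ring
    have e2 : ENNReal.ofReal (1 / s) * ENNReal.ofReal (s ^ 2) = ENNReal.ofReal s := by
      rw [← ENNReal.ofReal_mul (by positivity)]
      congr 1
      field_simp
    rw [e1] at h4
    refine h4.trans (le_of_eq ?_)
    rw [← mul_assoc, e2]
    ring
  have h2 : ∫⁻ s in Ioo e d, ENNReal.ofReal (ε ^ 2 / s) = ENNReal.ofReal (7 * A) := by
    rw [← ofReal_integral_eq_lintegral_ofReal]
    · congr 1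
      rw [← integral_Ioc_eq_integral_Ioo, ← intervalIntegral.integral_of_le hd.le]
      have e1 : ∀ s : ℝ, ε ^ 2 / s = ε ^ 2 * (1 / s) := fun s => by ring
      simp only [e1]
      rw [intervalIntegral.integral_const_mul, integral_one_div_of_pos he (he.trans hd), hε2,
        div_mul_cancel₀ _ hL.ne']
    · have e2 : ContinuousOn (fun s : ℝ => ε ^ 2 / s) (Icc e d) :=
        continuousOn_const.div continuousOn_id fun s hs => (he.trans_le hs.1).ne'
      exact (e2.integrableOn_Icc (μ := volume)).mono_set Ioo_subset_Icc_self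
    · filter_upwards [ae_restrict_mem measurableSet_Ioo] with s hs
      exact div_nonneg (sq_nonneg _) (he.trans hs.1).le
  have h3 : ∫⁻ s in Ioo e d, ENNReal.ofReal (ε ^ 2 / s) ≤ ENNReal.ofReal (2 * Real.pi) * ENNReal.ofReal A := by
    calc _ ≤ ∫⁻ s in Ioo e d, ENNReal.ofReal (2 * Real.pi) *
          ∫⁻ t in Ioo (-Real.pi) Real.pi, ENNReal.ofReal s * g (y₀ + s * Complex.exp (t * Complex.I)) ^ 2 :=
          setLIntegral_mono' measurableSet_Ioo h1
      _ = ENNReal.ofReal (2 * Real.pi) * ∫⁻ s in Ioo e d,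
          ∫⁻ t in Ioo (-Real.pi) Real.pi, ENNReal.ofReal s * g (y₀ + s * Complex.exp (t * Complex.I)) ^ 2 :=
          lintegral_const_mul' _ _ ENNReal.ofReal_ne_top
      _ ≤ ENNReal.ofReal (2 * Real.pi) * ENNReal.ofReal A :=
          mul_le_mul_right ((polar_le (hg.pow_const 2) y₀ he).trans hi) _
  rw [h2, ← ENNReal.ofReal_mul (by positivity)] at h3
  have h4 := (ENNReal.ofReal_le_ofReal_iff (by positivity)).1 h3
  have h5 := Real.pi_lt_d2
  nlinarith

end Pool.Agent.H81.RW
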