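import Pool.Agent.H56.UD.Defs

/-!
# ROB (MP_8f2e1c), chapter LW: THE FINAL STATEMENT (NV)

Planar setting with one critical point `c`, `c ∈ P`, `P` the closure of the orbit of `f c`, `P` uniformly perfect at small scales (`hring`, landed: UniversalBounds),
clusters of `P` at small scales (`hclu`: the negation of asymptotic connectedness, H21/AS). Then there are windows `ψ` (around `f c`) and `φ` (around `c`, `f (φ x) = ψ (x ^ 2)`) of scale `s ^ 2`, `s`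
with uniform `θ`, and every `z ∈ J`, not precritical, with `c ∈ ω(z)` has a frame (a branch `g` of `f^(-m)` over a disc off `P` in the collar of `φ`, `z` at bounded distance in the scale of `g`), `s * ‖g'‖ < κ`, `‖f^[m] z - c‖ ≤ C s`
(so `m → ∞` as `κ → 0`, `z` fixed).
-/

set_option autoImplicit false

open Filter Topology Metric Set MeasureTheory

namespace Pool.Agent.H81.RW

open Pool.Agent.H56.UD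

theorem nv {f : ℂ → ℂ} {U J P : Set ℂ} {c : ℂ} {δ : ℝ} {η : ℂ → ℂ → ℂ} {r₀ : ℝ} (h : PS f U J P {c} δ η r₀)
    (hc : c ∈ P) (horb : P ⊆ closure {y | ∃ n : ℕ, f^[n] (f c) = y})
    (hring : ∃ M r₁ : ℝ, 0 < r₁ ∧ ∀ x ∈ P, ∀ r : ℝ, 0 < r → r < r₁ → ∃ y ∈ P, r ≤ ‖y - x‖ ∧ ‖y - x‖ ≤ M * r)
    (hclu : ∃ ε : ℝ, 0 < ε ∧ ∀ r₁ : ℝ, 0 < r₁ → ∃ r : ℝ, 0 < r ∧ r < r₁ ∧ ∃ A ⊆ P, A.Nonempty ∧
      (∀ x ∈ A, ∀ y ∈ A, ‖x - y‖ ≤ r) ∧ ∀ x ∈ A, ∀ y ∈ P, y ∉ A → ε * r ≤ ‖x - y‖) :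
    ∃ θ θ₁ C : ℝ, 0 < θ ∧ θ < θ₁ ∧ θ₁ < 1 ∧ 1 ≤ C ∧ ∀ κ : ℝ, 0 < κ → ∃ (φ ψ : ℂ → ℂ) (s : ℝ), 0 < s ∧ s < κ ∧
      (DifferentiableOn ℂ ψ (ball 0 1) ∧ InjOn ψ (ball 0 1) ∧ ψ 0 = f c ∧
        (∀ x ∈ ball (0 : ℂ) 1, ψ x ∈ ball (f c) (C * s ^ 2) ∧ (ψ x ∈ P → ‖x‖ ≤ θ ^ 2)) ∧ s ^ 2 ≤ C * ‖deriv ψ 0‖) ∧
      (DifferentiableOn ℂ φ (ball 0 1) ∧ InjOn φ (ball 0 1) ∧ φ 0 = c ∧
        (∀ x ∈ ball (0 : ℂ) 1, φ x ∈ η c '' ball 0 r₀ ∧ f (φ x) = ψ (x ^ 2) ∧ φ x ∈ ball c (C * s) ∧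
          (φ x ∈ P → ‖x‖ ≤ θ)) ∧ s ≤ C * ‖deriv φ 0‖) ∧
      ∀ z ∈ J, (∀ n : ℕ, f^[n] z ≠ c) → (∀ ε : ℝ, 0 < ε → ∀ n₀ : ℕ, ∃ n ≥ n₀, ‖f^[n] z - c‖ < ε) →
        ∃ (m : ℕ) (y : ℂ) (g : ℂ → ℂ), ‖y‖ = θ₁ ∧ ‖f^[m] z - c‖ ≤ C * s ∧ Disjoint (ball (φ y) (s / C)) P ∧
          DifferentiableOn ℂ g (ball (φ y) (s / C)) ∧
          (∀ u ∈ ball (φ y) (s / C), g u ∈ dm f U J δ m ∧ f^[m] (g u) = u) ∧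
          ‖g (φ y) - z‖ ≤ C * (s * ‖deriv g (φ y)‖) ∧ s * ‖deriv g (φ y)‖ < κ := by
  sorry

end Pool.Agent.H81.RW
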