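import Pool.Agent.H66.DIM.If
import Pool.Agent.H56.TH.MR

/-!
# Module Psl (LW, from PS to WW): LOCAL INVERSES NEAR A MINIMAL PIECE `M`

`ps_off`. PROOF. `M` compact (closed in the compact set `J`), `P \ M` closed, disjoint: positive distance.
`ps_loc`. PROOF. `δ1` from `PS.loc`. For `c ∈ Cr`, `c ∉ M`: `infDist c M > 0` (`M` closed, nonempty); `η c` is continuous at `0`, `η c 0 = c`: `x₀ > 0` with `infDist (η c t) M ≥ x₀` for `‖t‖ < x₀` (`Cr` finite: one `x₀` for all these `c`). `δ' = min (δ1, x₀, x₀ ^ 2) / 2`. Let `z ∈ J`, `infDist z M < δ'`. `PS.loc` with `y = f z`. First alternative: restrict `g` to `ball (f z) δ'`.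
Second alternative, `c ∈ Cr`, `z = η c t`: if `c ∈ M` done (`ball (f z) δ' ⊆ ball (f z) δ1`). If `c ∉ M`: `‖t‖ ≥ x₀` (otherwise `infDist z M ≥ x₀ > δ'`). On `D = ball (f z) δ'`: `f c ∉ D` (`‖f z - f c‖ = ‖t‖ ^ 2 ≥ x₀ ^ 2 > δ'`), so there is a holomorphic root `s` of `u - f c` on `D` with `s (f z) = t` (logarithm on a disc, see `sheet` in H81/RW/Wkc.lean), `‖s u‖ ^ 2 = ‖u - f c‖ < r₀ ^ 2`
(`D ⊆ ball (f c) (r₀ ^ 2 / 4)`): `g = η c ∘ s`.
-/

set_option autoImplicit false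

open Filter Topology Metric Set MeasureTheory

namespace Pool.Agent.H81.RW

open Pool.Agent.H56.TH Pool.Agent.H56.UD Pool.Agent.H66.DIM

variable {f : ℂ → ℂ} {U J P Cr M : Set ℂ} {δ : ℝ} {η : ℂ → ℂ → ℂ} {r₀ : ℝ}

theorem ps_off (h : PS f U J P Cr δ η r₀) (hM : Mn f P M) : ∃ δ' : ℝ, 0 < δ' ∧ ∀ x ∈ P, infDist x M < δ' → x ∈ M := by
  have hMc : IsCompact M := h.Jc.of_isClosed_subset hM.cl (hM.sub.trans h.PJ)
  obtain ⟨δ', hδ', hsub⟩ := hMc.exists_thickening_subset_open hM.off.isOpen_compl (fun x hx hx' => hx'.2 hx)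
  refine ⟨δ', hδ', fun x hx hxd => ?_⟩
  by_contra hxM
  exact hsub ((mem_thickening_iff_infDist_lt hM.ne).2 hxd) ⟨hx, hxM⟩

/-- a root of `u - v` on a disc which does not contain `v` -/
private theorem psl_root {v x t : ℂ} {r : ℝ} (hr : 0 < r) (hv : v ∉ ball x r) (ht : t ^ 2 = x - v) :
    ∃ s : ℂ → ℂ, DifferentiableOn ℂ s (ball x r) ∧ s x = t ∧ ∀ u ∈ ball x r, s u ^ 2 = u - v := by
  have h0 : ∀ u ∈ ball x r, u - v ≠ 0 := fun u hu h1 => hv (by rw [← sub_eq_zero.1 h1]; exact hu)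
  have hd : DifferentiableOn ℂ (fun u : ℂ => u - v) (ball x r) := by fun_prop
  obtain ⟨l, hl, hle⟩ : ∃ l : ℂ → ℂ, DifferentiableOn ℂ l (ball x r) ∧ ∀ u ∈ ball x r, Complex.exp (l u) = u - v := by
    have hd' : DifferentiableOn ℂ (fun z : ℂ => 1 / (z - v)) (ball x r) :=
      (differentiableOn_const 1).div hd h0
    obtain ⟨l, hl⟩ := hd'.isExactOn_ball
    have hlx : ∀ u ∈ ball x r, HasDerivAt l (1 / (u - v)) u := hl
    have hx : x ∈ ball x r := mem_ball_self hr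
    have hconst : ∀ u ∈ ball x r, (u - v) * Complex.exp (-l u) = (x - v) * Complex.exp (-l x) := by
      have hder : ∀ u ∈ ball x r, HasDerivAt (fun u => (u - v) * Complex.exp (-l u)) 0 u := by
        intro u hu
        have e1 : HasDerivAt (fun u : ℂ => u - v) 1 u := (hasDerivAt_id u).sub_const v
        have h1 := e1.mul (hlx u hu).neg.cexp
        have h3 := h0 u hu
        have h2 : 1 * Complex.exp ((-l) u) + (u - v) * (Complex.exp ((-l) u) * -(1 / (u - v))) = 0 := by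
          field_simp
          ring
        rw [h2] at h1
        exact h1
      intro u hu
      exact isOpen_ball.is_const_of_deriv_eq_zero (convex_ball x r).isPreconnected
        (fun w hw => (hder w hw).differentiableAt.differentiableWithinAt)
        (fun w hw => (hder w hw).deriv) hu hx
    have hC : (x - v) * Complex.exp (-l x) ≠ 0 := mul_ne_zero (h0 x hx) (Complex.exp_ne_zero _)
    refine ⟨fun u => l u + Complex.log ((x - v) * Complex.exp (-l x)), ?_, fun u hu => ?_⟩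
    · exact DifferentiableOn.add_const _ (fun u hu => (hlx u hu).differentiableAt.differentiableWithinAt)
    · rw [Complex.exp_add, Complex.exp_log hC, ← hconst u hu, mul_comm (u - v), ← mul_assoc, ← Complex.exp_add,
        add_neg_cancel, Complex.exp_zero, one_mul]
  obtain ⟨s, hs⟩ : ∃ s : ℂ → ℂ, s = fun u => Complex.exp (l u / 2) := ⟨_, rfl⟩
  have hsd : DifferentiableOn ℂ s (ball x r) := by
    rw [hs]
    exact (hl.div_const 2).cexp
  have hs2 : ∀ u ∈ ball x r, s u ^ 2 = u - v := by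
    intro u hu
    rw [← hle u hu, hs]
    show Complex.exp (l u / 2) ^ 2 = Complex.exp (l u)
    rw [← Complex.exp_nat_mul]
    congr 1
    push_cast
    ring
  have h1 : s x ^ 2 = t ^ 2 := by rw [hs2 x (mem_ball_self hr), ht]
  rcases sq_eq_sq_iff_eq_or_eq_neg.1 h1 with h2 | h2
  · exact ⟨s, hsd, h2, hs2⟩
  · refine ⟨fun u => - s u, hsd.neg, ?_, fun u hu => by rw [neg_sq]; exact hs2 u hu⟩
    show - s x = t
    rw [h2, neg_neg]

theorem ps_loc (h : PS f U J P Cr δ η r₀) (hM : Mn f P M) : ∃ δ' : ℝ, 0 < δ' ∧ ∀ δ₁ : ℝ, 0 < δ₁ → δ₁ ≤ δ' →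
    ∀ z ∈ U, z ∈ J → infDist z M < δ₁ →
    (∃ g : ℂ → ℂ, DifferentiableOn ℂ g (ball (f z) δ₁) ∧ g (f z) = z ∧ ∀ u ∈ ball (f z) δ₁, g u ∈ U ∧ f (g u) = u) ∨
      ∃ c ∈ M ∩ Cr, ball (f z) δ₁ ⊆ ball (f c) (r₀ ^ 2 / 4) ∧ z ∈ η c '' ball 0 r₀ := by
  obtain ⟨d, hd0, hdδ, hloc⟩ := h.loc
  have hr := h.hρ
  -- the critical points off `M`
  obtain ⟨x₀, hx₀, hx₁⟩ : ∃ x₀ : ℝ, 0 < x₀ ∧ ∀ c ∈ Cr, c ∉ M → ∀ t : ℂ, ‖t‖ < x₀ → x₀ ≤ infDist (η c t) M := by
    have hev : ∀ᶠ x : ℝ in 𝓝[>] 0, ∀ c ∈ Cr, c ∉ M → ∀ t : ℂ, ‖t‖ < x → x ≤ infDist (η c t) M := by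
      rw [eventually_all_finite h.Cf]
      intro c hc
      by_cases hcM : c ∈ M
      · exact Eventually.of_forall fun x h1 => absurd hcM h1
      obtain ⟨hηd, -, hη0, -⟩ := h.nf c hc
      have hpos : 0 < infDist c M := (hM.cl.notMem_iff_infDist_pos hM.ne).1 hcM
      have hcont : ContinuousAt (fun t => infDist (η c t) M) 0 := by
        have h1 : ContinuousAt (η c) 0 := (hηd.differentiableAt (ball_mem_nhds _ hr)).continuousAt
        exact (continuous_infDist_pt M).continuousAt.comp h1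
      have h2 : ∀ᶠ t in 𝓝 (0 : ℂ), infDist c M / 2 < infDist (η c t) M := by
        refine hcont.eventually_const_lt ?_
        show infDist c M / 2 < infDist (η c 0) M
        rw [hη0]
        linarith
      obtain ⟨e, he, he2⟩ := Metric.eventually_nhds_iff_ball.1 h2
      have h3 : 0 < min e (infDist c M / 2) := lt_min he (by linarith)
      have h4 : ∀ᶠ x : ℝ in 𝓝[>] 0, x < min e (infDist c M / 2) :=
        (eventually_lt_nhds h3).filter_mono nhdsWithin_le_nhds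
      filter_upwards [h4] with x hx _ t ht
      have h5 : t ∈ ball (0 : ℂ) e := by
        rw [mem_ball_zero_iff]
        exact ht.trans (hx.trans_le (min_le_left _ _))
      exact (hx.trans_le (min_le_right _ _)).le.trans (he2 t h5).le
    obtain ⟨x, h1, h2⟩ := (hev.and self_mem_nhdsWithin).exists
    exact ⟨x, h2, h1⟩
  have hxx : 0 < x₀ ^ 2 := by positivity
  refine ⟨min (min d x₀) (x₀ ^ 2) / 2, by positivity, ?_⟩
  intro δ₁ hδ₁ hδle z hzU hzJ hzM
  have m1 : min (min d x₀) (x₀ ^ 2) ≤ d := (min_le_left _ _).trans (min_le_left _ _)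
  have m2 : min (min d x₀) (x₀ ^ 2) ≤ x₀ := (min_le_left _ _).trans (min_le_right _ _)
  have m3 : min (min d x₀) (x₀ ^ 2) ≤ x₀ ^ 2 := min_le_right _ _
  have hsub : ball (f z) δ₁ ⊆ ball (f z) d := ball_subset_ball (by linarith)
  rcases hloc (f z) (h.Jf z hzJ) z hzU (mem_ball_self hd0) with ⟨g, hg, hgz, hgu⟩ | ⟨c, hc, hcs, hcz⟩
  · exact Or.inl ⟨g, hg.mono hsub, hgz, fun u hu => hgu u (hsub hu)⟩
  by_cases hcM : c ∈ M
  · exact Or.inr ⟨c, ⟨hcM, hc⟩, hsub.trans hcs, hcz⟩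
  obtain ⟨t, ht, rfl⟩ := hcz
  obtain ⟨hηd, -, hη0, hηf⟩ := h.nf c hc
  have ht1 : x₀ ≤ ‖t‖ := by
    by_contra h1
    have h2 := hx₁ c hc hcM t (not_le.1 h1)
    linarith
  have hft := (hηf t ht).2
  have ht2 : t ^ 2 = f (η c t) - f c := by rw [hft]; ring
  have hv : f c ∉ ball (f (η c t)) δ₁ := by
    intro h1
    rw [mem_ball, dist_comm, dist_eq_norm, ← ht2, norm_pow] at h1
    have h2 : x₀ ^ 2 ≤ ‖t‖ ^ 2 := pow_le_pow_left₀ hx₀.le ht1 2
    linarith
  obtain ⟨s, hsd, hsx, hs2⟩ := psl_root hδ₁ hv ht2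
  have hsb : ∀ u ∈ ball (f (η c t)) δ₁, s u ∈ ball (0 : ℂ) r₀ := by
    intro u hu
    have h3 := hcs (hsub hu)
    rw [mem_ball_iff_norm, ← hs2 u hu, norm_pow] at h3
    rw [mem_ball_zero_iff]
    refine lt_of_pow_lt_pow_left₀ 2 hr.le (h3.trans_le ?_)
    nlinarith
  refine Or.inl ⟨fun u => η c (s u), hηd.comp hsd hsb, by show η c (s _) = _; rw [hsx], fun u hu => ?_⟩
  refine ⟨(hηf _ (hsb u hu)).1, ?_⟩
  show f (η c (s u)) = u
  rw [(hηf _ (hsb u hu)).2, hs2 u hu]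
  ring

end Pool.Agent.H81.RW
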