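import Pool.Agent.H81.RW.Wd
import Pool.Agent.H81.RW.Bhf

/-!
# Module Wdf: first facts in the setting `WW`

PROOFS. `it_P`, `it_J`, `it_back`: induction. `it_diff`: induction, `f^[k + 1] = f ∘ f^[k]`. `it_ct`: induction on `k` (`f^[k + 1] = f^[k] ∘ f`): `deriv (f^[k + 1]) x = deriv (f^[k]) (f x) * deriv f x`, both factors are `≠ 0`; `ct` and the induction hypothesis at `f x`.
(`f` is differentiable at the points of the orbit, `N` open.) `th_J`: `‖y - x‖ < δ`, `x ∈ J`. `nr`: `infDist y P ≤ dist y p₀`.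
-/

set_option autoImplicit false

open Filter Topology Metric Set MeasureTheory

namespace Pool.Agent.H81.RW

open Pool.Agent.H56.TH

variable {f : ℂ → ℂ} {N J P Cr : Set ℂ} {η : ℂ → ℂ → ℂ} {r₀ δ : ℝ} {ρ : ℂ → ENNReal}

theorem it_P (h : WW f N J P Cr η r₀ δ ρ) (k : ℕ) {z : ℂ} (hz : z ∈ P) : f^[k] z ∈ P := by
  induction k with
  | zero => exact hz
  | succ k ih =>
    rw [Function.iterate_succ_apply']
    exact h.Pf _ ih

theorem it_J (h : WW f N J P Cr η r₀ δ ρ) (k : ℕ) {z : ℂ} (hz : z ∈ J) : f^[k] z ∈ J := by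
  induction k with
  | zero => exact hz
  | succ k ih =>
    rw [Function.iterate_succ_apply']
    exact h.Jf _ ih

theorem it_back (h : WW f N J P Cr η r₀ δ ρ) (k : ℕ) {z : ℂ} (hz : ∀ j < k, f^[j] z ∈ N) (hk : f^[k] z ∈ J) : z ∈ J := by
  induction k with
  | zero => exact hk
  | succ k ih =>
    rw [Function.iterate_succ_apply'] at hk
    exact ih (fun j hj => hz j (hj.trans (Nat.lt_succ_self k))) (h.Jb _ (hz k (Nat.lt_succ_self k)) hk)

private theorem it_at0 (h : WW f N J P Cr η r₀ δ ρ) (k : ℕ) {y : ℂ} (hN : ∀ j < k, f^[j] y ∈ N) :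
    DifferentiableAt ℂ (f^[k]) y := by
  induction k with
  | zero => exact differentiableAt_id
  | succ k ih =>
    rw [Function.iterate_succ']
    exact (h.fd.differentiableAt (h.No.mem_nhds (hN k (Nat.lt_succ_self k)))).comp y
      (ih fun j hj => hN j (hj.trans (Nat.lt_succ_self k)))

theorem it_diff (h : WW f N J P Cr η r₀ δ ρ) (k : ℕ) {W : Set ℂ} (hN : ∀ y ∈ W, ∀ j < k, f^[j] y ∈ N) :
    DifferentiableOn ℂ (f^[k]) W :=
  fun y hy => (it_at0 h k (hN y hy)).differentiableWithinAt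

theorem it_at (h : WW f N J P Cr η r₀ δ ρ) (k : ℕ) {y : ℂ} (hN : ∀ j < k, f^[j] y ∈ N) :
    DifferentiableAt ℂ (f^[k]) y := it_at0 h k hN

theorem it_ct (h : WW f N J P Cr η r₀ δ ρ) (k : ℕ) {x : ℂ} (hN : ∀ j < k, f^[j] x ∈ N)
    (ht : ∀ j, 1 ≤ j → j ≤ k → f^[j] x ∈ thickening δ J) (hd : deriv (f^[k]) x ≠ 0) :
    ρ x ≤ ρ (f^[k] x) * ENNReal.ofReal ‖deriv (f^[k]) x‖ := by
  induction k generalizing x with
  | zero =>
    have h1 : deriv (f^[0]) x = 1 := by
      rw [Function.iterate_zero]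
      exact deriv_id x
    rw [h1, Function.iterate_zero_apply, norm_one, ENNReal.ofReal_one, mul_one]
  | succ k ih =>
    have hx : x ∈ N := hN 0 (Nat.succ_pos k)
    have hN' : ∀ j < k, f^[j] (f x) ∈ N := fun j hj => by
      rw [← Function.iterate_succ_apply]
      exact hN (j + 1) (Nat.succ_lt_succ hj)
    have h1 : deriv (f^[k + 1]) x = deriv (f^[k]) (f x) * deriv f x := by
      rw [Function.iterate_succ]
      exact deriv_comp x (it_at0 h k hN') (h.fd.differentiableAt (h.No.mem_nhds hx))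
    rw [h1] at hd ⊢
    have hd1 : deriv (f^[k]) (f x) ≠ 0 := left_ne_zero_of_mul hd
    have hd2 : deriv f x ≠ 0 := right_ne_zero_of_mul hd
    have h2 := h.ct x hx (ht 1 le_rfl (Nat.succ_le_succ (Nat.zero_le k))) hd2
    have h3 := ih hN' (fun j hj hjk => by
      rw [← Function.iterate_succ_apply]
      exact ht (j + 1) (Nat.succ_le_succ (Nat.zero_le j)) (Nat.succ_le_succ hjk)) hd1
    rw [Function.iterate_succ_apply, norm_mul, ENNReal.ofReal_mul (norm_nonneg _), ← mul_assoc]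
    exact h2.trans (mul_le_mul_left h3 _)

theorem vP (h : WW f N J P Cr η r₀ δ ρ) {c : ℂ} (hc : c ∈ Cr) : f c ∈ P := h.Pf _ (h.CP hc)

theorem cN (h : WW f N J P Cr η r₀ δ ρ) {c : ℂ} (hc : c ∈ Cr) : c ∈ N := h.PN (h.CP hc)

/-- `f` is not injective near the critical point -/
theorem not_inj (h : WW f N J P Cr η r₀ δ ρ) {O : Set ℂ} (hO : IsOpen O) {c : ℂ} (hcC : c ∈ Cr) (hc : c ∈ O) :
    ¬ InjOn f O := by
  intro hi
  have hcont : ContinuousAt (η c) 0 :=
    ((h.ηd c hcC).differentiableAt (isOpen_ball.mem_nhds (mem_ball_self h.hr))).continuousAt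
  have h1 : ∀ᶠ x in 𝓝 (0 : ℂ), η c x ∈ O := hcont.eventually_mem (by
    rw [h.η0 c hcC]
    exact hO.mem_nhds hc)
  obtain ⟨r, hr, h2⟩ := Metric.eventually_nhds_iff_ball.1 h1
  obtain ⟨t, ht0, ht⟩ := exists_between (lt_min hr h.hr)
  have htr := (lt_min_iff.1 ht).1
  have htr0 := (lt_min_iff.1 ht).2
  have hn : ‖(t : ℂ)‖ = t := by
    rw [Complex.norm_real, Real.norm_of_nonneg ht0.le]
  have ha : (t : ℂ) ∈ ball (0 : ℂ) r := by rw [mem_ball_zero_iff, hn]; exact htr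
  have hb : -(t : ℂ) ∈ ball (0 : ℂ) r := by rw [mem_ball_zero_iff, norm_neg, hn]; exact htr
  have ha0 : (t : ℂ) ∈ ball (0 : ℂ) r₀ := by rw [mem_ball_zero_iff, hn]; exact htr0
  have hb0 : -(t : ℂ) ∈ ball (0 : ℂ) r₀ := by rw [mem_ball_zero_iff, norm_neg, hn]; exact htr0
  have h3 : f (η c (t : ℂ)) = f (η c (-(t : ℂ))) := by
    rw [(h.ηv c hcC _ ha0).2, (h.ηv c hcC _ hb0).2, neg_sq]
  have h4 := h.ηi c hcC ha0 hb0 (hi (h2 _ ha) (h2 _ hb) h3)
  have h5 : (t : ℂ) = 0 := self_eq_neg.1 h4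
  exact ht0.ne' (Complex.ofReal_eq_zero.1 h5)

end Pool.Agent.H81.RW
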