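import Pool.Agent.H81.RW.Psl
import Pool.Agent.H81.RW.Rhm
import Pool.Agent.H81.RW.Rhl
import Pool.Agent.H81.RW.Wdf

/-!
# Module Psw (LW): FROM THE PLANAR SETTING `PS` AND A MINIMAL PIECE `M` TO THE SETTING `WW`

The metric is `rh` (with respect to the whole set `P`), `N = U`, the critical points are those in `M`.
-/

set_option autoImplicit false

open Filter Topology Metric Set MeasureTheory

namespace Pool.Agent.H81.RW

open Pool.Agent.H56.TH Pool.Agent.H56.UD Pool.Agent.H66.DIM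

variable {f : ℂ → ℂ} {U J P Cr M : Set ℂ} {δ : ℝ} {η : ℂ → ℂ → ℂ} {r₀ : ℝ}

theorem ww_ps (h : PS f U J P Cr δ η r₀) (hM : Mn f P M) (hn : (M ∩ Cr).Nonempty) :
    ∃ δ' : ℝ, 0 < δ' ∧ δ' ≤ δ ∧ WW f U J M (M ∩ Cr) η r₀ δ' (rh f U J P δ) := by
  obtain ⟨δ₁, hδ₁, hoff⟩ := ps_off h hM
  obtain ⟨δ₂, hδ₂, hloc⟩ := ps_loc h hM
  have hF := fr_ps h
  have hMJ : M ⊆ J := hM.sub.trans h.PJ
  have hMc : IsCompact M := h.Jc.of_isClosed_subset hM.cl hMJ
  obtain ⟨δ', hd⟩ : ∃ δ', δ' = min (min δ₁ δ₂) (δ / 2) := ⟨_, rfl⟩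
  have hδ0 := h.hδ
  have h0 : 0 < δ' := by
    rw [hd]
    exact lt_min (lt_min hδ₁ hδ₂) (by linarith)
  have h1 : δ' ≤ δ₁ := by rw [hd]; exact (min_le_left _ _).trans (min_le_left _ _)
  have h2 : δ' ≤ δ₂ := by rw [hd]; exact (min_le_left _ _).trans (min_le_right _ _)
  have h3 : δ' ≤ δ / 2 := by rw [hd]; exact min_le_right _ _
  have h3' : δ' ≤ δ := by linarith
  have htJ : thickening δ' J ⊆ thickening δ J := thickening_mono h3' J
  have htM : thickening δ' M ⊆ thickening δ J := (thickening_mono h3' M).trans (thickening_subset_of_subset δ hMJ)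
  have hdis : ∀ S : Set ℂ, S ⊆ thickening δ' M → Disjoint S M → Disjoint S P := by
    intro S hS hSM
    rw [Set.disjoint_left] at hSM ⊢
    intro x hx hxP
    refine hSM hx (hoff x hxP ?_)
    have h4 := hS hx
    rw [mem_thickening_iff_infDist_lt hM.ne] at h4
    exact h4.trans_le h1
  refine ⟨δ', h0, h3', ?_⟩
  exact {
    No := h.Uo
    fd := h.fd
    Jc := h.Jc
    Jt := h.Jt
    Jf := h.Jf
    Jb := h.Jb
    fc := h.fd.continuousOn.mono h.JU
    leo := h.leo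
    Pc := hMc
    PJ := hMJ
    PN := hMJ.trans h.JU
    Pf := hM.inv
    mn := hM.min
    Cf := h.Cf.subset inter_subset_right
    Cn := hn
    CP := inter_subset_left
    hδ := h0
    hr := h.hρ
    ηd := fun c hc => (h.nf c hc.2).1
    ηi := fun c hc => (h.nf c hc.2).2.1
    η0 := fun c hc => (h.nf c hc.2).2.2.1
    ηv := fun c hc => (h.nf c hc.2).2.2.2
    loc := fun z hz hzJ hzM => hloc δ' h0 h2 z hz hzJ hzM
    br := by
      intro k w z r hb hP hN hk
      obtain ⟨G, hG1, hG2, hG3⟩ := hF.br k w z r (hb.trans htM) (fun u hu huP =>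
        (Set.disjoint_left.1 (hdis _ hb hP)) hu huP) ⟨hN, htM (hb hk)⟩ hk
      exact ⟨G, hG1, hG2, fun u hu => ⟨(hG3 u hu).1.1, (hG3 u hu).2⟩⟩
    me := rh_me hF
    lb := by
      intro k x q hx _ hqP hd' hder
      refine rh_lb hF hx (hM.sub hqP) ?_ hder
      exact (infDist_le_infDist_of_subset hM.sub hM.ne).trans_lt (hd'.trans_le h3)
    ct := fun x hx hfx hder => rh_ct hF hx (htJ hfx) hder
    up := fun w d hd' hb hP => rh_up hF hd' (hb.trans htM) (hdis _ hb hP)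
    lg := by
      obtain ⟨K, hK1, hK⟩ := rh_lg hF
      exact ⟨K, hK1, fun x y d hd' hb hP hxy => hK x y d hd' (hb.trans htM) (hdis _ hb hP) hxy⟩ }

end Pool.Agent.H81.RW
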