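import Pool.Agent.H81.RW.Defs

/-!
# ROB (MP_8f2e1c), smoothing, part 1: means over discs

`mus s`: the uniform probability measure on `ball 0 s`; `avg s w x`: the mean of `w` over `ball x s`.
For `0 ≤ w ≤ 1` it is `3 / s`-Lipschitz; for Lipschitz `w` the gradient of the mean is at most the mean of the norm of the gradient, so by Tonelli the
length `ell ρ` grows at most by the factor by which `ρ` varies on discs of radius `s` (at the points where the gradient of `w` is not `0`).
-/

set_option autoImplicit false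

open Filter Topology Metric Set MeasureTheory

namespace Pool.Agent.H81.RW

open Pool.Agent.H56.TH

/-- the uniform probability measure on `ball 0 s` -/
noncomputable def mus (s : ℝ) : Measure ℂ := (volume (ball (0 : ℂ) s))⁻¹ • volume.restrict (ball (0 : ℂ) s)

/-- the mean of `w` over `ball x s` -/
noncomputable def avg (s : ℝ) (w : ℂ → ℝ) (x : ℂ) : ℝ := ∫ y, w (x + y) ∂(mus s)

theorem mus_prob {s : ℝ} (hs : 0 < s) : IsProbabilityMeasure (mus s) := by
  constructor
  unfold mus
  rw [Measure.smul_apply, Measure.restrict_apply_univ, smul_eq_mul]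
  exact ENNReal.inv_mul_cancel (measure_ball_pos volume 0 hs).ne' measure_ball_lt_top.ne

theorem mus_ac (s : ℝ) : mus s ≪ volume := by
  unfold mus
  exact (Measure.smul_absolutelyContinuous).trans Measure.restrict_le_self.absolutelyContinuous

theorem mus_ae (s : ℝ) : ∀ᵐ y ∂(mus s), ‖y‖ < s := by
  unfold mus
  refine Measure.ae_smul_measure ?_ _
  refine (ae_restrict_iff' measurableSet_ball).2 (Eventually.of_forall fun y hy => ?_)
  rwa [mem_ball_zero_iff] at hy

theorem avg_const {s : ℝ} (hs : 0 < s) {w : ℂ → ℝ} {x : ℂ} {a : ℝ} (h : ∀ y, ‖y‖ < s → w (x + y) = a) : avg s w x = a := by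
  have := mus_prob hs
  unfold avg
  rw [integral_congr_ae ((mus_ae s).mono fun y hy => h y hy)]
  simp

private theorem int_w {s : ℝ} (hs : 0 < s) {w : ℂ → ℝ} (hm : Measurable w) (h0 : ∀ x, 0 ≤ w x) (h1 : ∀ x, w x ≤ 1) (x : ℂ) :
    Integrable (fun y => w (x + y)) (mus s) := by
  have := mus_prob hs
  refine Integrable.of_bound (C := 1) (hm.comp (measurable_const_add x)).aestronglyMeasurable
    (Eventually.of_forall fun y => ?_)
  rw [Real.norm_eq_abs, abs_le]
  exact ⟨by linarith [h0 (x + y)], h1 (x + y)⟩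

theorem avg_nonneg {s : ℝ} {w : ℂ → ℝ} (h0 : ∀ x, 0 ≤ w x) (x : ℂ) : 0 ≤ avg s w x :=
  integral_nonneg fun y => h0 (x + y)

theorem avg_le_one {s : ℝ} (hs : 0 < s) {w : ℂ → ℝ} (hm : Measurable w) (h0 : ∀ x, 0 ≤ w x) (h1 : ∀ x, w x ≤ 1) (x : ℂ) :
    avg s w x ≤ 1 := by
  have := mus_prob hs
  unfold avg
  calc ∫ y, w (x + y) ∂(mus s) ≤ ∫ _, (1 : ℝ) ∂(mus s) :=
        integral_mono (int_w hs hm h0 h1 x) (integrable_const 1) fun y => h1 (x + y)
    _ = 1 := by simp

theorem avg_supp {s : ℝ} {w : ℂ → ℝ} {x : ℂ} (h : avg s w x ≠ 0) : ∃ y, ‖y‖ < s ∧ w (x + y) ≠ 0 := by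
  by_contra hcon
  push Not at hcon
  apply h
  unfold avg
  rw [integral_congr_ae ((mus_ae s).mono fun y hy => hcon y hy)]
  simp

theorem avg_cs {s : ℝ} {w : ℂ → ℝ} (h : HasCompactSupport w) : HasCompactSupport (avg s w) := by
  obtain ⟨R, hR⟩ := h.isCompact.isBounded.subset_closedBall (0 : ℂ)
  refine HasCompactSupport.of_support_subset_isCompact (isCompact_closedBall (0 : ℂ) (R + s)) ?_
  intro x hx
  obtain ⟨y, hy, hw⟩ := avg_supp hx
  have h1 := hR (subset_tsupport w hw)
  rw [mem_closedBall, dist_zero_right] at h1 ⊢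
  have h2 : ‖x‖ ≤ ‖x + y‖ + ‖y‖ := by
    have := norm_sub_le (x + y) y
    rwa [add_sub_cancel_right] at this
  linarith

private theorem avg_set {s : ℝ} (w : ℂ → ℝ) (x : ℂ) :
    avg s w x = (volume (ball (0 : ℂ) s)).toReal⁻¹ * ∫ y in ball x s, w y := by
  unfold avg mus
  rw [integral_smul_measure, smul_eq_mul, ENNReal.toReal_inv]
  congr 1
  have h1 : ∫ y in ball (0 : ℂ) s, w (x + y) = ∫ y in (fun y => x + y) ⁻¹' (ball x s), w (x + y) := by
    congr 1
    congr 1
    ext y
    simp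
  rw [h1]
  exact (measurePreserving_add_left volume x).setIntegral_preimage_emb
    (measurableEmbedding_addLeft x) w (ball x s)

private theorem vol_diff {s : ℝ} (hs : 0 < s) {x x' : ℂ} (hd : dist x x' ≤ s) :
    (volume (ball x s \ ball x' s)).toReal ≤ (volume (ball (0 : ℂ) s)).toReal * (3 / s * dist x x') := by
  have h0 : 0 ≤ dist x x' := dist_nonneg
  have h1 : ball x s \ ball x' s ⊆ ball x' (s + dist x x') \ ball x' s := by
    refine diff_subset_diff_left (ball_subset_ball' ?_)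
    rfl
  have h2 : volume (ball x' (s + dist x x') \ ball x' s) = volume (ball x' (s + dist x x')) - volume (ball x' s) :=
    measure_diff (ball_subset_ball (by linarith)) measurableSet_ball.nullMeasurableSet measure_ball_lt_top.ne
  have h3 : (volume (ball x s \ ball x' s)).toReal ≤ (volume (ball x' (s + dist x x')) - volume (ball x' s)).toReal := by
    rw [← h2]
    exact ENNReal.toReal_mono (ne_top_of_le_ne_top measure_ball_lt_top.ne (measure_mono diff_subset)) (measure_mono h1)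
  refine h3.trans ?_
  rw [ENNReal.toReal_sub_of_le (measure_mono (ball_subset_ball (by linarith))) measure_ball_lt_top.ne]
  rw [Complex.volume_ball, Complex.volume_ball, Complex.volume_ball]
  rw [ENNReal.toReal_mul, ENNReal.toReal_mul, ENNReal.toReal_pow, ENNReal.toReal_pow,
    ENNReal.toReal_ofReal (by linarith), ENNReal.toReal_ofReal hs.le]
  simp only [ENNReal.coe_toReal, NNReal.coe_real_pi]
  have h5 : s ^ 2 * Real.pi * (3 / s * dist x x') = 3 * s * dist x x' * Real.pi := by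
    field_simp
  rw [h5, ← sub_mul]
  refine mul_le_mul_of_nonneg_right ?_ Real.pi_pos.le
  nlinarith

private theorem avg_sub {s : ℝ} (hs : 0 < s) {w : ℂ → ℝ} (hm : Measurable w) (h0 : ∀ x, 0 ≤ w x) (h1 : ∀ x, w x ≤ 1) (x x' : ℂ)
    (hd : dist x x' ≤ s) : avg s w x - avg s w x' ≤ 3 / s * dist x x' := by
  have hint : ∀ z : ℂ, IntegrableOn w (ball z s) volume := by
    intro z
    refine Measure.integrableOn_of_bounded (M := 1) measure_ball_lt_top.ne hm.aestronglyMeasurable
      (Eventually.of_forall fun y => ?_)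
    rw [Real.norm_eq_abs, abs_le]
    exact ⟨by linarith [h0 y], h1 y⟩
  have h2 : ∫ y in ball x s, w y = (∫ y in ball x s ∩ ball x' s, w y) + ∫ y in ball x s \ ball x' s, w y :=
    (integral_inter_add_diff measurableSet_ball (hint x)).symm
  have h3 : ∫ y in ball x s ∩ ball x' s, w y ≤ ∫ y in ball x' s, w y :=
    setIntegral_mono_set (hint x') (Eventually.of_forall h0) (Eventually.of_forall fun y hy => hy.2)
  have hfin : volume (ball x s \ ball x' s) ≠ ⊤ :=
    ne_top_of_le_ne_top measure_ball_lt_top.ne (measure_mono diff_subset)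
  have h4 : ∫ y in ball x s \ ball x' s, w y ≤ (volume (ball x s \ ball x' s)).toReal := by
    have h5 : ∫ y in ball x s \ ball x' s, w y ≤ ∫ _ in ball x s \ ball x' s, (1 : ℝ) :=
      integral_mono ((hint x).mono_set diff_subset) (integrableOn_const hfin) fun y => h1 y
    refine h5.trans (le_of_eq ?_)
    rw [setIntegral_const, smul_eq_mul, mul_one]
    rfl
  have hV : 0 < (volume (ball (0 : ℂ) s)).toReal :=
    ENNReal.toReal_pos (measure_ball_pos volume 0 hs).ne' measure_ball_lt_top.ne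
  rw [avg_set, avg_set, ← mul_sub]
  have h6 := vol_diff hs hd
  have h7 : (∫ y in ball x s, w y) - ∫ y in ball x' s, w y ≤
      (volume (ball (0 : ℂ) s)).toReal * (3 / s * dist x x') := by linarith
  calc (volume (ball (0 : ℂ) s)).toReal⁻¹ * ((∫ y in ball x s, w y) - ∫ y in ball x' s, w y)
      ≤ (volume (ball (0 : ℂ) s)).toReal⁻¹ * ((volume (ball (0 : ℂ) s)).toReal * (3 / s * dist x x')) :=
        mul_le_mul_of_nonneg_left h7 (inv_nonneg.2 hV.le)
    _ = 3 / s * dist x x' := by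
        rw [← mul_assoc, inv_mul_cancel₀ hV.ne', one_mul]

theorem avg_lip {s : ℝ} (hs : 0 < s) {w : ℂ → ℝ} (hm : Measurable w) (h0 : ∀ x, 0 ≤ w x) (h1 : ∀ x, w x ≤ 1) :
    LipschitzWith (3 / s).toNNReal (avg s w) := by
  refine LipschitzWith.of_dist_le_mul fun x x' => ?_
  rw [Real.coe_toNNReal _ (by positivity), Real.dist_eq]
  rcases le_or_gt (dist x x') s with h | h
  · rw [abs_sub_le_iff]
    refine ⟨avg_sub hs hm h0 h1 x x' h, ?_⟩
    rw [dist_comm x x'] at h ⊢
    exact avg_sub hs hm h0 h1 x' x h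
  · have h2 : |avg s w x - avg s w x'| ≤ 1 := by
      rw [abs_sub_le_iff]
      have a1 := avg_nonneg (s := s) h0 x
      have a2 := avg_nonneg (s := s) h0 x'
      have a3 := avg_le_one hs hm h0 h1 x
      have a4 := avg_le_one hs hm h0 h1 x'
      constructor <;> linarith
    refine h2.trans ?_
    rw [div_mul_eq_mul_div, le_div_iff₀ hs]
    linarith [dist_nonneg (x := x) (y := x')]

theorem avg_lipK {s : ℝ} (hs : 0 < s) {w : ℂ → ℝ} {K : NNReal} (hK : LipschitzWith K w) (h0 : ∀ x, 0 ≤ w x)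
    (h1 : ∀ x, w x ≤ 1) : LipschitzWith K (avg s w) := by
  have := mus_prob hs
  refine LipschitzWith.of_dist_le_mul fun x x' => ?_
  rw [Real.dist_eq]
  have i1 := int_w hs hK.continuous.measurable h0 h1 x
  have i2 := int_w hs hK.continuous.measurable h0 h1 x'
  unfold avg
  rw [← integral_sub i1 i2]
  have h3 : ∀ᵐ y ∂(mus s), ‖w (x + y) - w (x' + y)‖ ≤ K * dist x x' := by
    refine Eventually.of_forall fun y => ?_
    have h2 := hK.dist_le_mul (x + y) (x' + y)
    rw [Real.dist_eq, dist_add_right] at h2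
    exact h2
  have h4 := norm_integral_le_of_norm_le_const h3
  rw [probReal_univ, mul_one] at h4
  exact h4

theorem avg_fd {s : ℝ} (hs : 0 < s) {w : ℂ → ℝ} {K : NNReal} (hK : LipschitzWith K w) (h0 : ∀ x, 0 ≤ w x)
    (h1 : ∀ x, w x ≤ 1) (x : ℂ) : HasFDerivAt (avg s w) (∫ y, fderiv ℝ w (x + y) ∂(mus s)) x := by
  have := mus_prob hs
  have hae : ∀ᵐ y ∂(mus s), DifferentiableAt ℝ w (x + y) := by
    refine (mus_ac s).ae_le ?_
    have h2 := hK.ae_differentiableAt (μ := volume)
    exact (measurePreserving_add_left volume x).quasiMeasurePreserving.ae h2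
  refine (hasFDerivAt_integral_of_dominated_loc_of_lip (μ := mus s) (F := fun x y => w (x + y))
    (F' := fun y => fderiv ℝ w (x + y)) (bound := fun _ => (K : ℝ)) (s := univ) univ_mem ?_ ?_ ?_ ?_ ?_ ?_).2
  · exact Eventually.of_forall fun z => (int_w hs hK.continuous.measurable h0 h1 z).aestronglyMeasurable
  · exact int_w hs hK.continuous.measurable h0 h1 x
  · exact ((measurable_fderiv ℝ w).comp (measurable_const_add x)).aestronglyMeasurable
  · refine Eventually.of_forall fun y => ?_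
    have h2 : Real.nnabs (K : ℝ) = K := by simp
    rw [h2, lipschitzOnWith_univ]
    refine LipschitzWith.of_dist_le_mul fun a b => ?_
    have h3 := hK.dist_le_mul (a + y) (b + y)
    rwa [dist_add_right] at h3
  · exact integrable_const _
  · refine hae.mono fun y hy => ?_
    have h2 := hy.hasFDerivAt.comp x ((hasFDerivAt_id x).add_const y)
    have h3 : (w ∘ fun x => x + y) = fun x => w (x + y) := rfl
    simpa [h3] using h2

theorem avg_fd_le {s : ℝ} (hs : 0 < s) {w : ℂ → ℝ} {K : NNReal} (hK : LipschitzWith K w) (h0 : ∀ x, 0 ≤ w x)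
    (h1 : ∀ x, w x ≤ 1) (x : ℂ) :
    ENNReal.ofReal ‖fderiv ℝ (avg s w) x‖ ≤ ∫⁻ y, ENNReal.ofReal ‖fderiv ℝ w (x + y)‖ ∂(mus s) := by
  rw [(avg_fd hs hK h0 h1 x).fderiv, ofReal_norm_eq_enorm]
  refine (enorm_integral_le_lintegral_enorm _).trans (le_of_eq ?_)
  refine lintegral_congr fun y => ?_
  rw [ofReal_norm_eq_enorm]

/-- the length of the mean -/
theorem avg_ell {ρ : ℂ → ENNReal} (hρ : Measurable ρ) {s : ℝ} (hs : 0 < s) {w : ℂ → ℝ} {K : NNReal}
    (hK : LipschitzWith K w) (h0 : ∀ x, 0 ≤ w x) (h1 : ∀ x, w x ≤ 1) {c : ENNReal}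
    (h : ∀ x y : ℂ, fderiv ℝ w x ≠ 0 → ‖y‖ < s → ρ (x + y) ≤ c * ρ x) : ell ρ (avg s w) ≤ c * ell ρ w := by
  have := mus_prob hs
  have hg : Measurable fun x : ℂ => ENNReal.ofReal ‖fderiv ℝ w x‖ :=
    (measurable_fderiv ℝ w).norm.ennreal_ofReal
  have hF : Measurable fun p : ℂ × ℂ => ρ p.1 * ENNReal.ofReal ‖fderiv ℝ w (p.1 + p.2)‖ :=
    (hρ.comp measurable_fst).mul (hg.comp (measurable_fst.add measurable_snd))
  unfold ell
  calc ∫⁻ x, ρ x * ENNReal.ofReal ‖fderiv ℝ (avg s w) x‖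
      ≤ ∫⁻ x, (∫⁻ y, ρ x * ENNReal.ofReal ‖fderiv ℝ w (x + y)‖ ∂(mus s)) := by
        refine lintegral_mono fun x => ?_
        have h2 : ∫⁻ y, ρ x * ENNReal.ofReal ‖fderiv ℝ w (x + y)‖ ∂(mus s) =
            ρ x * ∫⁻ y, ENNReal.ofReal ‖fderiv ℝ w (x + y)‖ ∂(mus s) :=
          lintegral_const_mul _ (hg.comp (measurable_const_add x))
        rw [h2]
        exact mul_le_mul_right (avg_fd_le hs hK h0 h1 x) _
    _ = ∫⁻ y, (∫⁻ x, ρ x * ENNReal.ofReal ‖fderiv ℝ w (x + y)‖) ∂(mus s) :=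
        lintegral_lintegral_swap (f := fun x y => ρ x * ENNReal.ofReal ‖fderiv ℝ w (x + y)‖) hF.aemeasurable
    _ ≤ ∫⁻ _, c * (∫⁻ x, ρ x * ENNReal.ofReal ‖fderiv ℝ w x‖) ∂(mus s) := by
        refine lintegral_mono_ae ((mus_ae s).mono fun y hy => ?_)
        have h2 : ∫⁻ x, ρ x * ENNReal.ofReal ‖fderiv ℝ w (x + y)‖ =
            ∫⁻ x, ρ (x + -y) * ENNReal.ofReal ‖fderiv ℝ w x‖ := by
          rw [← lintegral_add_right_eq_self (fun x => ρ (x + -y) * ENNReal.ofReal ‖fderiv ℝ w x‖) y]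
          simp
        have h3 : c * ∫⁻ x, ρ x * ENNReal.ofReal ‖fderiv ℝ w x‖ = ∫⁻ x, c * (ρ x * ENNReal.ofReal ‖fderiv ℝ w x‖) :=
          (lintegral_const_mul _ (hρ.mul hg)).symm
        rw [h2, h3]
        refine lintegral_mono fun x => ?_
        by_cases hx : fderiv ℝ w x = 0
        · simp [hx]
        · rw [← mul_assoc]
          exact mul_le_mul_left (h x (-y) hx (by rwa [norm_neg])) _
    _ = c * ∫⁻ x, ρ x * ENNReal.ofReal ‖fderiv ℝ w x‖ := by
        rw [lintegral_const, measure_univ, mul_one]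

end Pool.Agent.H81.RW
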