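import Pool.Agent.H81.RW.Lev

/-!
# ROB (MP_8f2e1c), smoothing, part 2: where the extraction is not locally constant

`exf_loc`: `exf q x` is locally constant where it is different from `q`. `exf_comp`: it is locally constant at points `y` which are not in the component of `x` in `{q > s}` for some `s < min (q y, exf q x y)`.
`exf_grad`: so a point with nonzero gradient is in all these components. `exf_two`: two extractions at points separated above the level `t` have disjoint gradients at these levels.
`exf_hole`: the gradient of the hole function `(min (exf q x, t) - q)^+` lives where `exf q x > q`.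
-/

set_option autoImplicit false

open Filter Topology Metric Set MeasureTheory

namespace Pool.Agent.H81.RW

open Pool.Agent.H56.TH

theorem fd_loc {w : ℂ → ℝ} {y : ℂ} (h : ∀ᶠ y' in 𝓝 y, w y' = w y) : fderiv ℝ w y = 0 := by
  have h1 : w =ᶠ[𝓝 y] fun _ => w y := h
  rw [h1.fderiv_eq]
  simp

theorem exf_loc {q : ℂ → ℝ} (hq : Continuous q) {x y : ℂ} (h : exf q x y ≠ q y) :
    ∀ᶠ y' in 𝓝 y, exf q x y' = exf q x y := by
  obtain ⟨δ, hδ⟩ : ∃ δ : ℝ, δ = |exf q x y - q y| / 2 := ⟨_, rfl⟩
  have hδ0 : 0 < δ := by
    rw [hδ]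
    exact half_pos (abs_pos.2 (sub_ne_zero.2 h))
  have h1 : ∀ᶠ p in 𝓝 y, |q p - q y| < δ := by
    have h2 := hq.continuousAt.eventually_mem (Metric.ball_mem_nhds (q y) hδ0)
    refine h2.mono fun p hp => ?_
    rwa [mem_ball, Real.dist_eq] at hp
  obtain ⟨r, hr, hr'⟩ := Metric.eventually_nhds_iff_ball.1 h1
  filter_upwards [ball_mem_nhds y hr] with y' hy'
  have hseg : segment ℝ y y' ⊆ ball y r := (convex_ball y r).segment_subset (mem_ball_self hr) hy'
  have hseg' : segment ℝ y' y ⊆ ball y r := (convex_ball y r).segment_subset hy' (mem_ball_self hr)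
  have h0 := exf_nonneg (q := q) x y
  have h0' := exf_nonneg (q := q) x y'
  -- a level near `exf q x y` between the two values
  have key : ∀ s : ℝ, |s - exf q x y| < δ → ∀ p ∈ ball y r, q p ≠ s := by
    intro s hs p hp hps
    have h2 := hr' p hp
    rw [hps] at h2
    have h3 : |exf q x y - q y| ≤ |s - exf q x y| + |s - q y| := by
      have := abs_sub_le (exf q x y) s (q y)
      rwa [abs_sub_comm (exf q x y) s] at this
    linarith
  rcases lt_trichotomy (exf q x y') (exf q x y) with h2 | h2 | h2
  · exfalso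
    obtain ⟨s, hs1, hs2⟩ := exists_between (max_lt h2 (by linarith : exf q x y - δ < exf q x y))
    obtain ⟨p, hp, hps⟩ := exf_cross hq (x := x) (y := y) (y' := y') (s := s)
      (by linarith [(max_lt_iff.1 hs1).1]) hs2 (max_lt_iff.1 hs1).1
    refine key s ?_ p (hseg hp) hps
    rw [abs_sub_lt_iff]
    constructor
    · linarith
    · linarith [(max_lt_iff.1 hs1).2]
  · exact h2
  · exfalso
    obtain ⟨s, hs1, hs2⟩ := exists_between (lt_min h2 (by linarith : exf q x y < exf q x y + δ))
    obtain ⟨p, hp, hps⟩ := exf_cross hq (x := x) (y := y') (y' := y) (s := s)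
      (by linarith) (lt_min_iff.1 hs2).1 hs1
    refine key s ?_ p (hseg' hp) hps
    rw [abs_sub_lt_iff]
    constructor
    · linarith [(lt_min_iff.1 hs2).2]
    · linarith

theorem exf_comp {q : ℂ → ℝ} (hq : Continuous q) {x y : ℂ} {s : ℝ} (hs : 0 ≤ s) (hsy : s < q y)
    (hse : s < exf q x y) (h : y ∉ connectedComponentIn {z | s < q z} x) :
    ∀ᶠ y' in 𝓝 y, exf q x y' = exf q x y := by
  have hopen : ∀ t : ℝ, IsOpen {z | t < q z} := fun t => isOpen_lt continuous_const hq
  obtain ⟨r, hr, hr'⟩ := Metric.isOpen_iff.1 (hopen s) y hsy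
  have hball : IsPreconnected (ball y r) := (convex_ball y r).isPreconnected
  have hdis : ∀ t, s ≤ t → Disjoint (ball y r) (connectedComponentIn {z | t < q z} x) := by
    intro t hst
    rw [Set.disjoint_left]
    intro z hz hz'
    apply h
    have h1 : z ∈ connectedComponentIn {z | s < q z} x :=
      connectedComponentIn_mono x (fun w (hw : t < q w) => hst.trans_lt hw) hz'
    rw [connectedComponentIn_eq h1]
    exact hball.subset_connectedComponentIn hz hr' (mem_ball_self hr)
  have hiff : ∀ t, s ≤ t → ∀ z ∈ ball y r, ∀ z' ∈ ball y r, z ∈ oc q x t → z' ∈ oc q x t := by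
    intro t hst z hz z' hz' hzo
    have h1 : Disjoint (ball y r) (frontier (oc q x t)) := by
      rw [Set.disjoint_left]
      intro p hp hpf
      have h2 := fill_front (hopen t).connectedComponentIn hpf
      have h3 : Disjoint (ball y r) (closure (connectedComponentIn {z | t < q z} x)) :=
        (hdis t hst).closure_right isOpen_ball
      exact Set.disjoint_left.1 h3 hp (frontier_subset_closure h2)
    exact sub_of_meets (oc_open hq x t) hball ⟨z, hz, hzo⟩ h1 hz'
  filter_upwards [ball_mem_nhds y hr] with y' hy'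
  have hy : y ∈ ball y r := mem_ball_self hr
  rcases lt_trichotomy (exf q x y') (exf q x y) with h2 | h2 | h2
  · exfalso
    obtain ⟨t, ht, hty⟩ := (exf_gt (hs.trans (le_max_right (exf q x y') s))).1 (max_lt h2 hse)
    have h3 := hiff t ((le_max_right _ _).trans ht.le) y hy y' hy' hty
    obtain ⟨a, ha1, ha2⟩ := exists_between ht
    have h4 : a < exf q x y' := (exf_gt (hs.trans ((le_max_right _ _).trans ha1.le))).2 ⟨t, ha2, h3⟩
    exact absurd h4 (not_lt.2 ((le_max_left _ _).trans ha1.le))
  · exact h2
  · exfalso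
    obtain ⟨t, ht, hty⟩ := (exf_gt (exf_nonneg x y)).1 h2
    have h3 := hiff t (hse.le.trans ht.le) y' hy' y hy hty
    exact absurd ((exf_gt (exf_nonneg x y)).2 ⟨t, ht, h3⟩) (lt_irrefl _)

theorem exf_grad {q : ℂ → ℝ} (hq : Continuous q) {x y : ℂ} (h : fderiv ℝ (exf q x) y ≠ 0) :
    exf q x y = q y ∧ ∀ s, 0 ≤ s → s < q y → y ∈ connectedComponentIn {z | s < q z} x := by
  have h1 : exf q x y = q y := by
    by_contra hcon
    exact h (fd_loc (exf_loc hq hcon))
  refine ⟨h1, fun s hs hsy => ?_⟩
  by_contra hcon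
  exact h (fd_loc (exf_comp hq hs hsy (by rwa [h1]) hcon))

private theorem meas_g {ρ : ℂ → ENNReal} (hρ : Measurable ρ) (f : ℂ → ℝ) :
    Measurable fun x => ρ x * ENNReal.ofReal ‖fderiv ℝ f x‖ :=
  hρ.mul (measurable_fderiv ℝ f).norm.ennreal_ofReal

private theorem lev_meas {w : ℂ → ℝ} (hw : Continuous w) (a b : ℝ) : MeasurableSet {x | a < w x ∧ w x < b} :=
  ((isOpen_lt continuous_const hw).inter (isOpen_lt hw continuous_const)).measurableSet

private theorem ellp_ind {ρ : ℂ → ENNReal} {w : ℂ → ℝ} (hw : Continuous w) (a b : ℝ) :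
    ell' ρ w a b = ∫⁻ x, {x | a < w x ∧ w x < b}.indicator (fun x => ρ x * ENNReal.ofReal ‖fderiv ℝ w x‖) x := by
  unfold ell'
  rw [lintegral_indicator (lev_meas hw a b)]

/-- the gradient of an extraction, level by level -/
theorem exf_ellp {ρ : ℂ → ENNReal} {q : ℂ → ℝ} {K : NNReal} (hK : LipschitzWith K q) (x : ℂ) (a b : ℝ) :
    ell' ρ (exf q x) a b ≤ ell' ρ q a b := by
  rw [ellp_ind (exf_lip hK x).continuous, ellp_ind hK.continuous]
  refine lintegral_mono_ae ?_
  filter_upwards [hK.ae_differentiableAt (μ := volume)] with y hy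
  by_cases hg : fderiv ℝ (exf q x) y = 0
  · by_cases h1 : y ∈ {y | a < exf q x y ∧ exf q x y < b}
    · rw [indicator_of_mem h1, hg]
      simp
    · rw [indicator_of_notMem h1]
      exact zero_le
  · have h1 := (exf_grad hK.continuous hg).1
    by_cases h2 : y ∈ {y | a < exf q x y ∧ exf q x y < b}
    · have h3 : y ∈ {y | a < q y ∧ q y < b} := by
        have h4 : a < exf q x y ∧ exf q x y < b := h2
        rw [h1] at h4
        exact h4
      rw [indicator_of_mem h2, indicator_of_mem h3]
      exact mul_le_mul_right (ENNReal.ofReal_le_ofReal (exf_fd hK.continuous x hy)) _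
    · rw [indicator_of_notMem h2]
      exact zero_le

/-- two extractions at points which are separated above the level `t` -/
theorem exf_two {ρ : ℂ → ENNReal} (hρ : Measurable ρ) {q : ℂ → ℝ} {K : NNReal} (hK : LipschitzWith K q) {x x' : ℂ} {t : ℝ}
    (ht : 0 ≤ t) (h : ∀ s, t < s → x' ∉ connectedComponentIn {z | s < q z} x) {a b : ℝ} (hta : t ≤ a) :
    ell' ρ (exf q x) a b + ell' ρ (exf q x') a b ≤ ell' ρ q a b := by
  have hq := hK.continuous
  rw [ellp_ind (exf_lip hK x).continuous, ellp_ind (exf_lip hK x').continuous, ellp_ind hq,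
    ← lintegral_add_left ((meas_g hρ _).indicator (lev_meas (exf_lip hK x).continuous a b))]
  refine lintegral_mono_ae ?_
  filter_upwards [hK.ae_differentiableAt (μ := volume)] with y hy
  -- one extraction
  have one : ∀ z : ℂ, {y | a < exf q z y ∧ exf q z y < b}.indicator
      (fun y => ρ y * ENNReal.ofReal ‖fderiv ℝ (exf q z) y‖) y ≤
      {y | a < q y ∧ q y < b}.indicator (fun y => ρ y * ENNReal.ofReal ‖fderiv ℝ q y‖) y := by
    intro z
    by_cases hg : fderiv ℝ (exf q z) y = 0
    · by_cases h1 : y ∈ {y | a < exf q z y ∧ exf q z y < b}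
      · rw [indicator_of_mem h1, hg]
        simp
      · rw [indicator_of_notMem h1]
        exact zero_le
    · have h1 := (exf_grad hq hg).1
      by_cases h2 : y ∈ {y | a < exf q z y ∧ exf q z y < b}
      · have h3 : y ∈ {y | a < q y ∧ q y < b} := by
          have h4 : a < exf q z y ∧ exf q z y < b := h2
          rw [h1] at h4
          exact h4
        rw [indicator_of_mem h2, indicator_of_mem h3]
        exact mul_le_mul_right (ENNReal.ofReal_le_ofReal (exf_fd hq z hy)) _
      · rw [indicator_of_notMem h2]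
        exact zero_le
  -- one of the two terms is zero
  have zero : ∀ z : ℂ, {y | a < exf q z y ∧ exf q z y < b}.indicator
      (fun y => ρ y * ENNReal.ofReal ‖fderiv ℝ (exf q z) y‖) y ≠ 0 →
      a < q y ∧ ∀ s, 0 ≤ s → s < q y → y ∈ connectedComponentIn {z | s < q z} z := by
    intro z hz
    have h1 : y ∈ {y | a < exf q z y ∧ exf q z y < b} := by
      by_contra hcon
      exact hz (indicator_of_notMem hcon _)
    have h2 : fderiv ℝ (exf q z) y ≠ 0 := by
      intro h3
      apply hz
      rw [indicator_of_mem h1, h3]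
      simp
    have h3 := exf_grad hq h2
    refine ⟨?_, h3.2⟩
    have h4 : a < exf q z y ∧ exf q z y < b := h1
    rw [h3.1] at h4
    exact h4.1
  by_cases hz : {y | a < exf q x y ∧ exf q x y < b}.indicator
      (fun y => ρ y * ENNReal.ofReal ‖fderiv ℝ (exf q x) y‖) y = 0
  · rw [hz, zero_add]
    exact one x'
  · by_cases hz' : {y | a < exf q x' y ∧ exf q x' y < b}.indicator
        (fun y => ρ y * ENNReal.ofReal ‖fderiv ℝ (exf q x') y‖) y = 0
    · rw [hz', add_zero]
      exact one x
    · exfalso
      obtain ⟨h1, h2⟩ := zero x hz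
      obtain ⟨h1', h2'⟩ := zero x' hz'
      obtain ⟨s, hs1, hs2⟩ := exists_between h1
      have hs0 : 0 ≤ s := ht.trans (hta.trans hs1.le)
      have h3 := h2 s hs0 hs2
      have h3' := h2' s hs0 hs2
      refine h s (hta.trans_lt hs1) ?_
      rw [connectedComponentIn_eq h3, ← connectedComponentIn_eq h3']
      refine mem_connectedComponentIn ?_
      by_contra hcon
      rw [connectedComponentIn_eq_empty hcon] at h3'
      exact h3'

/-- the hole function -/
theorem exf_hole {ρ : ℂ → ENNReal} (hρ : Measurable ρ) {q : ℂ → ℝ} {K : NNReal} (hK : LipschitzWith K q)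
    (h0 : ∀ x, 0 ≤ q x) (x : ℂ) (t : ℝ) :
    ell ρ (fun y => max (min (exf q x y) t - q y) 0) + ell' ρ (exf q x) 0 t ≤ ell' ρ q 0 t := by
  have hq := hK.continuous
  have he := (exf_lip hK x).continuous
  obtain ⟨H, hH⟩ : ∃ H : ℂ → ℝ, H = fun y => max (min (exf q x y) t - q y) 0 := ⟨_, rfl⟩
  rw [← hH, ellp_ind he, ellp_ind hq]
  unfold ell
  rw [← lintegral_add_left (meas_g hρ _)]
  refine lintegral_mono_ae ?_
  filter_upwards [hK.ae_differentiableAt (μ := volume)] with y hy
  by_cases hc : q y < min (exf q x y) t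
  · -- near `y` the extraction is constant
    have h1 : q y < exf q x y := (lt_min_iff.1 hc).1
    have h2 : q y < t := (lt_min_iff.1 hc).2
    have h3 := exf_loc hq h1.ne'
    have h4 : fderiv ℝ (exf q x) y = 0 := fd_loc h3
    have h5 : H =ᶠ[𝓝 y] fun z => min (exf q x y) t - q z := by
      have h6 : ∀ᶠ z in 𝓝 y, q z < min (exf q x y) t := hq.continuousAt.eventually_lt continuousAt_const hc
      filter_upwards [h3, h6] with z hz1 hz2
      rw [hH]
      simp only [hz1]
      exact max_eq_left (by linarith)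
    have h6 : ‖fderiv ℝ H y‖ = ‖fderiv ℝ q y‖ := by
      rw [h5.fderiv_eq, fderiv_const_sub, norm_neg]
    have h7 : {y | 0 < exf q x y ∧ exf q x y < t}.indicator
        (fun y => ρ y * ENNReal.ofReal ‖fderiv ℝ (exf q x) y‖) y = 0 := by
      by_cases h8 : y ∈ {y | 0 < exf q x y ∧ exf q x y < t}
      · rw [indicator_of_mem h8, h4]
        simp
      · exact indicator_of_notMem h8 _
    rw [h7, add_zero, h6]
    rcases (h0 y).eq_or_lt with h8 | h8
    · have h9 : fderiv ℝ q y = 0 := by
        apply IsLocalMin.fderiv_eq_zero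
        exact Eventually.of_forall fun z => by rw [← h8]; exact h0 z
      rw [h9]
      simp
    · have h9 : y ∈ {y | 0 < q y ∧ q y < t} := ⟨h8, h2⟩
      rw [indicator_of_mem h9]
  · rw [not_lt] at hc
    have h1 : fderiv ℝ H y = 0 := by
      apply IsLocalMin.fderiv_eq_zero
      refine Eventually.of_forall fun z => ?_
      rw [hH]
      simp only
      rw [max_eq_right (by linarith)]
      exact le_max_right _ _
    rw [h1, norm_zero, ENNReal.ofReal_zero, mul_zero, zero_add]
    by_cases hg : fderiv ℝ (exf q x) y = 0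
    · by_cases h2 : y ∈ {y | 0 < exf q x y ∧ exf q x y < t}
      · rw [indicator_of_mem h2, hg]
        simp
      · rw [indicator_of_notMem h2]
        exact zero_le
    · have h3 := (exf_grad hq hg).1
      by_cases h2 : y ∈ {y | 0 < exf q x y ∧ exf q x y < t}
      · have h4 : y ∈ {y | 0 < q y ∧ q y < t} := by
          have h5 : 0 < exf q x y ∧ exf q x y < t := h2
          rw [h3] at h5
          exact h5
        rw [indicator_of_mem h2, indicator_of_mem h4]
        exact mul_le_mul_right (ENNReal.ofReal_le_ofReal (exf_fd hq x hy)) _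
      · rw [indicator_of_notMem h2]
        exact zero_le

end Pool.Agent.H81.RW
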