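import Pool.Agent.H81.RW.Smb

/-!
# ROB (MP_8f2e1c), smoothing, part 3: lower bounds level by level, the two inequalities

`hlow` (at `x`): every unimodal function with value `1` at `x`, positive only in the full set `V`, has length at least `m`. `low_gen`: the same for all Lipschitz functions, locally constant near `P`. `low_ul`: level by level.
`sm_one`: `q p = 1`, but `e p < 1` for the extraction `e` of `q` at `v`: then `(2 - e p) m ≤ ell ρ q` (above the level `e p` there are two disjoint extractions). `sm_zero`: `q p = 0`, `e p > 0`: then `(1 + e p) m ≤ ell ρ q` (the hole function).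
-/

set_option autoImplicit false

open Filter Topology Metric Set MeasureTheory

namespace Pool.Agent.H81.RW

open Pool.Agent.H56.TH

variable {P V : Set ℂ} {ρ : ℂ → ENNReal} {m : ℝ}

theorem trc_lip {w : ℂ → ℝ} {K : NNReal} (hK : LipschitzWith K w) {a b : ℝ} (hab : a < b) :
    LipschitzWith (K * (b - a)⁻¹.toNNReal) (trc a b w) := by
  have hb : 0 < b - a := sub_pos.2 hab
  refine LipschitzWith.of_dist_le_mul fun x y => ?_
  have h1 := hK.dist_le_mul x y
  rw [Real.dist_eq] at h1 ⊢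
  have h2 : |trc a b w x - trc a b w y| ≤ |(w x - a) / (b - a) - (w y - a) / (b - a)| := by
    refine (abs_max_sub_max_le_max _ _ _ _).trans ?_
    rw [sub_self, abs_zero, max_eq_right (abs_nonneg _)]
    refine (abs_min_sub_min_le_max _ _ _ _).trans ?_
    rw [sub_self, abs_zero, max_eq_right (abs_nonneg _)]
  have h3 : (w x - a) / (b - a) - (w y - a) / (b - a) = (w x - w y) * (b - a)⁻¹ := by
    rw [← sub_div, div_eq_mul_inv]
    ring
  rw [h3, abs_mul, abs_of_pos (inv_pos.2 hb)] at h2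
  have h4 : ((K * (b - a)⁻¹.toNNReal : NNReal) : ℝ) = K * (b - a)⁻¹ := by
    rw [NNReal.coe_mul, Real.coe_toNNReal _ (inv_pos.2 hb).le]
  rw [h4]
  calc |trc a b w x - trc a b w y| ≤ |w x - w y| * (b - a)⁻¹ := h2
    _ ≤ (K * dist x y) * (b - a)⁻¹ := mul_le_mul_of_nonneg_right h1 (inv_pos.2 hb).le
    _ = K * (b - a)⁻¹ * dist x y := by ring

theorem trc_ge (w : ℂ → ℝ) (a b : ℝ) (x : ℂ) : 0 ≤ trc a b w x := le_max_left _ _

theorem trc_le1 (w : ℂ → ℝ) (a b : ℝ) (x : ℂ) : trc a b w x ≤ 1 :=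
  max_le zero_le_one (min_le_left _ _)

theorem trc_pos' {w : ℂ → ℝ} {a b : ℝ} (hab : a < b) {x : ℂ} (h : 0 < trc a b w x) : a < w x := by
  by_contra hcon
  rw [trc_zero hab (not_lt.1 hcon)] at h
  exact lt_irrefl _ h

/-- the lower bound for unimodal functions with arbitrary values on `P` -/
theorem low_ul' (hP : IsCompact P) {x : ℂ}
    (hlow : ∀ w : ℂ → ℝ, UM P w → w x = 1 → (∀ y, 0 < w y → y ∈ V) → ENNReal.ofReal m ≤ ell ρ w)
    {w : ℂ → ℝ} (hw : UL P w) (hx : w x = 1) (hwV : ∀ y, 0 < w y → y ∈ V) : ENNReal.ofReal m ≤ ell ρ w := by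
  obtain ⟨a, b, ha, hab, hb, hum, hell⟩ := lev_um (ρ := ρ) hP hw one_pos
  refine (hlow _ hum (trc_one hab (by rw [hx]; exact hb)) fun y hy => hwV y (ha.trans_lt (trc_pos' hab hy))).trans ?_
  simpa using hell

/-- the lower bound level by level -/
theorem low_ul (hP : IsCompact P) {x : ℂ} (hm : 0 ≤ m)
    (hlow : ∀ w : ℂ → ℝ, UM P w → w x = 1 → (∀ y, 0 < w y → y ∈ V) → ENNReal.ofReal m ≤ ell ρ w)
    {w : ℂ → ℝ} (hw : UL P w) (hx : w x = 1) (hwV : ∀ y, 0 < w y → y ∈ V) {a b : ℝ} (ha : 0 ≤ a) (hb : b ≤ 1) :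
    ENNReal.ofReal ((b - a) * m) ≤ ell' ρ w a b := by
  rcases le_or_gt b a with h | hab
  · rw [ENNReal.ofReal_of_nonpos (mul_nonpos_of_nonpos_of_nonneg (by linarith) hm)]
    exact zero_le
  · have hba : 0 < b - a := sub_pos.2 hab
    have h1 := low_ul' hP hlow (ul_trc hw ha hab) (trc_one hab (by rw [hx]; exact hb))
      (fun y hy => hwV y (ha.trans_lt (trc_pos' hab hy)))
    have h2 := h1.trans (ell_trc (ρ := ρ) (ul_cont hw) hab)
    rw [ENNReal.ofReal_mul hba.le]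
    calc ENNReal.ofReal (b - a) * ENNReal.ofReal m
        ≤ ENNReal.ofReal (b - a) * (ENNReal.ofReal (b - a)⁻¹ * ell' ρ w a b) := mul_le_mul_right h2 _
      _ = ell' ρ w a b := by
          rw [← mul_assoc, ← ENNReal.ofReal_mul hba.le, mul_inv_cancel₀ hba.ne', ENNReal.ofReal_one, one_mul]

/-- the extraction is positive only in `V` -/
theorem exf_V {q : ℂ → ℝ} (hV : Full V) (hqV : ∀ y, 0 < q y → y ∈ V) (x : ℂ) {y : ℂ}
    (hy : 0 < exf q x y) : y ∈ V := by
  obtain ⟨t, ht, hty⟩ := (exf_gt le_rfl).1 hy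
  exact oc_sub hV (fun z (hz : t < q z) => hqV z (ht.trans hz)) hty

/-- the lower bound for arbitrary Lipschitz functions -/
theorem low_gen (hP : IsCompact P) (hV : Full V) {x : ℂ}
    (hlow : ∀ w : ℂ → ℝ, UM P w → w x = 1 → (∀ y, 0 < w y → y ∈ V) → ENNReal.ofReal m ≤ ell ρ w)
    {q : ℂ → ℝ} {K : NNReal} (hK : LipschitzWith K q) (h0 : ∀ y, 0 ≤ q y) (h1 : ∀ y, q y ≤ 1) (hs : HasCompactSupport q)
    (hl : ∀ y ∈ P, ∀ᶠ z in 𝓝 y, q z = q y) (hqV : ∀ y, 0 < q y → y ∈ V) (hx : q x = 1) : ENNReal.ofReal m ≤ ell ρ q := by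
  refine (low_ul' hP hlow (ul_exf hK h0 h1 hs hl x) (by rw [exf_self (h0 x), hx]) fun y hy => exf_V hV hqV x hy).trans ?_
  exact exf_ell hK x

variable {q : ℂ → ℝ} {K : NNReal} {v p : ℂ}

/-- first inequality -/
theorem sm_one (hρ : Measurable ρ) (hP : IsCompact P) (hV : Full V) (hm : 0 ≤ m)
    (hlv : ∀ w : ℂ → ℝ, UM P w → w v = 1 → (∀ y, 0 < w y → y ∈ V) → ENNReal.ofReal m ≤ ell ρ w)
    (hlp : ∀ w : ℂ → ℝ, UM P w → w p = 1 → (∀ y, 0 < w y → y ∈ V) → ENNReal.ofReal m ≤ ell ρ w)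
    (hK : LipschitzWith K q) (h0 : ∀ y, 0 ≤ q y) (h1 : ∀ y, q y ≤ 1) (hs : HasCompactSupport q)
    (hl : ∀ y ∈ P, ∀ᶠ z in 𝓝 y, q z = q y) (hqV : ∀ y, 0 < q y → y ∈ V) (hv : q v = 1) (hp : q p = 1)
    (he : exf q v p < 1) : ENNReal.ofReal ((2 - exf q v p) * m) ≤ ell ρ q := by
  obtain ⟨t, ht⟩ : ∃ t : ℝ, t = exf q v p := ⟨_, rfl⟩
  rw [← ht] at he ⊢
  have ht0 : 0 ≤ t := by rw [ht]; exact exf_nonneg v p
  have hev : exf q v v = 1 := by rw [exf_self (h0 v), hv]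
  have hep : exf q p p = 1 := by rw [exf_self (h0 p), hp]
  have uv := ul_exf hK h0 h1 hs hl v
  have up := ul_exf hK h0 h1 hs hl p
  have hsep : ∀ s, t < s → p ∉ connectedComponentIn {z | s < q z} v := by
    intro s hts hps
    obtain ⟨a, ha1, ha2⟩ := exists_between hts
    have h2 : a < exf q v p := (exf_gt (ht0.trans ha1.le)).2 ⟨s, ha2, sub_fill _ hps⟩
    rw [← ht] at h2
    exact absurd h2 (not_lt.2 ha1.le)
  have e1 := exf_two hρ hK ht0 hsep (a := t) (b := 1) le_rfl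
  have e2 : ENNReal.ofReal ((1 - t) * m) ≤ ell' ρ (exf q v) t 1 :=
    low_ul hP hm hlv uv hev (fun y hy => exf_V hV hqV v hy) ht0 le_rfl
  have e3 : ENNReal.ofReal ((1 - t) * m) ≤ ell' ρ (exf q p) t 1 :=
    low_ul hP hm hlp up hep (fun y hy => exf_V hV hqV p hy) ht0 le_rfl
  have e4 : ENNReal.ofReal ((t - 0) * m) ≤ ell' ρ (exf q v) 0 t :=
    low_ul hP hm hlv uv hev (fun y hy => exf_V hV hqV v hy) le_rfl he.le
  have e5 : ell' ρ (exf q v) 0 t ≤ ell' ρ q 0 t := exf_ellp hK v 0 t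
  have e6 : ell' ρ q 0 t + ell' ρ q t 1 ≤ ell ρ q := (ellp_add hK.continuous ht0 he.le).trans ellp_le
  calc ENNReal.ofReal ((2 - t) * m)
      = ENNReal.ofReal ((t - 0) * m) + (ENNReal.ofReal ((1 - t) * m) + ENNReal.ofReal ((1 - t) * m)) := by
        have h2 : 0 ≤ (1 - t) * m := mul_nonneg (by linarith) hm
        have h3 : 0 ≤ (t - 0) * m := mul_nonneg (by linarith) hm
        rw [← ENNReal.ofReal_add h2 h2, ← ENNReal.ofReal_add h3 (add_nonneg h2 h2)]
        congr 1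
        ring
    _ ≤ ell' ρ q 0 t + ell' ρ q t 1 := add_le_add (e4.trans e5) ((add_le_add e2 e3).trans e1)
    _ ≤ ell ρ q := e6

/-- second inequality -/
theorem sm_zero (hρ : Measurable ρ) (hP : IsCompact P) (hV : Full V) (hm : 0 ≤ m)
    (hlv : ∀ w : ℂ → ℝ, UM P w → w v = 1 → (∀ y, 0 < w y → y ∈ V) → ENNReal.ofReal m ≤ ell ρ w)
    (hlp : ∀ w : ℂ → ℝ, UM P w → w p = 1 → (∀ y, 0 < w y → y ∈ V) → ENNReal.ofReal m ≤ ell ρ w)
    (hK : LipschitzWith K q) (h0 : ∀ y, 0 ≤ q y) (h1 : ∀ y, q y ≤ 1) (hs : HasCompactSupport q)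
    (hl : ∀ y ∈ P, ∀ᶠ z in 𝓝 y, q z = q y) (hqV : ∀ y, 0 < q y → y ∈ V) (hv : q v = 1) (hp : q p = 0)
    (he : 0 < exf q v p) : ENNReal.ofReal ((1 + exf q v p) * m) ≤ ell ρ q := by
  obtain ⟨t, ht⟩ : ∃ t : ℝ, t = exf q v p := ⟨_, rfl⟩
  rw [← ht] at he ⊢
  have hev : exf q v v = 1 := by rw [exf_self (h0 v), hv]
  have uv := ul_exf hK h0 h1 hs hl v
  have ht1 : t ≤ 1 := by rw [ht]; exact uv.hi p
  have hKe := exf_lip hK v
  obtain ⟨H, hH⟩ : ∃ H : ℂ → ℝ, H = fun y => max (min (exf q v y) t - q y) 0 := ⟨_, rfl⟩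
  have hHl : LipschitzWith (K + K) H := by
    rw [hH]
    exact ((hKe.min_const t).sub hK).max_const 0
  have hHt : ∀ y, H y ≤ t := by
    intro y
    rw [hH]
    refine max_le ?_ he.le
    linarith [min_le_right (exf q v y) t, h0 y]
  have hHpos : ∀ y, 0 < H y → 0 < exf q v y := by
    intro y hy
    rw [hH] at hy
    rcases lt_max_iff.1 hy with h2 | h2
    · have h3 := min_le_left (exf q v y) t
      linarith [h0 y]
    · exact absurd h2 (lt_irrefl 0)
  have hH0 : ∀ y, 0 ≤ H y := fun y => by rw [hH]; exact le_max_right _ _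
  have hHs : HasCompactSupport H := by
    refine uv.cs.mono fun y hy => ?_
    exact (hHpos y ((hH0 y).lt_of_ne' hy)).ne'
  have hHp : H p = t := by
    rw [hH]
    simp only
    rw [← ht, min_self, hp, sub_zero]
    exact max_eq_left he.le
  have e0 : ENNReal.ofReal m ≤ ell ρ (trc 0 t H) := by
    refine low_gen hP hV hlp (trc_lip hHl he) (trc_ge H 0 t) (trc_le1 H 0 t) ?_ ?_ ?_ ?_
    · refine hHs.mono fun y hy => ?_
      intro h2
      exact hy (trc_zero he h2.le)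
    · intro y hy
      filter_upwards [uv.lc y hy, hl y hy] with z hz1 hz2
      simp only [trc, hH, hz1, hz2]
    · intro y hy
      exact exf_V hV hqV v (hHpos y (trc_pos' he hy))
    · exact trc_one he hHp.ge
  have e1 : ENNReal.ofReal (t * m) ≤ ell ρ H := by
    have h2 : ENNReal.ofReal m ≤ ENNReal.ofReal t⁻¹ * ell ρ H := by
      refine e0.trans ((ell_trc hHl.continuous he).trans ?_)
      rw [sub_zero]
      exact mul_le_mul_right ellp_le _
    rw [ENNReal.ofReal_mul he.le]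
    calc ENNReal.ofReal t * ENNReal.ofReal m ≤ ENNReal.ofReal t * (ENNReal.ofReal t⁻¹ * ell ρ H) := mul_le_mul_right h2 _
      _ = ell ρ H := by
          rw [← mul_assoc, ← ENNReal.ofReal_mul he.le, mul_inv_cancel₀ he.ne', ENNReal.ofReal_one, one_mul]
  have e2 : ell ρ H + ell' ρ (exf q v) 0 t ≤ ell' ρ q 0 t := by
    rw [hH]
    exact exf_hole hρ hK h0 v t
  have e3 : ENNReal.ofReal ((t - 0) * m) ≤ ell' ρ (exf q v) 0 t :=
    low_ul hP hm hlv uv hev (fun y hy => exf_V hV hqV v hy) le_rfl ht1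
  have e4 : ENNReal.ofReal ((1 - t) * m) ≤ ell' ρ (exf q v) t 1 :=
    low_ul hP hm hlv uv hev (fun y hy => exf_V hV hqV v hy) he.le le_rfl
  have e5 : ell' ρ (exf q v) t 1 ≤ ell' ρ q t 1 := exf_ellp hK v t 1
  have e6 : ell' ρ q 0 t + ell' ρ q t 1 ≤ ell ρ q := (ellp_add hK.continuous he.le ht1).trans ellp_le
  calc ENNReal.ofReal ((1 + t) * m)
      = (ENNReal.ofReal (t * m) + ENNReal.ofReal ((t - 0) * m)) + ENNReal.ofReal ((1 - t) * m) := by
        have h2 : 0 ≤ (1 - t) * m := mul_nonneg (by linarith) hm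
        have h3 : 0 ≤ t * m := mul_nonneg he.le hm
        have h4 : 0 ≤ (t - 0) * m := by rw [sub_zero]; exact h3
        rw [← ENNReal.ofReal_add h3 h4, ← ENNReal.ofReal_add (add_nonneg h3 h4) h2]
        congr 1
        ring
    _ ≤ ell' ρ q 0 t + ell' ρ q t 1 := add_le_add ((add_le_add e1 e3).trans e2) (e4.trans e5)
    _ ≤ ell ρ q := e6

end Pool.Agent.H81.RW
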