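import Pool.Agent.H81.RW.Sma
import Pool.Agent.H81.RW.Smc

/-!
# ROB (MP_8f2e1c), smoothing, part 4: THE SMOOTHING THEOREM (think 1859, (P1))

A near minimal unimodal function `u` at `v` can be replaced by a near minimal one `u₂` with the same content, Lipschitz with constant `6 / s`: truncation to the levels `η, 1 - η`, mean over discs of radius `s`, extraction at `v`,
truncation to the levels `σ, 1 - σ`. Hypotheses: all unimodal functions with value `1` at some point of `P`, positive only in the full set `V`, have length at least `m`; the truncation of `u` is constant on the discs `ball p d`, `p ∈ P`,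
`s < d`; `ρ` varies at most by the factor `c` on discs of radius `s` around the points where the gradient of the truncation is not `0`; `ell ρ u ≤ (1 + τ) m`, `c (1 + 2 τ) < 1 + σ`.
-/

set_option autoImplicit false

open Filter Topology Metric Set MeasureTheory

namespace Pool.Agent.H81.RW

open Pool.Agent.H56.TH

variable {P V : Set ℂ} {ρ : ℂ → ENNReal} {m : ℝ}

/-- truncation: the other levels cost at least `m` per level -/
theorem low_trc (hP : IsCompact P) {x : ℂ} (hm : 0 ≤ m)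
    (hlow : ∀ w : ℂ → ℝ, UM P w → w x = 1 → (∀ y, 0 < w y → y ∈ V) → ENNReal.ofReal m ≤ ell ρ w)
    {w : ℂ → ℝ} (hw : UL P w) (hx : w x = 1) (hwV : ∀ y, 0 < w y → y ∈ V) {η : ℝ} (h0 : 0 ≤ η) (h1 : η ≤ 1 / 4)
    {τ : ℝ} (hτ : 0 ≤ τ) (hell : ell ρ w ≤ ENNReal.ofReal ((1 + τ) * m)) :
    ell ρ (trc η (1 - η) w) ≤ ENNReal.ofReal ((1 + 2 * τ) * m) := by
  have hlt : η < 1 - η := by linarith
  have e1 : ENNReal.ofReal ((η - 0) * m) ≤ ell' ρ w 0 η := low_ul hP hm hlow hw hx hwV le_rfl (by linarith)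
  have e2 : ENNReal.ofReal ((1 - (1 - η)) * m) ≤ ell' ρ w (1 - η) 1 :=
    low_ul hP hm hlow hw hx hwV (by linarith) le_rfl
  have e3 := ellp_add (ρ := ρ) (ul_cont hw) h0 hlt.le
  have e4 := ellp_add (ρ := ρ) (ul_cont hw) (by linarith : (0 : ℝ) ≤ 1 - η) (by linarith : 1 - η ≤ 1)
  have e5 : ell' ρ w 0 η + ell' ρ w η (1 - η) + ell' ρ w (1 - η) 1 ≤ ENNReal.ofReal ((1 + τ) * m) :=
    ((add_le_add e3 le_rfl).trans e4).trans (ellp_le.trans hell)
  have e6 : ENNReal.ofReal ((η - 0) * m) + ell' ρ w η (1 - η) + ENNReal.ofReal ((1 - (1 - η)) * m) ≤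
      ENNReal.ofReal ((1 + τ) * m) := (add_le_add (add_le_add e1 le_rfl) e2).trans e5
  have hfin : ell' ρ w η (1 - η) ≠ ⊤ := by
    intro h2
    rw [h2] at e6
    simp at e6
  have e7 : (ell' ρ w η (1 - η)).toReal ≤ (1 + τ) * m - 2 * η * m := by
    have h2 := ENNReal.toReal_mono ENNReal.ofReal_ne_top e6
    rw [ENNReal.toReal_add (ENNReal.add_ne_top.2 ⟨ENNReal.ofReal_ne_top, hfin⟩) ENNReal.ofReal_ne_top,
      ENNReal.toReal_add ENNReal.ofReal_ne_top hfin, ENNReal.toReal_ofReal (mul_nonneg (by linarith) hm),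
      ENNReal.toReal_ofReal (mul_nonneg (by linarith) hm), ENNReal.toReal_ofReal (mul_nonneg (by linarith) hm)] at h2
    linarith
  refine (ell_trc (ul_cont hw) hlt).trans ?_
  rw [← ENNReal.ofReal_toReal hfin, ← ENNReal.ofReal_mul (inv_nonneg.2 (by linarith))]
  refine ENNReal.ofReal_le_ofReal ?_
  have hpos : 0 < 1 - η - η := by linarith
  rw [inv_mul_le_iff₀ hpos]
  refine e7.trans ?_
  have h3 : (1 - η - η) * ((1 + 2 * τ) * m) - ((1 + τ) * m - 2 * η * m) = τ * m * (1 - 4 * η) := by ring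
  have h4 : 0 ≤ τ * m * (1 - 4 * η) := mul_nonneg (mul_nonneg hτ hm) (by linarith)
  linarith

/-- THE SMOOTHING THEOREM -/
theorem smo (hρ : Measurable ρ) (hP : IsCompact P) (hV : Full V) (hm : 0 < m)
    (hlow : ∀ x ∈ P, ∀ w : ℂ → ℝ, UM P w → w x = 1 → (∀ y, 0 < w y → y ∈ V) → ENNReal.ofReal m ≤ ell ρ w)
    {v : ℂ} (hv : v ∈ P) {u : ℂ → ℝ} (hu : UM P u) (huv : u v = 1) {η σ τ c s d : ℝ} (hη : 0 ≤ η) (hη4 : η ≤ 1 / 4)
    (hσ : 0 < σ) (hσ4 : σ ≤ 1 / 4) (hτ : 0 ≤ τ) (hc : 1 ≤ c) (hcσ : c * (1 + 2 * τ) < 1 + σ) (hs : 0 < s) (hsd : s < d)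
    (huV : ∀ y z, 0 < u y → ‖z‖ < s → y + z ∈ V) (hell : ell ρ u ≤ ENNReal.ofReal ((1 + τ) * m))
    (hd : ∀ p ∈ P, ∀ y ∈ ball p d, trc η (1 - η) u y = u p)
    (hρs : ∀ x y : ℂ, fderiv ℝ (trc η (1 - η) u) x ≠ 0 → ‖y‖ < s → ρ (x + y) ≤ ENNReal.ofReal c * ρ x) :
    ∃ u₂ : ℂ → ℝ, UM P u₂ ∧ u₂ v = 1 ∧ (∀ p ∈ P, u₂ p = u p) ∧ LipschitzWith (6 / s).toNNReal u₂ ∧
      (∀ y, 0 < u₂ y → y ∈ V) ∧
      ell ρ u₂ ≤ ENNReal.ofReal ((1 + 2 * (c * (1 + 2 * τ) - 1)) * m) := by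
  have huu := ul_um hu
  have hlt : η < 1 - η := by linarith
  have huVV : ∀ y, 0 < u y → y ∈ V := fun y hy => by
    have := huV y 0 hy (by rw [norm_zero]; exact hs)
    rwa [add_zero] at this
  -- the truncation
  obtain ⟨w, hw⟩ : ∃ w : ℂ → ℝ, w = trc η (1 - η) u := ⟨_, rfl⟩
  rw [← hw] at hd hρs
  have hwu : UL P w := by rw [hw]; exact ul_trc huu hη hlt
  obtain ⟨K, hK⟩ := hwu.lip
  have hw1 : ell ρ w ≤ ENNReal.ofReal ((1 + 2 * τ) * m) := by
    rw [hw]
    exact low_trc hP hm.le (hlow v hv) huu huv huVV hη hη4 hτ hell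
  -- the mean
  obtain ⟨q, hq⟩ : ∃ q : ℂ → ℝ, q = avg s w := ⟨_, rfl⟩
  have hqK : LipschitzWith (3 / s).toNNReal q := by
    rw [hq]; exact avg_lip hs hK.continuous.measurable hwu.lo hwu.hi
  have hq0 : ∀ y, 0 ≤ q y := fun y => by rw [hq]; exact avg_nonneg hwu.lo y
  have hq1 : ∀ y, q y ≤ 1 := fun y => by rw [hq]; exact avg_le_one hs hK.continuous.measurable hwu.lo hwu.hi y
  have hqs : HasCompactSupport q := by rw [hq]; exact avg_cs hwu.cs
  have hqP : ∀ p ∈ P, ∀ y ∈ ball p (d - s), q y = u p := by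
    intro p hp y hy
    rw [hq]
    refine avg_const hs fun z hz => hd p hp _ ?_
    rw [mem_ball, dist_eq_norm] at hy ⊢
    calc ‖y + z - p‖ = ‖(y - p) + z‖ := by ring_nf
      _ ≤ ‖y - p‖ + ‖z‖ := norm_add_le _ _
      _ < d := by linarith
  have hds : 0 < d - s := by linarith
  have hqp : ∀ p ∈ P, q p = u p := fun p hp => hqP p hp p (mem_ball_self hds)
  have hql : ∀ y ∈ P, ∀ᶠ z in 𝓝 y, q z = q y := by
    intro p hp
    filter_upwards [ball_mem_nhds p hds] with z hz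
    rw [hqP p hp z hz, hqp p hp]
  have hqV : ∀ y, 0 < q y → y ∈ V := by
    intro y hy
    rw [hq] at hy
    obtain ⟨z, hz, hwz⟩ := avg_supp hy.ne'
    have h1 : 0 < u (y + z) := by
      have h2 : 0 < w (y + z) := (hwu.lo _).lt_of_ne' hwz
      rw [hw] at h2
      exact hη.trans_lt (trc_pos' hlt h2)
    have h3 := huV (y + z) (-z) h1 (by rwa [norm_neg])
    rwa [add_neg_cancel_right] at h3
  have hqe : ell ρ q ≤ ENNReal.ofReal (c * (1 + 2 * τ) * m) := by
    rw [hq]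
    refine (avg_ell hρ hs hK hwu.lo hwu.hi hρs).trans ?_
    rw [mul_assoc, ENNReal.ofReal_mul (by linarith : (0 : ℝ) ≤ c)]
    exact mul_le_mul_right hw1 _
  have hqv : q v = 1 := by rw [hqp v hv, huv]
  -- the extraction
  obtain ⟨e, he⟩ : ∃ e : ℂ → ℝ, e = exf q v := ⟨_, rfl⟩
  have heu : UL P e := by rw [he]; exact ul_exf hqK hq0 hq1 hqs hql v
  have hev : e v = 1 := by rw [he, exf_self (hq0 v), hqv]
  have heV : ∀ y, 0 < e y → y ∈ V := fun y hy => exf_V hV hqV v (by rwa [he] at hy)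
  have hee : ell ρ e ≤ ENNReal.ofReal ((1 + (c * (1 + 2 * τ) - 1)) * m) := by
    rw [he]
    refine (exf_ell hqK v).trans (hqe.trans (le_of_eq ?_))
    congr 1
    ring
  have hbig : ∀ r : ℝ, ENNReal.ofReal (r * m) ≤ ell ρ q → r < 1 + σ := by
    intro r hr
    have h1 : r * m ≤ c * (1 + 2 * τ) * m := by
      have h2 : 0 ≤ c * (1 + 2 * τ) * m := by positivity
      exact (ENNReal.ofReal_le_ofReal_iff h2).1 (hr.trans hqe)
    have h3 : r ≤ c * (1 + 2 * τ) := le_of_mul_le_mul_right h1 hm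
    linarith
  have hval1 : ∀ p ∈ P, u p = 1 → 1 - σ ≤ e p := by
    intro p hp hup
    by_contra hcon
    rw [not_le] at hcon
    have h1 := sm_one hρ hP hV hm.le (hlow v hv) (hlow p hp) hqK hq0 hq1 hqs hql hqV hqv (by rw [hqp p hp, hup])
      (by rw [← he]; linarith)
    rw [← he] at h1
    have h2 := hbig _ h1
    linarith
  have hval0 : ∀ p ∈ P, u p = 0 → e p ≤ σ := by
    intro p hp hup
    by_contra hcon
    rw [not_le] at hcon
    have h1 := sm_zero hρ hP hV hm.le (hlow v hv) (hlow p hp) hqK hq0 hq1 hqs hql hqV hqv (by rw [hqp p hp, hup])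
      (by rw [← he]; linarith)
    rw [← he] at h1
    have h2 := hbig _ h1
    linarith
  have hlt' : σ < 1 - σ := by linarith
  have hK2 : LipschitzWith (6 / s).toNNReal (trc σ (1 - σ) e) := by
    have h1 : LipschitzWith (3 / s).toNNReal e := by rw [he]; exact exf_lip hqK v
    refine (trc_lip h1 hlt').weaken ?_
    rw [← Real.toNNReal_mul (by positivity)]
    refine Real.toNNReal_le_toNNReal ?_
    have h2 : (1 - σ - σ)⁻¹ ≤ 2 := by
      rw [inv_le_comm₀ (by linarith) (by norm_num)]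
      linarith
    calc 3 / s * (1 - σ - σ)⁻¹ ≤ 3 / s * 2 := mul_le_mul_of_nonneg_left h2 (by positivity)
      _ = 6 / s := by ring
  refine ⟨trc σ (1 - σ) e, um_trc heu hσ.le hlt' ?_, trc_one hlt' (by rw [hev]; linarith), ?_, hK2, ?_, ?_⟩
  · intro p hp
    rcases hu.va p hp with h1 | h1
    · exact Or.inl (hval0 p hp h1)
    · exact Or.inr (hval1 p hp h1)
  · intro p hp
    rcases hu.va p hp with h1 | h1
    · rw [h1, trc_zero hlt' (hval0 p hp h1)]
    · rw [h1, trc_one hlt' (hval1 p hp h1)]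
  · exact fun y hy => heV y (hσ.trans (trc_pos' hlt' hy))

  · exact low_trc hP hm.le (hlow v hv) heu hev heV hσ.le hσ4 (by nlinarith) hee

end Pool.Agent.H81.RW
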