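import Pool.Agent.H81.RW.Pbs
import Pool.Agent.H81.RW.Acd
import Pool.Agent.H81.RW.Near

/-!
# Module Stp (LW): THE NEXT EVENT

From `w` unimodal at `z_T` the univalent pull back goes down to the first of: time `0`; an event of type 1 (`z_(T-k-1)` in the chart `E` of `c` and the content at time `T - k` meets `{u = 1}`); an event of type 2 (a critical value `f a` in the domain at time `T - k`, not type 1). Up to there no point of the content hits `E ∩ {u ∘ f = 1}`.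
PROOF. `M = (L + 1) / τ`, `κ'` from `pbs` for `min κ δ` (replace `κ` by `min κ δ`; `PL` is monotone in `κ`), `gl`: level `a ∈ (0, τ]`. `pbs` (starting point `z`, level `a`, `p₀` in the content): `K`, `b`, `W`. Type 1 event at `k`: `k < T`, `f^[T - k - 1] z ∈ E`, `∃ x ∈ P ∩ W k, w (f^[k] x) = 1 ∧ u x = 1`. Let `k` be the first `k ≤ K` with a type 1 event, if there is one; otherwise `k = K`
(then `K = T`, or `K < T` and type 2 by `pbs`). NO HIT: let `x ∈ P ∩ W k`, `w (f^[k] x) = 1`, `j < k`, `Hit x j`: `f^[j] x ∈ E`, `u (f^[j + 1] x) = 1`. Let `k' = k - j - 1 < k`. By nestedness (`f` maps `W (i + 1)` into `W i`) `f^[j + 1] x ∈ W k'`, in `P`, and `w (f^[k'] (f^[j + 1] x)) = w (f^[k] x) = 1`. `f^[T - k' - 1] z = f^[j] (f^[T - k] z)` is within `κ` of `f^[j] x`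
(`PL.sm`), so it is in `E` by `hE` (with `x := f^[j] x`). So there is a type 1 event at `k' < k`: contradiction.
-/

set_option autoImplicit false

open Filter Topology Metric Set MeasureTheory

namespace Pool.Agent.H81.RW

open Pool.Agent.H56.TH

variable {f : ℂ → ℂ} {N J P Cr : Set ℂ} {η : ℂ → ℂ → ℂ} {r₀ δ : ℝ} {ρ : ℂ → ENNReal}

theorem step (h : WW f N J P Cr η r₀ δ ρ) {κ L τ : ℝ} (hκ : 0 < κ) (hL : 0 ≤ L) (hτ : 0 < τ) (hτ1 : τ < 1) :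
    ∃ κ' : ℝ, 0 < κ' ∧ ∀ (E : Set ℂ) (u w : ℂ → ℝ) (z : ℂ) (T : ℕ),
      (∀ x y, x ∈ E → u (f x) = 1 → ‖y - x‖ < κ → y ∈ E) → UM P w → z ∈ J →
      (∀ j < T, f^[j] z ∈ N ∧ infDist (f^[j] z) P < δ) → (∀ y, 0 < w y → ‖y - f^[T] z‖ < κ') → ell ρ w ≤ ENNReal.ofReal L →
      w (f^[T] z) = 1 → (∃ x ∈ P, w x = 1) →
      ∃ (a : ℝ) (k : ℕ) (b : ℝ) (W : Set ℂ), 0 < a ∧ a ≤ τ ∧ k ≤ T ∧ PL f N w a (min κ δ) (f^[T - k] z) k b W ∧
        (∀ x ∈ P, x ∈ W → w (f^[k] x) = 1 → ∀ j < k, ¬ Hit f E u x j) ∧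
        (k = T ∨ (k < T ∧ f^[T - k - 1] z ∈ E ∧ ∃ x ∈ P, x ∈ W ∧ w (f^[k] x) = 1 ∧ u x = 1) ∨
          (k < T ∧ ¬ (f^[T - k - 1] z ∈ E ∧ ∃ x ∈ P, x ∈ W ∧ w (f^[k] x) = 1 ∧ u x = 1) ∧
            ∃ c' ∈ Cr, f c' ∈ W ∧ f^[T - k - 1] z ∈ η c' '' ball 0 r₀)) := by
  have hδ := h.hδ
  obtain ⟨κ₀, hκ₀⟩ : ∃ κ₀ : ℝ, κ₀ = min κ δ := ⟨_, rfl⟩
  have hk0 : 0 < κ₀ := by rw [hκ₀]; exact lt_min hκ hδ
  have hk1 : κ₀ ≤ κ := by rw [hκ₀]; exact min_le_left _ _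
  have hk2 : κ₀ ≤ δ := by rw [hκ₀]; exact min_le_right _ _
  rw [← hκ₀]
  obtain ⟨M, hM⟩ : ∃ M : ℝ, M = (L + 1) / τ := ⟨_, rfl⟩
  have hM0 : 0 ≤ M := by rw [hM]; positivity
  have hMτ : L < M * τ := by
    rw [hM, div_mul_cancel₀ _ hτ.ne']
    linarith
  obtain ⟨κ', hκ', hpb⟩ := pbs h hk0 hk2 hM0
  refine ⟨κ', hκ', ?_⟩
  intro E u w z T hE hw hz hN hsm hell hwz hne
  obtain ⟨a, ha0, haτ, hg⟩ := gl (ul_cont (ul_um hw)) hell hL hτ hMτ
  obtain ⟨p₀, hp₀, hp1⟩ := hne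
  obtain ⟨K, b, W, hKT, hPL, hnest, hend⟩ := hpb w (f^[T] z) hw hsm a ha0 (haτ.trans hτ1.le) hg p₀ hp₀ hp1 T z hz hN
    (by rw [hwz]; exact haτ.trans hτ1.le)
  have nohit : ∀ k ≤ K, (∀ k' < k, ¬ (f^[T - k' - 1] z ∈ E ∧ ∃ x ∈ P, x ∈ W k' ∧ w (f^[k'] x) = 1 ∧ u x = 1)) →
      ∀ x ∈ P, x ∈ W k → w (f^[k] x) = 1 → ∀ j < k, ¬ Hit f E u x j := by
    intro k hk hev x hx hxW hwx j hj hH
    have hn : ∀ i ≤ k, f^[i] x ∈ W (k - i) := by
      intro i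
      induction i with
      | zero =>
        intro _
        exact hxW
      | succ i ih =>
        intro hi
        rw [Function.iterate_succ_apply']
        refine hnest (k - (i + 1)) (by omega) _ ?_
        rw [show k - (i + 1) + 1 = k - i by omega]
        exact ih (by omega)
    refine hev (k - (j + 1)) (by omega) ⟨?_, f^[j + 1] x, it_P h _ hx, hn (j + 1) (by omega), ?_, hH.2⟩
    · rw [show T - (k - (j + 1)) - 1 = j + (T - k) by omega, Function.iterate_add_apply]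
      refine hE (f^[j] x) _ hH.1 ?_ ?_
      · rw [← Function.iterate_succ_apply' f j x]
        exact hH.2
      · rw [norm_sub_rev]
        exact ((hPL k hk).sm j hj.le x hxW).trans_le hk1
    · rw [← Function.iterate_add_apply, show k - (j + 1) + (j + 1) = k by omega]
      exact hwx
  classical
  by_cases hex : ∃ k, k ≤ K ∧ k < T ∧ f^[T - k - 1] z ∈ E ∧ ∃ x ∈ P, x ∈ W k ∧ w (f^[k] x) = 1 ∧ u x = 1
  · obtain ⟨h1, h2, h3, h4⟩ := Nat.find_spec hex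
    refine ⟨a, Nat.find hex, b (Nat.find hex), W (Nat.find hex), ha0, haτ, h2.le, hPL _ h1, ?_, Or.inr (Or.inl ⟨h2, h3, h4⟩)⟩
    refine nohit _ h1 fun k' hk' hev => ?_
    exact Nat.find_min hex hk' ⟨hk'.le.trans h1, hk'.trans h2, hev⟩
  · refine ⟨a, K, b K, W K, ha0, haτ, hKT, hPL K le_rfl, ?_, ?_⟩
    · refine nohit K le_rfl fun k' hk' hev => ?_
      exact hex ⟨k', hk'.le, by omega, hev⟩
    · rcases Nat.lt_or_ge K T with h1 | h1
      · right; right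
        obtain ⟨c, hc, h2, h3, h4⟩ := hend h1
        refine ⟨h1, fun hev => hex ⟨K, le_rfl, h1, hev⟩, c, hc, h2, h3⟩
      · left
        omega

end Pool.Agent.H81.RW
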