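import Pool.Agent.H81.RW.Nlg
import Pool.Agent.H44.DN.KOE

/-!
# Module WIN: the lift of a window to the critical point

`lft`: the square root coordinate: `σ` odd, injective, `σ x ^ 2 = ψ (x ^ 2) - ψ 0`.
`winc`: the window `φ = η ∘ σ` at the critical point `η 0`: `f (φ x) = ψ (x ^ 2)`, of size comparable to `s` if `ψ` has size comparable to `s ^ 2`.
`win_col`: at each point of the circle of radius `θ₁` a disc of radius `s / C` in the image of the collar.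
-/

set_option autoImplicit false

open Filter Topology Metric Set

namespace Pool.Agent.H81.RW

open Pool.Agent.H80.AJ

/-- the lift of a window to the square root coordinate -/
theorem lft {ψ : ℂ → ℂ} (hψ : DifferentiableOn ℂ ψ (ball 0 1)) (hi : InjOn ψ (ball 0 1)) :
    ∃ σ : ℂ → ℂ, DifferentiableOn ℂ σ (ball 0 1) ∧ InjOn σ (ball 0 1) ∧ σ 0 = 0 ∧ (∀ x, σ (-x) = -σ x) ∧
      (∀ x ∈ ball (0 : ℂ) 1, σ x ^ 2 = ψ (x ^ 2) - ψ 0) ∧ ‖deriv σ 0‖ ^ 2 = ‖deriv ψ 0‖ := by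
  have h0m : (0 : ℂ) ∈ ball (0 : ℂ) 1 := mem_ball_self one_pos
  have hsq : ∀ x ∈ ball (0 : ℂ) 1, x ^ 2 ∈ ball (0 : ℂ) 1 := by
    intro x hx
    rw [mem_ball_zero_iff] at hx ⊢
    rw [norm_pow]
    exact pow_lt_one₀ (norm_nonneg x) hx two_ne_zero
  have hhd : DifferentiableOn ℂ (dslope ψ 0) (ball 0 1) :=
    (Complex.differentiableOn_dslope (isOpen_ball.mem_nhds h0m)).2 hψ
  have hh0 : ∀ x ∈ ball (0 : ℂ) 1, dslope ψ 0 x ≠ 0 := by
    intro x hx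
    rcases eq_or_ne x 0 with rfl | hx0
    · rw [dslope_same]
      exact norm_pos_iff.1 (deriv_ne one_pos hψ hi (mem_closedBall_self (by norm_num)))
    · intro h
      have h1 := sub_smul_dslope ψ 0 x
      rw [h, smul_zero] at h1
      exact hx0 (hi hx h0m (sub_eq_zero.1 h1.symm))
  obtain ⟨l, hl, hle⟩ := disc_log hhd hh0
  obtain ⟨k, hk⟩ : ∃ k : ℂ → ℂ, k = fun x => Complex.exp (l x / 2) := ⟨_, rfl⟩
  have hkd : DifferentiableOn ℂ k (ball 0 1) := by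
    rw [hk]
    exact (hl.div_const 2).cexp
  have hk2 : ∀ x ∈ ball (0 : ℂ) 1, k x ^ 2 = dslope ψ 0 x := by
    intro x hx
    rw [hk, ← hle x hx]
    show Complex.exp (l x / 2) ^ 2 = _
    rw [← Complex.exp_nat_mul]
    congr 1
    push_cast
    ring
  have hk0 : ∀ x, k x ≠ 0 := by
    intro x
    rw [hk]
    exact Complex.exp_ne_zero _
  refine ⟨fun x => x * k (x ^ 2), ?_, ?_, ?_, ?_, ?_, ?_⟩
  · refine differentiableOn_id.mul (hkd.comp ((differentiable_id.pow 2).differentiableOn) hsq)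
  · intro x hx y hy hxy
    have hxy' : x * k (x ^ 2) = y * k (y ^ 2) := hxy
    have h1 : ψ (x ^ 2) = ψ (y ^ 2) := by
      have h2 : ∀ z ∈ ball (0 : ℂ) 1, (z * k (z ^ 2)) ^ 2 = ψ (z ^ 2) - ψ 0 := by
        intro z hz
        rw [mul_pow, hk2 _ (hsq z hz)]
        have h3 := sub_smul_dslope ψ 0 (z ^ 2)
        rw [sub_zero, smul_eq_mul] at h3
        exact h3
      have h3 := h2 x hx
      rw [hxy', h2 y hy] at h3
      exact (sub_left_inj.1 h3).symm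
    have h2 := hi (hsq x hx) (hsq y hy) h1
    rcases sq_eq_sq_iff_eq_or_eq_neg.1 h2 with h3 | h3
    · exact h3
    · rw [h3, neg_sq] at hxy'
      have h4 : y * k (y ^ 2) = 0 := by linear_combination -(1 / 2 : ℂ) * hxy'
      have h5 : y = 0 := by
        rcases mul_eq_zero.1 h4 with h6 | h6
        · exact h6
        · exact absurd h6 (hk0 _)
      rw [h3, h5, neg_zero]
  · show (0 : ℂ) * k (0 ^ 2) = 0
    rw [zero_mul]
  · intro x
    show -x * k ((-x) ^ 2) = -(x * k (x ^ 2))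
    rw [neg_sq, neg_mul]
  · intro x hx
    show (x * k (x ^ 2)) ^ 2 = ψ (x ^ 2) - ψ 0
    rw [mul_pow, hk2 _ (hsq x hx)]
    have h3 := sub_smul_dslope ψ 0 (x ^ 2)
    rw [sub_zero, smul_eq_mul] at h3
    exact h3
  · have hkd0 : DifferentiableAt ℂ k ((0 : ℂ) ^ 2) := by
      rw [zero_pow two_ne_zero]
      exact hkd.differentiableAt (isOpen_ball.mem_nhds h0m)
    have h1 : HasDerivAt (fun x : ℂ => x ^ 2) (((2 : ℕ) : ℂ) * 0 ^ (2 - 1)) 0 := hasDerivAt_pow 2 (0 : ℂ)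
    have h2 : HasDerivAt (fun x : ℂ => k (x ^ 2)) (deriv k ((0 : ℂ) ^ 2) * (((2 : ℕ) : ℂ) * 0 ^ (2 - 1))) 0 :=
      HasDerivAt.comp (0 : ℂ) hkd0.hasDerivAt h1
    have h3 := (hasDerivAt_id (0 : ℂ)).mul h2
    have h4 : deriv (fun x : ℂ => x * k (x ^ 2)) 0 = k 0 := by
      have h5 : HasDerivAt (fun x : ℂ => x * k (x ^ 2)) _ 0 := h3
      rw [h5.deriv]
      simp
    rw [h4, ← norm_pow, hk2 0 h0m, dslope_same]

/-- the window at the critical point -/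
theorem winc {f η : ℂ → ℂ} {v : ℂ} {r₀ : ℝ} (hr₀ : 0 < r₀) (hη : DifferentiableOn ℂ η (ball 0 r₀))
    (hηi : InjOn η (ball 0 r₀)) (hηv : ∀ x ∈ ball (0 : ℂ) r₀, f (η x) = v + x ^ 2) {C : ℝ} (hC : 1 ≤ C) :
    ∃ C' r₁ : ℝ, 1 ≤ C' ∧ 0 < r₁ ∧ ∀ (ψ : ℂ → ℂ) (s : ℝ), 0 < s → s < r₁ → DifferentiableOn ℂ ψ (ball 0 1) →
      InjOn ψ (ball 0 1) → ψ 0 = v → (∀ x ∈ ball (0 : ℂ) 1, ‖ψ x - v‖ < C * s ^ 2) → s ^ 2 ≤ C * ‖deriv ψ 0‖ →
      ∃ φ : ℂ → ℂ, DifferentiableOn ℂ φ (ball 0 1) ∧ InjOn φ (ball 0 1) ∧ φ 0 = η 0 ∧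
        (∀ x ∈ ball (0 : ℂ) 1, φ x ∈ η '' ball 0 r₀ ∧ f (φ x) = ψ (x ^ 2) ∧ ‖φ x - η 0‖ < C' * s) ∧
        s ≤ C' * ‖deriv φ 0‖ := by
  have hC0 : 0 < C := by linarith
  have hη0 : 0 < ‖deriv η 0‖ := deriv_ne hr₀ hη hηi (mem_closedBall_self (by positivity))
  have hK := KK_pos
  obtain ⟨L, hLd⟩ : ∃ L : ℝ, L = KK * ‖deriv η 0‖ := ⟨_, rfl⟩
  have hL0 : 0 < L := by rw [hLd]; positivity
  obtain ⟨C', hC'⟩ : ∃ C' : ℝ, C' = 1 + L * C + C / ‖deriv η 0‖ := ⟨_, rfl⟩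
  have hq : 0 < C / ‖deriv η 0‖ := div_pos hC0 hη0
  refine ⟨C', r₀ / (2 * C), ?_, by positivity, ?_⟩
  · rw [hC']
    nlinarith [mul_pos hL0 hC0]
  intro ψ s hs hs1 hψ hi hψ0 hb hd
  obtain ⟨σ, hσ, hσi, hσ0, -, hσv, hσd⟩ := lft hψ hi
  have h0m : (0 : ℂ) ∈ ball (0 : ℂ) 1 := mem_ball_self one_pos
  have hsq : ∀ x ∈ ball (0 : ℂ) 1, x ^ 2 ∈ ball (0 : ℂ) 1 := by
    intro x hx
    rw [mem_ball_zero_iff] at hx ⊢
    rw [norm_pow]
    exact pow_lt_one₀ (norm_nonneg x) hx two_ne_zero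
  have hCs : C * s < r₀ / 2 := by
    rw [lt_div_iff₀ (by positivity)] at hs1
    linarith
  have hσb : ∀ x ∈ ball (0 : ℂ) 1, ‖σ x‖ < C * s := by
    intro x hx
    have h1 : ‖σ x‖ ^ 2 < C * s ^ 2 := by
      rw [← norm_pow, hσv x hx, hψ0]
      exact hb _ (hsq x hx)
    have h2 : C * s ^ 2 ≤ (C * s) ^ 2 := by
      rw [mul_pow]
      exact mul_le_mul_of_nonneg_right (by nlinarith) (by positivity)
    exact lt_of_pow_lt_pow_left₀ 2 (by positivity) (lt_of_lt_of_le h1 h2)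
  have hσm : MapsTo σ (ball 0 1) (ball 0 r₀) := by
    intro x hx
    rw [mem_ball_zero_iff]
    linarith [hσb x hx]
  refine ⟨fun x => η (σ x), hη.comp hσ hσm, ?_, ?_, ?_, ?_⟩
  · intro x hx y hy hxy
    exact hσi hx hy (hηi (hσm hx) (hσm hy) hxy)
  · show η (σ 0) = η 0
    rw [hσ0]
  · intro x hx
    refine ⟨⟨σ x, hσm hx, rfl⟩, ?_, ?_⟩
    · show f (η (σ x)) = ψ (x ^ 2)
      rw [hηv _ (hσm hx), hσv x hx, hψ0]
      ring
    · show ‖η (σ x) - η 0‖ < C' * s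
      have h1 : σ x ∈ closedBall (0 : ℂ) (r₀ / 2) := by
        rw [mem_closedBall_zero_iff]
        linarith [hσb x hx]
      have h2 : (0 : ℂ) ∈ closedBall (0 : ℂ) (r₀ / 2) := mem_closedBall_self (by positivity)
      have h3 := distort_lip hr₀ hη hηi h1 h2 h2
      rw [sub_zero, ← hLd] at h3
      calc ‖η (σ x) - η 0‖ ≤ L * ‖σ x‖ := h3
        _ ≤ L * (C * s) := mul_le_mul_of_nonneg_left (hσb x hx).le hL0.le
        _ < C' * s := by
            rw [hC']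
            have h4 : 0 < C / ‖deriv η 0‖ * s := mul_pos hq hs
            nlinarith
  · have h1 : HasDerivAt σ (deriv σ 0) 0 := (hσ.differentiableAt (isOpen_ball.mem_nhds h0m)).hasDerivAt
    have h2 : HasDerivAt η (deriv η 0) (σ 0) := by
      rw [hσ0]
      exact (hη.differentiableAt (isOpen_ball.mem_nhds (mem_ball_self hr₀))).hasDerivAt
    have h3 : HasDerivAt (fun x => η (σ x)) (deriv η 0 * deriv σ 0) 0 := HasDerivAt.comp (0 : ℂ) h2 h1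
    rw [h3.deriv, norm_mul]
    have h4 : s ≤ C * ‖deriv σ 0‖ := by
      refine (pow_le_pow_iff_left₀ hs.le (by positivity) two_ne_zero).1 ?_
      rw [mul_pow, hσd]
      calc s ^ 2 ≤ C * ‖deriv ψ 0‖ := hd
        _ ≤ C ^ 2 * ‖deriv ψ 0‖ := mul_le_mul_of_nonneg_right (by nlinarith) (norm_nonneg _)
    calc s ≤ C * ‖deriv σ 0‖ := h4
      _ = C / ‖deriv η 0‖ * (‖deriv η 0‖ * ‖deriv σ 0‖) := by
          field_simp
      _ ≤ C' * (‖deriv η 0‖ * ‖deriv σ 0‖) := by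
          refine mul_le_mul_of_nonneg_right ?_ (by positivity)
          rw [hC']
          nlinarith [mul_pos hL0 hC0]

/-- discs in the collar -/
theorem win_col {θ θ₁ C : ℝ} (hθ : 0 < θ) (h1 : θ < θ₁) (h2 : θ₁ < 1) (hC : 1 ≤ C) : ∃ C' : ℝ, 1 ≤ C' ∧
    ∀ (φ : ℂ → ℂ) (s : ℝ), 0 < s → DifferentiableOn ℂ φ (ball 0 1) → InjOn φ (ball 0 1) → s ≤ C * ‖deriv φ 0‖ →
      ∀ y : ℂ, ‖y‖ = θ₁ → ball (φ y) (s / C') ⊆ φ '' {x | θ < ‖x‖ ∧ ‖x‖ < 1} := by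
  obtain ⟨K, N, hK, hk⟩ := Pool.Agent.H44.DN.koe
  obtain ⟨R, hR⟩ : ∃ R : ℝ, R = min (θ₁ - θ) (1 - θ₁) := ⟨_, rfl⟩
  have hR0 : 0 < R := by rw [hR]; exact lt_min (by linarith) (by linarith)
  have hR1 : R ≤ θ₁ - θ := hR ▸ min_le_left _ _
  have hR2 : R ≤ 1 - θ₁ := hR ▸ min_le_right _ _
  have hq : 0 < (1 - θ₁) ^ N := pow_pos (by linarith) _
  have hq1 : (1 - θ₁) ^ N ≤ 1 := pow_le_one₀ (by linarith) (by linarith)
  have hKC : 0 < K * C := by nlinarith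
  refine ⟨16 * (K * C) / (R * (1 - θ₁) ^ N), ?_, ?_⟩
  · rw [le_div_iff₀ (by positivity)]
    have h3 : R * (1 - θ₁) ^ N ≤ 1 * 1 := mul_le_mul (by linarith) hq1 hq.le zero_le_one
    nlinarith
  intro φ s hs hφ hi hd y hy
  have hsub : ball y R ⊆ {x : ℂ | θ < ‖x‖ ∧ ‖x‖ < 1} := by
    intro x hx
    rw [mem_ball, dist_eq_norm] at hx
    have h3 := norm_sub_norm_le y x
    have h4 := norm_sub_norm_le x y
    rw [norm_sub_rev] at h3
    constructor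
    · linarith
    · linarith
  have hsub' : ball y R ⊆ ball (0 : ℂ) 1 := fun x hx => mem_ball_zero_iff.2 (hsub hx).2
  refine Subset.trans ?_ (image_mono hsub)
  refine Subset.trans (ball_subset_ball ?_) (univ_cover hR0 (hφ.mono hsub') (hi.mono hsub'))
  have hy' : y ∈ closedBall (0 : ℂ) θ₁ := by rw [mem_closedBall_zero_iff, hy]
  obtain ⟨-, h3, -, -⟩ := hk φ 0 1 one_pos hφ hi θ₁ (by linarith) h2 y hy'
  rw [div_one] at h3
  rw [div_div_eq_mul_div, div_le_div_iff₀ (by positivity) (by norm_num)]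
  have h4 : s * (1 - θ₁) ^ N ≤ C * (K * ‖deriv φ y‖) := by
    calc s * (1 - θ₁) ^ N ≤ C * ‖deriv φ 0‖ * (1 - θ₁) ^ N := mul_le_mul_of_nonneg_right hd hq.le
      _ = C * (‖deriv φ 0‖ * (1 - θ₁) ^ N) := by ring
      _ ≤ C * (K * ‖deriv φ y‖) := mul_le_mul_of_nonneg_left h3 (by linarith)
  calc s * (R * (1 - θ₁) ^ N) * 16 = 16 * R * (s * (1 - θ₁) ^ N) := by ring
    _ ≤ 16 * R * (C * (K * ‖deriv φ y‖)) := mul_le_mul_of_nonneg_left h4 (by positivity)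
    _ = R * ‖deriv φ y‖ * (16 * (K * C)) := by ring

end Pool.Agent.H81.RW
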