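import Pool.Agent.H80.AJ.Distort
import Pool.Agent.H81.RW.Wkb

/-!
# Module Wkd (WALK): Koebe distortion along connected sets

`wkd`: `g` univalent on `O`, `G` connected in a disc of radius `A R`, `ball x R ⊆ O` for `x ∈ G`: the derivatives of `g` at the points of `G` are comparable and
`‖g x - g y‖ ≤ C' R ‖g' y‖`, `C' = C'(A)`. Chains of `wkb`, `distort`, `distort_lip`.
-/

set_option autoImplicit false

open Filter Topology Metric Set

namespace Pool.Agent.H81.RW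

open Pool.Agent.H80.AJ

private theorem koe_chain {g : ℂ → ℂ} {O : Set ℂ} (hg : DifferentiableOn ℂ g O) (hi : InjOn g O) {R : ℝ} (hR : 0 < R) (n : ℕ) {p : ℕ → ℂ}
    (pO : ∀ i ≤ n, ball (p i) R ⊆ O) (pd : ∀ i < n, dist (p i) (p (i + 1)) < R / 2) :
    ‖deriv g (p 0)‖ ≤ KK ^ n * ‖deriv g (p n)‖ ∧ ‖deriv g (p n)‖ ≤ KK ^ n * ‖deriv g (p 0)‖ ∧
      ‖g (p 0) - g (p n)‖ ≤ n * KK ^ n * (R * ‖deriv g (p n)‖) := by
  induction n with
  | zero => simp
  | succ n ih =>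
    obtain ⟨h1, h2, h3⟩ := ih (fun i hi => pO i (by omega)) (fun i hi => pd i (by omega))
    have hO := pO (n + 1) le_rfl
    have hd := pd n (Nat.lt_succ_self n)
    have hy : p n ∈ closedBall (p (n + 1)) (R / 2) := by
      rw [mem_closedBall]
      exact hd.le
    have hx : p (n + 1) ∈ closedBall (p (n + 1)) (R / 2) := mem_closedBall_self (by positivity)
    have d1 := distort hR (hg.mono hO) (hi.mono hO) hy hx
    have d2 := distort hR (hg.mono hO) (hi.mono hO) hx hy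
    have d3 := distort_lip hR (hg.mono hO) (hi.mono hO) hy hx hx
    have hK := one_le_KK
    have hK0 := KK_pos
    have hKn : 0 < KK ^ n := pow_pos hK0 n
    have hKn1 : 1 ≤ KK ^ n := one_le_pow₀ hK
    have hD := norm_nonneg (deriv g (p (n + 1)))
    refine ⟨?_, ?_, ?_⟩
    · calc ‖deriv g (p 0)‖ ≤ KK ^ n * ‖deriv g (p n)‖ := h1
        _ ≤ KK ^ n * (KK * ‖deriv g (p (n + 1))‖) := mul_le_mul_of_nonneg_left d1 hKn.le
        _ = KK ^ (n + 1) * ‖deriv g (p (n + 1))‖ := by ring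
    · calc ‖deriv g (p (n + 1))‖ ≤ KK * ‖deriv g (p n)‖ := d2
        _ ≤ KK * (KK ^ n * ‖deriv g (p 0)‖) := mul_le_mul_of_nonneg_left h2 hK0.le
        _ = KK ^ (n + 1) * ‖deriv g (p 0)‖ := by ring
    · have e1 : ‖g (p 0) - g (p (n + 1))‖ ≤ ‖g (p 0) - g (p n)‖ + ‖g (p n) - g (p (n + 1))‖ := norm_sub_le_norm_sub_add_norm_sub _ _ _
      have e2 : (n : ℝ) * KK ^ n * (R * ‖deriv g (p n)‖) ≤ n * KK ^ (n + 1) * (R * ‖deriv g (p (n + 1))‖) := by
        have h4 : R * ‖deriv g (p n)‖ ≤ R * (KK * ‖deriv g (p (n + 1))‖) := mul_le_mul_of_nonneg_left d1 hR.le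
        have h5 := mul_le_mul_of_nonneg_left h4 (show (0 : ℝ) ≤ n * KK ^ n by positivity)
        have e : (n : ℝ) * KK ^ n * (R * (KK * ‖deriv g (p (n + 1))‖)) = n * KK ^ (n + 1) * (R * ‖deriv g (p (n + 1))‖) := by ring
        rw [← e]
        exact h5
      have e3 : ‖g (p n) - g (p (n + 1))‖ ≤ KK ^ (n + 1) * (R * ‖deriv g (p (n + 1))‖) := by
        refine d3.trans ?_
        have h4 : ‖p n - p (n + 1)‖ ≤ R := by
          rw [← dist_eq_norm]
          linarith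
        have h5 : KK * ‖deriv g (p (n + 1))‖ * ‖p n - p (n + 1)‖ ≤ KK * ‖deriv g (p (n + 1))‖ * R :=
          mul_le_mul_of_nonneg_left h4 (mul_nonneg hK0.le hD)
        have h6 : KK * ‖deriv g (p (n + 1))‖ * R ≤ KK ^ n * (KK * ‖deriv g (p (n + 1))‖ * R) :=
          le_mul_of_one_le_left (mul_nonneg (mul_nonneg hK0.le hD) hR.le) hKn1
        have e : KK ^ n * (KK * ‖deriv g (p (n + 1))‖ * R) = KK ^ (n + 1) * (R * ‖deriv g (p (n + 1))‖) := by ring
        rw [← e]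
        exact h5.trans h6
      have e4 : ((n + 1 : ℕ) : ℝ) * KK ^ (n + 1) * (R * ‖deriv g (p (n + 1))‖) =
          n * KK ^ (n + 1) * (R * ‖deriv g (p (n + 1))‖) + KK ^ (n + 1) * (R * ‖deriv g (p (n + 1))‖) := by
        push_cast
        ring
      rw [e4]
      linarith

theorem wkd (A : ℝ) : ∃ C' : ℝ, 1 ≤ C' ∧ ∀ {g : ℂ → ℂ} {O G : Set ℂ} {R : ℝ} {c₀ : ℂ}, DifferentiableOn ℂ g O → InjOn g O →
    IsPreconnected G → 0 < R → G ⊆ closedBall c₀ (A * R) → (∀ x ∈ G, ball x R ⊆ O) → ∀ x ∈ G, ∀ y ∈ G,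
    ‖deriv g x‖ ≤ C' * ‖deriv g y‖ ∧ ‖g x - g y‖ ≤ C' * (R * ‖deriv g y‖) := by
  obtain ⟨M, hM⟩ := wkb (2 * A)
  have hK := one_le_KK
  have hK0 := KK_pos
  have hKM : 1 ≤ KK ^ M := one_le_pow₀ hK
  refine ⟨(M + 1) * KK ^ M, ?_, ?_⟩
  · have : (1 : ℝ) ≤ M + 1 := by
      have : (0 : ℝ) ≤ M := Nat.cast_nonneg M
      linarith
    nlinarith
  intro g O G R c₀ hg hi hGc hR hGb hGO x hx y hy
  obtain ⟨n, hn, p, p0, pn, pG, pd⟩ := hM hGc (show 0 < R / 2 by positivity) (by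
    have e : 2 * A * (R / 2) = A * R := by ring
    rw [e]
    exact hGb) x hx y hy
  obtain ⟨h1, -, h3⟩ := koe_chain hg hi hR n (fun i hi => hGO _ (pG i hi)) pd
  rw [p0, pn] at h1 h3
  have hKn : KK ^ n ≤ KK ^ M := pow_le_pow_right₀ hK hn
  have hKn0 : 0 < KK ^ n := pow_pos hK0 n
  have hnM : (n : ℝ) ≤ M := by exact_mod_cast hn
  have hn0 : (0 : ℝ) ≤ n := Nat.cast_nonneg n
  constructor
  · refine h1.trans (mul_le_mul_of_nonneg_right ?_ (norm_nonneg _))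
    nlinarith
  · refine h3.trans (mul_le_mul_of_nonneg_right ?_ (mul_nonneg hR.le (norm_nonneg _)))
    have h4 : (n : ℝ) * KK ^ n ≤ M * KK ^ M := mul_le_mul hnM hKn hKn0.le (hn0.trans hnM)
    nlinarith

end Pool.Agent.H81.RW
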